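import Pool.Agent.Lib.FW.SpecG

/-!
# FW, stage 2: reciprocity for unramified characters of odd prime order; definitions and interface

`K` is a number field inside `Ω = Om`. A CLASS CHARACTER of `K` is a function `a` on the primes of `K` with
values in `ZMod p` such that the induced homomorphism on fractional ideals kills the principal ideals. For
an unramified character `g` of `Gal(Ω/K)` the reciprocity law says that the values of `g` at the Frobenius
elements form a class character.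
-/

open scoped Pointwise nonZeroDivisors

noncomputable section

namespace Pool.Agent.FW

open Pool.Agent.MuZ NumberField IsDedekindDomain

/-- The valuation of `x ∈ K` at the prime `v` (an integer; `0` for `x = 0`). -/
def vl (K : Type) [Field K] [NumberField K] (v : HeightOneSpectrum (𝓞 K)) (x : K) : ℤ :=
  FractionalIdeal.count K v (FractionalIdeal.spanSingleton (𝓞 K)⁰ x)

/-- `a` is a class character of `K`: `∑ over v of v(x) a(v) = 0` for all `x ≠ 0` (a finite sum). -/
def ClCh (p : ℕ) (K : Type) [Field K] [NumberField K] (a : HeightOneSpectrum (𝓞 K) → ZMod p) : Prop :=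
  ∀ x : K, x ≠ 0 → ∑ᶠ v : HeightOneSpectrum (𝓞 K), (vl K v x : ZMod p) * a v = 0

/-- All inertia groups. -/
def Inr : Set (Subgroup Gal(Om/ℚ)) :=
  {Λ | ∃ P : Ideal ZZ, P.IsPrime ∧ P ≠ ⊥ ∧ Λ = P.inertia Gal(Om/ℚ)}

/-- `P` lies above the prime `v` of `K`. -/
def Ab (K : IntermediateField ℚ Om) (P : Ideal ZZ) (v : HeightOneSpectrum (𝓞 K)) : Prop :=
  P.IsPrime ∧ P ≠ ⊥ ∧ v.asIdeal = P.comap (iO K)

/-- `σ` is a Frobenius element at `P` over `K`. -/
def IsFr (K : IntermediateField ℚ Om) (P : Ideal ZZ) (σ : Gal(Om/ℚ)) : Prop :=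
  σ ∈ K.fixingSubgroup ∧ ∀ x : ZZ, σ • x - x ^ Nat.card (𝓞 K ⧸ P.comap (iO K)) ∈ P

/-- The character `g` of `Gal(Ω/K)` vanishes at the Frobenius elements of `v`: the prime `v` splits in the
field of `g`. -/
def Spl (p : ℕ) (K : IntermediateField ℚ Om) (g : Gal(Om/ℚ) → ZMod p)
    (v : HeightOneSpectrum (𝓞 K)) : Prop :=
  ∃ (P : Ideal ZZ) (σ : Gal(Om/ℚ)), Ab K P v ∧ IsFr K P σ ∧ g σ = 0

/-- `a` is given by the values of `g` at the Frobenius elements, at all primes which do not divide `m`. -/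
def IsArt (p : ℕ) (K : IntermediateField ℚ Om) (g : Gal(Om/ℚ) → ZMod p) (m : ℕ)
    (a : HeightOneSpectrum (𝓞 K) → ZMod p) : Prop :=
  ∀ (v : HeightOneSpectrum (𝓞 K)) (P : Ideal ZZ) (σ : Gal(Om/ℚ)), (m : 𝓞 K) ∉ v.asIdeal →
    Ab K P v → IsFr K P σ → a v = g σ

/-- **Interface R1 (norm index at least `p`).** A nonzero unramified character `g` gives a nonzero class
character which vanishes at the primes which split in the field of `g`. -/
def S_R1 : Prop :=
  ∀ (p : ℕ) [Fact p.Prime], p ≠ 2 → ∀ (K : IntermediateField ℚ Om) [NumberField K],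
    ∀ g ∈ VV p Inr K.fixingSubgroup, g ≠ 0 →
      ∃ a : HeightOneSpectrum (𝓞 K) → ZMod p, ClCh p K a ∧ a ≠ 0 ∧ ∀ v, Spl p K g v → a v = 0

/-- **Interface R2 (norm index at most `p`).** Two class characters which vanish at all primes, outside a
given integer `M`, which split in the field of the nonzero unramified character `g` are linearly
dependent. -/
def S_R2 : Prop :=
  ∀ (p : ℕ) [Fact p.Prime], ∀ (K : IntermediateField ℚ Om) [NumberField K],
    ∀ g ∈ VV p Inr K.fixingSubgroup, g ≠ 0 → ∀ (M : ℕ), M ≠ 0 →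
      ∀ a b : HeightOneSpectrum (𝓞 K) → ZMod p, ClCh p K a → ClCh p K b →
      (∀ v, (M : 𝓞 K) ∉ v.asIdeal → Spl p K g v → a v = 0) →
      (∀ v, (M : 𝓞 K) ∉ v.asIdeal → Spl p K g v → b v = 0) →
      ∃ c d : ZMod p, (c ≠ 0 ∨ d ≠ 0) ∧ ∀ v, c * a v + d * b v = 0

/-- **Interface R3 (cyclotomic characters).** Reciprocity outside `m` for an unramified character whose
field is contained in `K(μ_m)`. -/
def S_R3 : Prop :=
  ∀ (p : ℕ) [Fact p.Prime], p ≠ 2 → ∀ (K : IntermediateField ℚ Om) [NumberField K],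
    ∀ g ∈ VV p Inr K.fixingSubgroup, ∀ m : ℕ, 0 < m →
      (∀ σ ∈ K.fixingSubgroup, (∀ z : Om, z ^ m = 1 → σ z = z) → g σ = 0) →
      ∃ a : HeightOneSpectrum (𝓞 K) → ZMod p, ClCh p K a ∧ IsArt p K g m a

/-- **Interface R4 (Artin's crossing).** For a nonzero unramified character `g` of `Gal(Ω/K)` and a prime
`P` there are `E ≥ K` and `m`, prime to a given `M` and to `P`, such that the field of `g` over `E` is contained
in `E(μ_m)`, some Frobenius element at `P` over `K` fixes `E`, and `E` is fixed by all `σ ∈ Gal(Ω/K)` with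
`g σ = 1` which act on the `m`-th roots of unity by `z ↦ z ^ t`, for a certain `t`; and all pairs
`(g σ, action on μ_m)` occur, for all `m` prime to some `B`. -/
def S_R4 : Prop :=
  ∀ (p : ℕ) [Fact p.Prime], p ≠ 2 → ∀ (K : IntermediateField ℚ Om) [NumberField K],
    ∀ g ∈ VV p Inr K.fixingSubgroup, g ≠ 0 → ∃ B : ℕ, 0 < B ∧
      (∀ m t : ℕ, 0 < m → m.Coprime B → t.Coprime m →
        ∃ σ ∈ K.fixingSubgroup, g σ = 1 ∧ ∀ z : Om, z ^ m = 1 → σ z = z ^ t) ∧
      ∀ (P : Ideal ZZ), P.IsPrime → P ≠ ⊥ → ∀ M : ℕ, 0 < M →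
        ∃ (E : IntermediateField ℚ Om) (m t : ℕ), FiniteDimensional ℚ E ∧ K ≤ E ∧ 0 < m ∧
          m.Coprime B ∧ m.Coprime M ∧ t.Coprime m ∧ (m : ZZ) ∉ P ∧
          (∀ σ ∈ E.fixingSubgroup, (∀ z : Om, z ^ m = 1 → σ z = z) → g σ = 0) ∧
          (∃ σ ∈ E.fixingSubgroup, IsFr K P σ) ∧
          ∀ σ ∈ K.fixingSubgroup, g σ = 1 → (∀ z : Om, z ^ m = 1 → σ z = z ^ t) →
            σ ∈ E.fixingSubgroup

/-- **Reciprocity.** The values of a nonzero unramified character of odd prime order at the Frobenius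
elements form a nonzero class character. -/
def S_REC : Prop :=
  ∀ (p : ℕ) [Fact p.Prime], p ≠ 2 → ∀ (K : IntermediateField ℚ Om) [NumberField K],
    ∀ g ∈ VV p Inr K.fixingSubgroup, g ≠ 0 →
      ∃ a : HeightOneSpectrum (𝓞 K) → ZMod p, ClCh p K a ∧ a ≠ 0 ∧ IsArt p K g 1 a

/-- **Ferrero-Washington, minus part included.** Only finitely many characters of order `p` of `Gal(Ω/K_∞)`
which are unramified everywhere and trivial on the decomposition groups above `p`. -/
def S_FWM : Prop :=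
  ∀ (p f : ℕ) [Fact p.Prime], p ≠ 2 → 0 < f → ¬ p ∣ f → Finite (VV p (Loc p) (MM p f))

/-- `k` is an abelian extension of `ℚ` (contained in a cyclotomic field). -/
def Ab0 (k : IntermediateField ℚ Om) : Prop :=
  ∃ m : ℕ, 0 < m ∧ ∀ σ : Gal(Om/ℚ), (∀ z : Om, z ^ m = 1 → σ z = z) → σ ∈ k.fixingSubgroup

/-- **Ferrero-Washington for all abelian fields, `p` odd.** -/
def S_FWA : Prop :=
  ∀ (p : ℕ) [Fact p.Prime], p ≠ 2 → ∀ k : IntermediateField ℚ Om, FiniteDimensional ℚ k →
    Ab0 k → XFinGen p (cyc p k)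

end Pool.Agent.FW
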