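import Pool.Agent.Lib.FW.SpecG

/-!
# Part H: Hilbert 94 (an unramified cyclic extension of odd prime degree p forces p | h)

Architect helper97, after note 3337 of helper81. Proof: `K`, `L` number fields, `L/K` cyclic of degree `p`,
unramified, `p` does not divide `h_K`, `E = (𝓞 L)ˣ`, `s` a generator of the Galois group. Capitulation, Hilbert 90 and the
description of the invariant ideals give `ker N = (s - 1) E` on `E`; a pure group theoretic argument gives
`rank E ≤ p · rank E^s`; but `rank E = p (r + 1) - 1` and `rank E^s = r`: contradiction.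

RULES: module X: file `Pool/Agent/Lib/FW/H/X.lean` (first line `import Pool.Agent.Lib.FW.SpecH`, plus files named in the docstring),
`namespace Pool.Agent.FW`, final theorem `theorem tX (h1 : S_Y) .. : S_X` with the statements listed under Uses as hypotheses in this
order. Auxiliary declarations `private`, no `congr!`, below 60 s.
-/

open scoped Pointwise NumberField

noncomputable section

namespace Pool.Agent.FW

open Pool.Agent.MuZ

/-! ## Pure algebra -/

/-- **HCyc** (90 lines). Uses: nothing. Modulo `Φ = 1 + X + .. + X^(p-1)` the elements `p` and `(X - 1)^(p-1)` are multiples of each other.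
PROOF. (1) In `(ZMod p)[X]`: `(X - 1)^p = X^p - 1 = Φ (X - 1)` (`sub_pow_char`, `mul_geom_sum`), so `(X - 1)^(p-1) = Φ` there (cancel `X - 1`), hence
`(X - 1)^(p-1) = Φ + p V` with `V ∈ ℤ[X]` (`Polynomial.C_dvd_iff_map_cast_eq_zero`-type lemma: a polynomial which vanishes in `(ZMod p)[X]` is `p` times a
polynomial). (2) At `X = 1`: `0 = p + p V(1)`, `V(1) = -1`, `V = -1 + (X - 1) W` (`Polynomial.dvd_iff_isRoot`). Modulo `Φ`:
`(X - 1)^(p-1) ≡ - p (1 - (X-1) W)`. Multiply by `S = ∑_{i < p-1} ((X - 1) W)^i`: `p (1 - ((X-1) W)^(p-1)) ≡ - S (X - 1)^(p-1)`, so `p ≡ (p W^(p-1) - S) (X - 1)^(p-1)`. -/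
def S_HCyc : Prop :=
  ∀ p : ℕ, p.Prime → ∃ U V : Polynomial ℤ,
    (∑ i ∈ Finset.range p, (Polynomial.X : Polynomial ℤ) ^ i) ∣
      (Polynomial.C (p : ℤ) - U * (Polynomial.X - 1) ^ (p - 1)) ∧
    (∑ i ∈ Finset.range p, (Polynomial.X : Polynomial ℤ) ^ i) ∣
      ((Polynomial.X - 1) ^ (p - 1) - V * Polynomial.C (p : ℤ))

/-- **HQm** (130 lines). Uses: nothing. The quotient |coker|/|ker| is multiplicative.
PROOF. Let `B = range ψ`. `[A : φψA] = [A : φA] [φA : φB]` (`AddSubgroup.relIndex_mul_index`), `[φA : φB] = [A : B + ker φ]` (`φ⁻¹(φB) = B + ker φ`;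
`AddSubgroup.index_comap`, `AddSubgroup.comap_map_eq`, or: `relIndex` of `map`), `[A : B] = [A : B + ker φ] [B + ker φ : B]` and `[B + ker φ : B] = [ker φ : ker φ ⊓ B]`
(`AddSubgroup.relIndex_sup_right`-type lemma), `|ker φ| = [ker φ : ker φ ⊓ B] |ker φ ⊓ B|`, and `ψ` maps `ker (φψ)` onto `ker φ ⊓ B` with kernel `ker ψ`, so `|ker (φψ)| = |ker ψ| |ker φ ⊓ B|`. -/
def S_HQm : Prop :=
  ∀ (A : Type) [AddCommGroup A] (φ ψ : A →+ A), φ.range.FiniteIndex → ψ.range.FiniteIndex →
    Finite φ.ker → Finite ψ.ker →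
    (φ.comp ψ).range.FiniteIndex ∧ Finite (φ.comp ψ).ker ∧
    (φ.comp ψ).range.index * (Nat.card φ.ker * Nat.card ψ.ker) =
      φ.range.index * ψ.range.index * Nat.card (φ.comp ψ).ker

/-- **HQn** (100 lines). Uses: nothing. Multiplication by n on a finitely generated abelian group.
PROOF. `A ≃ (Fin r → ℤ) × T` with `T` finite (`Module.equiv_free_prod_directSum`, or `AddCommGroup.equiv_free_prod_directSum_zmod`), `r = finrank ℤ A` (the rank of a finite group
is 0: `Module.finrank_eq_zero_of_isTorsion`-type lemma). The index of `n ℤ^r` in `ℤ^r` is `n^r`, `n` is injective there, and `[T : nT] = |T[n]|` for the finite group `T`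
(`Nat.card T = Nat.card range * Nat.card ker`). -/
def S_HQn : Prop :=
  ∀ (A : Type) [AddCommGroup A] [Module.Finite ℤ A] (n : ℕ), 0 < n →
    (nsmulAddMonoidHom (α := A) n).range.FiniteIndex ∧ Finite (nsmulAddMonoidHom (α := A) n).ker ∧
    (nsmulAddMonoidHom (α := A) n).range.index =
      n ^ Module.finrank ℤ A * Nat.card (nsmulAddMonoidHom (α := A) n).ker

/-- **HLem** (150 lines). Uses: `S_HCyc`, `S_HQm`, `S_HQn`. The module over ℤ[ζ_p].
PROOF. For a polynomial `P ∈ ℤ[X]` let `P(s)` be the endomorphism `∑ a_i s^i` (`Polynomial.aeval s` in the ring `AddMonoid.End A`); `Φ(s) = 0`. So by HCyc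
`p = U(s) (s-1)^(p-1)` and `(s-1)^(p-1) = V(s) p` as endomorphisms (all commute): the ranges of `p` and of `(s-1)^(p-1)` are equal, and so are their kernels. `φ = s - 1`: its range contains the range of
`φ^(p-1)` (`p ≥ 2`), of finite index by HQn, its kernel is inside `ker φ^(p-1)`, finite. By induction on `n ≥ 1` with HQm: `[A : φ^n A] |ker φ|^n = [A : φA]^n |ker φ^n|`.
For `n = p - 1`: `p^rank |ker p| |ker φ|^(p-1) = [A : φA]^(p-1) |ker p|`. -/
def S_HLem : Prop :=
  ∀ (A : Type) [AddCommGroup A] [Module.Finite ℤ A] (p : ℕ) (s : A →+ A), p.Prime →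
    (∀ x : A, ∑ i ∈ Finset.range p, (s^[i]) x = 0) →
    (s - AddMonoidHom.id A).range.FiniteIndex ∧ Finite (s - AddMonoidHom.id A).ker ∧
    (s - AddMonoidHom.id A).range.index ^ (p - 1) =
      p ^ Module.finrank ℤ A * Nat.card (s - AddMonoidHom.id A).ker ^ (p - 1)

/-- **HRk** (200 lines). Uses: `S_HLem`, `S_HQn`. If `ker N = (s - 1) E` then `rank E ≤ p · rank E^s`.
PROOF. `N x = ∑_{i<p} s^i x`, `E0 = {x : s x = x}` (= `(s - id).ker`), `A = ker N`. `s N = N`, so `N : E → E0`; `N x = p x` for `x ∈ E0`. `A` is `s`-stable; by hypothesis `A = (s-1)E`.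
HLem for `A` (finitely generated: submodule over the noetherian ring `ℤ`; `s` restricted): with `φ = s - 1` on `A` and `ρ = finrank A`: `[A : φA]^(p-1) = p^ρ |ker φ|^(p-1)`. (1) `ker φ` on `A` is `A ⊓ E0 = {x ∈ E0 : p x = 0}`, isomorphic to
the kernel of `p` on `E0`. (2) `s - 1 : E → A` is surjective with kernel `E0`, the preimage of `φA = (s-1)A` is `A + E0`, so `[A : φA] = [E : A + E0]` (`AddSubgroup.index_comap_of_surjective`). (3) `N : E → N E` is surjective with
kernel `A`, the preimage of `N(E0) = p E0` is `A + E0`: `[E : A + E0] = [N E : p E0] ≤ [E0 : p E0] = p^r |E0[p]|` (HQn, `r = finrank E0`; `[N E : p E0]` divides `[E0 : pE0]`). So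
`p^ρ |E0[p]|^(p-1) ≤ (p^r |E0[p]|)^(p-1)`, `ρ ≤ (p-1) r` (`Nat.pow_le_pow_iff_right`; `|E0[p]| > 0` as it is finite). (4) `finrank E = finrank A + finrank (N E)` (`LinearMap.finrank_range_add_finrank_ker` over `ℤ` — or
`Submodule.finrank_quotient_add_finrank`) `≤ (p-1) r + r` (`N E ≤ E0`). -/
def S_HRk : Prop :=
  ∀ (E : Type) [AddCommGroup E] [Module.Finite ℤ E] (p : ℕ) (s : E →+ E), p.Prime →
    (∀ x : E, (s^[p]) x = x) →
    (∀ x : E, ∑ i ∈ Finset.range p, (s^[i]) x = 0 → ∃ y : E, x = s y - y) →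
    Module.finrank ℤ E ≤ p * Module.finrank ℤ (s - AddMonoidHom.id E).ker

/-! ## Units and places -/

/-- **HPl** (50 lines). Uses: nothing. The ranks of the unit groups.
PROOF. `NumberField.Units.finrank_eq`, `NumberField.Units.rank` = number of infinite places - 1, `IsUnramifiedAtInfinitePlaces_of_odd_finrank`,
`IsUnramifiedAtInfinitePlaces.card_infinitePlace`. -/
def S_HPl : Prop :=
  ∀ (K L : Type) [Field K] [NumberField K] [Field L] [NumberField L] [Algebra K L] [IsGalois K L],
    Odd (Module.finrank K L) →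
    Module.finrank ℤ (Additive (𝓞 L)ˣ) + 1 =
      Module.finrank K L * (Module.finrank ℤ (Additive (𝓞 K)ˣ) + 1)

/-- The action of an automorphism of L on the units. -/
def unMap {K L : Type} [Field K] [Field L] [Algebra K L] (s : Gal(L/K)) :
    Additive (𝓞 L)ˣ →+ Additive (𝓞 L)ˣ :=
  MonoidHom.toAdditive (Units.map (NumberField.RingOfIntegers.mapRingHom (s : L →+* L) : 𝓞 L →* 𝓞 L))

/-- **HFx** (90 lines). Uses: nothing. The units of L fixed by a generator are the units of K.
PROOF. The map `Units.map (algebraMap (𝓞 K) (𝓞 L))` (injective) has image `ker (s - 1)`: an element of `L` fixed by `s` is fixed by all powers, hence by the whole group, so it is in `K`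
(`IsGalois.mem_bot_iff_fixed`/`IsGalois.mem_range_algebraMap_iff_fixed`), integral, and its inverse too. A linear equivalence over `ℤ`; `LinearEquiv.finrank_eq`. -/
def S_HFx : Prop :=
  ∀ (K L : Type) [Field K] [NumberField K] [Field L] [NumberField L] [Algebra K L] [IsGalois K L]
    (s : Gal(L/K)), (∀ g : Gal(L/K), g ∈ Subgroup.zpowers s) →
    Module.finrank ℤ (unMap s - AddMonoidHom.id (Additive (𝓞 L)ˣ)).ker =
      Module.finrank ℤ (Additive (𝓞 K)ˣ)

/-! ## Ideals -/

/-- **HCap** (120 lines). Uses: nothing. No capitulation for ideals of order prime to the degree.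
PROOF. Let `n = [L:K]`, `h = h_K`, `J 𝓞 L = (α)`, `J^h = (c)` (`ClassGroup`: `pow_card_eq_one`, `ClassGroup.mk0_eq_one_iff`), `c ≠ 0`. Then `(α^h) = (c)` in `𝓞 L`, so `α^h = c u`, `u` a unit; take
norms (`Algebra.intNorm (𝓞 K) (𝓞 L)` or `RingOfIntegers.norm K`): `N(α)^h = c^n N(u)`, so `(N α)^h = (c)^n = (J^n)^h` as ideals of `𝓞 K`, hence `(N α) = J^n` (unique factorization: `pow_left_injective`-type lemma for ideals of
a Dedekind domain, e.g. `Ideal.pow_left_injective`, or divisibility `pow_dvd_pow_iff`). So the class `x` of `J` satisfies `x^n = 1` and `x^h = 1`, `gcd(n, h) = 1`, `x = 1`. -/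
def S_HCap : Prop :=
  ∀ (K L : Type) [Field K] [NumberField K] [Field L] [NumberField L] [Algebra K L] [IsGalois K L],
    (Module.finrank K L).Coprime (NumberField.classNumber K) →
    ∀ (J : Ideal (𝓞 K)) (α : 𝓞 L), α ≠ 0 →
      J.map (algebraMap (𝓞 K) (𝓞 L)) = Ideal.span {α} → ∃ c : 𝓞 K, J = Ideal.span {c}

/-- Every ideal of L which is invariant under the Galois group is extended from K. -/
def InvExt (K L : Type) [Field K] [Field L] [Algebra K L] : Prop :=
  ∀ I : Ideal (𝓞 L), I ≠ ⊥ →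
    (∀ s : Gal(L/K), I.map (NumberField.RingOfIntegers.mapRingHom (s : L →+* L)) = I) →
    ∃ J : Ideal (𝓞 K), J.map (algebraMap (𝓞 K) (𝓞 L)) = I

/-- **HUn** (130 lines). Uses: `S_HCap`. Units of norm 1 are in (s - 1) E.
PROOF. Let `u ∈ (𝓞 L)ˣ` with `∏_{i<p} s^i u = 1` (additive notation below), `p = [L:K] = |Gal(L/K)|`, so `N_{L/K} u = ∏_g g u = 1` (the `s^i`, `i < p`, are all elements: `Algebra.norm_eq_prod_automorphisms`). `IsCyclic Gal(L/K)` by the generator. By
Hilbert 90 (`exists_div_of_norm_eq_one`, or the integral form `exists_mul_galRestrict_of_norm_eq_one` with `A = 𝓞 K` or `ℤ`, `B = 𝓞 L`) there is `β ∈ 𝓞 L`, `β ≠ 0`, with `u · s β = β`. The ideal `(β)` satisfies `s(β) = (β)` as `u` is a unit, so it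
is invariant under all powers of `s`; by `InvExt` `(β) = J 𝓞 L`, by HCap `J = (c)`, so `β = c e` with `e` a unit of `𝓞 L`, and `u = β/s β = e/s e`; take `y = - e` (additively `u = e - s e = s(-e) - (-e)`). -/
def S_HUn : Prop :=
  ∀ (K L : Type) [Field K] [NumberField K] [Field L] [NumberField L] [Algebra K L] [IsGalois K L]
    (s : Gal(L/K)), (∀ g : Gal(L/K), g ∈ Subgroup.zpowers s) → InvExt K L →
    (Module.finrank K L).Coprime (NumberField.classNumber K) →
    ∀ x : Additive (𝓞 L)ˣ, ∑ i ∈ Finset.range (Module.finrank K L), ((unMap s)^[i]) x = 0 →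
      ∃ y : Additive (𝓞 L)ˣ, x = unMap s y - y

/-- **HAbs** (90 lines). Uses: `S_HRk`, `S_HPl`, `S_HFx`, `S_HUn`. The theorem for abstract number fields.
PROOF. `Gal(L/K)` has prime order `p`, so it is cyclic with generator `s` (`isCyclic_of_prime_card`, `IsGalois.card_aut_eq_finrank`), `s^p = 1`. Suppose `p ∤ h_K`, i.e. `p` and `h_K` are coprime. HRk with `E = Additive (𝓞 L)ˣ` (`Module.Finite ℤ`: Mathlib instance from Dirichlet's unit theorem), `unMap s`,
HUn: `rank E ≤ p rank(ker) = p r` (HFx), `r = finrank (Additive (𝓞 K)ˣ)`; HPl: `rank E + 1 = p (r + 1)`. So `p (r+1) - 1 ≤ p r`, `p ≤ 1`. -/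
def S_HAbs : Prop :=
  ∀ (K L : Type) [Field K] [NumberField K] [Field L] [NumberField L] [Algebra K L] [IsGalois K L],
    (Module.finrank K L).Prime → Module.finrank K L ≠ 2 → InvExt K L →
    Module.finrank K L ∣ NumberField.classNumber K

/-- Trivial inertia groups (elementary form). -/
def TrivIn (K L : Type) [Field K] [Field L] [Algebra K L] : Prop :=
  ∀ P : Ideal (𝓞 L), P.IsPrime → P ≠ ⊥ → ∀ s : Gal(L/K),
    (∀ x : 𝓞 L, NumberField.RingOfIntegers.mapRingHom (s : L →+* L) x - x ∈ P) → s = 1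

/-- **HInv** (180 lines). Uses: nothing. Trivial inertia implies that invariant ideals are extended.
PROOF. (1) Let `q ≠ ⊥` be a prime of `𝓞 K`. The inertia groups of the primes above `q` are trivial, so the ramification index is 1 (`Ideal.card_inertia_eq_ramificationIdxIn`, the residue fields are finite, so perfect) and
`q 𝓞 L` is the product of the distinct primes above it (`Ideal.map_algebraMap_eq_finset_prod_pow` with exponents 1), i.e. for every ideal `I` with `I ⊆ P` for all primes `P` above `q` one has `q 𝓞 L ∣ I` (`Finset.prod_primes_dvd`).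
(2) Induction on `absNorm I`: if `I = ⊤` take `J = ⊤`. Otherwise `I ⊆ P` for a prime `P` (maximal ideal, `≠ ⊥` as `I ≠ ⊥`), `q = P ∩ 𝓞 K ≠ ⊥`. Every prime `P'` above `q` is `s P` for some `s` (`Algebra.IsInvariant.exists_smul_of_under_eq` / `IsGaloisGroup`,
transitivity), so `I = s I ⊆ P'`. By (1) `I = (q 𝓞 L) I'`; `I'` is invariant (`q 𝓞 L` is invariant and cancellation), `≠ ⊥`, of smaller norm (`absNorm (q 𝓞 L) > 1`). So `I' = J' 𝓞 L` and `I = (q J') 𝓞 L` (`Ideal.map_mul`). -/
def S_HInv : Prop :=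
  ∀ (K L : Type) [Field K] [NumberField K] [Field L] [NumberField L] [Algebra K L] [IsGalois K L],
    TrivIn K L → InvExt K L

/-! ## From characters to fields -/

/-- **HExt** (200 lines). Uses: nothing. The extension of a character as an extension of number fields.
PROOF. `M / F` with `Gal(Om/M) = ker g`. `K = F`, `L = IntermediateField.extendScalars hFM : IntermediateField F Om` (as a type it is `M`). `L` is a number field (`M` is finite over `ℚ`: given). Galois: normal, because every `F`-embedding of `L` into `Om` extends to `σ ∈ Gal(Om/F)`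
(i.e. an element of `F.fixingSubgroup`), which maps `M` into itself; separable (char 0). The restriction `F.fixingSubgroup → Gal(L/F)` is surjective with kernel `M.fixingSubgroup`, and `g` induces an isomorphism of `F.fixingSubgroup/ker g` with `ZMod p` (`g ≠ 0`, `p` prime: surjective),
so `|Gal(L/F)| = p = finrank F L`. TrivIn: let `P0 ≠ ⊥` be a prime of `𝓞 L`, `s ∈ Gal(L/F)` with `s x - x ∈ P0` for all `x ∈ 𝓞 L`; let `P` be a prime of `ZZ` above `P0` (lying over, `𝓞 L → ZZ` is integral: `Ideal.exists_ideal_over_prime_of_isIntegral`), `P ≠ ⊥`, and `σ ∈ F.fixingSubgroup` a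
lift of `s`. By `S_Ine` (part G; `FW/SpecG.lean`), applied to `F ≤ M`, `P`, `σ`, there is `ρ ∈ P.inertia`, `ρ ∈ F.fixingSubgroup`, `ρ = σ` on `M`; `g ρ = 0` because `P.inertia ∈ Loc p`, so `ρ ∈ M.fixingSubgroup` and `s = 1`. -/
def S_HExt : Prop :=
  S_Ine → ∀ (p : ℕ) [Fact p.Prime] (F M : IntermediateField ℚ Om), F ≤ M → NumberField F → FiniteDimensional ℚ M →
    (∀ σ ∈ F.fixingSubgroup, ∀ x ∈ M, σ x ∈ M) →
    ∀ g ∈ VV p (Loc p) F.fixingSubgroup, g ≠ 0 →
    (∀ σ : Gal(Om/ℚ), σ ∈ M.fixingSubgroup ↔ σ ∈ F.fixingSubgroup ∧ g σ = 0) →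
    ∃ (L : Type) (_ : Field L) (_ : NumberField L) (_ : Algebra F L) (_ : IsGalois F L),
      Module.finrank F L = p ∧ TrivIn F L

/-- **H94** (60 lines). Uses: `S_HAbs`, `S_HInv`, `S_Ine`, `S_HExt`. Imports also `Pool.Agent.Lib.MuZ.Fld` (the theorem `S_Fld`). Part H.
PROOF. Suppose `g ≠ 0`. `S_Fld` (of `MuZ`) gives `M` with `Adm p F M` and `Gal(Om/M) = ker g`; `M ≤ F ⊔ E'` with `E'` finite, so `M` is finite over `ℚ`. HExt, HInv, HAbs: `p ∣ h_F`. -/
def S_H94' : Prop := S_HAbs → S_HInv → S_Ine → S_HExt → S_H94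

end Pool.Agent.FW
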