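import Pool.Agent.Lib.FW.SpecR5
import Pool.Agent.Lib.FW.SpecH
import Pool.Agent.Lib.MuZ.Tot

/-!
# FW, stage 2: common facts on Frobenius elements (used in R1 to R5)

`S_Lie`, `S_FrE`, `S_FrU` are in `SpecR5.lean`.

RULES: module X: file `Pool/Agent/Lib/FW/Fr/X.lean` (first line `import Pool.Agent.Lib.FW.SpecFr`, plus files named in the docstring),
`namespace Pool.Agent.FW`, final theorem `theorem tX (h1 : S_Y) .. : S_X` with the statements listed under Uses as hypotheses in this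
order. Auxiliary declarations `private`, no `congr!`, below 60 s.
-/

open scoped Pointwise nonZeroDivisors

noncomputable section

namespace Pool.Agent.FW

open Pool.Agent.MuZ NumberField IsDedekindDomain

/-- For `K ≤ M` inside `Ω` the field `M` as an algebra over `K`. Use it with
`letI := incA h`; then `𝓞 M` is an algebra over `𝓞 K`. -/
@[reducible] def incA {K M : IntermediateField ℚ Om} (h : K ≤ M) : Algebra K M :=
  (IntermediateField.inclusion h).toRingHom.toAlgebra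

theorem incA_coe {K M : IntermediateField ℚ Om} (h : K ≤ M) (x : K) :
    letI := incA h
    ((algebraMap K M x : M) : Om) = (x : Om) := rfl

theorem incA_iO {K M : IntermediateField ℚ Om} (h : K ≤ M) (x : 𝓞 K) :
    letI := incA h
    iO M (algebraMap (𝓞 K) (𝓞 M) x) = iO K x := rfl

/-- **FrM** (60 lines). Uses: nothing. Frobenius elements act on the roots of unity of order prime to `P` as the power `N P`.
PROOF. `q = Nat.card (𝓞 K ⧸ P.comap (iO K))`. `z` is an algebraic integer (`z ^ m = 1`, `m ≠ 0` because `m ∉ P`). `σ z - z ^ q ∈ P`, `(σ z) ^ m = 1 = (z ^ q) ^ m`. If `σ z ≠ z ^ q` let `w = σ z / z ^ q`, `w ^ m = 1`, `w ≠ 1`,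
`w - 1 ∈ P` (`z ^ q` is a unit of `ZZ`); `0 = 1 + w + .. + w ^ (m-1) ≡ m mod P`, contradiction. (Or follow `AlgHom.IsArithFrobAt.apply_of_pow_eq_one` of Mathlib and its proof.) -/
def S_FrM : Prop :=
  ∀ (K : IntermediateField ℚ Om) (P : Ideal ZZ), P.IsPrime → ∀ σ : Gal(Om/ℚ), IsFr K P σ →
    ∀ m : ℕ, (m : ZZ) ∉ P → ∀ z : Om, z ^ m = 1 →
      σ z = z ^ Nat.card (𝓞 K ⧸ P.comap (iO K))

/-- **FrC** (80 lines). Uses: nothing. A Frobenius element which fixes a larger field. (`P ∩ 𝓞 K` is written `P.comap (iO K)`.)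
PROOF. `κ = 𝓞 K ⧸ P.comap (iO K)` and `κ' = 𝓞 E ⧸ P.comap (iO E)` are finite fields (nonzero primes), `κ` embeds into `κ'` (`Ideal.quotientMap` for `algebraMap (𝓞 K) (𝓞 E)`, `incA`). Let `q = card κ`. For `x ∈ 𝓞 E`:
`x = σ x ≡ x ^ q mod P`, so all elements of the field `κ'` are roots of `X ^ q - X` (`q ≥ 2`), `card κ' ≤ q`, and `card κ' ≥ card κ = q`. So `card κ' = q` and `σ` is a Frobenius element over `E`. -/
def S_FrC : Prop :=
  ∀ (K E : IntermediateField ℚ Om) [NumberField K] [NumberField E], K ≤ E →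
    ∀ P : Ideal ZZ, P.IsPrime → P ≠ ⊥ →
    ∀ σ : Gal(Om/ℚ), IsFr K P σ → σ ∈ E.fixingSubgroup →
      Nat.card (𝓞 E ⧸ P.comap (iO E)) = Nat.card (𝓞 K ⧸ P.comap (iO K)) ∧ IsFr E P σ

/-- **FrG** (250 lines). Uses: `S_Ine` (of `SpecG.lean`; theorem `tIne` in `FW/G/Ine.lean`). The field of an unramified character as an abstract Galois extension.
PROOF. The field `M`: `W' = {σ ∈ K.fixingSubgroup : g σ = 0}` is a closed subgroup; `M` = its fixed field; exactly as in `MuZ/FldQ.lean`, `MuZ/Fld.lean` (`InfiniteGalois.fixingSubgroup_fixedField`). `K ≤ M`; `M ≤ K ⊔ E` where `E` is finite over `ℚ` with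
`E.fixingSubgroup ≤ O`, so `M` is finite over `ℚ`, `NumberField M`. `M` is stable under `K.fixingSubgroup` as `W'` is normal in it. The rest is the proof of `FW/H/HExt.lean` with `extendScalars hFM` replaced by `M` with `incA h` (or with
an isomorphism between the two): `IsScalarTower K M Om` holds by `rfl`; normal: every `K`-homomorphism `M → Om` extends to an automorphism of `Om/K`, which maps `M` to itself; degree `p`: `g` induces an injective homomorphism from `Gal(M/K)`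
(restriction of `σ ∈ Gal(Om/K)`) to `ZMod p`, onto as `g ≠ 0`; trivial inertia: `S_Ine`, and `g = 0` on `P.inertia ⊓ K.fixingSubgroup` (`Inr`). Lift: `s.liftNormal Om`, restricted to `ℚ`. -/
def S_FrG : Prop :=
  S_Ine → ∀ (p : ℕ) [Fact p.Prime] (K : IntermediateField ℚ Om) [NumberField K],
    ∀ g ∈ VV p Inr K.fixingSubgroup, g ≠ 0 →
    ∃ (M : IntermediateField ℚ Om) (h : K ≤ M), NumberField M ∧
      (∀ σ : Gal(Om/ℚ), σ ∈ M.fixingSubgroup ↔ σ ∈ K.fixingSubgroup ∧ g σ = 0) ∧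
      (∀ σ ∈ K.fixingSubgroup, ∀ x ∈ M, σ x ∈ M) ∧
      letI := incA h
      IsGalois K M ∧ Module.finrank K M = p ∧ TrivIn K M ∧
      ∀ s : Gal(M/K), ∃ σ ∈ K.fixingSubgroup, ∀ x : M, σ (x : Om) = ((s x : M) : Om)

/-- **FrS** (150 lines). Uses: `S_Lie`, `S_FrE`, `S_FrU`, `S_FrC`. Splitting in the field `M` of `g`.
PROOF. (`P.comap (iO K) = v.asIdeal`.) Let `σ`, `τ` be Frobenius elements at `P` over `K` and over `M` (`S_FrE`). (a) If `Spl p K g v` then `g σ = 0` by `S_FrU` (and `g σ'= 0` for the given Frobenius element), so `σ ∈ M.fixingSubgroup` and `S_FrC` gives equality.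
(b) If not, `g σ ≠ 0`. With `f` from `S_Lie` (3): `0 = g τ = f g σ` (`S_FrU`; `τ ∈ M.fixingSubgroup`) and `p ∣ f`. On the other hand `f ≤ p`: `card (𝓞 M ⧸ P.comap (iO M)) ≤ (card (𝓞 K ⧸ v)) ^ p`, because the prime `P.comap (iO M)` contains
`v 𝓞 M`, and `card (𝓞 M ⧸ v 𝓞 M) = (card (𝓞 K ⧸ v)) ^ [M : K]` (`Ideal.sum_ramification_inertia`: the inertia degree is at most `[M : K] = p`; or `Ideal.absNorm` of `map`); `card (𝓞 K ⧸ v) ≥ 2`. So `f = p`. -/
def S_FrS : Prop :=
  ∀ (p : ℕ) [Fact p.Prime] (K M : IntermediateField ℚ Om) [NumberField K] [NumberField M] (h : K ≤ M),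
    (letI := incA h
     Module.finrank K M = p) →
    ∀ g ∈ VV p Inr K.fixingSubgroup,
    (∀ σ : Gal(Om/ℚ), σ ∈ M.fixingSubgroup ↔ σ ∈ K.fixingSubgroup ∧ g σ = 0) →
    ∀ (v : HeightOneSpectrum (𝓞 K)) (w : HeightOneSpectrum (𝓞 M)) (P : Ideal ZZ), Ab K P v → Ab M P w →
      (Spl p K g v → Nat.card (𝓞 M ⧸ w.asIdeal) = Nat.card (𝓞 K ⧸ v.asIdeal)) ∧
      (¬ Spl p K g v → Nat.card (𝓞 M ⧸ w.asIdeal) = Nat.card (𝓞 K ⧸ v.asIdeal) ^ p)

/-- **FrI** (150 lines). Uses: `S_Lie`, `S_FrE`, `S_FrM`. Artin element of an ideal prime to `m`.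
PROOF. Induction on the ideal `I` (`UniqueFactorizationMonoid.induction_on_prime`, or `induction_on_coprime`, or strong induction on the norm: every `I ≠ ⊤` is `v J`). `I = ⊤`: `σ = 1`, `absNorm = 1`, all counts are `0`. `I = v J` with `v` prime, `J ≠ ⊥`: `m ∉ v` by hypothesis, and `J`
satisfies the hypothesis (`I ≤ J`). Let `P`, `σ_v` be from `S_Lie`, `S_FrE`, and `σ_J` by induction; `σ = σ_v σ_J`: on `μ_m`: `σ z = σ_v (z ^ N J) = z ^ (N v N J)` by `S_FrM` (`(m : ZZ) ∉ P` as `m ∉ v.asIdeal = P.comap (iO K)`; `N v = Nat.card (𝓞 K ⧸ v.asIdeal) = absNorm v.asIdeal`,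
`Ideal.absNorm_apply`, `Submodule.cardQuot_apply`). `g σ = g σ_v + g σ_J = a v + ∑ = ∑` because `count w (v J) = count w v + count w J` (`FractionalIdeal.count_mul`, `count_self`, `count_maximal_coprime`, `FractionalIdeal.coeIdeal_mul`); the supports are finite (`FractionalIdeal.finite_factors'`
or by the same induction). The characteristic function: `∑ᶠ w, (if w = v then 1 else 0) * a w = a v`. -/
def S_FrI : Prop :=
  ∀ (p : ℕ) [Fact p.Prime] (K : IntermediateField ℚ Om) [NumberField K],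
    ∀ g ∈ VV p Inr K.fixingSubgroup, ∀ m : ℕ, 0 < m →
    ∀ a : HeightOneSpectrum (𝓞 K) → ZMod p, IsArt p K g m a →
    ∀ I : Ideal (𝓞 K), I ≠ ⊥ → (∀ v : HeightOneSpectrum (𝓞 K), (m : 𝓞 K) ∈ v.asIdeal → ¬ I ≤ v.asIdeal) →
      ∃ σ ∈ K.fixingSubgroup, (∀ z : Om, z ^ m = 1 → σ z = z ^ Ideal.absNorm I) ∧
        g σ = ∑ᶠ v : HeightOneSpectrum (𝓞 K),
          ((FractionalIdeal.count K v (I : FractionalIdeal (𝓞 K)⁰ K) : ℤ) : ZMod p) * a v

end Pool.Agent.FW
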