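import Pool.Agent.Lib.FW.Defs
import Pool.Agent.Lib.MuZ.CSpec

/-!
# FW, part G: characters invariant under `γ`; Kummer theory for one field

General facts used in parts E and G: `S_Kum` (Kummer elements), `S_Ine` (lifting of inertia), `S_Rm`
(ramification of Kummer extensions), `S_KF` (a number field has only finitely many characters of order
`p` unramified outside `p`). Every `S_...` is a statement with a complete proof in its docstring, to be
proved in its own module; other statements are used only if they are named as hypotheses.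
-/

open scoped Pointwise nonZeroDivisors

noncomputable section

namespace Pool.Agent.FW

open Pool.Agent.MuZ NumberField

/-- The inclusion of the ring of integers of `L` into `ZZ`. -/
def iO (L : IntermediateField ℚ Om) : 𝓞 L →+* ZZ where
  toFun x := ⟨((x : L) : Om), by
    have h : IsIntegral ℤ (x : L) := x.2
    exact h.map (IsScalarTower.toAlgHom ℤ L Om)⟩
  map_one' := rfl
  map_mul' _ _ := rfl
  map_zero' := rfl
  map_add' _ _ := rfl

theorem iO_coe (L : IntermediateField ℚ Om) (x : 𝓞 L) : ((iO L x : ZZ) : Om) = ((x : L) : Om) := rfl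

/-- (150 lines) **Kummer elements.** `W` any subgroup of `Gal(Om/ℚ)` which fixes the `p`-th root of unity
`ζ`, `g` a continuous homomorphism `W → F_p`. There is `β ≠ 0` with `σ β = ζ ^ g(σ) β` for `σ ∈ W`.
PROOF. Let `O` be an open NORMAL subgroup of `Gal(Om/ℚ)` with `g = 0` on `W ∩ O` (an open subgroup contains
`E.fixingSubgroup` for a finite extension `E`, which may be replaced by its normal closure; or
`IsTopologicalGroup.exist_openNormalSubgroup_sub_clopen_nhds_of_one`), and let `E` be its fixed field, a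
finite Galois extension of `ℚ`, `E.fixingSubgroup = O`. Let `R ⊆ W` be a finite set of representatives of
the cosets `σ (W ∩ O)` of `W` (`O` has finite index). The restrictions to `E` of the elements of `R` are
pairwise different ring homomorphisms `E → Om` (if `σ`, `σ'` agree on `E` then `σ⁻¹ σ' ∈ W ∩ O`). They are
linearly independent over `Om` (`linearIndependent_monoidHom`), so there is `x ∈ E` with
`β = ∑ over σ ∈ R of ζ ^ (- g σ) σ x ≠ 0`. For `τ ∈ W`: `τ σ = σ' u`, `σ' ∈ R`, `u ∈ W ∩ O`, so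
`τ (σ x) = σ' x` and `g σ' = g τ + g σ`; `σ ↦ σ'` is a permutation of `R`; `τ ζ = ζ`. So
`τ β = ∑ ζ ^ (- g σ) σ' x = ζ ^ g(τ) ∑ ζ ^ (- g σ') σ' x = ζ ^ g(τ) β`. Here `ζ ^ c` for `c : ZMod p` means
`ζ ^ c.val`. -/
def S_Kum : Prop :=
  ∀ (p : ℕ) [Fact p.Prime] (W : Subgroup Gal(Om/ℚ)) (ζ : Om), IsPrimitiveRoot ζ p →
    (∀ σ ∈ W, σ ζ = ζ) → ∀ g ∈ VV p ∅ W,
    ∃ β : Om, β ≠ 0 ∧ ∀ σ ∈ W, σ β = ζ ^ (g σ).val * β

/-- (200 lines) **Lifting inertia.** `L ≤ L'` are number fields, `P` a nonzero prime of `ZZ`, `s` an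
automorphism of `Ω` which fixes `L`, maps `L'` to itself and acts trivially on the integers of `L'` modulo
`P`. There is `σ` in the inertia group of `P` which fixes `L` and agrees with `s` on `L'`.
PROOF. Let `H = L'.fixingSubgroup`, a closed subgroup of `Gal(Om/ℚ)`, hence profinite; it acts continuously
on the discrete ring `ZZ`, the invariants are `iO L' (𝓞 L')`. (i) `P` and `s • P` contain the same elements
of `𝓞 L'`: for `y ∈ 𝓞 L'`, `y ∈ s • P` iff `s⁻¹ y ∈ P`, and `s⁻¹ y ∈ 𝓞 L'` (`s L' = L'` because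
`s L' ≤ L'` and the degrees are equal), `s (s⁻¹ y) - s⁻¹ y ∈ P`, so iff `y ∈ P`. By
`Algebra.IsInvariant.exists_smul_of_under_eq_of_profinite` there is `τ ∈ H` with `τ • s • P = P`. Let
`σ₁ = τ s`: it fixes `P`, agrees with `s` on `L'`. (ii) `σ₁` induces an automorphism of `ZZ / P` which is the
identity on the image of `𝓞 L'`. By `Ideal.Quotient.stabilizerHom_surjective_of_profinite` (for `H`) there
is `τ' ∈ H` which fixes `P` and acts on `ZZ / P` as `σ₁`. Then `σ = τ'⁻¹ σ₁` is in the inertia group of `P`,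
fixes `L` and agrees with `s` on `L'`. (See `Pool/Agent/Lib/MuZ/Frob.lean` and `Tot.lean` for the use of the
two Mathlib theorems; the topology instances on subgroups are in `MuZ/Inst.lean`.) -/
def S_Ine : Prop :=
  ∀ (L L' : IntermediateField ℚ Om), FiniteDimensional ℚ L' → L ≤ L' →
    ∀ P : Ideal ZZ, P.IsPrime → P ≠ ⊥ → ∀ s ∈ L.fixingSubgroup, (∀ x ∈ L', s x ∈ L') →
    (∀ y : ZZ, (y : Om) ∈ L' → s • y - y ∈ P) →
    ∃ σ ∈ P.inertia Gal(Om/ℚ), σ ∈ L.fixingSubgroup ∧ ∀ x ∈ L', σ x = s x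

/-- (250 lines) **Ramification of Kummer extensions.** `L` a number field containing the primitive `p`-th
root of unity `ζ`, `β ^ p = b ∈ L`, `P` a prime not above `p`, such that the inertia group of `P` in
`Gal(Om/L)` fixes `β`. Then `p` divides the valuation of `b` at `P ∩ L`.
PROOF. Let `𝔮 = P ∩ 𝓞 L`, `v = v_𝔮(b)`; suppose `p ∤ v`, `u v + p w = 1`. Choose `π ∈ L` with `v_𝔮(π) = 1` and put
`β' = β ^ u π ^ w`, `b' = β' ^ p ∈ L`: `v_𝔮(b') = 1`, and `β'` is fixed by the inertia group of `P` in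
`Gal(Om/L)`. Let `L' = L(β')`, `𝔔 = P ∩ 𝓞 L'`. `L'` is normal over `L` (the conjugates of `β'` are `ζ ^ j β'`),
of degree at most `p`. Let `e`, `f` be the ramification index and the inertia degree of `𝔔` over `𝔮`.
`p v_𝔔(β') = v_𝔔(b') = e v_𝔮(b') = e`, so `p ∣ e`; the fundamental identity `∑ e f = [L' : L] ≤ p` gives
`e = p = [L' : L]`, `f = 1` and `𝔔` is the only prime above `𝔮`. As `f = 1` every `y ∈ 𝓞 L'` is congruent
modulo `𝔔` to some `a ∈ 𝓞 L`. As `[L' : L] = p > 1` there is `s ∈ Gal(Om/L)` with `s β' ≠ β'`; it maps `L'` to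
itself and `𝔔` to a prime above `𝔮`, so to `𝔔`; hence `s y ≡ s a = a ≡ y mod 𝔔`. By `S_Ine` there is `σ` in the
inertia group of `P`, in `Gal(Om/L)`, with `σ β' = s β' ≠ β'`: contradiction. (`P ∩ 𝓞 L ≠ 0` because `P ≠ 0`.)
VARIANT without valuations of `L'`: `(b') = 𝔮 𝔞` with `𝔞` prime to `𝔮` after multiplying `b'` by the `p`-th
power of an integer prime to `𝔮`; then `𝔮 𝓞_L' = (β')^p + ...`. -/
def S_Rm : Prop :=
  S_Ine → ∀ (p : ℕ) [Fact p.Prime] (L : IntermediateField ℚ Om) [NumberField L] (ζ β : Om),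
    IsPrimitiveRoot ζ p → ζ ∈ L → β ≠ 0 → ∀ b : L, (b : Om) = β ^ p →
    ∀ P : Ideal ZZ, P.IsPrime → (p : ZZ) ∉ P →
    (∀ σ ∈ P.inertia Gal(Om/ℚ), σ ∈ L.fixingSubgroup → σ β = β) →
    ∀ v : IsDedekindDomain.HeightOneSpectrum (𝓞 L), v.asIdeal = P.comap (iO L) →
      (p : ℤ) ∣ FractionalIdeal.count L v (FractionalIdeal.spanSingleton (𝓞 L)⁰ b)

/-- (200 lines) **Finiteness of the Selmer group.** `K` a number field. There is a finite set `T` of
nonzero elements of `K` such that every `b ≠ 0` whose valuations outside `p` are divisible by `p` is `t x ^ p`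
with `t ∈ T`, `x ≠ 0`.
PROOF. Let `S` be the finite set of the primes of `𝓞 K` above `p`. For such a `b` let `a_v ∈ [0, p)` be the
residue of `v(b)` modulo `p` for `v ∈ S`, and let `𝔟` be the fractional ideal with
`(b) = 𝔟 ^ p ∏ over v ∈ S of v ^ a_v` (`FractionalIdeal.finprod_heightOneSpectrum_factorization'`). The pair
(class of `𝔟` in the class group, `(a_v)`) takes finitely many values; choose one `b₀` for each value that
occurs. If `b` and `b₀` have the same value then `(b / b₀) = (𝔟 / 𝔟₀) ^ p = (y) ^ p`, so `b = b₀ ε y ^ p` with a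
unit `ε`. The group of the units is finitely generated, so modulo `p`-th powers it is finite: choose
representatives. -/
def S_Sel : Prop :=
  ∀ (p : ℕ) [Fact p.Prime] (K : Type) [Field K] [NumberField K],
    ∃ T : Finset K, (∀ t ∈ T, t ≠ 0) ∧ ∀ b : K, b ≠ 0 →
      (∀ v : IsDedekindDomain.HeightOneSpectrum (𝓞 K), (p : 𝓞 K) ∉ v.asIdeal →
        (p : ℤ) ∣ FractionalIdeal.count K v (FractionalIdeal.spanSingleton (𝓞 K)⁰ b)) →
      ∃ t ∈ T, ∃ x : K, x ≠ 0 ∧ b = t * x ^ p

/-- (200 lines) **Number fields.** Finitely many characters of order `p`, unramified outside `p`, of the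
Galois group of a number field.
PROOF. Uses `S_Kum`, `S_Rm`, `S_Sel`, `S_Res`. Let `ζ` be a primitive `p`-th root of unity in `Om`,
`L' = L ⊔ ℚ(ζ)`, a number field. By `S_Res` (`U = L'.fixingSubgroup ≤ W = L.fixingSubgroup`, `O` the open
subgroup `ℚ(ζ).fixingSubgroup`) it is enough to treat `L'`: so let `ζ ∈ L`, `W = L.fixingSubgroup`. For
`g ∈ VV p (LocO p) W` let `β_g` be from `S_Kum`; `b_g = β_g ^ p` is fixed by `W`, so it is in `L`, and
it satisfies the hypothesis of `S_Sel` (`K = L`) by `S_Rm` (every height one prime `v` is `P ∩ 𝓞 L` for a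
prime `P` of `ZZ`, lying over; `P.inertia ∩ W` fixes `β_g` as `g = 0` there). So `b_g = t x ^ p` with
`t ∈ T`. If `g`, `g'` have the same `t` then `β_g / β_g'` is `x / x'` times a `p`-th root of unity, all in `L`, so it
is fixed by `W`, and `ζ ^ g(σ) = ζ ^ g'(σ)` for `σ ∈ W`: `g = g'`. So `g ↦ t` is injective into the finite
set `T`. -/
def S_KF : Prop :=
  S_Kum → S_Ine → S_Rm → S_Sel → S_Res → ∀ (p : ℕ) [Fact p.Prime] (L : IntermediateField ℚ Om),
    FiniteDimensional ℚ L → Finite (VV p (LocO p) L.fixingSubgroup)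

/-- The group `Y = Gal(Ω/K_0⁺)`, `K_0 = ℚ(μ_{f p})`. -/
def YY (p f : ℕ) : Subgroup Gal(Om/ℚ) where
  carrier := {σ | (∀ z : Om, z ^ (f * p) = 1 → σ z = z) ∨ ∀ z : Om, z ^ (f * p) = 1 → σ z = z⁻¹}
  mul_mem' := by
    rintro a b (ha | ha) (hb | hb)
    · exact Or.inl fun z hz => by rw [AlgEquiv.mul_apply, hb z hz, ha z hz]
    · exact Or.inr fun z hz => by
        rw [AlgEquiv.mul_apply, hb z hz, ha _ (by rw [inv_pow, hz, inv_one])]
    · exact Or.inr fun z hz => by rw [AlgEquiv.mul_apply, hb z hz, ha z hz]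
    · exact Or.inl fun z hz => by
        rw [AlgEquiv.mul_apply, hb z hz, ha _ (by rw [inv_pow, hz, inv_one]), inv_inv]
  one_mem' := Or.inl fun z _ => rfl
  inv_mem' := by
    rintro a (ha | ha)
    · refine Or.inl fun z hz => ?_
      have h : a⁻¹ (a z) = z := by
        rw [← AlgEquiv.mul_apply, inv_mul_cancel, AlgEquiv.one_apply]
      rw [ha z hz] at h
      exact h
    · refine Or.inr fun z hz => ?_
      have h : a⁻¹ (a z⁻¹) = z⁻¹ := by
        rw [← AlgEquiv.mul_apply, inv_mul_cancel, AlgEquiv.one_apply]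
      rw [ha _ (by rw [inv_pow, hz, inv_one]), inv_inv] at h
      exact h

/-- (200 lines) **`Y / U` is procyclic.** `p` odd, `p ∤ f`, `J` a complex conjugation.
PROOF. Every `σ ∈ Gal(Om/ℚ)` acts on the `m`-th roots of unity by a power `z ↦ z ^ a`, `a` prime to `m`.
`mem`: `γ` fixes the `f p`-th roots of unity. `le`: the `f p`-th roots of unity satisfy `IsRt` (`n = 1`).
`nrm`: the action on roots of unity is commutative, so for `y ∈ Y`, `u ∈ U` the conjugate acts on the `z` with
`IsRt p f z` as `u` does. `cloY`, `cloN`: the conditions `σ z = z`, `σ z = z⁻¹` are closed (stabilisers of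
elements are open); `Y`, `U` are unions of two closed sets. `gen`: let `y ∈ Y` and `O` open.
(1) There is `k` such that every `ν` which fixes the roots of unity of order dividing `f p ^ k` lies in
`M O'`, `O' ≤ O` open normal: the closed sets `F_k = {ν : ν = 1 on μ_(f p^k)}` decrease with intersection
`M = MM p f`, and `M O'` is an open set containing `M`; compactness. (2) Let `k ≥ 1`, `y z = z ^ a` for
`z ∈ μ_(f p^k)`; as `y ∈ Y`, `a ≡ ε mod f p` with `ε = 1` or `-1`. `ε a ≡ 1 mod p`, so there is `j` with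
`(1 + p) ^ j ≡ ε a mod p ^ k` (`p` odd; `1 + p` generates the group of the residues `≡ 1 mod p`, see
`ZMod.orderOf_one_add_prime` in `Mathlib/RingTheory/ZMod/UnitsCyclic.lean`). `γ ^ j` acts on `μ_f` as `1`, on
`μ_(p^k)` as `ε a`. If `ε = 1` then `γ ^ j = y` on `μ_f` and `μ_(p^k)`, so on `μ_(f p^k)`, and
`y⁻¹ γ ^ j ∈ F_k ⊆ M O'`: `y⁻¹ γ ^ j = u o`, `t = u⁻¹`: `y⁻¹ γ ^ j t = u o u⁻¹ ∈ O'`. If `ε = -1` the same with
`y J` instead of `y`: `J⁻¹ y⁻¹ γ ^ j = u o`, so `y⁻¹ γ ^ j = J u o`, `t = (J u)⁻¹ ∈ U`. `quo`: `γ ^ p ^ a`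
fixes `μ_(f p^(a+1))` (`(1 + p) ^ p ^ a ≡ 1 mod p ^ (a + 1)`), so it is in `M O'` for large `a`; for general
`y ∈ Y` use `gen`: `y = γ ^ j t o` and `Y / U` is abelian modulo `O'`. `inf`: if `γ ^ m ∈ U`, `m > 0`, then
`(1 + p) ^ m ≡ 1` or `≡ -1` modulo `p ^ n` for all `n` (the sign may depend on nothing: `γ ^ m` acts as `1` or as
inversion on all `IsRt`); `-1` is impossible modulo `p` as `p` is odd, and `(1 + p) ^ m = 1` is impossible. -/
def S_GqY : Prop :=
  ∀ (p f : ℕ) [Fact p.Prime], p ≠ 2 → 0 < f → ¬ p ∣ f → ∀ γ J : Gal(Om/ℚ), IsGam p f γ → IsCC J →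
    Gq p (YY p f) (UU p f) γ

/-- (200 lines) **Invariant characters extend.**
PROOF. Uses `S_PL`, `S_Semi`, `S_Val`. Let `g ∈ VV p (LocO p) U` be invariant under `γ`. (1) `g` is invariant
under conjugation by `Y`: let `g = 0` on `U ∩ O`, `O` open normal; for `y ∈ Y` by `gen` `y = γ ^ j t o`,
`t ∈ U`, `o ∈ O` (`O` normal), and `g (o x o⁻¹) = g x` for `x ∈ U` because `x⁻¹ o x o⁻¹ ∈ U ∩ O`. (2) Let `γ'` be
from `S_PL`: `Zq p Y U γ'`. `S_Semi` with `A = Multiplicative (ZMod p)`, `h = g`, `a = 1` gives a continuous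
homomorphism `e` on `Y` with `e = g` on `U`; cut it to `Y` (`e = 0` outside). (3) `e ∈ VV p (LocO p) Y`: let
`P` be a prime, `p ∉ P`, `σ ∈ P.inertia ∩ Y`. Then `σ` fixes all `p`-power roots of unity (proof of
`MuZ/InT.lean`: `σ z / z - 1 ∈ P` and `z ^ p ^ n = 1`; if `w = σ z / z ≠ 1` then `p ∈ P`). As `p` is odd, a
primitive `p`-th root of unity `ζ ≠ ζ⁻¹` is fixed, so `σ` fixes all `f p`-th roots of unity (definition of `Y`).
Hence `σ` fixes the `f`-th and the `p`-power roots of unity, so all `z` with `IsRt p f z` (`p ∤ f`), `σ ∈ U`, and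
`e σ = g σ = 0`. -/
def S_ExY : Prop :=
  S_PL → S_Semi → S_Val → ∀ (p f : ℕ) [Fact p.Prime], p ≠ 2 → 0 < f → ¬ p ∣ f →
    ∀ γ : Gal(Om/ℚ), Gq p (YY p f) (UU p f) γ → ∀ g ∈ VV p (LocO p) (UU p f),
      (∀ τ ∈ UU p f, g (γ⁻¹ * τ * γ) = g τ) →
      ∃ e ∈ VV p (LocO p) (YY p f), ∀ τ ∈ UU p f, e τ = g τ

/-- (60 lines) **Complex conjugation.** PROOF. Let `φ : Om →+* ℂ` be any embedding
(`IsAlgClosed.lift`, `ℂ` is algebraically closed). Its image is the set of all algebraic numbers in `ℂ`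
(image of an algebraic closure: every element of `ℂ` algebraic over `ℚ` is a root of a polynomial which
splits in `Om`), stable under complex conjugation. So for `x ∈ Om` there is a unique `J x` with
`φ (J x) = conj (φ x)`; `J` is a field automorphism, identity on `ℚ`. -/
def S_CC : Prop := ∃ J : Gal(Om/ℚ), IsCC J

/-- (100 lines) **Part G, assembly.** PROOF. `Y = YY p f` is open, it is the fixing subgroup of its fixed
field `L`, a number field (it contains `(Cy (f p)).fixingSubgroup` and is closed;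
`InfiniteGalois.fixingSubgroup_fixedField`, `L ≤ Cy (f p)`), so `VV p (LocO p) Y` is finite by `hKF`. By
`hEx` every `γ`-invariant `g` is the restriction of some `e` in this finite set, and `g` is determined by `e`
(it vanishes outside `U`). -/
def S_GAs : Prop :=
  (∀ (p : ℕ) [Fact p.Prime] (L : IntermediateField ℚ Om), FiniteDimensional ℚ L →
    Finite (VV p (LocO p) L.fixingSubgroup)) →
  (∀ (p f : ℕ) [Fact p.Prime], p ≠ 2 → 0 < f → ¬ p ∣ f →
    ∀ γ : Gal(Om/ℚ), IsGam p f γ → ∀ g ∈ VV p (LocO p) (UU p f),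
      (∀ τ ∈ UU p f, g (γ⁻¹ * τ * γ) = g τ) →
      ∃ e ∈ VV p (LocO p) (YY p f), ∀ τ ∈ UU p f, e τ = g τ) →
  S_GF

end Pool.Agent.FW
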