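import Pool.Agent.Lib.FW.SpecR5
import Pool.Agent.Lib.ZD.Frob
import Pool.Agent.Lib.MP_7ed9c3_nt.Tw.D6b

/-!
# FW, stage 2, part R2: norm index at most `p` (analytic part)

Every `S_X : Prop` of this file is to be proved as `theorem tX : S_X` (with the `S_Y` named under Uses as
explicit hypotheses) in `FW/R2/X.lean`. The docstrings contain the complete proofs.

Plan. For a class `Cl` let `ZC K Cl s` be the sum of `N I ^ (-s)` over the integral ideals of the class. The
smoothed count of the ideals of a class (`MP7ed9c3.Tw.D5b.one_class`, already proved) and Mellin transforms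
(`MP7ed9c3.Tw.D6b.key`, already proved) give `ZC K Cl (1+x) = c/x + O(1)` (`S_ZA`); the constant does not depend on the
class because the density of the ideals does not (`S_ZB`, Mathlib). So for a nontrivial character `χ` of the class
group the `L`-series is bounded (`S_LB`), and `∑_v Re χ(v) N v^(-(1+x)) ≤ C` (`S_PB`). A class character in the
sense of `ClCh` is a homomorphism on the class group (`S_Hom`). If `a`, `b` are independent class characters,
the sum over all `(c, d)` of these sums for `c a + d b` gives `p² ∑_{a v = b v = 0} N v^(-(1+x)) ≤ log(1/x) + C`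
(`S_Cut`). The primes which split completely in the field `L` of `g` satisfy `Spl p K g v` (`S_Fld`) and have density
`1/[L : K] ≥ 1/p` (`ZD.Dn_Spl`, already proved), so `p ≤ 1`: contradiction (`tR2` at the end).
-/

open scoped Pointwise nonZeroDivisors

noncomputable section

namespace Pool.Agent.FW

open Pool.Agent.MuZ NumberField IsDedekindDomain Filter Topology

/-- The partial zeta function of the class `Cl`, for real `s`. -/
def ZC (K : Type) [Field K] [NumberField K] (Cl : ClassGroup (𝓞 K)) (s : ℝ) : ℝ :=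
  ∑' I : {I : (Ideal (𝓞 K))⁰ // ClassGroup.mk0 I = Cl},
    (Ideal.absNorm (I.1 : Ideal (𝓞 K)) : ℝ) ^ (-s)

/-- (150 lines) **The partial zeta functions near 1.** Uses nothing.

PROOF. Follow the proof of `MP7ed9c3.Tw.cont` (end of `Pool/Agent/Lib/MP_7ed9c3_nt/Tw/D6b.lean`). Let `φ` be the
`ContDiffBump` there with `δ = 1`; `ι = {I : (Ideal (𝓞 K))⁰ // ClassGroup.mk0 I = Cl}`, `N I = absNorm I.1 ≥ 1`,
`Summable N^(-σ)` for `σ > 1` (`MP7ed9c3.Tw.zetaSum K` or `D6a.summable_nm`, composed with the injective `Subtype.val`).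
`D5b.one_class idealSum (coneSum latticeSum famSmooth unfold) K φ _ _ 0 Cl` (these theorems are in `Tw/D4.lean`,
`D5a.lean`, `D1.lean`, `D2.lean`, `D3.lean`; see `Tw/All2.lean` for the exact names; here `A = 0`) gives `c`, `C` with
`|H N φ T - c e^T| ≤ C e^(-0 T)` for `T ≥ 0`. `D6b.key` gives for real `s > 1`
`(∑' N^(-s)) * γ(s) = M(s) + c/(s-1)`, `γ = mellin (G φ)`, `M(s) = mellin (Fr N φ c) (-s)`. On the compact interval `[1,2]`
`M` is continuous (`D6b.Fr_diff`, `-0 < 1`), `γ` is differentiable (`D6b.G_diff`), and `γ(s) ≠ 0` (`D6b.G_re_pos`). The sum is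
`ZC K Cl s` (cast of a real series: `Complex.ofReal_tsum`, `Complex.ofReal_cpow`). So with `s = 1 + x`
`ZC - (c/γ(1)) / x = M(s)/γ(s) + c (1/γ(s) - 1/γ(1)) / x`, and `(γ(1) - γ(s))/x` is bounded on `(0,1]`: it is
`-dslope γ 1 s` (`dslope` of a differentiable function is continuous: `continuousOn_dslope` or
`ContinuousAt`/`Differentiable` versions), or by the mean value inequality with the continuous derivative. Finally
take real parts: the constant is `(c/γ(1)).re` (`Complex.abs_re_le_norm`; `c/γ(1)/x` with real `x`). -/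
def S_ZA : Prop :=
  ∀ (K : Type) [Field K] [NumberField K] (Cl : ClassGroup (𝓞 K)), ∃ c C : ℝ,
    ∀ x : ℝ, 0 < x → x ≤ 1 → |ZC K Cl (1 + x) - c / x| ≤ C

/-- (200 lines) **The residue does not depend on the class.** Uses nothing.

PROOF. Mathlib: `NumberField.Ideal.tendsto_norm_le_and_mk_eq_div_atTop` (file
`Mathlib/NumberTheory/NumberField/Ideal/Asymptotics.lean`): the number of `I` with `absNorm I ≤ s` and `mk0 I = Cl`,
divided by `s`, tends to `κ`, the same for all classes. Let `f n` be the number of the `I` in the class with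
`absNorm I = n` (`f 0 = 0`). Then `∑_{k ≤ n} f k / n → κ` (imitate the proof of
`tendsto_sub_one_mul_dedekindZeta_nhdsGT` in `Mathlib/NumberTheory/NumberField/DedekindZeta.lean`, or
`D6a.summable_coeff` in `Pool/Agent/Lib/MP_7ed9c3_nt/Tw/D6a.lean`), and
`LSeries_tendsto_sub_mul_nhds_one_of_tendsto_sum_div_and_nonneg` (`Mathlib/NumberTheory/LSeries/SumCoeff.lean`) gives
`(s - 1) LSeries f s → κ` as `s → 1+`, `s` real. For real `s > 1` `LSeries f s = ZC K Cl s`: group the ideals of the class by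
their norm as in `D6a.zeta_eq` (`Equiv.sigmaFiberEquiv`, `Summable.tsum_sigma'`, finite fibres). Substitute `s = 1 + x`. -/
def S_ZB : Prop :=
  ∀ (K : Type) [Field K] [NumberField K], ∃ κ : ℝ, ∀ Cl : ClassGroup (𝓞 K),
    Tendsto (fun x : ℝ => x * ZC K Cl (1 + x)) (𝓝[>] 0) (𝓝 κ)

/-- (120 lines) **`L`-series of nontrivial class group characters are bounded near 1.** Uses `S_ZA`, `S_ZB`.

PROOF. For every class `c_Cl`, `C_Cl` from `S_ZA`; `x ZC K Cl (1+x) → c_Cl` (since `|x ZC - c| ≤ C x`), so `c_Cl = κ` for all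
classes (`S_ZB`, `tendsto_nhds_unique`). The series over all ideals converges absolutely (`D6a.summable_nm`;
`‖χ(Cl)‖ = 1` because the class group is finite: `Complex.norm_eq_one_of_pow_eq_one` with `pow_card_eq_one`), so it is the sum over the classes
of `χ(Cl) ZC K Cl (1+x)` (`Equiv.sigmaFiberEquiv ClassGroup.mk0`, `Summable.tsum_sigma'`, `tsum_fintype`, the class
group is finite), i.e. `∑_Cl χ(Cl) (ZC - κ/x) + (κ/x) ∑_Cl χ(Cl)`, and `∑_Cl χ(Cl) = 0` as `χ ≠ 1`
(choose `h` with `χ h ≠ 1`: `χ h * ∑ = ∑`; or `sum_hom_units_eq_zero`). So it is bounded by `∑ C_Cl`. -/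
def S_LB : Prop :=
  ∀ (K : Type) [Field K] [NumberField K] (χ : ClassGroup (𝓞 K) →* ℂˣ), χ ≠ 1 → ∃ C : ℝ,
    ∀ x : ℝ, 0 < x → x ≤ 1 → ‖∑' I : (Ideal (𝓞 K))⁰, ((χ (ClassGroup.mk0 I) : ℂˣ) : ℂ) *
      (((Ideal.absNorm (I : Ideal (𝓞 K)) : ℝ) ^ (-(1 + x)) : ℝ) : ℂ)‖ ≤ C

/-- (120 lines) **Prime sums of nontrivial characters are bounded above.** Uses `S_LB`.

PROOF. Let `z I = χ(I) N I^(-(1+x))`. `D6a.euler` (`z` is multiplicative, `z 1 = 1`, `‖z (pr v)‖ < 1`; `‖χ‖ = 1` as in `S_LB`)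
gives `∑' z I = exp(∑' v, -log(1 - z(pr v)))`, so `∑' v Re(-log(1 - z(pr v))) = log ‖∑' z I‖ ≤ log (max C 1)`
(`Complex.norm_exp`, `Complex.re_tsum`). And `|-log(1 - z) - z| ≤ |z|² ≤ N v^(-2)` for `|z| ≤ 1/2` (see
`MP7ed9c3.Tw.D7.log_bound` and `approx`), `∑ N v^(-2)` converges (`ZD.summable_two`). `Re z(pr v) = Re χ(v) * N v^(-(1+x))`;
`ZD.nm v = absNorm v.asIdeal` by definition, `D6a.pr v` is `v.asIdeal` as an element of `(Ideal (𝓞 K))⁰`. -/
def S_PB : Prop :=
  ∀ (K : Type) [Field K] [NumberField K] (χ : ClassGroup (𝓞 K) →* ℂˣ), χ ≠ 1 → ∃ C : ℝ,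
    ∀ x : ℝ, 0 < x → x ≤ 1 → ∑' v : HeightOneSpectrum (𝓞 K),
      ((χ (ClassGroup.mk0 (MP7ed9c3.Tw.D6a.pr v)) : ℂˣ) : ℂ).re *
        (ZD.nm v : ℝ) ^ (-(1 + x)) ≤ C

/-- (120 lines) **A class character is a homomorphism on the class group.** Uses nothing.

PROOF. For a unit `I` of `FractionalIdeal (𝓞 K)⁰ K` let `F I = ∑ᶠ v, (FractionalIdeal.count K v I : ZMod p) * a v`, a finite
sum (`FractionalIdeal.finite_factors` or similar: `count` is nonzero for finitely many `v` only), additive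
(`FractionalIdeal.count_mul`, `finsum_add_distrib`), so a homomorphism to `Multiplicative (ZMod p)`. On principal ideals
`spanSingleton x`, `x ≠ 0`, it is `0` by `ClCh`. So it factors through the quotient of `(FractionalIdeal (𝓞 K)⁰ K)ˣ` by
`(toPrincipalIdeal (𝓞 K) K).range`, which is `ClassGroup (𝓞 K)` by `ClassGroup.equiv K`
(`QuotientGroup.lift`, `mem_principal_ideals_iff`). `ClassGroup.mk0 I` corresponds to the class of `FractionalIdeal.mk0 K I`
(`ClassGroup.equiv_mk0`), and `F (mk0 (pr v)) = a v` since `count K w v` is `1` for `w = v` and `0` otherwise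
(`FractionalIdeal.count_self`, `FractionalIdeal.count_maximal_coprime`, or `count_maximal`; `finsum_eq_single`). -/
def S_Hom : Prop :=
  ∀ (p : ℕ) (K : Type) [Field K] [NumberField K] (a : HeightOneSpectrum (𝓞 K) → ZMod p),
    ClCh p K a → ∃ φ : ClassGroup (𝓞 K) →* Multiplicative (ZMod p),
      ∀ v, φ (ClassGroup.mk0 (MP7ed9c3.Tw.D6a.pr v)) = Multiplicative.ofAdd (a v)

/-- (180 lines) **The common zeros of two independent class characters.** Uses `S_Hom`, `S_PB`.

PROOF. `φ`, `φ'` from `S_Hom` for `a`, `b`. `ψ = ZMod.stdAddChar : AddChar (ZMod p) ℂ` (injective: `ZMod.injective_stdAddChar` or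
`ZMod.injective_toCircle`). For `c`, `d : ZMod p` let `χ = χ_(c,d) : ClassGroup (𝓞 K) →* ℂˣ` be the homomorphism with
`χ Cl = ψ (c * toAdd (φ Cl) + d * toAdd (φ' Cl))` (`MonoidHom.toHomUnits`, for a homomorphism from a group to the monoid `ℂ`). At `mk0 (pr v)` it is
`ψ (c a v + d b v)`; for `(c,d) ≠ (0,0)` there is `v` with `c a v + d b v ≠ 0`, so `χ ≠ 1`, and `S_PB` gives
`∑' v Re ψ(c a v + d b v) N v^(-(1+x)) ≤ C_(c,d)`. For `(c,d) = (0,0)` the sum is `pS K univ x ≤ log (1/x) + C`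
(`ZD.Dn_univ`). Sum over all `(c,d)` (finite sum of convergent series, `Summable.tsum_finsetSum`, `ZD.summable_all`,
`|Re ψ| ≤ 1`): for every `v` `∑_(c,d) ψ(c a v + d b v) = (∑_c ψ(c a v)) (∑_d ψ(d b v))`, which is `p²` if `a v = b v = 0` and `0` otherwise
(`AddChar.sum_mulShift` with `ψ.IsPrimitive`, `ZMod.isPrimitive_stdAddChar`). So the total is `p² pS K {v | a v = 0 ∧ b v = 0} x`. -/
def S_Cut : Prop :=
  ∀ (p : ℕ) [Fact p.Prime] (K : Type) [Field K] [NumberField K]
    (a b : HeightOneSpectrum (𝓞 K) → ZMod p), ClCh p K a → ClCh p K b →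
    (∀ c d : ZMod p, (c ≠ 0 ∨ d ≠ 0) → ∃ v, c * a v + d * b v ≠ 0) →
    ∃ C : ℝ, ∀ x : ℝ, 0 < x → x ≤ 1 →
      (p : ℝ) ^ 2 * ZD.pS K {v | a v = 0 ∧ b v = 0} x ≤ Real.log (1 / x) + C

/-- (200 lines) **The field of `g`.** Uses `S_Lie`, `S_FrE` (both in `SpecR5.lean`).

PROOF. Let `W = {σ ∈ K.fixingSubgroup | g σ = 0}`, a subgroup, open in `Gal(Om/ℚ)`: it contains `O ⊓ K.fixingSubgroup` for the
open subgroup `O` from `VV`, and `K.fixingSubgroup` is open as `K` is finite over `ℚ` (`IntermediateField.fixingSubgroup_isOpen`);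
normal in `K.fixingSubgroup` (`g` is additive). Let `M` be its fixed field
(`IntermediateField.fixedField W`): `M.fixingSubgroup = W` (`W` is open, so closed; `InfiniteGalois.fixingSubgroup_fixedField` for
closed subgroups), `K ≤ M`, `M` is finite over `ℚ` (`W` open: `InfiniteGalois.isOpen_iff_finite` or similar). `L = M` as a type, with
the algebra structure of the inclusion `K ≤ M` (`(IntermediateField.inclusion h).toAlgebra` or `IntermediateField.extendScalars h`).
`L/K` is Galois: separable (characteristic 0) and normal, because `M` is stable under `K.fixingSubgroup`: for `τ ∈ K.fixingSubgroup`,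
`y ∈ M`, `σ ∈ W`: `σ τ y = τ (τ⁻¹ σ τ) y = τ y` (e.g. `IntermediateField.normal_iff_forall_map_le`-type results over `K`, or directly: a
root of the minimal polynomial over `K` of `y ∈ M` is `τ y` for some `τ ∈ Gal(Om/K)`, since `Om` is normal over `K`).
`finrank K L ≤ p`: `finrank K L` is the number of `K`-embeddings `L → Om` (`AlgHom.card`, `Om` algebraically closed); each extends to
an automorphism `σ_j` of `Om` over `K`, and `j ↦ g σ_j ∈ ZMod p` is injective: `g σ_j = g σ_i` gives `σ_i⁻¹ σ_j ∈ W`, which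
fixes `M`. (Or: the index of `W` in `K.fixingSubgroup` is at most `p`.) Now let `v ∈ ZD.Spl K L`. Take a prime `w` of `L` above `v`
(`ZD.abv L v` is not empty: its cardinality is `finrank K L > 0`); `N w = N v` (`ZD.nm_eq_of_mem_Spl`). `P` above `w`: `S_Lie` (1) for
`M`; so `Ab M P w` and `Ab K P v` (both comaps of `P`; the composite `𝓞 K → 𝓞 M → ZZ` is `iO K`). `τ` with `IsFr M P τ` (`S_FrE` for `M`).
Then `τ ∈ M.fixingSubgroup = W`, so `τ ∈ K.fixingSubgroup` and `g τ = 0`, and `IsFr K P τ` since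
`Nat.card (𝓞 M ⧸ w) = N w = N v = Nat.card (𝓞 K ⧸ v)` (`Ideal.absNorm` is by definition `Nat.card` of the quotient). -/
def S_Fld : Prop :=
  ∀ (p : ℕ) [Fact p.Prime] (K : IntermediateField ℚ Om) [NumberField K],
    ∀ g ∈ VV p Inr K.fixingSubgroup, ∃ (L : Type) (_ : Field L) (_ : NumberField L)
      (_ : Algebra K L), IsGalois K L ∧ Module.finrank K L ≤ p ∧
        ∀ v ∈ ZD.Spl K L, Spl p K g v

/-- **Part R2**, assembly. -/
theorem tR2 (hCut : S_Cut) (hFld : S_Fld) : S_R2 := by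
  intro p _ K _ g hg _ M hM a b ha hb ha0 hb0
  by_contra hcon
  have hind : ∀ c d : ZMod p, (c ≠ 0 ∨ d ≠ 0) → ∃ v, c * a v + d * b v ≠ 0 := by
    intro c d hcd
    by_contra h
    push Not at h
    exact hcon ⟨c, d, hcd, h⟩
  obtain ⟨C, hC⟩ := hCut p K a b ha hb hind
  obtain ⟨L, _, _, _, hgal, hfr, hspl⟩ := hFld p K g hg
  obtain ⟨C', hC'⟩ := ZD.Dn_Spl K L
  have hpp : p.Prime := Fact.out
  have hp2 : (2 : ℝ) ≤ p := by exact_mod_cast hpp.two_le
  set F : Set (HeightOneSpectrum (𝓞 K)) := {v | (M : 𝓞 K) ∈ v.asIdeal} with hF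
  have hFfin : F.Finite := ZD.finite_mem (M : 𝓞 K) (by exact_mod_cast hM)
  set A : Set (HeightOneSpectrum (𝓞 K)) := {v | a v = 0 ∧ b v = 0} with hA
  have hsub : ZD.Spl K L ⊆ A ∪ F := by
    intro v hv
    by_cases hMv : (M : 𝓞 K) ∈ v.asIdeal
    · exact Or.inr hMv
    · exact Or.inl ⟨ha0 v hMv (hspl v hv), hb0 v hMv (hspl v hv)⟩
  have hn0 : (0 : ℝ) < Module.finrank K L := by exact_mod_cast Module.finrank_pos
  have hnp : (1 : ℝ) / p ≤ 1 / Module.finrank K L :=
    one_div_le_one_div_of_le hn0 (by exact_mod_cast hfr)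
  have key : ∀ x : ℝ, 0 < x → x ≤ 1 →
      (p : ℝ) * Real.log (1 / x) ≤ Real.log (1 / x) + (C + (p : ℝ) ^ 2 * (C' + F.ncard)) := by
    intro x h0 h1
    have hl : 0 ≤ Real.log (1 / x) := by
      apply Real.log_nonneg
      rw [le_div_iff₀ h0]
      linarith
    have e1 := (abs_le.1 (hC' x h0 h1)).1
    have e2 := ZD.pS_mono hsub h0
    have e3 := ZD.pS_union_le A F h0
    have e4 := ZD.pS_finite hFfin h0
    have e5 := hC x h0 h1
    have e6 : 1 / (p : ℝ) * Real.log (1 / x) ≤ 1 / (Module.finrank K L : ℝ) * Real.log (1 / x) :=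
      mul_le_mul_of_nonneg_right hnp hl
    have e7 : 1 / (p : ℝ) * Real.log (1 / x) ≤ ZD.pS K A x + (C' + F.ncard) := by linarith
    have e8 : (p : ℝ) ^ 2 * (1 / (p : ℝ) * Real.log (1 / x)) ≤
        (p : ℝ) ^ 2 * (ZD.pS K A x + (C' + F.ncard)) :=
      mul_le_mul_of_nonneg_left e7 (by positivity)
    have e9 : (p : ℝ) ^ 2 * (1 / (p : ℝ) * Real.log (1 / x)) = (p : ℝ) * Real.log (1 / x) := by
      have : (p : ℝ) ≠ 0 := by linarith
      field_simp
    rw [e9, mul_add] at e8
    linarith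
  obtain ⟨x, hx⟩ := ((ZD.tendsto_log_inv.eventually_gt_atTop
    (C + (p : ℝ) ^ 2 * (C' + F.ncard))).and (Ioc_mem_nhdsGT (zero_lt_one' ℝ))).exists
  obtain ⟨hx1, hx0, hx2⟩ := hx
  have hk := key x hx0 hx2
  have hl : 0 ≤ Real.log (1 / x) := by
    apply Real.log_nonneg
    rw [le_div_iff₀ hx0]
    linarith
  nlinarith

end Pool.Agent.FW
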