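import Pool.Agent.Lib.FW.Defs

/-!
# Specification of part E (Kummer theory): `S_ST → S_SV`

Conventions as in the definitions file: `p` an odd prime, `p ∤ f`, `m = f p^(n+1)`, `K_n = Cy m`, `K_∞ = KI p f`,
`M = MM p f`, `U = UU p f`. Every `S_...` below is a statement with a complete proof in its docstring.
Every one is to be proved in its own module; the statements which a module may use are explicit
hypotheses of its final theorem (they are named at the end of the docstring).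
-/

open scoped Pointwise NumberField WithZero

open IsDedekindDomain

noncomputable section

namespace Pool.Agent.FW

open Pool.Agent.MuZ

/-- (120 lines) **Basic facts on the cyclotomic fields.** PROOF. (1) `Cy m` is generated by the finite
set of the `m`-th roots of unity, or by one primitive `m`-th root `z` (all others are its powers), so
`Cy m = ℚ⟮z⟯`: `IsPrimitiveRoot.intermediateField_adjoin_isCyclotomicExtension`. (2) An automorphism fixes
`adjoin ℚ S` iff it fixes `S`. (3) `σ` maps the set of the `m`-th roots of unity into itself, so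
`Cy m ≤ (Cy m).comap σ`, resp. use `IntermediateField.adjoin_le_iff` for the intermediate field
`{x | σ x ∈ Cy m}` (`IntermediateField.comap`). (4) `z ^ m = 1` gives `z ^ m' = 1`. (5) as (3), with
`IsRt.map`. (6) `z ^ (f * p ^ (n + 1)) = 1` gives `IsRt p f z`. (7) as (2). (8) `MM p f` is the fixing
subgroup of `KI p f` (by (2) for `KI`), so `x ∈ KI p f` by infinite Galois theory
(`InfiniteGalois.fixedField_fixingSubgroup`). Then `x` lies in `adjoin ℚ T` for a finite set `T` of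
elements `z` with `IsRt p f z` (`IntermediateField.exists_finset_of_mem_adjoin`), `z ^ (f * p ^ n_z) = 1`;
take `n` = the largest `n_z`; then `T` is contained in the set of the generators of
`Cy (f * p ^ (n + 1))`. -/
def S_ECy : Prop :=
  (∀ m : ℕ, 0 < m → FiniteDimensional ℚ (Cy m) ∧ IsCyclotomicExtension {m} ℚ (Cy m)) ∧
  (∀ (m : ℕ) (σ : Gal(Om/ℚ)), σ ∈ (Cy m).fixingSubgroup ↔ ∀ z : Om, z ^ m = 1 → σ z = z) ∧
  (∀ (m : ℕ) (σ : Gal(Om/ℚ)) (x : Om), x ∈ Cy m → σ x ∈ Cy m) ∧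
  (∀ m m' : ℕ, m ∣ m' → Cy m ≤ Cy m') ∧
  (∀ (p f : ℕ) (σ : Gal(Om/ℚ)) (x : Om), x ∈ KI p f → σ x ∈ KI p f) ∧
  (∀ (p f n : ℕ), Cy (f * p ^ (n + 1)) ≤ KI p f) ∧
  (∀ (p f : ℕ), ∀ x ∈ KI p f, ∀ σ ∈ MM p f, σ x = x) ∧
  (∀ (p f : ℕ) (x : Om), (∀ σ ∈ MM p f, σ x = x) → ∃ n : ℕ, x ∈ Cy (f * p ^ (n + 1)))

/-- (150 lines) **Complex conjugation.** PROOF. (a) Existence: choose a ring homomorphism
`φ : Om →+* ℂ` (`IsAlgClosed.lift`). The image of `φ` is stable under complex conjugation because `Om` is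
normal over `ℚ`: with the algebra structure on `ℂ` over `Om` given by `φ` use
`AlgHom.restrictNormal` / `AlgEquiv.restrictNormal` for `Complex.conjAe` (restricted to `ℚ`), with
`AlgHom.restrictNormal_commutes`. (b) `φ (J (J x)) = conj (conj (φ x)) = φ x` and `φ` is injective.
(c) For `z ^ N = 1`: `|φ z| = 1`, so `φ (J z) = conj (φ z) = (φ z)⁻¹ = φ (z⁻¹)`. (d) Let `ψ : Om →+* ℂ` be
ANY ring homomorphism. The `y` with `ψ (J y) = conj (ψ y)` form a subfield which contains `ℚ` (the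
equalizer of two ring homomorphisms) and, as in (c) (with `J z = z⁻¹`), all roots of unity; so it
contains `KI p f`. For `x` as in (3) this gives `|ψ x| ^ 2 = ψ x * conj (ψ x) = ψ (x * J x) = 1`. Every
embedding of the number field `ℚ⟮x⟯` into `ℂ` extends to `Om` (`IsAlgClosed.lift`, `Om` is algebraic over
it), so `|φ' x| = 1` for all embeddings `φ'` of `ℚ⟮x⟯`, and `x` is integral: a power of `x` is `1`
(`NumberField.Embeddings.pow_eq_one_of_norm_eq_one`). -/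
def S_EJ : Prop :=
  (∃ J : Gal(Om/ℚ), IsCC J) ∧
  ∀ J : Gal(Om/ℚ), IsCC J → J * J = 1 ∧
    (∀ (N : ℕ) (z : Om), 0 < N → z ^ N = 1 → J z = z⁻¹) ∧
    ∀ (p f : ℕ), 0 < p → 0 < f → ∀ x ∈ KI p f, IsIntegral ℤ x → x * J x = 1 →
      ∃ N : ℕ, 0 < N ∧ x ^ N = 1

/-- (200 lines) **The Kummer generator of a character.** PROOF. Put `χ σ = ζ ^ ((2⁻¹ * g σ : ZMod p)).val`.
Since `ζ ^ p = 1`, `ζ ^ i` depends only on `i` modulo `p`, so `χ (σ τ) = χ σ * χ τ` for `σ, τ` in `M`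
(`M ≤ U`), and `χ σ ^ 2 = ζ ^ (g σ).val`. `ζ` and its powers are fixed by `M` (`ζ ^ (f * p ^ 1) = 1`) and
inverted by `J`. STEP 1: there is `b0 ≠ 0` with `τ b0 = χ τ * b0` for all `τ ∈ M`. Let `O` be an open
subgroup with `g = 0` on `U ∩ O` and `E` a finite extension of `ℚ` with `E.fixingSubgroup ≤ O`
(`krullTopology_mem_nhds_one_iff`). Let `S` be the set of the restrictions to `E` of the elements of
`M`, a subset of the finite set of all `ℚ`-homomorphisms `E → Om`. If `σ, τ ∈ M` have the same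
restriction then `σ⁻¹ τ ∈ M ∩ E.fixingSubgroup ⊆ U ∩ O`, so `g (σ⁻¹ τ) = 0` and `χ σ = χ τ`: for `s ∈ S`
let `c_s = (χ σ)⁻¹` for any `σ ∈ M` with restriction `s`. By Dedekind independence of characters
(`linearIndependent_monoidHom`, or its consequence for field homomorphisms) and `c_s ≠ 0`, `S ≠ ∅`, there
is `x ∈ E` with `b0 := ∑ s ∈ S, c_s * s x ≠ 0`. For `τ ∈ M`: `τ (c_s) = c_s`, `s ↦ τ ∘ s` is a bijection of
`S`, and `c_(τ ∘ s) = (χ τ)⁻¹ * c_s`; hence `τ b0 = ∑ c_s * (τ ∘ s) x = χ τ * b0`. STEP 2: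
`2 * g J = g (J * J) = g 1 = 0` (`J ∈ U`), so `g J = 0` and `g (J τ J) = g τ` for `τ ∈ M`; also `J τ J ∈ M`.
So `τ (J b0) = J ((J τ J) b0) = J (χ τ * b0) = (χ τ)⁻¹ * J b0`. Put `b = b0 / J b0`. Then
`τ b = χ τ ^ 2 * b = ζ ^ (g τ).val * b` and `J b = J b0 / b0 = b⁻¹`. -/
def S_EGen : Prop :=
  ∀ (p f : ℕ) [Fact p.Prime], p ≠ 2 → 0 < f → ∀ (Ls : Set (Subgroup Gal(Om/ℚ))),
    ∀ g ∈ VV p Ls (UU p f), ∀ J : Gal(Om/ℚ), J * J = 1 → (∀ z : Om, IsRt p f z → J z = z⁻¹) →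
    ∀ ζ : Om, IsPrimitiveRoot ζ p →
      ∃ b : Om, b ≠ 0 ∧ (∀ σ ∈ MM p f, σ b = ζ ^ (g σ).val * b) ∧ J b = b⁻¹

/-- (150 lines) **Lifting of inertia elements.** PROOF. `H = L.fixingSubgroup` is a closed subgroup of
`Gal(Om/ℚ)`, hence compact and totally disconnected; it acts continuously on the discrete ring `ZZ` with
invariants `A = ` the elements of `ZZ` in `L` (see `tot_trans`, `tot_stab` in `MuZ/Tot.lean`, and `Frob.lean`
for the use of the residue fields). STEP 1. For `y ∈ ZZ` with `(y : Om) ∈ L` we have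
`y ∈ P ↔ σ • y ∈ P ↔ y ∈ σ⁻¹ • P`. So `P` and `σ⁻¹ • P` contain the same elements of `A`, and by `tot_trans`
there is `ρ ∈ H` with `σ⁻¹ • P = ρ • P`; so `σ ρ ∈ Stab P`. STEP 2. `σ ρ` induces an automorphism of the
ring `ZZ ⧸ P` which is trivial on the image of `A`: `(σ ρ) y - y = σ y - y ∈ P` for `y ∈ A`. By
`Ideal.Quotient.stabilizerHom_surjective_of_profinite` (for the group `H`, the rings `A` and `ZZ`, the
ideal `P` and the ideal of `A` below it) there is `δ ∈ H`, `δ • P = P`, with `δ y - (σ ρ) y ∈ P` for all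
`y ∈ ZZ`. STEP 3. `τ = σ ρ δ⁻¹`: for `y ∈ ZZ` put `y' = δ⁻¹ • y`; `τ y = (σ ρ) y'` is congruent to
`δ y' = y` modulo `P`, so `τ` is in the inertia group; and `ρ`, `δ` fix `L`, so `τ = σ` on `L`. -/
def S_EIne : Prop :=
  ∀ (L : IntermediateField ℚ Om) (P : Ideal ZZ), P.IsPrime → ∀ σ : Gal(Om/ℚ),
    (∀ y : ZZ, (y : Om) ∈ L → σ • y - y ∈ P) →
    ∃ τ ∈ P.inertia Gal(Om/ℚ), ∀ x ∈ L, τ x = σ x

/-- (150 lines) **`p`-th powers of ideals.** PROOF. Write `β = x / y` with `x, y ∈ 𝓞 K` not zero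
(`IsFractionRing.div_surjective`) and `z = x * y ^ (p - 1)`, so that `β * y ^ p = z`. For every `v`,
`v z = v β * (v y) ^ p` is a `p`-th power in `ℤᵐ⁰`, and it is
`exp (- (Associates.mk v.asIdeal).count (Associates.mk (Ideal.span {z})).factors)`
(`HeightOneSpectrum.valuation_of_algebraMap`, `intValuation_if_neg`), so `p` divides this count. The
irreducible elements of `Associates (Ideal (𝓞 K))` are the classes of the `v.asIdeal`, so by
`Associates.is_pow_of_dvd_count` the ideal `(z)` is `I ^ p` for an ideal `I`. Let `t` be a finite set of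
generators of `I` (`𝓞 K` is noetherian) and `s` the set of the `u / y`, `u ∈ t`, in `K`. Then
`(span s) ^ p = y⁻ᵖ • (image of I) ^ p = y⁻ᵖ • span {z} = span {β}` (`Submodule.span_pow`,
`Submodule.map_pow`, or elementwise with `Submodule.span_mul_span`: multiplication by the nonzero
element `y⁻¹`). -/
def S_EPw : Prop :=
  ∀ (K : Type) [Field K] [NumberField K] (p : ℕ), 0 < p → ∀ β : K, β ≠ 0 →
    (∀ v : HeightOneSpectrum (𝓞 K), ∃ γ : ℤᵐ⁰, v.valuation K β = γ ^ p) →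
    ∃ s : Finset K, (Submodule.span (𝓞 K) (s : Set K)) ^ p = Submodule.span (𝓞 K) {β}

/-- (100 lines) **Unramified primes.** PROOF. The hypothesis says that the inertia group
`w.asIdeal.inertia Gal(L/K)` is trivial, so `Ideal.card_inertia_eq_ramificationIdxIn` gives
`ramificationIdxIn v.asIdeal (𝓞 L) = 1` (`𝓞 L` with the Galois group `Gal(L/K)` over `𝓞 K`:
`IsGaloisGroup`; the residue fields are finite, hence perfect) and the ramification index of `w` over `v`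
is `1` (`Ideal.ramificationIdxIn_eq_ramificationIdx` and its variants; compare
`Mathlib/NumberTheory/RamificationInertia/HilbertTheory.lean`). By `HeightOneSpectrum.valuation_liesOver`:
`v β = v β ^ 1 = w (algebraMap K L β) = w (b ^ p) = (w b) ^ p`. -/
def S_EUn : Prop :=
  ∀ (K L : Type) [Field K] [NumberField K] [Field L] [NumberField L] [Algebra K L]
    [IsGalois K L] (p : ℕ) (b : L) (β : K), b ^ p = algebraMap K L β →
    ∀ (v : HeightOneSpectrum (𝓞 K)) (w : HeightOneSpectrum (𝓞 L)),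
      w.asIdeal.LiesOver v.asIdeal →
      (∀ σ : Gal(L/K), (∀ y : 𝓞 L, σ • y - y ∈ w.asIdeal) → σ = 1) →
      ∃ γ : ℤᵐ⁰, v.valuation K β = γ ^ p

/-- (200 lines) **Unramified primes, for subfields of `Om`.** PROOF. Let `L = K⟮b⟯`
(`IntermediateField.adjoin K {b}`), a number field, Galois over `K`: it is the splitting field of
`X ^ p - b ^ p` as `ζ ∈ K` (`isSplittingField_X_pow_sub_C_of_root_adjoin_eq_top` and
`isGalois_of_isSplittingField_X_pow_sub_C`, or directly: every `σ ∈ Gal(Om/K)` maps `b` to `ζ ^ i * b`).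
Let `w` be the set of the `y ∈ 𝓞 L` which lie in `P` as elements of `ZZ`: a prime ideal of `𝓞 L`; its
intersection with `𝓞 K` contains the maximal ideal `v.asIdeal`, so it is equal to it (it does not contain
`1`), and `w ≠ ⊥`. Apply `S_EUn` with `p, b, β = b ^ p`. To check the hypothesis let `σ ∈ Gal(L/K)` with
`σ y - y ∈ w` for all `y ∈ 𝓞 L`. Extend `σ` to an automorphism `σ'` of `Om` over `K`
(`AlgEquiv.liftNormal`), regard it as an element of `Gal(Om/ℚ)` (`AlgEquiv.restrictScalars`), and apply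
`S_EIne` to `L.restrictScalars ℚ`, `P`, `σ'`: there is `τ` in the inertia group of `P` with `τ = σ'` on
`L`. So `τ` fixes `K`, hence `τ b = b` and `σ b = b`, so `σ = 1`. USES `S_EIne`, `S_EUn`. -/
def S_EUnO : Prop :=
  ∀ (K : IntermediateField ℚ Om) [NumberField K] (p : ℕ) [Fact p.Prime] (ζ b : Om),
    IsPrimitiveRoot ζ p → ζ ∈ K → ∀ hb : b ^ p ∈ K, b ≠ 0 →
    ∀ P : Ideal ZZ, P.IsPrime →
      (∀ σ ∈ P.inertia Gal(Om/ℚ), σ ∈ K.fixingSubgroup → σ b = b) →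
      ∀ v : HeightOneSpectrum (𝓞 K),
        (∀ y ∈ v.asIdeal, ∃ y' ∈ P, (y' : Om) = ((y : K) : Om)) →
        ∃ γ : ℤᵐ⁰, v.valuation K ⟨b ^ p, hb⟩ = γ ^ p

/-- (120 lines) **The primes above `p`.** PROOF. Let `v` be the prime of `𝓞 K` below `w` (not `⊥`:
it contains `p`). By `IsCyclotomicExtension.Rat.ramificationIdx_eq` (with `n = p ^ (k + 1) * f`) the
ramification indices over `ℤ` are `p ^ (n + 1) * (p - 1)` for `w` and `p ^ n * (p - 1)` for `v`, so by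
multiplicativity (`Ideal.ramificationIdx_tower` and its variants) the ramification index of `w` over `v`
is `p`. By `HeightOneSpectrum.valuation_liesOver`, `w (algebraMap K L β) = (v β) ^ p`. -/
def S_ERp : Prop :=
  ∀ (p f n : ℕ) [Fact p.Prime] [NeZero f], ¬ p ∣ f →
    ∀ (K L : Type) [Field K] [NumberField K] [Field L] [NumberField L] [Algebra K L]
      [IsCyclotomicExtension {f * p ^ (n + 1)} ℚ K] [IsCyclotomicExtension {f * p ^ (n + 2)} ℚ L],
      ∀ (β : K) (w : HeightOneSpectrum (𝓞 L)), (p : 𝓞 L) ∈ w.asIdeal →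
        ∃ γ : ℤᵐ⁰, w.valuation L (algebraMap K L β) = γ ^ p

/-- (100 lines) **From an ideal of `K` to `ZZ`.** PROOF. Let `s'` be the image of `s` in `Om`. From the
hypothesis: every product of `p` elements of `s` is an `𝓞 K`-multiple of `β`, and `β` is an
`𝓞 K`-combination of products of `p` elements of `s` (`Submodule.span_pow`: the `p`-th power of the span
is the span of the set of the products of `p` elements). (1) For `t ∈ s'`: `t ^ p = y * b ^ p` with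
`y ∈ ZZ`, so `(t / b) ^ p` is integral, hence `t / b` is integral (`IsIntegral.of_pow`) and
`t ∈ span ZZ {b}`. (2) Let `I` be the `ZZ`-submodule of `Om` spanned by the `t / b`, `t ∈ s'`. By (1) it is
contained in `ZZ` (`I ≤ 1`), so `I ^ p ≤ I` (`p ≥ 1`). And `1 = b ^ p / b ^ p ∈ I ^ p`, since `β = b ^ p` is a
combination of products of `p` elements of `s'`. So `1 ∈ I`, that is `b ∈ span ZZ s'`. -/
def S_EOm : Prop :=
  ∀ (K : IntermediateField ℚ Om) [NumberField K] (p : ℕ), 0 < p → ∀ b : Om, b ≠ 0 →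
    ∀ (β : K) (s : Finset K), (β : Om) = b ^ p →
      (Submodule.span (𝓞 K) (s : Set K)) ^ p = Submodule.span (𝓞 K) {β} → IsId K b

/-- (150 lines) **`b` generates an ideal of `K_(n+1)`.** PROOF. Let `K' = Cy (f * p ^ (n + 2))`, a number
field which contains `Cy (f * p ^ (n + 1))` (`S_ECy`) and a primitive `p`-th root of unity, and
`β = b ^ p ∈ K'`. By `S_EPw` and `S_EOm` it is enough to show that `v β` is a `p`-th power in `ℤᵐ⁰` for every
`v : HeightOneSpectrum (𝓞 K')`. If `p ∈ v.asIdeal`: `S_ERp` with `K = Cy (f * p ^ (n + 1))`, `L = K'` and the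
inclusion. If `p ∉ v.asIdeal`: choose a prime `P` of `ZZ` which contains the image of `v.asIdeal` and does
not contain `p` and is not `⊥`: `ZZ` is integral over `𝓞 K'` (`Ideal.exists_ideal_over_prime_of_isIntegral`,
`Ideal.exists_ideal_liesOver_maximal_of_isIntegral`), take `P` with preimage `v.asIdeal`. Then `S_EUnO`.
USES `S_ECy`, `S_EPw`, `S_EUnO`, `S_ERp`, `S_EOm`. -/
def S_EId : Prop :=
  ∀ (p f : ℕ) [Fact p.Prime], 0 < f → ¬ p ∣ f → ∀ (n : ℕ) (b : Om), b ≠ 0 →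
    b ^ p ∈ Cy (f * p ^ (n + 1)) →
    (∀ P : Ideal ZZ, P.IsPrime → P ≠ ⊥ → (p : ZZ) ∉ P → ∀ σ ∈ P.inertia Gal(Om/ℚ),
      σ ∈ (Cy (f * p ^ (n + 2))).fixingSubgroup → σ b = b) →
    IsId (Cy (f * p ^ (n + 2))) b

/-- (60 lines) **Inertia elements outside `p` fix `K_∞` if they fix the `f`-th roots of unity.**
PROOF. `σ` fixes every root of unity `y` with `y ^ p ^ n = 1`: see `InT.lean` (`MuZ`), the lemma
`InTAux.root_one` and the first part of the proof of `c_InT`. Let `z ^ (f * p ^ n) = 1`. Since `f` and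
`p ^ n` are coprime there are integers `u, v` with `u * f + v * p ^ n = 1`, and
`z = (z ^ f) ^ u * (z ^ p ^ n) ^ v`; `z ^ f` is a `p ^ n`-th root of unity and `z ^ p ^ n` is an `f`-th
root of unity, both are fixed by `σ`. -/
def S_EIn : Prop :=
  ∀ (p f : ℕ), p.Prime → 0 < f → ¬ p ∣ f → ∀ P : Ideal ZZ, P.IsPrime → (p : ZZ) ∉ P →
    ∀ σ ∈ P.inertia Gal(Om/ℚ), (∀ z : Om, z ^ f = 1 → σ z = z) → σ ∈ MM p f

/-- (120 lines) **The square of `B` is in `K_∞`.** PROOF. Let `w = e / J e`, `v = w ^ p`. Since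
`w = (B / J B) / (k / J k)`, `v = (B ^ p / J (B ^ p)) / (k / J k) ^ p` is in `K_∞` (`S_ECy` (5)). `e` and
`(J e)⁻¹ = J (e⁻¹)` are integral, so `v` is integral, and `v * J v = 1` because `J * J = 1`. By `S_EJ` there
is `N > 0` with `v ^ N = 1`, so `w ^ (p * N) = 1`; write `p * N = p ^ s * N'` with `p ∤ N'`. Let `τ ∈ M` and
`t = τ w / w`. `τ` fixes `w ^ N'` because `IsRt p f (w ^ N')` (`(w ^ N') ^ (f * p ^ s) = 1`), so `t ^ N' = 1`;
and `τ` fixes `w ^ p = v ∈ K_∞` (`S_ECy` (7)), so `t ^ p = 1`. As `p` and `N'` are coprime, `t = 1`: `τ w = w`.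
Finally `B ^ 2 = (B * J B) * (k / J k) * w`, and `τ` fixes `B * J B` (its `p`-th power is `1`, so it is
`IsRt`), `k / J k ∈ K_∞` and `w`. USES `S_ECy`, `S_EJ`. -/
def S_EKr : Prop :=
  ∀ (p f : ℕ) [Fact p.Prime], 0 < f → ∀ J : Gal(Om/ℚ), IsCC J → ∀ B k e : Om,
    k ∈ KI p f → k ≠ 0 → IsUn e → B = k * e → B ^ p ∈ KI p f → (B * J B) ^ p = 1 →
    ∀ τ ∈ MM p f, τ (B ^ 2) = B ^ 2

/-- (200 lines) **The Stickelberger relation for a character.** PROOF. Let `m = f * p ^ (n + 1)` and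
`B = ∏ a ∈ Un m, ((σ a)⁻¹ b) ^ w_a`, `w_a = c * a / m`; `B = k * e` with `k ∈ Cy m`, `k ≤ K_∞`, `e` a unit.
(1) `B ^ p = ∏ ((σ a)⁻¹ (b ^ p)) ^ w_a ∈ Cy m ≤ K_∞`. (2) `(B * J B) ^ p = 1`: it is enough that
`(σ a)⁻¹ b * J ((σ a)⁻¹ b)` is a `p`-th root of unity. Let `ν = σ a * J * (σ a)⁻¹ * J⁻¹`; it fixes every root
of unity `z` with `IsRt p f z` (`J` inverts all of them), so `ν ∈ M` and `ν b = ζ ^ i * b`. Then
`J ((σ a)⁻¹ b) = (σ a)⁻¹ (ν (J b)) = (σ a)⁻¹ ((ν b)⁻¹) = ((σ a)⁻¹ (ζ ^ i))⁻¹ * ((σ a)⁻¹ b)⁻¹`, and the first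
factor is a `p`-th root of unity. (3) By `S_EKr`, `τ (B ^ 2) = B ^ 2` for `τ ∈ M`. (4) For `τ ∈ M` put
`g_a = g (σ a * τ * (σ a)⁻¹)`; `σ a * τ * (σ a)⁻¹ ∈ M`. So
`τ ((σ a)⁻¹ b) = (σ a)⁻¹ ((σ a * τ * (σ a)⁻¹) b) = ((σ a)⁻¹ ζ) ^ g_a.val * (σ a)⁻¹ b`, and
`(σ a)⁻¹ ζ = ζ ^ a'` with `a' = ((a : ZMod p)⁻¹).val`, since `σ a (ζ ^ a') = ζ ^ (a' * a) = ζ`
(`ζ ^ m = 1` as `p ∣ m`; `a` is prime to `p`). Hence `τ B = ζ ^ S * B` with
`S = ∑ a ∈ Un m, a' * g_a.val * w_a`, and by (3), `B ≠ 0`: `ζ ^ (2 * S) = 1`, `p ∣ 2 * S`, `p ∣ S` (`p` odd).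
Modulo `p` this is the assertion. USES `S_ECy`, `S_EJ`, `S_EKr`. -/
def S_ESt : Prop :=
  ∀ (p f : ℕ) [Fact p.Prime], p ≠ 2 → 0 < f → ∀ (g : Gal(Om/ℚ) → ZMod p) (J : Gal(Om/ℚ)),
    IsCC J → ∀ ζ b : Om, IsPrimitiveRoot ζ p → b ≠ 0 →
    (∀ σ ∈ MM p f, σ b = ζ ^ (g σ).val * b) → J b = b⁻¹ →
    ∀ n : ℕ, b ^ p ∈ Cy (f * p ^ (n + 1)) → ∀ (c : ℕ) (σ : ℕ → Gal(Om/ℚ)),
      IsFam (f * p ^ (n + 1)) σ →
      IsPr (Cy (f * p ^ (n + 1)))
        (∏ a ∈ Un (f * p ^ (n + 1)), ((σ a)⁻¹ b) ^ (c * a / (f * p ^ (n + 1)))) →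
      ∀ τ ∈ MM p f, ∑ a ∈ Un (f * p ^ (n + 1)), ((c * a / (f * p ^ (n + 1)) : ℕ) : ZMod p) *
        ((a : ZMod p)⁻¹ * g (σ a * τ * (σ a)⁻¹)) = 0

/-- (150 lines) **The odd part.** PROOF. `m = f * p ^ (n + 1) ≥ 3`. (1) `g (ν * τ * ν⁻¹) = g τ` for `τ ∈ M` and
`ν` which fixes the `m`-th roots of unity: `ν b = ω * b` with `ω ^ p = 1` because `ν` fixes `b ^ p ∈ Cy m`
(`S_ECy` (2)); `τ' = ν * τ * ν⁻¹ ∈ M`; `τ' (ν b) = ν (τ b) = ν (ζ ^ (g τ).val * b) = ζ ^ (g τ).val * ω * b`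
and `τ' (ν b) = τ' (ω * b) = ω * ζ ^ (g τ').val * b` (`τ'` fixes `ω`, `ν` fixes `ζ`); so
`ζ ^ (g τ).val = ζ ^ (g τ').val` and `g τ = g τ'` (`IsPrimitiveRoot.pow_inj`). (2) `g (J * τ * J⁻¹) = g τ` for
`τ ∈ M`: `g` is additive on `U`, `J ∈ U`. (3) For `a ∈ Un m` also `m - a ∈ Un m` (`0 < a`), and
`ν = σ (m - a) * (σ a)⁻¹ * J⁻¹` fixes the `m`-th roots of unity: `σ (m - a) z = z ^ (m - a) = (z ^ a)⁻¹ =
J (σ a z)`. As `σ (m - a) = ν * J * σ a`, (1) and (2) give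
`g (σ (m - a) * τ * (σ (m - a))⁻¹) = g (σ a * τ * (σ a)⁻¹)` for `τ ∈ M` (`σ a * τ * (σ a)⁻¹ ∈ M`). (4) The map
`a ↦ m - a` is an involution of `Un m`, and `((m - a : ℕ) : ZMod p)⁻¹ = - (a : ZMod p)⁻¹` (`p ∣ m`), so the sum
is equal to its negative; `p` is odd, so it is `0`. USES `S_ECy`. -/
def S_EOdd : Prop :=
  ∀ (p f : ℕ) [Fact p.Prime], p ≠ 2 → 0 < f → ∀ (Ls : Set (Subgroup Gal(Om/ℚ))),
    ∀ g ∈ VV p Ls (UU p f), ∀ J : Gal(Om/ℚ), (∀ z : Om, IsRt p f z → J z = z⁻¹) →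
    ∀ ζ b : Om, IsPrimitiveRoot ζ p → b ≠ 0 → (∀ σ ∈ MM p f, σ b = ζ ^ (g σ).val * b) →
    ∀ n : ℕ, b ^ p ∈ Cy (f * p ^ (n + 1)) → ∀ σ : ℕ → Gal(Om/ℚ), IsFam (f * p ^ (n + 1)) σ →
      ∀ τ ∈ MM p f, ∑ a ∈ Un (f * p ^ (n + 1)),
        (a : ZMod p)⁻¹ * g (σ a * τ * (σ a)⁻¹) = 0

/-!
## Assembly (module `E/Asm.lean`)

`theorem tEAsm : S_ECy → S_EJ → S_EGen → S_EId → S_EIn → S_ESt → S_EOdd → S_ST → S_SV`.
Let `J` be from `S_EJ`, `ζ` a primitive `p`-th root of unity, `b` from `S_EGen`. `b ^ p` is fixed by `M`, so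
`b ^ p ∈ Cy (f * p ^ (n1 + 1))` for some `n1` (`S_ECy` (8)). Let `P` be a prime, not `⊥`, `p ∉ P`, and
`σ ∈ P.inertia` which fixes `Cy (f * p ^ (n1 + 2))`: `σ` fixes the `f`-th roots of unity, so `σ ∈ M` (`S_EIn`)
and `g σ = 0` because `g ∈ VV p (LocO p) U`, so `σ b = b`. By `S_EId`, `IsId (Cy (f * p ^ (n1 + 2))) b`. Take
`n0 = n1 + 1`. For `n ≥ n0`: `IsId (Cy m) b`, `m = f * p ^ (n + 1)` (the field becomes larger), and
`b ^ p ∈ Cy m`. `S_ST` gives `IsPr`, and `S_ESt`, `S_EOdd` give the assertion for `τ ∈ M`, because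
`wt m c a = 2 * (c * a / m) - (c - 1)`. If `τ ∈ U` is not in `M` then `τ = μ * J`, `μ = τ * J⁻¹ ∈ M`, and
`g (σ a * τ * (σ a)⁻¹) = g (σ a * μ * (σ a)⁻¹) + g (σ a * J * (σ a)⁻¹)`, where the last term is `0` because
`(σ a * J * (σ a)⁻¹) ^ 2 = 1` and it is in `U` (`U` is normal).
-/

end Pool.Agent.FW
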