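import Pool.Agent.Lib.FW.SpecFr
import Pool.Agent.Lib.FW.SpecE

/-!
# FW, stage 2, part R4: Artin's crossing with cyclotomic fields

Every `S_...` is a statement with a complete proof in its docstring, to be proved in its own module;
other statements are used only if they are named as hypotheses.
-/

open scoped Pointwise nonZeroDivisors

noncomputable section

namespace Pool.Agent.FW

open Pool.Agent.MuZ NumberField IsDedekindDomain

/-- (150 lines) **Inertia and roots of unity.** Uses `S_Ine`, `S_ECy`. `r` is a prime number in `P`, `m'` prime to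
`r`: the inertia group of `P` acts on the `r ^ e`-th roots of unity through all of `(ℤ/r^e)ˣ`, trivially on
the `m'`-th ones.
PROOF. Let `n = m' r ^ e`, `L = Cy m'`, `L' = Cy n` (finite by `S_ECy` (1), `L ≤ L'`). There is `s ∈ Gal(Om/ℚ)` with
`s z = z ^ a` for `z ^ (r ^ e) = 1` and `s z = z` for `z ^ m' = 1`: choose `c ≡ a mod r ^ e`, `c ≡ 1 mod m'`,
prime to `n`; a primitive `n`-th root of unity `ζ` and `ζ ^ c` have the same minimal polynomial (the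
cyclotomic polynomial is irreducible; see the proofs of `FW/D/Lift.lean`), so some `s` maps `ζ` to `ζ ^ c`, hence
`z ↦ z ^ c` on all `n`-th roots of unity. Apply `S_Ine` to `L ≤ L'`, `P`, `s`: `s ∈ L.fixingSubgroup`,
`s L' ⊆ L'` (`S_ECy` (2), (3)). We need `s y - y ∈ P` for `y ∈ ZZ` with `y ∈ L'`. The ring of integers of `L'`
is `ℤ[ζ]` (`IsCyclotomicExtension.Rat.isIntegralClosure_adjoin_singleton`), so `y` is a polynomial in `ζ` with
integer coefficients, and it is enough (the set of the `y ∈ ZZ` with `s y - y ∈ P` is a subring) that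
`s ζ - ζ ∈ P`. Write `ζ = ζ₁ ζ₂` with `ζ₁ ^ m' = 1`, `ζ₂ ^ (r ^ e) = 1` (`m'`, `r ^ e` coprime): `s ζ - ζ = ζ₁ (ζ₂ ^ a - ζ₂)`
and `ζ₂ ≡ 1 mod P` because `(ζ₂ - 1) ^ (r ^ e) ≡ ζ₂ ^ (r ^ e) - 1 = 0 mod r` (`sub_pow_char_pow` in the ring
`ZZ ⧸ P` of characteristic `r`, a domain), so `ζ₂ ^ a - ζ₂ ≡ 0`. So there is `σ ∈ P.inertia` which agrees with `s`
on `L'`, which contains the roots of unity in question. -/
def S_R4I : Prop :=
  S_Ine → S_ECy → ∀ (r m' e a : ℕ), r.Prime → 0 < m' → ¬ r ∣ m' → ¬ r ∣ a →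
    ∀ P : Ideal ZZ, P.IsPrime → (r : ZZ) ∈ P →
    ∃ σ ∈ P.inertia Gal(Om/ℚ), (∀ z : Om, z ^ r ^ e = 1 → σ z = z ^ a) ∧
      ∀ z : Om, z ^ m' = 1 → σ z = z

/-- (150 lines) **Independence.** Uses `S_Ram` and `hI`, the conclusion of `S_R4I`. The first part of `S_R4`.
PROOF. Let `B` be from `S_Ram` for `L = K`. (1) CLAIM: for `m` prime to `B` and `t` prime to `m` there is
`ρ ∈ K.fixingSubgroup` with `g ρ = 0` and `ρ z = z ^ t` for `z ^ m = 1`. Induction on `m` over its prime powers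
(`Nat.recOnPosPrimePosCoprime` or strong induction): `m = r ^ e m'`, `r ∤ m'`, `e ≥ 1`. Let `P` be a prime of `ZZ`
with `r ∈ P` (exists: `ZZ` is integral over `ℤ`), then `B ∉ P` (`r` and `B` are coprime, otherwise `1 ∈ P`), so
`P.inertia ≤ K.fixingSubgroup`; `hI` gives `σ ∈ P.inertia` acting as `z ↦ z ^ t` on `μ_(r^e)` and trivially
on `μ_m'`; `g σ = 0` because `g` vanishes on `P.inertia ⊓ K.fixingSubgroup` (`P ≠ ⊥` as `r ∈ P`). By
induction there is `ρ'` for `m'`, with action `z ↦ z ^ t'` on `μ_m` where we choose `t'` with `t' ≡ t mod m'` and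
`t' ≡ 1 mod r ^ e` ... to keep the action on `μ_(r^e)` under control prove instead the claim for the product over
ALL prime powers at once: for each prime `r ∣ m` let `σ_r` be from `hI` with `m' = m / r ^ e(r)`; the `σ_r` act on
`μ_m` by powers; the product of the `σ_r` (in any order, `Finset.noncommProd` or a list, or induction over a
finite set of primes `T`: there is `ρ_T` with `g ρ_T = 0` acting as `z ↦ z ^ t` on `μ_(r^e(r))` for `r ∈ T` and trivially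
on `μ_(r^e(r))` for the other `r ∣ m`) acts on every `μ_(r^e(r))` as `z ↦ z ^ t`, hence on `μ_m`, which is generated by
them. (2) `g ≠ 0`: there is `σ₁ ∈ K.fixingSubgroup` with `g σ₁ ≠ 0`, a power has `g σ₁ = 1`. It acts on `μ_m` as
`z ↦ z ^ s` with `s` prime to `m`. Let `ρ` be from (1) for `t s'`, `s s' ≡ 1 mod m`. `σ = ρ σ₁` works. -/
def S_R4A : Prop :=
  S_Ram → (∀ (r m' e a : ℕ), r.Prime → 0 < m' → ¬ r ∣ m' → ¬ r ∣ a →
    ∀ P : Ideal ZZ, P.IsPrime → (r : ZZ) ∈ P →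
    ∃ σ ∈ P.inertia Gal(Om/ℚ), (∀ z : Om, z ^ r ^ e = 1 → σ z = z ^ a) ∧
      ∀ z : Om, z ^ m' = 1 → σ z = z) →
  ∀ (p : ℕ) [Fact p.Prime] (K : IntermediateField ℚ Om) [NumberField K],
    ∀ g ∈ VV p Inr K.fixingSubgroup, g ≠ 0 → ∃ B : ℕ, 0 < B ∧
      ∀ m t : ℕ, 0 < m → m.Coprime B → t.Coprime m →
        ∃ σ ∈ K.fixingSubgroup, g σ = 1 ∧ ∀ z : Om, z ^ m = 1 → σ z = z ^ t

/-- (100 lines) **Prime numbers modulo which `N` has order a power of `p`.**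
PROOF. Let `k > k₀` with `p ^ k > C` and `k ≥ 1`, `Q = ∑ over i < p of (N ^ p ^ (k - 1)) ^ i`,
`Q (N ^ p ^ (k - 1) - 1) = N ^ p ^ k - 1`. `Q > p`. There is a prime `r ≠ p` with `r ∣ Q`: otherwise `Q` is a power of
`p`, so `p ∣ Q`, `N ^ p ^ k ≡ 1 mod p`, so `N ≡ 1 mod p` (Fermat: `N ^ p ≡ N`), `N ^ p ^ (k - 1) = 1 + p u`, and
`Q = ∑ (1 + p u) ^ i ≡ ∑ (1 + i p u) = p + p u p (p - 1) / 2 ≡ p mod p ^ 2` (`p` odd), so `p ^ 2 ∤ Q`, `Q = p`,
contradiction to `Q > p`. This `r` divides `N ^ p ^ k - 1`, so `r ∤ N` and the order of `N` modulo `r` divides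
`p ^ k`; if it divided `p ^ (k - 1)` then `N ^ p ^ (k - 1) ≡ 1 mod r`, `Q ≡ p mod r`, `r ∣ p`, `r = p`, contradiction.
So the order is `p ^ k` (`orderOf_eq_prime_pow`), it divides `r - 1`, so `r > p ^ k > C`. -/
def S_R4B : Prop :=
  ∀ (p : ℕ) [Fact p.Prime], p ≠ 2 → ∀ N k₀ C : ℕ, 2 ≤ N →
    ∃ r k : ℕ, r.Prime ∧ C < r ∧ k₀ < k ∧ ¬ r ∣ N ∧ orderOf (N : ZMod r) = p ^ k

/-- (100 lines) **The choice of `m` and `t`.** Uses `hB`, the conclusion of `S_R4B`.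
PROOF. `hB` with `k₀ = 0`, `C`: `r₁`, `k₁ ≥ 1`; `hB` with `k₀ = k₁`, the bound `max C r₁`: `r₂ ≠ r₁`, `k₂ > k₁`.
`m = r₁ r₂`. `p ∣ p ^ k₁ ∣ r₁ - 1`, so there is `t₁` of order `p` in `(ℤ/r₁)ˣ` (for instance a power of `N`: its order
is `p ^ k₁`, take `N ^ p ^ (k₁ - 1)`). Chinese remainder: `t ≡ t₁ mod r₁`, `t ≡ 1 mod r₂`, `t` is prime to `m`. Let
`t ^ i N ^ j = 1` in `(ℤ/m)ˣ` (`i`, `j` integers). Modulo `r₂`: `N ^ j = 1`, so `p ^ k₂ ∣ j`; in particular `p ∣ j` and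
`p ^ k₁ ∣ j`, and modulo `r₁` `t₁ ^ i = 1`, `p ∣ i`. -/
def S_R4D : Prop :=
  (∀ (p : ℕ) [Fact p.Prime], p ≠ 2 → ∀ N k₀ C : ℕ, 2 ≤ N →
    ∃ r k : ℕ, r.Prime ∧ C < r ∧ k₀ < k ∧ ¬ r ∣ N ∧ orderOf (N : ZMod r) = p ^ k) →
  ∀ (p : ℕ) [Fact p.Prime], p ≠ 2 → ∀ N C : ℕ, 2 ≤ N →
    ∃ m : ℕ, 0 < m ∧ (∀ q : ℕ, q.Prime → q ∣ m → C < q) ∧ ∃ t u : (ZMod m)ˣ, (u : ZMod m) = N ∧
      ∀ i j : ℤ, t ^ i * u ^ j = 1 → (p : ℤ) ∣ i ∧ (p : ℤ) ∣ j

/-- (200 lines) **Crossing, assembly.** Uses `S_FrE`, `S_FrM`, `hA` (the conclusion of `S_R4A`), `hD` (the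
conclusion of `S_R4D`).
PROOF. `B` from `hA`. Let `P`, `M` be given, `σ₀` a Frobenius element at `P` over `K` (`S_FrE`),
`N = Nat.card (𝓞 K ⧸ P.comap (iO K)) ≥ 2` (a finite field: `P ∩ 𝓞 K` is a nonzero prime). Let `l` be the prime
number in `P`. `hD` with `C = max B (max M l)`: `m`, `t`, `u`. All prime divisors of `m` are greater than `B`, `M`
(both positive) and `l`, so `m` is prime to `B`, to `M`, and `m ∉ P` (otherwise, `m` and `l` being coprime,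
`1 ∈ P`). For `σ ∈ Gal(Om/ℚ)` let `χ σ ∈ (ZMod m)ˣ` be its action on the `m`-th roots of unity
(`modularCyclotomicCharacter`, or via a primitive `m`-th root of unity: `σ z = z ^ (χ σ).val.val` for all
`z ^ m = 1`), a homomorphism. Let `D` be the subgroup of `Multiplicative (ZMod p) × (ZMod m)ˣ` generated by
`(ofAdd 1, t)` and `(ofAdd (g σ₀), u)` (`Subgroup.closure`, `Subgroup.mem_closure_pair`: its elements are
`(ofAdd (i + j g σ₀), t ^ i u ^ j)`). `H = {σ ∈ K.fixingSubgroup : (ofAdd (g σ), χ σ) ∈ D}` is a subgroup, and it is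
open: it contains the open subgroup of the `σ ∈ K.fixingSubgroup ⊓ O` which fix `μ_m`, if `g = 0` on
`K.fixingSubgroup ⊓ O`. Let `E` be the fixed field of `H`; `E.fixingSubgroup = H`
(`InfiniteGalois.fixingSubgroup_fixedField` for the closed subgroup `H`), `E` is finite over `ℚ`
(`InfiniteGalois.isOpen_iff_finite`), `K ≤ E`. Check, with `t` in the statement the number
`t.val.val`: (a) `σ ∈ H` with trivial action on `μ_m`: `(ofAdd (g σ), 1) ∈ D`: `g σ = i + j g σ₀`,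
`t ^ i u ^ j = 1`, so `p` divides `i` and `j`, `g σ = 0`. (b) `σ₀ ∈ H`: `χ σ₀ = u` by `S_FrM` (`σ₀ z = z ^ N`), and
`IsFr K P σ₀`. (c) `σ ∈ K.fixingSubgroup`, `g σ = 1`, `σ z = z ^ t`: `χ σ = t`, `(ofAdd 1, t) ∈ D`, `σ ∈ H`. -/
def S_R4E : Prop :=
  S_FrE → S_FrM →
  (∀ (p : ℕ) [Fact p.Prime] (K : IntermediateField ℚ Om) [NumberField K],
    ∀ g ∈ VV p Inr K.fixingSubgroup, g ≠ 0 → ∃ B : ℕ, 0 < B ∧
      ∀ m t : ℕ, 0 < m → m.Coprime B → t.Coprime m →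
        ∃ σ ∈ K.fixingSubgroup, g σ = 1 ∧ ∀ z : Om, z ^ m = 1 → σ z = z ^ t) →
  (∀ (p : ℕ) [Fact p.Prime], p ≠ 2 → ∀ N C : ℕ, 2 ≤ N →
    ∃ m : ℕ, 0 < m ∧ (∀ q : ℕ, q.Prime → q ∣ m → C < q) ∧ ∃ t u : (ZMod m)ˣ, (u : ZMod m) = N ∧
      ∀ i j : ℤ, t ^ i * u ^ j = 1 → (p : ℤ) ∣ i ∧ (p : ℤ) ∣ j) →
  S_R4

end Pool.Agent.FW
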