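import Pool.Agent.Lib.FW.AsmFW
import Pool.Agent.Lib.FW.R.Lie
import Pool.Agent.Lib.FW.R.FrE
import Pool.Agent.Lib.FW.R.FrU
import Pool.Agent.Lib.FW.R.NmA
import Pool.Agent.Lib.FW.R.NmC
import Pool.Agent.Lib.FW.R.NZ
import Pool.Agent.Lib.FW.R.NS
import Pool.Agent.Lib.FW.R.R5a
import Pool.Agent.Lib.FW.R.R5
import Pool.Agent.Lib.FW.M.MFin
import Pool.Agent.Lib.FW.M.MCl
import Pool.Agent.Lib.FW.M.MExU
import Pool.Agent.Lib.FW.M.MKum
import Pool.Agent.Lib.FW.M.MPow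
import Pool.Agent.Lib.FW.M.MInj
import Pool.Agent.Lib.FW.M.MOdd
import Pool.Agent.Lib.FW.M.MSm
import Pool.Agent.Lib.FW.M.MGq
import Pool.Agent.Lib.FW.M.MEx
import Pool.Agent.Lib.FW.M.MCyc
import Pool.Agent.Lib.FW.M.MBd
import Pool.Agent.Lib.FW.M.MAs
import Pool.Agent.Lib.FW.M.FUa
import Pool.Agent.Lib.FW.M.FXa
import Pool.Agent.Lib.MuZ.Pc
import Pool.Agent.Lib.MuZ.Conj
import Pool.Agent.Lib.MuZ.Orb
import Pool.Agent.Lib.MuZ.Frob
import Pool.Agent.Lib.MuZ.Pow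
import Pool.Agent.Lib.MuZ.Tot
import Pool.Agent.Lib.FW.R1.Main
import Pool.Agent.Lib.FW.R3.All
import Pool.Agent.Lib.FW.R2.ZA
import Pool.Agent.Lib.FW.R2.ZB
import Pool.Agent.Lib.FW.R2.LB
import Pool.Agent.Lib.FW.R2.PB
import Pool.Agent.Lib.FW.R2.Hom
import Pool.Agent.Lib.FW.R2.Cut
import Pool.Agent.Lib.FW.R2.Fld
import Pool.Agent.Lib.FW.SpecR4
import Pool.Agent.Lib.MuZ.Ram
import Pool.Agent.Lib.FW.R4.R4I
import Pool.Agent.Lib.FW.R4.R4A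
import Pool.Agent.Lib.FW.R4.R4B
import Pool.Agent.Lib.FW.R4.R4D
import Pool.Agent.Lib.FW.R4.R4E

/-!
# The Ferrero-Washington theorem for abelian fields: assembly
-/

open scoped Pointwise

noncomputable section

namespace Pool.Agent.FW

open Pool.Agent.MuZ NumberField IsDedekindDomain


theorem r1OK : S_R1 := tR1

theorem r2OK : S_R2 := tR2 (tCut tHom (tPB (tLB tZA tZB))) (tFld tLie tFrE)

theorem r4OK : S_R4 := tR4E tFrE tFrM (tR4A Pool.Agent.MuZ.ram (tR4I tIne tECy)) (tR4D tR4B)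

/-- **Reciprocity** for unramified characters of odd prime order. -/
theorem rec : S_REC :=
  tR5 r1OK r4OK tLie tFrE tFrU (tNS r1OK tNZ tLie tFrE)
    (tR5a r2OK r3OK tLie tFrE tFrU (tNmC tNmA) (tNS r1OK tNZ tLie tFrE))

/-- The bound of the odd unramified characters at finite level. -/
theorem mww (p f n : ℕ) [Fact p.Prime] (hp2 : p ≠ 2) (hf : 0 < f) (hpf : ¬ p ∣ f) (J : Gal(Om/ℚ))
    (hJ : IsCC J) :
    (WW p f n J).Finite ∧ (WW p f n J).ncard ≤ Nat.card (VV p (LocO p) (UU p f)) := by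
  have hm : 0 < f * p ^ (n + 1) := Nat.mul_pos hf (pow_pos (Fact.out : p.Prime).pos _)
  have h1 : FiniteDimensional ℚ (Cy (f * p ^ (n + 1))) := (tECy.1 _ hm).1
  have h2 : NumberField (Cy (f * p ^ (n + 1))) := ⟨⟩
  have h3 : Finite (VV p (LocO p) (UU p f)) := fw p f hp2 hf hpf
  have hJJ := (tEJ.2 J hJ).1
  have hj : ∀ x, Jm (f * p ^ (n + 1)) J (Jm (f * p ^ (n + 1)) J x) = x := by
    intro x
    apply RingOfIntegers.ext
    apply Subtype.ext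
    change J (J ((x : Cy (f * p ^ (n + 1))) : Om)) = _
    rw [← AlgEquiv.mul_apply, hJJ, AlgEquiv.one_apply]
  obtain ⟨ha, hb⟩ := tMCl tMFin p hp2 (Cy (f * p ^ (n + 1))) (Jm (f * p ^ (n + 1)) J) hj
  obtain ⟨hc, hd⟩ := tMOdd rec tLie tFrE tFrU tEJ p f n hp2 hf J hJ ha
  exact ⟨hc, hd.trans (hb.trans (tMInj (tMKum tEJ tMExU) (tMPow tECy tLift) p f n hp2 hf hpf J hJ h3))⟩

/-- The bound of the odd characters of `Gal(Ω/K_∞)` which are invariant under `Gal(Ω/K_n)`. -/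
theorem mgg (p f : ℕ) [Fact p.Prime] (hp2 : p ≠ 2) (hf : 0 < f) (hpf : ¬ p ∣ f) (J : Gal(Om/ℚ))
    (hJ : IsCC J) :
    ∃ N : ℕ, ∀ n : ℕ, (GG' p f n J).Finite ∧ (GG' p f n J).ncard ≤ N := by
  classical
  have hp : p.Prime := Fact.out
  obtain ⟨γ, hγ⟩ := (tLift p f hf hpf).2
  have hfd : FiniteDimensional ℚ (Cy (f * p)) := (tECy.1 _ (Nat.mul_pos hf hp.pos)).1
  obtain ⟨R, hR, hR1, hR2⟩ := Pool.Agent.MuZ.orb Pool.Agent.MuZ.frob Pool.Agent.MuZ.pow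
    Pool.Agent.MuZ.tot p p hp hp (Cy (f * p)) hfd
  refine ⟨p ^ hR.toFinset.card * Nat.card (VV p (LocO p) (UU p f)), fun n => ?_⟩
  obtain ⟨h1, h2⟩ := mww p f n hp2 hf hpf J hJ
  obtain ⟨h3, h4⟩ := tMBd Pool.Agent.MuZ.c_Pc
    (tMEx Pool.Agent.MuZ.c_PL Pool.Agent.MuZ.c_Semi Pool.Agent.MuZ.c_Val tECy tEJ tEIn)
    p f n hp2 hf hpf (γ ^ p ^ n) J hJ (tMGq tECy p f n hp2 hf hpf γ hγ) hR.toFinset
    (fun P hP => hR1 P (hR.mem_toFinset.1 hP))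
    (fun P hP hpP => by
      obtain ⟨P', hP', w, hw, h⟩ := hR2 P hP hpP
      refine ⟨P', hR.mem_toFinset.2 hP', w, ?_, h⟩
      rw [tMCyc Pool.Agent.MuZ.c_TFix p f hp2 hf hpf]
      exact hw) h1
  exact ⟨h3, h4.trans (Nat.mul_le_mul_left _ h2)⟩

/-- **Ferrero-Washington**, the fields `ℚ(μ_{f p^∞})`. -/
theorem fwm : S_FWM :=
  tMAs tCC tEJ Pool.Agent.MuZ.conj fw tMSm tMExU mgg

/-- **The theorem of Ferrero and Washington** for all abelian fields and `p` odd. -/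
theorem fwa : S_FWA :=
  tFXa fwm (tFUa Pool.Agent.MuZ.c_TFix) Pool.Agent.MuZ.res Pool.Agent.MuZ.bwd Pool.Agent.MuZ.sup

end Pool.Agent.FW
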