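import Pool.Agent.Lib.FW.A.ASum
import Pool.Agent.Lib.FW.A.APi
import Pool.Agent.Lib.FW.A.AZeta
import Pool.Agent.Lib.FW.A.AChi
import Pool.Agent.Lib.FW.A.AMem
import Pool.Agent.Lib.FW.A.ASplit
import Pool.Agent.Lib.FW.A.ASqf
import Pool.Agent.Lib.FW.A.AJac
import Pool.Agent.Lib.FW.A.ADeg
import Pool.Agent.Lib.FW.A.BGen
import Pool.Agent.Lib.FW.A.BIdx
import Pool.Agent.Lib.FW.A.BDeg
import Pool.Agent.Lib.FW.A.BCrt
import Pool.Agent.Lib.FW.A.BPr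
import Pool.Agent.Lib.FW.A.BAll
import Pool.Agent.Lib.FW.A.STK
import Pool.Agent.Lib.FW.A.CyK
import Pool.Agent.Lib.FW.A.OId
import Pool.Agent.Lib.FW.A.ST
import Pool.Agent.Lib.FW.C.Geo
import Pool.Agent.Lib.FW.C.Avg
import Pool.Agent.Lib.FW.C.Kro
import Pool.Agent.Lib.FW.C.TeiB
import Pool.Agent.Lib.FW.C.Tei
import Pool.Agent.Lib.FW.C.Emb
import Pool.Agent.Lib.FW.C.Pow
import Pool.Agent.Lib.FW.C.GG
import Pool.Agent.Lib.FW.C.HH
import Pool.Agent.Lib.FW.C.Red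
import Pool.Agent.Lib.FW.C.Two
import Pool.Agent.Lib.FW.C.Main
import Pool.Agent.Lib.FW.D.FinM
import Pool.Agent.Lib.FW.D.Pol
import Pool.Agent.Lib.FW.D.DA
import Pool.Agent.Lib.FW.D.Lift
import Pool.Agent.Lib.FW.D.Ix
import Pool.Agent.Lib.FW.D.Dist
import Pool.Agent.Lib.FW.D.Cj
import Pool.Agent.Lib.FW.D.Sm
import Pool.Agent.Lib.FW.D.Rel
import Pool.Agent.Lib.FW.D.DAs
import Pool.Agent.Lib.FW.E.Cy
import Pool.Agent.Lib.FW.E.J
import Pool.Agent.Lib.FW.E.Gen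
import Pool.Agent.Lib.FW.E.Ine
import Pool.Agent.Lib.FW.E.Pw
import Pool.Agent.Lib.FW.E.Un
import Pool.Agent.Lib.FW.E.UnO
import Pool.Agent.Lib.FW.E.Rp
import Pool.Agent.Lib.FW.E.Om
import Pool.Agent.Lib.FW.E.Id
import Pool.Agent.Lib.FW.E.In
import Pool.Agent.Lib.FW.E.Kr
import Pool.Agent.Lib.FW.E.St
import Pool.Agent.Lib.FW.E.Odd
import Pool.Agent.Lib.FW.E.Asm
import Pool.Agent.Lib.FW.F.FU
import Pool.Agent.Lib.FW.F.FX
import Pool.Agent.Lib.FW.F.KK0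
import Pool.Agent.Lib.FW.F.RN
import Pool.Agent.Lib.FW.G.Kum
import Pool.Agent.Lib.FW.G.Ine
import Pool.Agent.Lib.FW.G.Rm
import Pool.Agent.Lib.FW.G.Sel
import Pool.Agent.Lib.FW.G.KF
import Pool.Agent.Lib.FW.G.GqY
import Pool.Agent.Lib.FW.G.ExY
import Pool.Agent.Lib.FW.G.CC
import Pool.Agent.Lib.FW.G.GAs
import Pool.Agent.Lib.FW.H.HCyc
import Pool.Agent.Lib.FW.H.HQm
import Pool.Agent.Lib.FW.H.HQn
import Pool.Agent.Lib.FW.H.HLem
import Pool.Agent.Lib.FW.H.HRk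
import Pool.Agent.Lib.FW.H.HPl
import Pool.Agent.Lib.FW.H.HFx
import Pool.Agent.Lib.FW.H.HCap
import Pool.Agent.Lib.FW.H.HUn
import Pool.Agent.Lib.FW.H.HAbs
import Pool.Agent.Lib.FW.H.HInv
import Pool.Agent.Lib.FW.H.HExt
import Pool.Agent.Lib.FW.H.H94
import Pool.Agent.Lib.MuZ.Res
import Pool.Agent.Lib.MuZ.TFix
import Pool.Agent.Lib.MuZ.Sup
import Pool.Agent.Lib.MuZ.PL
import Pool.Agent.Lib.MuZ.Semi
import Pool.Agent.Lib.MuZ.Val
import Pool.Agent.Lib.MuZ.Bwd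

/-!
# The Ferrero-Washington theorem for real abelian fields: assembly
-/

noncomputable section

namespace Pool.Agent.FW

open Pool.Agent.MuZ


/-- **Stickelberger's theorem** for the full cyclotomic fields. -/
theorem st : S_ST :=
  tST tCyK tOId (tSTK tAPi
    (tADeg (tAJac (tAChi tAZeta) (tAMem tASum) (tASplit tAZeta) tASqf))
    (tBAll (tBPr tBGen tBIdx tBDeg tBCrt)))

/-- The Stickelberger elements annihilate the characters of `Gal(Ω/K_∞⁺)` unramified outside `p`. -/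
theorem sv : S_SV :=
  tEAsm tECy tEJ tEGen (tEId tECy tEPw (tEUnO tEIne tEUn) tERp tEOm) tEIn
    (tESt tECy tEJ (tEKr tECy tEJ)) (tEOdd tECy) st

/-- The non-vanishing theorem. -/
theorem nv : S_NV :=
  C.tNV (C.tMain (C.tKro C.tGeo C.tAvg) C.tTeiB (C.tEmb C.tTeiB C.tTei) (C.tHH C.tGG)
    (C.tTwo C.tTeiB (C.tHH C.tGG))) (C.tRed C.tPow C.tGG)

/-- Only finitely many characters of `Gal(Ω/K_∞⁺)`, unramified outside `p`, are invariant under `γ`. -/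
theorem gf : S_GF :=
  tGAs (fun p _ L hL => tKF tKum tIne tRm tSel Pool.Agent.MuZ.res p L hL) (by
    intro p f _ hp2 hf hpf γ hγ g hg hinv
    obtain ⟨J, hJ⟩ := tCC
    exact tExY Pool.Agent.MuZ.c_PL Pool.Agent.MuZ.c_Semi Pool.Agent.MuZ.c_Val p f hp2 hf hpf γ
      (tGqY p f hp2 hf hpf γ J hγ hJ) g hg hinv)

/-- **The theorem of Ferrero and Washington**: for `p` odd and `p ∤ f` there are only finitely many
characters of order `p` of `Gal(Ω/ℚ(μ_{f p^∞})⁺)` which are unramified outside `p`. -/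
theorem fw : S_FW :=
  tDAs (tDA tFinM tPol) tLift tIx tDist tCj tSm (tRel sv tIx) nv gf

/-- **The theorem of Ferrero and Washington** for real abelian fields. -/
theorem fwx : S_FWX :=
  tFX fw (tFU Pool.Agent.MuZ.c_TFix) Pool.Agent.MuZ.res Pool.Agent.MuZ.bwd Pool.Agent.MuZ.sup

/-- Hilbert 94. -/
theorem h94 : S_H94 :=
  tH94 (tHAbs (tHRk (tHLem tHCyc tHQm tHQn) tHQn) tHPl tHFx (tHUn tHCap)) tHInv tIne tHExt

end Pool.Agent.FW
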