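import Pool.Agent.Lib.MuZ.Spec

/-!
# The Ferrero-Washington theorem for real abelian fields: definitions

`Ω = Om` is an algebraic closure of `ℚ`, `ZZ` the ring of all algebraic integers of `Ω`,
`G = Gal(Om/ℚ)`. `p` is an odd prime, `f ≥ 1` is prime to `p`, `K_n = ℚ(μ_{f p^(n+1)})`,
`K_∞ = ⋃ K_n`, `U = Gal(Ω/K_∞⁺)`.
-/

open scoped Pointwise

noncomputable section

namespace Pool.Agent.FW

open Pool.Agent.MuZ

/-- `z` is a root of unity whose order divides `f p ^ n` for some `n`. -/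
def IsRt (p f : ℕ) (z : Om) : Prop := ∃ n : ℕ, z ^ (f * p ^ n) = 1

theorem IsRt.inv {p f : ℕ} {z : Om} (h : IsRt p f z) : IsRt p f z⁻¹ := by
  obtain ⟨n, hn⟩ := h
  exact ⟨n, by rw [inv_pow, hn, inv_one]⟩

theorem IsRt.map {p f : ℕ} {z : Om} (h : IsRt p f z) (σ : Gal(Om/ℚ)) : IsRt p f (σ z) := by
  obtain ⟨n, hn⟩ := h
  exact ⟨n, by rw [← map_pow, hn, map_one]⟩

/-- The cyclotomic field `ℚ(μ_m)` inside `Ω`. -/
def Cy (m : ℕ) : IntermediateField ℚ Om := IntermediateField.adjoin ℚ {z : Om | z ^ m = 1}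

/-- The field `K_∞ = ℚ(μ_{f p^∞})`. -/
def KI (p f : ℕ) : IntermediateField ℚ Om := IntermediateField.adjoin ℚ {z : Om | IsRt p f z}

/-- The group `Gal(Ω/K_∞)`. -/
def MM (p f : ℕ) : Subgroup Gal(Om/ℚ) where
  carrier := {σ | ∀ z : Om, IsRt p f z → σ z = z}
  mul_mem' := by
    intro a b ha hb z hz
    rw [AlgEquiv.mul_apply, hb z hz, ha z hz]
  one_mem' := fun z _ => rfl
  inv_mem' := by
    intro a ha z hz
    have h : a⁻¹ (a z) = z := by
      rw [← AlgEquiv.mul_apply, inv_mul_cancel, AlgEquiv.one_apply]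
    rw [ha z hz] at h
    exact h

/-- The group `U = Gal(Ω/K_∞⁺)`: the automorphisms which act on the roots of unity of `K_∞` as the
identity or as the inversion. -/
def UU (p f : ℕ) : Subgroup Gal(Om/ℚ) where
  carrier := {σ | (∀ z : Om, IsRt p f z → σ z = z) ∨ ∀ z : Om, IsRt p f z → σ z = z⁻¹}
  mul_mem' := by
    rintro a b (ha | ha) (hb | hb)
    · exact Or.inl fun z hz => by rw [AlgEquiv.mul_apply, hb z hz, ha z hz]
    · exact Or.inr fun z hz => by rw [AlgEquiv.mul_apply, hb z hz, ha _ hz.inv]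
    · exact Or.inr fun z hz => by rw [AlgEquiv.mul_apply, hb z hz, ha z hz]
    · exact Or.inl fun z hz => by rw [AlgEquiv.mul_apply, hb z hz, ha _ hz.inv, inv_inv]
  one_mem' := Or.inl fun z _ => rfl
  inv_mem' := by
    rintro a (ha | ha)
    · refine Or.inl fun z hz => ?_
      have h : a⁻¹ (a z) = z := by
        rw [← AlgEquiv.mul_apply, inv_mul_cancel, AlgEquiv.one_apply]
      rw [ha z hz] at h
      exact h
    · refine Or.inr fun z hz => ?_
      have h : a⁻¹ (a z⁻¹) = z⁻¹ := by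
        rw [← AlgEquiv.mul_apply, inv_mul_cancel, AlgEquiv.one_apply]
      rw [ha _ hz.inv, inv_inv] at h
      exact h

theorem MM_le_UU (p f : ℕ) : MM p f ≤ UU p f := fun _ h => Or.inl h

/-- `J` is a complex conjugation: it corresponds to the complex conjugation for some embedding of `Ω`
into the complex numbers. -/
def IsCC (J : Gal(Om/ℚ)) : Prop := ∃ φ : Om →+* ℂ, ∀ x : Om, φ (J x) = (starRingEnd ℂ) (φ x)

/-- `e` is a unit of the ring of all algebraic integers. -/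
def IsUn (e : Om) : Prop := e ≠ 0 ∧ IsIntegral ℤ e ∧ IsIntegral ℤ e⁻¹

/-- `β` generates the extension to `ZZ` of a fractional ideal of `L`. (For a number field `L` these
`β`, up to units, correspond to the fractional ideals of `L`, because every ideal of `L` becomes
principal in `ZZ`.) -/
def IsId (L : IntermediateField ℚ Om) (β : Om) : Prop :=
  β ≠ 0 ∧ ∃ s : Finset Om, (∀ x ∈ s, x ∈ L) ∧
    Submodule.span ZZ (s : Set Om) = Submodule.span ZZ ({β} : Set Om)

/-- `β` is the product of a nonzero element of `L` and a unit of `ZZ`. (The group of the `β` with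
`IsId L β` modulo this subgroup is the class group of `L`.) -/
def IsPr (L : IntermediateField ℚ Om) (β : Om) : Prop :=
  ∃ k ∈ L, ∃ e : Om, k ≠ 0 ∧ IsUn e ∧ β = k * e

/-- The local groups outside `p`: the inertia groups of all primes which do not lie above `p`. -/
def LocO (p : ℕ) : Set (Subgroup Gal(Om/ℚ)) :=
  {Λ | ∃ P : Ideal ZZ, P.IsPrime ∧ P ≠ ⊥ ∧ (p : ZZ) ∉ P ∧ Λ = P.inertia Gal(Om/ℚ)}

/-- The numbers prime to `m` in `[0, m)`. -/
def Un (m : ℕ) : Finset ℕ := (Finset.range m).filter fun a => a.Coprime m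

/-- The family `σ` of automorphisms acts on the `m`-th roots of unity by `σ_a z = z ^ a` for all `a`
prime to `m` in `[0, m)`. -/
def IsFam (m : ℕ) (σ : ℕ → Gal(Om/ℚ)) : Prop := ∀ a ∈ Un m, ∀ z : Om, z ^ m = 1 → σ a z = z ^ a

/-- The coefficients `2 ⌊c a / m⌋ - (c - 1)` of the (twisted) Stickelberger element. -/
def wt (m c a : ℕ) : ℤ := 2 * ((c * a / m : ℕ) : ℤ) - ((c : ℤ) - 1)

/-- The number `a` in `[0, f p^(n+1))` with `a ≡ b mod f` and `a ≡ T(η) (1 + p)^i mod p^(n+1)`, where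
`T(η) ≡ η ^ (p ^ n)` is the Teichmüller representative. -/
def ix (p f n : ℕ) (b : (ZMod f)ˣ) (η : (ZMod p)ˣ) (i : ℕ) : ℕ := by
  classical
  exact if h : f.Coprime (p ^ (n + 1)) then
    (Nat.chineseRemainder h (b : ZMod f).val ((η : ZMod p).val ^ p ^ n * (1 + p) ^ i) : ℕ)
  else 0

/-- `γ` fixes the roots of unity of order dividing `f p` and acts on the `p`-power roots of unity by
`z ↦ z ^ (1 + p)`. -/
def IsGam (p f : ℕ) (γ : Gal(Om/ℚ)) : Prop :=
  (∀ z : Om, z ^ (f * p) = 1 → γ z = z) ∧ ∀ (z : Om) (n : ℕ), z ^ p ^ n = 1 → γ z = z ^ (1 + p)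

/-- `k` is a real abelian field: it is contained in `ℚ(μ_m)⁺` for some `m ≥ 1` (every automorphism which
acts on the `m`-th roots of unity as the identity or as the inversion fixes `k`). -/
def RealAb (k : IntermediateField ℚ Om) : Prop :=
  ∃ m : ℕ, 0 < m ∧ ∀ σ : Gal(Om/ℚ),
    ((∀ z : Om, z ^ m = 1 → σ z = z) ∨ ∀ z : Om, z ^ m = 1 → σ z = z⁻¹) → σ ∈ k.fixingSubgroup

/-! ## The interface of the parts -/

/-- **Part A + B (Stickelberger).** The Stickelberger elements annihilate the class group of `ℚ(μ_m)`. -/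
def S_ST : Prop :=
  ∀ (m c : ℕ), 2 ≤ c → c < m → ∀ σ : ℕ → Gal(Om/ℚ), IsFam m σ →
    ∀ β : Om, IsId (Cy m) β → IsPr (Cy m) (∏ a ∈ Un m, ((σ a)⁻¹ β) ^ (c * a / m))

/-- **Part E (Kummer).** The Stickelberger elements annihilate the characters of `U` which are
unramified outside `p`. -/
def S_SV : Prop :=
  ∀ (p f : ℕ) [Fact p.Prime], p ≠ 2 → 0 < f → ¬ p ∣ f → ∀ g ∈ VV p (LocO p) (UU p f),
    ∃ n0 : ℕ, ∀ n ≥ n0, ∀ c : ℕ, 2 ≤ c → c < f * p ^ (n + 1) → ∀ σ : ℕ → Gal(Om/ℚ),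
      IsFam (f * p ^ (n + 1)) σ → ∀ τ ∈ UU p f,
        ∑ a ∈ Un (f * p ^ (n + 1)), ((wt (f * p ^ (n + 1)) c a : ℤ) : ZMod p) *
          ((a : ZMod p)⁻¹ * g (σ a * τ * (σ a)⁻¹)) = 0

/-- **Part C (non-vanishing).** -/
def S_NV : Prop :=
  ∀ (p f : ℕ) [Fact p.Prime] [NeZero f], p ≠ 2 → ¬ p ∣ f → ∀ c : ℕ, 2 ≤ c → c.Coprime (f * p) →
    ∀ (κ : Type) [Field κ] [CharP κ p] (χ : (ZMod f)ˣ × (ZMod p)ˣ →* κˣ),
      χ (-1, -1) = -1 →
      ∃ n i : ℕ, ∑ b : (ZMod f)ˣ, ∑ η : (ZMod p)ˣ,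
        (((χ (b, η))⁻¹ : κˣ) : κ) * ((wt (f * p ^ (n + 1)) c (ix p f n b η i) : ℤ) : κ) ≠ 0

/-- **Part G.** Only finitely many characters of `U`, unramified outside `p`, are invariant under
`γ`. -/
def S_GF : Prop :=
  ∀ (p f : ℕ) [Fact p.Prime], p ≠ 2 → 0 < f → ¬ p ∣ f → ∀ γ : Gal(Om/ℚ), IsGam p f γ →
    {g | g ∈ VV p (LocO p) (UU p f) ∧ ∀ τ ∈ UU p f, g (γ⁻¹ * τ * γ) = g τ}.Finite

/-- **Part D.** The theorem of Ferrero and Washington, first form: there are only finitely many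
characters of order `p` of `Gal(Ω/K_∞⁺)` which are unramified outside `p`. -/
def S_FW : Prop :=
  ∀ (p f : ℕ) [Fact p.Prime], p ≠ 2 → 0 < f → ¬ p ∣ f → Finite (VV p (LocO p) (UU p f))

/-- **Part F.** The theorem of Ferrero and Washington for real abelian fields. -/
def S_FWX : Prop :=
  ∀ (p : ℕ) [Fact p.Prime], p ≠ 2 → ∀ k : IntermediateField ℚ Om, FiniteDimensional ℚ k →
    RealAb k → XFinGen p (cyc p k)

/-- **Part H.** If `p` does not divide the class number of the number field `F` then `F` has no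
unramified cyclic extension of degree `p` (Hilbert 94). -/
def S_H94 : Prop :=
  ∀ (p : ℕ) [Fact p.Prime], p ≠ 2 → ∀ (F : IntermediateField ℚ Om) [NumberField F],
    ¬ p ∣ NumberField.classNumber F → ∀ g ∈ VV p (Loc p) F.fixingSubgroup, g = 0

end Pool.Agent.FW
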