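import Pool.Agent.Lib.FW.SpecD
import Pool.Agent.Lib.MuZ.ESpec

/-!
# FW, part F: real abelian fields, and the nonabelian families

Every `S_...` is a statement with a complete proof in its docstring, to be proved in its own module;
other statements are used only if they are named as hypotheses.
-/

open scoped Pointwise

noncomputable section

namespace Pool.Agent.FW

open Pool.Agent.MuZ

/-- (200 lines) **The group of `k^cyc`.** `p` odd, `k` real abelian. Uses `S_TFix`.
PROOF. Let `m` be from `RealAb k`, `m = f p ^ a` with `p ∤ f`. (1) `UU p f ≤ (cyc p k).fixingSubgroup`: the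
elements of `k ⊔ Qcyc p` are fixed by `u ∈ UU p f` because `u` fixes `k` (if `z ^ m = 1` then `IsRt p f z`, with
`n = a`, so `u` acts on the `m`-th roots of unity as the identity or as the inversion) and `Qcyc p` (definition
of `Qcyc`: `u ^ 2` fixes the `p`-power roots of unity, `m = 2`; a `z` with `z ^ p ^ n = 1` satisfies `IsRt p f z`).
(2) Let `O` be the open subgroup `(Cy (f p)).fixingSubgroup`, i.e. of the `σ` which fix the `z` with
`z ^ (f p) = 1` (`Cy (f p)` is a finite extension: it is generated by finitely many algebraic elements). Let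
`σ ∈ O` fix `Qcyc p`. By `S_TFix` `σ ^ (2 (p - 1))` fixes all `p`-power roots of unity. Let `σ z = z ^ c` on the
`p ^ N`-th roots of unity; `c ≡ 1 mod p` (as `σ` fixes the `p`-th roots) and `c ^ (2 (p - 1)) ≡ 1 mod p ^ N`;
since `p` is odd and `2 (p - 1)` is prime to `p`, and the group of the residues `≡ 1 mod p` modulo `p ^ N` has
`p ^ (N - 1)` elements, `c ≡ 1 mod p ^ N`. So `σ` fixes all `p`-power roots of unity and the `f`-th roots of
unity, hence all `z` with `IsRt p f z` (`p ∤ f`: `z` is a product), `σ ∈ MM p f ≤ UU p f`. -/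
def S_FU : Prop :=
  S_TFix → ∀ (p : ℕ) [Fact p.Prime], p ≠ 2 → ∀ k : IntermediateField ℚ Om, RealAb k →
    ∃ f : ℕ, 0 < f ∧ ¬ p ∣ f ∧ UU p f ≤ (cyc p k).fixingSubgroup ∧
      ∃ O : OpenSubgroup Gal(Om/ℚ), (cyc p k).fixingSubgroup ⊓ (O : Subgroup Gal(Om/ℚ)) ≤ UU p f

/-- (80 lines) **Ferrero-Washington for real abelian fields.** PROOF. `f`, `O` from `hFU`;
`VV p (Loc p) (UU p f) ≤ VV p (LocO p) (UU p f)` (`LocO p ⊆ Loc p`), so it is finite by `S_FW`; `S_Res` with
`U = UU p f`, `W = (cyc p k).fixingSubgroup` and `S_Bwd`, `S_Sup`. -/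
def S_FX : Prop :=
  S_FW → (∀ (p : ℕ) [Fact p.Prime], p ≠ 2 → ∀ k : IntermediateField ℚ Om, RealAb k →
    ∃ f : ℕ, 0 < f ∧ ¬ p ∣ f ∧ UU p f ≤ (cyc p k).fixingSubgroup ∧
      ∃ O : OpenSubgroup Gal(Om/ℚ), (cyc p k).fixingSubgroup ⊓ (O : Subgroup Gal(Om/ℚ)) ≤ UU p f) →
  S_Res → S_Bwd → S_Sup → S_FWX

/-- (150 lines) **No characters, no extensions.** If `Gal(Ω/F)` has no nonzero character in
`VV p (Loc p)` then `K(F) = F`. PROOF. Let `M` be admissible over `F`; show `M ≤ F`. The group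
`Q = F.fixingSubgroup / (M.fixingSubgroup)` (normal by `galois`) is finite (`fin`: it is a quotient of
`F.fixingSubgroup / (F.fixingSubgroup ⊓ E.fixingSubgroup)`, `E` finite over `ℚ`), abelian and a `p`-group. If
`Q ≠ 1` there is a surjective homomorphism `χ : Q → ZMod p` (see `Pool/Agent/Lib/MuZ/Bwd.lean` for this
step), and `g σ = χ (class of σ)` on `F.fixingSubgroup`, `0` outside, is a nonzero element of
`VV p (Loc p) F.fixingSubgroup` (continuity: it vanishes on `E.fixingSubgroup`; local groups by `unramified`,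
`split`). So `Q = 1`, every `σ ∈ F.fixingSubgroup` fixes `M`, `M ≤ F` by infinite Galois theory
(`InfiniteGalois.fixedField_fixingSubgroup`). -/
def S_KK0 : Prop :=
  ∀ (p : ℕ) [Fact p.Prime] (F : IntermediateField ℚ Om),
    (∀ g ∈ VV p (Loc p) F.fixingSubgroup, g = 0) → KK p F ≤ F

/-- (60 lines) **Real abelian fields are normal.** PROOF. Let `m` be from `RealAb k`, `x ∈ k`,
`σ ∈ Gal(Om/ℚ)`, `τ ∈ k.fixingSubgroup`. The commutator `c = τ⁻¹ σ⁻¹ τ σ` fixes all `m`-th roots of unity
(`Gal(Om/ℚ)` acts on them through the commutative group of powers), so `c ∈ k.fixingSubgroup`, and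
`σ⁻¹ τ σ = τ c` fixes `x`: `τ (σ x) = σ x`. So `σ x ∈ k`
(`InfiniteGalois.fixedField_fixingSubgroup`). -/
def S_RN : Prop :=
  ∀ k : IntermediateField ℚ Om, RealAb k → ∀ (σ : Gal(Om/ℚ)), ∀ x ∈ k, σ x ∈ k

end Pool.Agent.FW
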