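import Pool.Agent.Lib.FW.SpecI
import Pool.Agent.Lib.FW.SpecF
import Pool.Agent.Lib.MuZ.ESpec
import Pool.Agent.Lib.MuZ.Tot
import Pool.Agent.Lib.MuZ.Orb
import Pool.Agent.Lib.MuZ.Inst

/-!
# FW: positive density of the primes with vanishing invariant
-/

open scoped Pointwise Topology
open Filter

noncomputable section

namespace Pool.Agent.FW

open Pool.Agent.MuZ

/-- `Gal(Ω/ℚ)` acts transitively on the primes above `p`. -/
theorem trans_above (p : ℕ) (hp : p.Prime) (P Q : Ideal ZZ) (hP : P.IsPrime) (hQ : Q.IsPrime)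
    (hpP : (p : ZZ) ∈ P) (hpQ : (p : ZZ) ∈ Q) : ∃ ρ : Gal(Om/ℚ), Q = ρ • P := by
  obtain ⟨ρ, -, h⟩ := tot_trans ⊤ isClosed_univ P Q hP hQ (by
    intro x hx
    obtain ⟨a, rfl⟩ := Orb.isInv.isInvariant x (fun g => hx g (Subgroup.mem_top g))
    have e : algebraMap ℤ ZZ a = (a : ZZ) := by simp
    rw [e, tot_int p hp P hP hpP, tot_int p hp Q hQ hpQ])
  exact ⟨ρ, h⟩

/-- A number field is contained in a number field which is normal over `ℚ`. -/
theorem exists_normal_field (F : IntermediateField ℚ Om) (hF : FiniteDimensional ℚ F) :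
    ∃ L : IntermediateField ℚ Om, FiniteDimensional ℚ L ∧ Normal ℚ L ∧ F ≤ L := by
  refine ⟨IntermediateField.normalClosure ℚ F Om, ?_, ?_, F.le_normalClosure⟩
  · infer_instance
  · have h := normalClosure.normal ℚ F Om
    convert h
    exact Subsingleton.elim _ _

/-- `Gal(Ω/L)` is normal if `L` is. -/
theorem fix_normal' (L : IntermediateField ℚ Om) (h : Normal ℚ L) : L.fixingSubgroup.Normal := by
  have e : (DivisionRing.toRatAlgebra : Algebra ℚ L) = L.algebra' := Subsingleton.elim _ _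
  have h' : @Normal ℚ L _ _ L.algebra' := by
    rw [← e]
    exact h
  rw [← IntermediateField.restrictNormalHom_ker]
  infer_instance

theorem mem_pow_of_mem {G : Type} [Group G] (N : Subgroup G) (hN : N.Normal) (d s : G)
    (h : d⁻¹ * s ∈ N) (n : ℕ) : (d ^ n)⁻¹ * s ^ n ∈ N := by
  have h1 : (QuotientGroup.mk d : G ⧸ N) = QuotientGroup.mk s := QuotientGroup.eq.2 h
  apply QuotientGroup.eq.1
  have h2 : ((QuotientGroup.mk' N) (d ^ n)) = (QuotientGroup.mk' N) (s ^ n) := by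
    rw [map_pow, map_pow]
    exact congrArg (fun x => x ^ n) h1
  exact h2

/-- The group theoretic step: the primes above `p` do not split in `F / k`. -/
theorem nonsplit_of_dens (k F L : IntermediateField ℚ Om) (hFL : F ≤ L)
    (hL : L.fixingSubgroup.Normal) (σ : Gal(Om/ℚ))
    (hσ : ∀ τ : Gal(Om/ℚ), ∀ κ ∈ k.fixingSubgroup, ∃ n : ℕ,
      (τ * σ * τ⁻¹) ^ n * κ ∈ F.fixingSubgroup)
    (p : ℕ) (hp : p.Prime) (P : Ideal ZZ) (hP : P.IsPrime) (hpP : (p : ZZ) ∈ P)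
    (d : Gal(Om/ℚ)) (hd : d ∈ MulAction.stabilizer Gal(Om/ℚ) P)
    (hdσ : d⁻¹ * σ ∈ L.fixingSubgroup) :
    ∀ Q : Ideal ZZ, Q.IsPrime → (p : ZZ) ∈ Q → ∀ κ ∈ k.fixingSubgroup,
      ∃ τ ∈ F.fixingSubgroup, κ • Q = τ • Q := by
  intro Q hQ hpQ κ hκ
  obtain ⟨ρ, hρ⟩ := trans_above p hp P Q hP hQ hpP hpQ
  have hLF : L.fixingSubgroup ≤ F.fixingSubgroup := IntermediateField.fixingSubgroup_le hFL
  obtain ⟨n, hn⟩ := hσ ρ κ⁻¹ (k.fixingSubgroup.inv_mem hκ)
  -- the conjugate elements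
  have hd' : (ρ * d * ρ⁻¹) • Q = Q := by
    rw [hρ, smul_smul, inv_mul_cancel_right, mul_smul, (show d • P = P from hd)]
  have h1 : (ρ * d * ρ⁻¹)⁻¹ * (ρ * σ * ρ⁻¹) ∈ L.fixingSubgroup := by
    have h2 := hL.conj_mem _ hdσ ρ
    have h3 : (ρ * d * ρ⁻¹)⁻¹ * (ρ * σ * ρ⁻¹) = ρ * (d⁻¹ * σ) * ρ⁻¹ := by group
    rw [h3]
    exact h2
  have h4 := mem_pow_of_mem L.fixingSubgroup hL _ _ h1 n
  have heQ : (ρ * d * ρ⁻¹) ^ n • Q = Q :=
    (MulAction.stabilizer Gal(Om/ℚ) Q).pow_mem hd' n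
  set e := (ρ * d * ρ⁻¹) ^ n with he
  set s := (ρ * σ * ρ⁻¹) ^ n with hs
  -- `κ = (s κ⁻¹)⁻¹ s`, `s = l e`
  have h5 : s * e⁻¹ ∈ L.fixingSubgroup := by
    have h6 := hL.conj_mem _ h4 e
    have h7 : e * (e⁻¹ * s) * e⁻¹ = s * e⁻¹ := by group
    rw [h7] at h6
    exact h6
  refine ⟨(s * κ⁻¹)⁻¹ * (s * e⁻¹), F.fixingSubgroup.mul_mem (F.fixingSubgroup.inv_mem hn) (hLF h5), ?_⟩
  have h8 : (s * κ⁻¹)⁻¹ * (s * e⁻¹) = κ * e⁻¹ := by group
  rw [h8, mul_smul]
  congr 1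
  rw [eq_comm, inv_smul_eq_iff, heQ]

/-- **Positive density.** -/
theorem densT
    (hI : ∀ (L : IntermediateField ℚ Om), FiniteDimensional ℚ L → Normal ℚ L → ∀ g : Gal(Om/ℚ),
      PosDens {p : ℕ | p.Prime ∧ ∃ P : Ideal ZZ, P.IsPrime ∧ (p : ZZ) ∈ P ∧
        ∃ d ∈ MulAction.stabilizer Gal(Om/ℚ) P, d⁻¹ * g ∈ L.fixingSubgroup})
    (hPos : S_IPos) (hE : ThmE) (A : IntermediateField ℚ Om → Prop)
    (hFW : ∀ (p : ℕ) [Fact p.Prime], p ≠ 2 → ∀ k : IntermediateField ℚ Om, FiniteDimensional ℚ k →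
      A k → XFinGen p (cyc p k))
    (h94 : S_H94) (hKK0 : S_KK0)
    (k F : IntermediateField ℚ Om) (hF : FiniteDimensional ℚ F) (hkF : k ≤ F) (σ : Gal(Om/ℚ))
    (hσ : ∀ τ : Gal(Om/ℚ), ∀ κ ∈ k.fixingSubgroup, ∃ n : ℕ,
      (τ * σ * τ⁻¹) ^ n * κ ∈ F.fixingSubgroup) :
    PosDens {p : ℕ | p.Prime ∧ KK p (cyc p F) = F ⊔ KK p (cyc p k) ∧
      (XFinGen p (cyc p F) ↔ XFinGen p (cyc p k)) ∧ (A k → XFinGen p (cyc p F))} := by
  classical
  obtain ⟨L, hL, hLn, hFL⟩ := exists_normal_field F hF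
  have : NumberField F := ⟨⟩
  have hk : FiniteDimensional ℚ k :=
    FiniteDimensional.of_injective (IntermediateField.inclusion hkF).toLinearMap
      (IntermediateField.inclusion hkF).injective
  have hLN : L.fixingSubgroup.Normal := fix_normal' L hLn
  have hcl : NumberField.classNumber F ≠ 0 := (NumberField.classNumber_pos F).ne'
  have hdeg : Module.finrank ℚ F ≠ 0 := Module.finrank_pos.ne'
  refine hPos _ _ ({p | p ∣ 2} ∪ {p | p ∣ NumberField.classNumber F} ∪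
    {p | p ∣ Module.finrank ℚ F}) (hI L hL hLn σ) ?_ ?_ ?_
  · refine ((Set.Finite.union ?_ ?_).union ?_)
    · exact (Nat.divisors 2).finite_toSet.subset fun p hp => by
        simpa [Nat.mem_divisors] using hp
    · exact (Nat.divisors (NumberField.classNumber F)).finite_toSet.subset fun p hp => by
        simpa [Nat.mem_divisors, hcl] using hp
    · exact (Nat.divisors (Module.finrank ℚ F)).finite_toSet.subset fun p hp => by
        simpa [Nat.mem_divisors, hdeg] using hp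
  · rintro p ⟨hp, P, hP, hpP, d, hd, hdσ⟩ hpB
    have : Fact p.Prime := ⟨hp⟩
    have hp2 : p ≠ 2 := by
      rintro rfl
      exact hpB (Or.inl (Or.inl (dvd_refl 2)))
    have hph : ¬ p ∣ NumberField.classNumber F := fun h => hpB (Or.inl (Or.inr h))
    have hpd : ¬ p ∣ Module.finrank ℚ F := fun h => hpB (Or.inr h)
    have hns := nonsplit_of_dens k F L hFL hLN σ hσ p hp P hP hpP d hd hdσ
    have hKF : KK p F ≤ F := hKK0 p F (h94 p hp2 F hph)
    obtain ⟨h1, h2⟩ := hE p k F hF hkF (fun h => hpd (dvd_trans (dvd_mul_right _ _) h)) hns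
      (hKF.trans le_sup_left)
    exact ⟨hp, h1, h2, fun hA => h2.2 (hFW p hp2 k hk hA)⟩
  · rintro p ⟨hp, -⟩
    exact hp.pos

end Pool.Agent.FW
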