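import Pool.Agent.Lib.FW.AsmFW2
import Pool.Agent.Lib.FW.Dens
import Pool.Agent.Lib.FW.I.ISum
import Pool.Agent.Lib.FW.I.IAnD
import Pool.Agent.Lib.FW.I.ID1
import Pool.Agent.Lib.FW.I.IRam
import Pool.Agent.Lib.FW.I.ICnt
import Pool.Agent.Lib.FW.I.IMob
import Pool.Agent.Lib.FW.I.ILim
import Pool.Agent.Lib.FW.I.IOm
import Pool.Agent.Lib.FW.I.IPos
import Pool.Agent.Lib.MuZ.EAsm
import Pool.Agent.Lib.MuZ.CrA
import Pool.Agent.Lib.MuZ.CrB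
import Pool.Agent.Lib.MuZ.CrC
import Pool.Agent.Lib.MuZ.FixV
import Pool.Agent.Lib.MuZ.QuoC
import Pool.Agent.Lib.MuZ.Dec
import Pool.Agent.Lib.MuZ.Core
import Pool.Agent.Lib.MuZ.Tors
import Pool.Agent.Lib.MuZ.VIff
import Pool.Agent.Lib.MuZ.H0
import Pool.Agent.Lib.MuZ.FldQ
import Pool.Agent.Lib.MuZ.KKE
import Pool.Agent.Lib.MuZ.Pc
import Pool.Agent.Lib.MuZ.Sub
import Pool.Agent.Lib.MuZ.PL
import Pool.Agent.Lib.MuZ.Val
import Pool.Agent.Lib.MuZ.Semi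
import Pool.Agent.Lib.MuZ.TFix
import Pool.Agent.Lib.MuZ.QZ
import Pool.Agent.Lib.MuZ.InT
import Pool.Agent.Lib.MuZ.Conj
import Pool.Agent.Lib.MuZ.Sup
import Pool.Agent.Lib.MuZ.Fld
import Pool.Agent.Lib.MuZ.Fwd
import Pool.Agent.Lib.MuZ.Bwd

/-!
# FW: the final theorems in the internal language
-/

open scoped Pointwise Topology

noncomputable section

namespace Pool.Agent.FW

open Pool.Agent.MuZ

/-- Theorem E. -/
theorem thE : ThmE :=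
  thmE e_CrA e_CrB e_CrC e_FixV e_QuoC e_Dec e_Core e_Tors e_VIff e_H0 e_FldQ e_KKE c_Semi c_Val
    c_Sub c_PL c_Pc c_QZ c_TFix c_InT Pool.Agent.MuZ.conj Pool.Agent.MuZ.sup Pool.Agent.MuZ.fld
    Pool.Agent.MuZ.fwd Pool.Agent.MuZ.bwd

/-- Frobenius: primes with a given cyclic decomposition group, in the algebraic closure. -/
theorem iOm : ∀ (L : IntermediateField ℚ Om), FiniteDimensional ℚ L → Normal ℚ L → ∀ g : Gal(Om/ℚ),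
    PosDens {p : ℕ | p.Prime ∧ ∃ P : Ideal ZZ, P.IsPrime ∧ (p : ZZ) ∈ P ∧
      ∃ d ∈ MulAction.stabilizer Gal(Om/ℚ) P, d⁻¹ * g ∈ L.fixingSubgroup} :=
  tIOm (tILim (tIMob (tID1 tISum tIAnD) tIRam tICnt tISum))

/-- **Positive density.** -/
theorem dens (k F : IntermediateField ℚ Om) (hF : FiniteDimensional ℚ F) (hkF : k ≤ F)
    (σ : Gal(Om/ℚ)) (hσ : ∀ τ : Gal(Om/ℚ), ∀ κ ∈ k.fixingSubgroup, ∃ n : ℕ,
      (τ * σ * τ⁻¹) ^ n * κ ∈ F.fixingSubgroup) :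
    PosDens {p : ℕ | p.Prime ∧ KK p (cyc p F) = F ⊔ KK p (cyc p k) ∧
      (XFinGen p (cyc p F) ↔ XFinGen p (cyc p k)) ∧ (Ab0 k → XFinGen p (cyc p F))} :=
  densT iOm tIPos thE Ab0 (fun p _ hp2 k hk hA => fwa p hp2 k hk hA) h94 tKK0 k F hF hkF σ hσ

end Pool.Agent.FW
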