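import Pool.Agent.Lib.MuZ.PDefsC

/-!
# The definitions used in the hand-ins of MP_d0239a_nt, continued
-/

open scoped Topology
open Filter

noncomputable section

namespace Pool.Agent.MuP

/-- `k` is contained in the field of the `m`-th roots of unity for some `m ≥ 1`: every `σ` which fixes
the `m`-th roots of unity fixes `k`. (By the theorem of Kronecker and Weber these are the abelian
extensions of `ℚ`.) -/
def Cyclo (k : Fd) : Prop :=
  ∃ m : ℕ, 0 < m ∧ ∀ σ : Gam, (∀ z : Omega, z ^ m = 1 → app σ z = z) → σ ∈ gal k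

/-- `S` is a set of prime numbers of positive lower Dirichlet density: the sum of `p ^ (-s)` over
`p ∈ S` is at least `c log (1 / (s - 1))` for all `s > 1` close to `1`, for some `c > 0`. -/
def PosDens (S : Set ℕ) : Prop :=
  ∃ c : ℝ, 0 < c ∧ ∀ᶠ s in 𝓝[>] (1 : ℝ), c * Real.log (1 / (s - 1)) ≤ ∑' p : S, ((p : ℕ) : ℝ) ^ (-s)

end Pool.Agent.MuP
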