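import Pool.Agent.Lib.FW.PDefsF
import Pool.Agent.Lib.FW.Fin
import Pool.Agent.Lib.MuZ.PubE

/-!
# Comparison for the hand-in PositiveDensity
-/

open scoped Pointwise

noncomputable section

namespace Pool.Agent.MuP


theorem finDim_of_le (k F : IntermediateField ℚ MuZ.Om) (hF : FiniteDimensional ℚ F) (h : k ≤ F) :
    FiniteDimensional ℚ k :=
  FiniteDimensional.of_injective (IntermediateField.inclusion h).toLinearMap
    (IntermediateField.inclusion h).injective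

/-- Part 1. -/
theorem pub_one (k F : Fd) (hF : IsNF F) (hkF : k ≤ F) (p : ℕ) (hp : p.Prime)
    (hdeg : ¬ p * deg k ∣ deg F)
    (hspl : ∀ P Q : Pr, Above p P → ∀ σ ∈ gal k, Maps σ P Q → ∃ τ ∈ gal F, Maps τ P Q)
    (hKF : KK p F ≤ comp F (KK p k)) :
    KK p (cyc p F) = comp F (KK p (cyc p k)) ∧
      (XFinGen p (cyc p F) ↔ XFinGen p (cyc p k)) ∧
      (p ≠ 2 → Cyclo k → XFinGen p (cyc p F)) := by
  have hp' : Fact p.Prime := ⟨hp⟩
  have h := FW.thE p k F hF hkF hdeg (nonsplit_iff p k F hspl) (by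
    have h1 := hKF
    rw [KK_eq, KK_eq] at h1
    exact h1)
  rw [XFinGen_cyc_iff, XFinGen_cyc_iff, KK_eq, KK_eq, cyc_eq, cyc_eq]
  exact ⟨h.1, h.2, fun hp2 hA => h.2.2 (FW.fwa p hp2 k (finDim_of_le k F hF hkF) hA)⟩

/-- Part 2. -/
theorem pub_two (k F : Fd) (hF : IsNF F) (hkF : k ≤ F) (σ : Gam)
    (hσ : ∀ τ : Gam, ∀ κ ∈ gal k, ∃ n : ℕ, (τ * σ * τ⁻¹) ^ n * κ ∈ gal F) :
    PosDens {p : ℕ | p.Prime ∧ KK p (cyc p F) = comp F (KK p (cyc p k)) ∧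
      (XFinGen p (cyc p F) ↔ XFinGen p (cyc p k)) ∧ (Cyclo k → XFinGen p (cyc p F))} := by
  have h := FW.dens k F hF hkF σ hσ
  have e : {p : ℕ | p.Prime ∧ KK p (cyc p F) = comp F (KK p (cyc p k)) ∧
      (XFinGen p (cyc p F) ↔ XFinGen p (cyc p k)) ∧ (Cyclo k → XFinGen p (cyc p F))} =
      {p : ℕ | p.Prime ∧ MuZ.KK p (MuZ.cyc p F) =
          Max.max (α := IntermediateField ℚ (AlgebraicClosure ℚ)) F (MuZ.KK p (MuZ.cyc p k)) ∧
        (MuZ.XFinGen p (MuZ.cyc p F) ↔ MuZ.XFinGen p (MuZ.cyc p k)) ∧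
        (FW.Ab0 k → MuZ.XFinGen p (MuZ.cyc p F))} := by
    ext p
    constructor
    · rintro ⟨hp, h1, h2, h3⟩
      have hp' : Fact p.Prime := ⟨hp⟩
      rw [XFinGen_cyc_iff, XFinGen_cyc_iff] at h2
      rw [XFinGen_cyc_iff] at h3
      rw [KK_eq, KK_eq, cyc_eq, cyc_eq] at h1
      exact ⟨hp, h1, h2, h3⟩
    · rintro ⟨hp, h1, h2, h3⟩
      have hp' : Fact p.Prime := ⟨hp⟩
      refine ⟨hp, ?_, ?_, ?_⟩
      · rw [KK_eq, KK_eq, cyc_eq, cyc_eq]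
        exact h1
      · rw [XFinGen_cyc_iff, XFinGen_cyc_iff]
        exact h2
      · rw [XFinGen_cyc_iff]
        exact h3
  rw [e]
  exact h

end Pool.Agent.MuP
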