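import Pool.Agent.Lib.FW.Defs

/-!
# FW, parts A, B and ST (helper32): the theorem of Stickelberger, without Gauss sums

Part A: Jacobi sums and the factorization of primes of degree one. Part B: every ideal class is a product
of classes of primes of degree one (elementary). Part ST: `S_ST` inside `Om`.

RULES. Module X: file `Pool/Agent/Lib/FW/A/X.lean`, first line `import Pool.Agent.Lib.FW.SpecA`, then
`open scoped Pointwise NumberField`, `open Pool.Agent.MuZ`, `noncomputable section`,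
`namespace Pool.Agent.FW`, final theorem `theorem tX (h1 : S_..) .. : S_X`; the statements listed under
Uses are the hypotheses, in this order. All other declarations private.
-/

open scoped Pointwise NumberField

noncomputable section

namespace Pool.Agent.FW

open Pool.Agent.MuZ

/-! ## Definitions -/

/-- `K` is the `m`-th cyclotomic field. -/
structure IsCy (K : Type) [Field K] [NumberField K] (m : ℕ) : Prop where
  pos : 0 < m
  prim : ∃ ζ : K, IsPrimitiveRoot ζ m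
  deg : Module.finrank ℚ K = m.totient

/-- The family `σ` of automorphisms of `K` acts on the `m`-th roots of unity by `z ↦ z ^ a`. -/
def IsFamK (K : Type) [Field K] (m : ℕ) (σ : ℕ → RingAut K) : Prop :=
  ∀ a ∈ Un m, ∀ z : K, z ^ m = 1 → σ a z = z ^ a

/-- The conjugate ideals `σ_a⁻¹ I` with the exponents `e a`. -/
def St {K : Type} [Field K] [NumberField K] (m : ℕ) (e : ℕ → ℕ) (σ : ℕ → RingAut K)
    (I : Ideal (𝓞 K)) : Ideal (𝓞 K) :=
  ∏ a ∈ Un m, ((σ a)⁻¹ • I) ^ e a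

/-- Nonzero principal ideals. -/
def Prc {K : Type} [Field K] [NumberField K] (I : Ideal (𝓞 K)) : Prop :=
  ∃ x : 𝓞 K, x ≠ 0 ∧ I = Ideal.span {x}

theorem mem_inv_smul {K : Type} [Field K] [NumberField K] (σ : RingAut K) (I : Ideal (𝓞 K))
    (x : 𝓞 K) : x ∈ σ⁻¹ • I ↔ σ • x ∈ I := Ideal.mem_inv_pointwise_smul_iff

theorem coe_smul_RoI {K : Type} [Field K] [NumberField K] (σ : RingAut K) (x : 𝓞 K) :
    ((σ • x : 𝓞 K) : K) = σ (x : K) := rfl

theorem St_mul {K : Type} [Field K] [NumberField K] (m : ℕ) (e : ℕ → ℕ) (σ : ℕ → RingAut K)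
    (I J : Ideal (𝓞 K)) : St m e σ (I * J) = St m e σ I * St m e σ J := by
  unfold St
  rw [← Finset.prod_mul_distrib]
  refine Finset.prod_congr rfl fun a _ => ?_
  rw [smul_mul', mul_pow]

theorem St_one {K : Type} [Field K] [NumberField K] (m : ℕ) (e : ℕ → ℕ) (σ : ℕ → RingAut K) :
    St m e σ (1 : Ideal (𝓞 K)) = 1 := by
  unfold St
  refine Finset.prod_eq_one fun a _ => ?_
  rw [smul_one, one_pow]

theorem smul_span {K : Type} [Field K] [NumberField K] (σ : RingAut K) (x : 𝓞 K) :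
    σ • Ideal.span {x} = Ideal.span {σ • x} := by
  ext y
  rw [Ideal.mem_pointwise_smul_iff_inv_smul_mem, Ideal.mem_span_singleton, Ideal.mem_span_singleton]
  constructor
  · rintro ⟨z, hz⟩
    refine ⟨σ • z, ?_⟩
    rw [← smul_mul', ← hz, smul_inv_smul]
  · rintro ⟨z, rfl⟩
    exact ⟨σ⁻¹ • z, by rw [smul_mul', inv_smul_smul]⟩

theorem St_span {K : Type} [Field K] [NumberField K] (m : ℕ) (e : ℕ → ℕ) (σ : ℕ → RingAut K)
    (x : 𝓞 K) : St m e σ (Ideal.span {x}) = Ideal.span {∏ a ∈ Un m, ((σ a)⁻¹ • x) ^ e a} := by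
  unfold St
  rw [← Ideal.prod_span_singleton]
  refine Finset.prod_congr rfl fun a _ => ?_
  rw [smul_span, Ideal.span_singleton_pow]

/-! ### Primes of degree one = homomorphisms to `ZMod l` -/

theorem ker_max {K : Type} [Field K] [NumberField K] {l : ℕ} [Fact l.Prime]
    (π : 𝓞 K →+* ZMod l) : (RingHom.ker π).IsMaximal :=
  RingHom.ker_isMaximal_of_surjective π (ZMod.ringHom_surjective π)

theorem l_mem_ker {K : Type} [Field K] [NumberField K] {l : ℕ}
    (π : 𝓞 K →+* ZMod l) : (l : 𝓞 K) ∈ RingHom.ker π := by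
  rw [RingHom.mem_ker, map_natCast, ZMod.natCast_self]

theorem ker_ne_bot {K : Type} [Field K] [NumberField K] {l : ℕ} [Fact l.Prime]
    (π : 𝓞 K →+* ZMod l) : RingHom.ker π ≠ ⊥ := by
  intro h
  have h1 := l_mem_ker π
  rw [h, Ideal.mem_bot] at h1
  exact (Fact.out : l.Prime).ne_zero (by exact_mod_cast h1)

theorem ker_absNorm {K : Type} [Field K] [NumberField K] {l : ℕ} [Fact l.Prime]
    (π : 𝓞 K →+* ZMod l) : Ideal.absNorm (RingHom.ker π) = l := by
  rw [Ideal.absNorm_apply, Submodule.cardQuot_apply,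
    Nat.card_congr (RingHom.quotientKerEquivOfSurjective (ZMod.ringHom_surjective π)).toEquiv,
    Nat.card_zmod]

/-- A homomorphism to `ZMod l` is determined by its kernel. -/
theorem pi_ext {K : Type} [Field K] [NumberField K] {l : ℕ} [Fact l.Prime]
    (π π' : 𝓞 K →+* ZMod l) (h : RingHom.ker π = RingHom.ker π') : π = π' := by
  ext x
  have h1 : x - ((π x).val : 𝓞 K) ∈ RingHom.ker π := by
    rw [RingHom.mem_ker, map_sub, map_natCast, ZMod.natCast_zmod_val, sub_self]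
  rw [h, RingHom.mem_ker, map_sub, map_natCast, ZMod.natCast_zmod_val, sub_eq_zero] at h1
  exact h1.symm

/-- The homomorphism `x ↦ π (σ x)`. -/
def piS {K : Type} [Field K] [NumberField K] {l : ℕ} (π : 𝓞 K →+* ZMod l) (σ : RingAut K) :
    𝓞 K →+* ZMod l :=
  π.comp (MulSemiringAction.toRingHom (RingAut K) (𝓞 K) σ)

theorem piS_apply {K : Type} [Field K] [NumberField K] {l : ℕ} (π : 𝓞 K →+* ZMod l)
    (σ : RingAut K) (x : 𝓞 K) : piS π σ x = π (σ • x) := rfl

theorem smul_ker {K : Type} [Field K] [NumberField K] {l : ℕ} (π : 𝓞 K →+* ZMod l)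
    (σ : RingAut K) : σ⁻¹ • RingHom.ker π = RingHom.ker (piS π σ) := by
  ext x
  rw [mem_inv_smul, RingHom.mem_ker, RingHom.mem_ker, piS_apply]

/-! ### The cyclotomic field inside `Om` -/

theorem Cy_map {m : ℕ} (σ : Gal(Om/ℚ)) {x : Om} (hx : x ∈ Cy m) : σ x ∈ Cy m := by
  have h : Cy m ≤ (Cy m).comap (σ : Om →ₐ[ℚ] Om) := by
    refine IntermediateField.adjoin_le_iff.2 ?_
    intro z hz
    change σ z ∈ Cy m
    refine IntermediateField.subset_adjoin ℚ _ ?_
    change (σ z) ^ m = 1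
    rw [← map_pow, show z ^ m = 1 from hz, map_one]
  exact h hx

/-- The restriction of `σ` to the cyclotomic field. -/
def rst (m : ℕ) (σ : Gal(Om/ℚ)) : RingAut (Cy m) where
  toFun x := ⟨σ x, Cy_map σ x.2⟩
  invFun x := ⟨σ⁻¹ x, Cy_map σ⁻¹ x.2⟩
  left_inv x := by
    apply Subtype.ext
    change σ⁻¹ (σ (x : Om)) = x
    rw [← AlgEquiv.mul_apply, inv_mul_cancel, AlgEquiv.one_apply]
  right_inv x := by
    apply Subtype.ext
    change σ (σ⁻¹ (x : Om)) = x
    rw [← AlgEquiv.mul_apply, mul_inv_cancel, AlgEquiv.one_apply]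
  map_mul' x y := by
    apply Subtype.ext
    exact map_mul σ (x : Om) y
  map_add' x y := by
    apply Subtype.ext
    exact map_add σ (x : Om) y

theorem rst_coe (m : ℕ) (σ : Gal(Om/ℚ)) (x : Cy m) : ((rst m σ x : Cy m) : Om) = σ (x : Om) := rfl

theorem rst_inv_coe (m : ℕ) (σ : Gal(Om/ℚ)) (x : Cy m) :
    (((rst m σ)⁻¹ x : Cy m) : Om) = σ⁻¹ (x : Om) := rfl

/-- The inclusion of the ring of integers of `L` into `ZZ`. -/
def inc (L : IntermediateField ℚ Om) : 𝓞 L →+* ZZ where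
  toFun x := ⟨((x : L) : Om), map_isIntegral_int (algebraMap L Om) x.2⟩
  map_one' := rfl
  map_mul' _ _ := rfl
  map_zero' := rfl
  map_add' _ _ := rfl

theorem inc_coe (L : IntermediateField ℚ Om) (x : 𝓞 L) : ((inc L x : ZZ) : Om) = ((x : L) : Om) := rfl

/-! ## Part A: primes of degree one -/

/-- (60 lines) **Power sums.** Uses: nothing. PROOF. `(1 - x) ^ B = ∑ i ≤ B, (-1) ^ i * choose B i * x ^ i`
(`sub_pow`, or `add_pow` for `1 + (-x)`), so the sum is `∑ i ≤ B, (-1) ^ i * choose B i * ∑ x, x ^ (A + i)`.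
For `0 < j < 2 (l - 1)` the sum `∑ x : ZMod l, x ^ j` is `0` if `j ≠ l - 1`, and `-1` if `j = l - 1`: for
`j < l - 1` this is `FiniteField.sum_pow_lt_card_sub_one`; for `j > l - 1` one has `x ^ j = x ^ (j - (l - 1))`
for all `x` (`ZMod.pow_card_sub_one_eq_one` if `x ≠ 0`, both sides are `0` if `x = 0`), and
`0 < j - (l - 1) < l - 1`; for `j = l - 1` the terms are `1` for `x ≠ 0` and `0` for `x = 0`, sum
`l - 1 = -1`. If `A + B < l - 1` all terms vanish. If `A + B ≥ l - 1` only the term `i = l - 1 - A`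
(`0 < i ≤ B`) remains, it is `- (-1) ^ i * choose B i`, and `l` does not divide `choose B i`
because `choose B i` divides `B!` and `B < l` (`Nat.Prime.dvd_factorial`). -/
def S_ASum : Prop :=
  ∀ (l : ℕ) [Fact l.Prime] (A B : ℕ), 0 < A → A < l - 1 → 0 < B → B < l - 1 →
    ((∑ x : ZMod l, x ^ A * (1 - x) ^ B) = 0 ↔ A + B < l - 1)

/-- (30 lines) **Residue field.** Uses: nothing. PROOF. `Nat.card (𝓞 K ⧸ q) = l`
(`Ideal.absNorm_apply`, `Submodule.cardQuot_apply`), so the quotient is finite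
(`Nat.finite_of_card_ne_zero`) and `ZMod.ringEquivOfPrime` gives `e : ZMod l ≃+* 𝓞 K ⧸ q`.
`π = e.symm ∘ (Ideal.Quotient.mk q)`; its kernel is `q` (`Ideal.Quotient.eq_zero_iff_mem`). -/
def S_APi : Prop :=
  ∀ (K : Type) [Field K] [NumberField K] (q : Ideal (𝓞 K)) (l : ℕ) [Fact l.Prime],
    Ideal.absNorm q = l → ∃ π : 𝓞 K →+* ZMod l, RingHom.ker π = q

/-- (40 lines) **Roots of unity modulo a prime.** Uses: nothing. PROOF. `z` is a root of the cyclotomic
polynomial (`IsPrimitiveRoot.isRoot_cyclotomic`), so `π z` is a root of `cyclotomic m (ZMod l)`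
(`Polynomial.map_cyclotomic`, `Polynomial.IsRoot.map`), and `Polynomial.isRoot_cyclotomic_iff` with
`NeZero (m : ZMod l)` (because `l` does not divide `m`). -/
def S_AZeta : Prop :=
  ∀ (K : Type) [Field K] [NumberField K] (m l : ℕ) [Fact l.Prime] (π : 𝓞 K →+* ZMod l) (z : 𝓞 K),
    0 < m → ¬ l ∣ m → IsPrimitiveRoot z m → IsPrimitiveRoot (π z) m

/-- (100 lines) **The character.** Uses: `S_AZeta`. PROOF. Let `z : 𝓞 K` be a primitive `m`-th root of unity
(`hK.prim`; it is integral: `IsPrimitiveRoot.toInteger`, `IsPrimitiveRoot.toInteger_isPrimitiveRoot`).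
By `S_AZeta` `ξ = π z` is a primitive `m`-th root of unity in `ZMod l`. Let `g` be a generator of the
cyclic group `(ZMod l)ˣ`, of order `l - 1` (`IsCyclic.exists_generator`, `ZMod.card_units`).
`ξ ^ (l - 1) = 1` so `m ∣ l - 1` (`IsPrimitiveRoot.dvd_of_pow_eq_one`); `k = (l - 1) / m`. Then
`((g : ZMod l) ^ k) ^ m = 1`, so `g ^ k = ξ ^ t` for some `t` (`IsPrimitiveRoot.eq_pow_of_pow_eq_one`). Let
`χ = MulChar.ofRootOfUnity` with the unit `z ^ t` (`(z ^ t) ^ (l - 1) = 1`) and the generator `g`,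
`χ g = z ^ t` (`MulChar.ofRootOfUnity_spec`). Every `x ≠ 0` is `g ^ i` with a natural `i`
(`(ZMod l)ˣ` is finite: `mem_powers_iff_mem_zpowers`), so `χ x = z ^ (t i)`: `χ x ^ m = 1` and
`π (χ x) = ξ ^ (t i) = g ^ (k i) = x ^ k`. -/
def S_AChi : Prop :=
  ∀ (K : Type) [Field K] [NumberField K] (m l : ℕ) [Fact l.Prime], IsCy K m → ¬ l ∣ m →
    ∀ π : 𝓞 K →+* ZMod l, ∃ (k : ℕ) (χ : MulChar (ZMod l) (𝓞 K)), m * k = l - 1 ∧
      (∀ x : ZMod l, x ≠ 0 → χ x ^ m = 1) ∧ ∀ x : ZMod l, x ≠ 0 → π (χ x) = x ^ k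

/-- (100 lines) **Jacobi sums modulo the conjugate primes.** Uses: `S_ASum`. PROOF. `m ≥ 1`, `k ≥ 1` as
`m k = l - 1 ≥ 1`. `σ • jacobiSum (χ ^ r) (χ ^ s) = ∑ x, (σ • χ x) ^ r * (σ • χ (1 - x)) ^ s`
(`jacobiSum` unfolds to `∑ x, χ x * ψ (1 - x)`; `Finset.smul_sum`, `smul_mul'`, `smul_pow'`; `r, s ≠ 0`,
`MulChar.pow_apply'`). For `x ≠ 0` `χ x` is an `m`-th root of unity, so `σ • χ x = χ x ^ a` (check in `K`,
`coe_smul_RoI`), and `(σ • χ x) ^ r = χ x ^ (a r) = χ x ^ (a r % m)` (`pow_mod` type lemma: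
`pow_eq_pow_mod`), so `π` of it is `x ^ (k (a r % m))`. For `x = 0`: `χ 0 = 0` (`MulChar.map_zero`),
`r > 0`, and `0 ^ (k (a r % m)) = 0`, because `a r % m ≠ 0` (`a` is prime to `m` and `m ∤ r`:
`Nat.Coprime.dvd_of_dvd_mul_left`). So `π (σ • J) = ∑ x, x ^ A * (1 - x) ^ B` with `A = k (a r % m)`,
`B = k (a s % m)`, `0 < A, B < m k = l - 1`. By `S_ASum` it is `0` iff `A + B < m k` iff
`a r % m + a s % m < m`. -/
def S_AMem : Prop :=
  ∀ (K : Type) [Field K] [NumberField K] (m l k : ℕ) [Fact l.Prime] (π : 𝓞 K →+* ZMod l)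
    (χ : MulChar (ZMod l) (𝓞 K)), m * k = l - 1 → (∀ x : ZMod l, x ≠ 0 → χ x ^ m = 1) →
    (∀ x : ZMod l, x ≠ 0 → π (χ x) = x ^ k) → ∀ (σ : RingAut K) (a : ℕ), a.Coprime m →
    (∀ z : K, z ^ m = 1 → σ z = z ^ a) → ∀ r s : ℕ, ¬ m ∣ r → ¬ m ∣ s →
    (π (σ • jacobiSum (χ ^ r) (χ ^ s)) = 0 ↔ a * r % m + a * s % m < m)

/-- (120 lines) **Splitting of `l`.** Uses: `S_AZeta`. PROOF. Put `P a = (σ a)⁻¹ • ker π`, this is
`ker (piS π (σ a))` (`smul_ker`), so it is maximal, contains `l` and has the norm `l` (`ker_max`, `l_mem_ker`,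
`ker_absNorm`). INJECTIVE: if `P a = P b` then `piS π (σ a) = piS π (σ b)` (`pi_ext`); for a primitive
`m`-th root of unity `z : 𝓞 K` one has `σ a • z = z ^ a` (check in `K`), so `(π z) ^ a = (π z) ^ b`, and
`π z` is a primitive `m`-th root of unity (`S_AZeta`), `a, b < m`: `IsPrimitiveRoot.pow_inj`. PRODUCT: the
`P a` are pairwise coprime (`Ideal.isCoprime_of_isMaximal`) and divide `span {l}`
(`Ideal.dvd_span_singleton`), so the product divides `span {l}` (`Finset.prod_dvd_of_coprime`):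
`span {l} = (∏ P a) * J`. Norms: `∏ absNorm (P a) = l ^ (card (Un m)) = l ^ φ(m)` (`Nat.totient` is the
cardinality of `Un m`, up to `Nat.coprime_comm`) and `absNorm (span {l}) = l ^ finrank ℤ (𝓞 K)`
(`Ideal.absNorm_span_natCast`), `finrank ℤ (𝓞 K) = finrank ℚ K = φ(m)` (`NumberField.RingOfIntegers.rank`,
`hK.deg`). So `absNorm J = 1`, `J = ⊤` (`Ideal.absNorm_eq_one_iff`). -/
def S_ASplit : Prop :=
  ∀ (K : Type) [Field K] [NumberField K] (m l : ℕ) [Fact l.Prime], IsCy K m → ¬ l ∣ m →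
    ∀ (π : 𝓞 K →+* ZMod l) (σ : ℕ → RingAut K), IsFamK K m σ →
      (∀ a ∈ Un m, ∀ b ∈ Un m, (σ a)⁻¹ • RingHom.ker π = (σ b)⁻¹ • RingHom.ker π → a = b) ∧
      ∏ a ∈ Un m, (σ a)⁻¹ • RingHom.ker π = Ideal.span {(l : 𝓞 K)}

/-- (60 lines) **Divisors of a squarefree product.** Uses: nothing. PROOF. Induction on `T` for all `I`.
`T = ∅`: `I ∣ 1`, `I = 1`. `insert a T`: if `I ≤ P a`, then `I = P a * I'` (`Ideal.dvd_iff_le`), cancel
`P a` (it is not `⊥`, because a maximal ideal of `𝓞 K` is not `⊥`: `Ideal.bot_lt_of_maximal` and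
`NumberField.RingOfIntegers.not_isField`): `I' ∣ ∏ b ∈ T, P b`. For `b ∈ T`: `I ≤ P b` iff `I' ≤ P b`
(if `P a * I' ≤ P b` then `P a ≤ P b` or `I' ≤ P b`; the first gives `P a = P b`, `a = b`, no). Induction
hypothesis. If `I` is not `≤ P a` then `I ⊔ P a = ⊤`, so `I` and `P a` are coprime
(`Ideal.isCoprime_iff_sup_eq`) and `I ∣ ∏ b ∈ T, P b` (`IsCoprime.dvd_of_dvd_mul_left`). -/
def S_ASqf : Prop :=
  ∀ (K : Type) [Field K] [NumberField K] (T : Finset ℕ) (P : ℕ → Ideal (𝓞 K)) (e : ℕ → ℕ)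
    (I : Ideal (𝓞 K)), (∀ a ∈ T, (P a).IsMaximal) → (∀ a ∈ T, ∀ b ∈ T, P a = P b → a = b) →
    I ∣ ∏ a ∈ T, P a → (∀ a ∈ T, (I ≤ P a → e a = 1) ∧ (¬ I ≤ P a → e a = 0)) →
    I = ∏ a ∈ T, P a ^ e a

/-- (150 lines) **The factorization of a Jacobi sum.** Uses: `S_AChi`, `S_AMem`, `S_ASplit`, `S_ASqf`.
PROOF. `k`, `χ` from `S_AChi`; `r = m - 1`, `s = m - j`, `J = jacobiSum (χ ^ r) (χ ^ s)`,
`J' = jacobiSum (χ ^ 1) (χ ^ j)`. (1) `χ ^ m = 1` (`MulChar.ext`, units are nonzero), so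
`(χ ^ r)⁻¹ = χ ^ 1`, `(χ ^ s)⁻¹ = χ ^ j`. (2) If `χ ^ n = 1` then `m ∣ n`: for a generator `g` of `(ZMod l)ˣ`
`g ^ (k n) = π (χ g ^ n) = 1`, so `m k = l - 1 ∣ k n` and `m ∣ n`. So `χ ^ r`, `χ ^ s`,
`χ ^ r * χ ^ s = χ ^ (r + s)` (`r + s = m + (m - 1 - j)`, `0 < m - 1 - j < m`) are not trivial. (3)
`J * J' = l`: apply `jacobiSum_mul_jacobiSum_inv` to the characters with values in the field `K`
(`MulChar.ringHomComp` with `algebraMap (𝓞 K) K`, which is injective, so the characters stay nontrivial;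
`jacobiSum_ringHomComp`; `ringChar K = 0`, `ringChar (ZMod l) = l`). So `J ≠ 0` and
`span {J} ∣ span {l} = ∏ P a`, `P a = (σ a)⁻¹ • ker π` (`S_ASplit`). (4) For `a ∈ Un m` (so `0 < a < m`,
as `m ≥ 3`): `span {J} ≤ P a` iff `π (σ a • J) = 0` (`mem_inv_smul`) iff `a r % m + a s % m < m`
(`S_AMem`). Let `u = j a % m`; `0 < u` since `m ∤ j a` (`0 < j < m`, `a` prime to `m`).
`a r % m = m - a`, `a s % m = m - u`, so the condition is `m < a + u`. Now `a + u ≠ m` because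
`m ∤ (j + 1) a` (`0 < j + 1 < m`), and `(j + 1) a = m (j a / m) + (u + a)`, so
`(j + 1) a / m - j a / m = (u + a) / m`, which is `1` if `m < u + a` and `0` if `u + a < m`. (5)
`S_ASqf` with `T = Un m`, `I = span {J}`, `e a = (j + 1) a / m - j a / m` (`ker_max`, `smul_ker`). -/
def S_AJac : Prop :=
  ∀ (K : Type) [Field K] [NumberField K] (m l : ℕ) [Fact l.Prime], IsCy K m → ¬ l ∣ m →
    ∀ (π : 𝓞 K →+* ZMod l) (σ : ℕ → RingAut K), IsFamK K m σ → ∀ j : ℕ, 1 ≤ j → j + 1 < m →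
      Prc (St m (fun a => (j + 1) * a / m - j * a / m) σ (RingHom.ker π))

/-- (50 lines) **Stickelberger for a prime of degree one.** Uses: `S_AJac`. PROOF. Induction on `c`,
`1 ≤ c < m` (the case `c = 1` is included in the induction): for `c = 1` all exponents `a / m` are `0`
(`a < m`), and `St = 1 = span {1}`. Step `c → c + 1 < m`: `(c + 1) a / m = c a / m + ((c + 1) a / m - c a / m)`
(`Nat.div_le_div_right`), so `St` for `c + 1` is the product of `St` for `c` and the ideal of `S_AJac`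
for `j = c` (`pow_add`, `Finset.prod_mul_distrib`); products of nonzero principal ideals are nonzero
principal (`Ideal.span_singleton_mul_span_singleton`). -/
def S_ADeg : Prop :=
  ∀ (K : Type) [Field K] [NumberField K] (m l : ℕ) [Fact l.Prime], IsCy K m → ¬ l ∣ m →
    ∀ (π : 𝓞 K →+* ZMod l) (σ : ℕ → RingAut K), IsFamK K m σ → ∀ c : ℕ, 1 ≤ c → c < m →
      Prc (St m (fun a => c * a / m) σ (RingHom.ker π))

/-! ## Part B: the class group is generated by primes of degree one -/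

/-- (70 lines) **Generators.** Uses: nothing. PROOF. Let `θ0` be a primitive element of `K / ℚ`
(`Field.exists_primitive_element`), `θ : 𝓞 K` a nonzero integral multiple `d θ0`
(`IsAlgebraic.exists_integral_multiple` over `ℤ`); `ℚ(θ) = ⊤`. The map
`t : ℕ ↦ ℚ(b + M t θ)` to the intermediate fields is not injective, because there are only finitely
many of them (`Field.finite_intermediateField_of_exists_primitive_element`,
`Finite.exists_ne_map_eq_of_infinite`): `t ≠ t'` with the same field `L`. `L` contains the difference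
`M (t - t') θ`, so `θ ∈ L` and `L = ⊤`. Put `z = t θ`. -/
def S_BGen : Prop :=
  ∀ (K : Type) [Field K] [NumberField K] (b : 𝓞 K) (M : ℕ), M ≠ 0 →
    ∃ z : 𝓞 K, IntermediateField.adjoin ℚ {((b + M * z : 𝓞 K) : K)} = ⊤

/-- (70 lines) **Index.** Uses: nothing. PROOF. The set of all `z : 𝓞 K` such that
`n z ∈ ℤ[b]` for some natural `n ≠ 0` is everything: `(z : K)` lies in `ℚ(b) = ℚ[b]`
(`IntermediateField.adjoin_simple_toSubalgebra_of_integral`, `Algebra.adjoin_singleton_eq_range_aeval`), so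
`z = P(b)` with `P ∈ ℚ[X]`; multiply by the product `n` of the denominators of the coefficients
(or `IsLocalization.integerNormalization`). The ring `𝓞 K` is a finitely generated `ℤ`-module
(`Module.Finite ℤ (𝓞 K)`, `Submodule.fg_def`); take `N` the product of the `n` for finitely many
generators; `{z | N z ∈ ℤ[b]}` is a submodule which contains the generators. (Another way:
`Algebra.discr_mul_isIntegral_mem_adjoin`.) -/
def S_BIdx : Prop :=
  ∀ (K : Type) [Field K] [NumberField K] (b : 𝓞 K), IntermediateField.adjoin ℚ {(b : K)} = ⊤ →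
    ∃ N : ℕ, N ≠ 0 ∧ ∀ z : 𝓞 K, (N : 𝓞 K) * z ∈ Algebra.adjoin ℤ ({b} : Set (𝓞 K))

/-- (80 lines) **Degree one.** Uses: nothing. PROOF. Let `φ : 𝓞 K → 𝓞 K ⧸ Q`. Choose integers `y'`, `N'` with
`y y' ≡ 1`, `N N' ≡ 1` modulo `r` (`r` is prime; `ZMod` or `Int.gcdA`). `r ∈ Q`, so `φ b = φ b0` for the
integer `b0 = - s y'`. For `z : 𝓞 K` there is `F ∈ ℤ[X]` with `N z = F(b)`
(`Algebra.adjoin_singleton_eq_range_aeval`), so `φ z = φ (N' F(b0))`: every class modulo `Q` contains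
an integer. So the homomorphism `ZMod r → 𝓞 K ⧸ Q` (`ZMod.castHom`/`ZMod.lift`; `r` is `0` in the
quotient) is surjective, and injective because `ZMod r` is a field and the quotient is not trivial.
So `absNorm Q = card = r`. -/
def S_BDeg : Prop :=
  ∀ (K : Type) [Field K] [NumberField K] (b : 𝓞 K) (N : ℕ),
    (∀ z : 𝓞 K, (N : 𝓞 K) * z ∈ Algebra.adjoin ℤ ({b} : Set (𝓞 K))) →
    ∀ (Q : Ideal (𝓞 K)) (r y : ℕ) (s : ℤ), Q.IsPrime → r.Prime → (r : 𝓞 K) ∈ Q → ¬ r ∣ N →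
      ¬ r ∣ y → (s : 𝓞 K) + (y : 𝓞 K) * b ∈ Q → Ideal.absNorm Q = r

/-- (80 lines) **Approximation.** Uses: nothing. PROOF. The prime ideals `P'` with `l ∈ P'` are finitely
many (they divide `span {l} ≠ 0`: they are in `normalizedFactors (span {l})`); let `I'` be the product of
those which are different from `P`. Distinct nonzero primes are maximal, so coprime
(`Ideal.isCoprime_of_isMaximal`), and `P ^ 2` and `I'` are coprime (`IsCoprime.prod_right`,
`IsCoprime.pow_left`): `a + c = 1` with `a ∈ P ^ 2`, `c ∈ I'` (`Ideal.isCoprime_iff_exists`).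
Choose `u ∈ P` not in `P ^ 2` (`P ^ 2 ≠ P`: `Ideal.pow_right_strictAnti` or cancel). Put
`b = u c + a`: `b - u = a (1 - u) ∈ P ^ 2`, so `b ∈ P` and `b ∉ P ^ 2`; `b - 1 = (u - 1) c ∈ I'`, and
`I' ≤ P'`, so `b ∉ P'`. -/
def S_BCrt : Prop :=
  ∀ (K : Type) [Field K] [NumberField K] (P : Ideal (𝓞 K)) (l : ℕ), P.IsPrime → l.Prime →
    (l : 𝓞 K) ∈ P → ∃ b : 𝓞 K, b ∈ P ∧ b ∉ P ^ 2 ∧
      ∀ P' : Ideal (𝓞 K), P'.IsPrime → (l : 𝓞 K) ∈ P' → P' ≠ P → b ∉ P'

/-- (150 lines) **The inverse class of a prime is a product of degree one primes.** Uses: `S_BGen`,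
`S_BIdx`, `S_BDeg`, `S_BCrt`. PROOF. `P` contains a prime number `l` (`absNorm P ≠ 0` is in `P`
(`Ideal.absNorm_mem`) and `P` is prime: some prime factor of it is in `P`). `b0` from `S_BCrt`, `z` from
`S_BGen` with `M = l ^ 2`, `b = b0 + l ^ 2 z`: `b ∈ P`, `b ∉ P ^ 2`, `b ∉ P'` for the other primes `P'`
with `l ∈ P'`. `N` from `S_BIdx`. `N = l ^ u N1`, `N0 = l ^ v N2` with `l ∤ N1`, `l ∤ N2`
(`Nat.exists_eq_pow_mul_and_not_dvd`), `y = N1 N2`, `l ∤ y`, `α = l ^ 2 + y b`. (1) `α ∈ P`; `α ∉ P ^ 2`: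
otherwise `y b ∈ P ^ 2`, and with `u' y + w l = 1` (`Nat.Coprime` Bezout in `ℤ`) `b = u' (y b) + w l b ∈ P ^ 2`
(`l b ∈ P P`), no. So `α ≠ 0`. (2) `α ∉ P'` for the primes `P' ≠ P` with `l ∈ P'`: otherwise `y b ∈ P'`,
`y ∈ P'` or `b ∈ P'`; `y ∈ P'` and `l ∈ P'` give `1 ∈ P'`. (3) `span {α} = P * J`
(`Ideal.dvd_span_singleton`). Let `Q` be a prime ideal, `Q ∣ J`. Then `α ∈ Q`, and `Q ≠ P` (otherwise
`α ∈ P ^ 2`), `Q ≠ ⊥` since `α ≠ 0`. By (2) `l ∉ Q`. Let `r` be a prime number in `Q`, `r ≠ l`. `r ∤ y`: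
otherwise `l ^ 2 = α - y b ∈ Q`. So `r ∤ N1`, `r ∤ N2`, and `r ∤ l ^ u`, `r ∤ l ^ v`
(`(Nat.prime_dvd_prime_iff_eq ..).1`), so `r ∤ N`, `r ∤ N0`. `S_BDeg` with `s = l ^ 2`: `absNorm Q = r`. -/
def S_BPr : Prop :=
  ∀ (K : Type) [Field K] [NumberField K] (N0 : ℕ), N0 ≠ 0 → ∀ P : Ideal (𝓞 K), P.IsPrime → P ≠ ⊥ →
    ∃ (α : 𝓞 K) (J : Ideal (𝓞 K)), α ≠ 0 ∧ Ideal.span {α} = P * J ∧
      ∀ Q : Ideal (𝓞 K), Q.IsPrime → Q ∣ J → (Ideal.absNorm Q).Prime ∧ ¬ Ideal.absNorm Q ∣ N0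

/-- (80 lines) **Principal values.** Uses: `S_BPr`. PROOF. (i) If `Prc A`, `Prc B` then `Prc (A * B)`. (ii) If
`Prc (A * B)` and `Prc B` then `Prc A`: `A * span {b} = span {x}`, `x ∈ span {b}`
(`Ideal.mul_le_left`), `x = b y`, so `A * span {b} = span {y} * span {b}`, cancel (`mul_right_cancel₀`). (iii)
If all primes `Q ∣ J`, `J ≠ ⊥`, satisfy `Prc (Φ Q)`, then `Prc (Φ J)`: `J` is the product of its
`normalizedFactors` (`Ideal.prod_normalizedFactors_eq_self`; `Multiset.induction_on` for multisets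
of primes; `Φ 1 = 1 = span {1}`), which are prime ideals dividing `J`. (iv) For a prime `P ≠ ⊥` with `α`, `J`
from `S_BPr`: `J ≠ ⊥`, `Prc (Φ J)` by (iii), and `Φ P * Φ J = Φ (span {α})`, so `Prc (Φ P)` by (ii). (v)
Any `I ≠ ⊥` by (iii). -/
def S_BAll : Prop :=
  ∀ (K : Type) [Field K] [NumberField K] (N0 : ℕ), N0 ≠ 0 →
    ∀ Φ : Ideal (𝓞 K) →* Ideal (𝓞 K), (∀ x : 𝓞 K, x ≠ 0 → Prc (Φ (Ideal.span {x}))) →
      (∀ q : Ideal (𝓞 K), q.IsPrime → (Ideal.absNorm q).Prime → ¬ Ideal.absNorm q ∣ N0 →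
        Prc (Φ q)) →
      ∀ I : Ideal (𝓞 K), I ≠ ⊥ → Prc (Φ I)

/-! ## Part ST -/

/-- (50 lines) **Stickelberger for all ideals.** Uses: `S_APi`, `S_ADeg`, `S_BAll`. PROOF. `S_BAll` with
`N0 = m` and `Φ = St m (c a / m) σ` (`St_one`, `St_mul`). Principal ideals: `St_span`, the generator is a
product of nonzero elements (`smul_ne_zero_iff_ne`, or the coercion to `K`). For `q` prime with
`absNorm q = l` prime, `l ∤ m`: `S_APi`, `S_ADeg`. -/
def S_STK : Prop :=
  ∀ (K : Type) [Field K] [NumberField K] (m c : ℕ), IsCy K m → 1 ≤ c → c < m →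
    ∀ σ : ℕ → RingAut K, IsFamK K m σ → ∀ I : Ideal (𝓞 K), I ≠ ⊥ →
      Prc (St m (fun a => c * a / m) σ I)

/-- (60 lines) **The field `Cy m`.** Uses: nothing. PROOF. `Om` contains a primitive `m`-th root of unity
(`HasEnoughRootsOfUnity` or `IsAlgClosed`: a root of `cyclotomic m Om`,
`Polynomial.isRoot_cyclotomic_iff`), so `IntermediateField.isCyclotomicExtension_adjoin_of_exists_isPrimitiveRoot`
for the set `{m}` gives `IsCyclotomicExtension {m} ℚ (Cy m)` (the two sets of roots of unity are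
equal, `m ≠ 0`), for the algebra structure of `IntermediateField`. So `Cy m` is finite over `ℚ`
(`IsCyclotomicExtension.finiteDimensional`) of degree `φ(m)` (`IsCyclotomicExtension.finrank`,
`Polynomial.cyclotomic.irreducible_rat`), and contains a primitive root (`IsCyclotomicExtension.exists_isPrimitiveRoot`
or the root above with `IsPrimitiveRoot.coe_submonoidClass_iff`, or `.of_map_of_injective`). The algebra
structure `DivisionRing.toRatAlgebra` is the same (`Subsingleton.elim`). -/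
def S_CyK : Prop :=
  ∀ m : ℕ, 0 < m → ∃ h : NumberField (Cy m), @IsCy (Cy m) _ h m

/-- (120 lines) **Integral ideals.** Uses: nothing. PROOF. Let `s` be the finite set of `IsId L β`. Every
`x ∈ s` is algebraic over `ℤ`, so a nonzero natural multiple is integral
(`IsAlgebraic.exists_integral_multiple`, absolute value); let `d ≠ 0` be a natural number such that `d x`
is integral for all `x ∈ s` (product). Let `I` be the ideal of `𝓞 L` spanned by all
`x' : 𝓞 L` with `(x' : Om) = d x` for some `x ∈ s` (for every `x ∈ s` there is such an `x'`). `β` is in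
`span ZZ s`: `β = ∑ z_x x` with `z_x ∈ ZZ` (`Submodule.mem_span_finset`), so `d β = ∑ z_x (d x)` is integral,
call it `b : ZZ`, and `b = ∑ z_x * inc L x'_x ∈ I.map (inc L)`. Conversely a generator `x'` of `I` comes from
`x ∈ s ⊆ span ZZ {β}`, `x = z β` (`Submodule.mem_span_singleton`), so `inc L x' = z b ∈ span {b}`. So
`I.map (inc L) = span {b}` (`Ideal.map_span`), and `b ≠ 0` (`β ≠ 0`, `d ≠ 0`), so `I ≠ ⊥`. -/
def S_OId : Prop :=
  ∀ (L : IntermediateField ℚ Om) (β : Om), IsId L β →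
    ∃ (d : ℕ) (I : Ideal (𝓞 L)) (b : ZZ), d ≠ 0 ∧ I ≠ ⊥ ∧ (b : Om) = d * β ∧
      I.map (inc L) = Ideal.span {b}

end Pool.Agent.FW
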