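import Pool.Agent.Lib.FW.Defs

/-!
# FW, Part C: non-vanishing of the twisted Stickelberger sums modulo `p` (Sinnott's argument)

Every `S_X : Prop` is to be proved as `theorem tX : S_X` (with the `S_Y` named under Uses as explicit
hypotheses) in `FW/C/X.lean`. The docstrings contain the complete proofs.

Notation: `q = p^(n+1)`, `e(y) = exp(2πiy) = ee y`, `dz y` = distance from `y` to the nearest integer,
`tei p n η = η^(p^n)` (a representative modulo `p^(n+1)` of the Teichmüller element of `η`).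

Plan. With `G c y = 2⌊c {y}⌋ - (c-1)` (period 1) and `hh y = ∑_b χ_f(b)⁻¹ G(y + b/f)` the sum of `S_NV` is
a unit times `S(n,w) = ∑_η χ_p(η)⁻¹ hh(T_n(η) w/q)` for some integer `w` with `f w ≡ 1 mod p`, and every such
`w` modulo `q` occurs (`S_Red`). The points `(T_n(η) w/q)_η` modulo 1 come close to every real vector which
satisfies the integral linear relations of the Teichmüller representatives (`S_Kro`), for instance
`x_η = τ Re ζ_η + s Im ζ_η` (`ζ_η` the corresponding complex roots of unity, `S_Emb`). `hh` has a jump at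
`t0 = 1/c - 1/f`; comparing `τ = t0 + ε` and `τ = t0 - ε` gives `S(n,w) ≠ 0` for one of the two (`S_Main`).
-/

noncomputable section

namespace Pool.Agent.FW.C

open Finset

/-- `e(y) = exp(2πiy)` -/
def ee (y : ℝ) : ℂ := Complex.exp (2 * Real.pi * y * Complex.I)

/-- the Fejér kernel -/
def Fj (N : ℕ) (y : ℝ) : ℝ := ‖∑ a ∈ range N, ee (a * y)‖ ^ 2 / N

/-- the distance to the nearest integer -/
def dz (y : ℝ) : ℝ := |y - round y|

/-- a representative modulo `p^(n+1)` of the Teichmüller element of `η` -/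
def tei (p n : ℕ) (η : (ZMod p)ˣ) : ℕ := (η : ZMod p).val ^ p ^ n

/-- the functions `a : ι → ℕ` with `a i < N` for `i ∈ J` and `a i = 0` for `i ∉ J` -/
def PJ {ι : Type} [Fintype ι] [DecidableEq ι] (J : Finset ι) (N : ℕ) : Finset (ι → ℕ) :=
  Fintype.piFinset fun i => if i ∈ J then range N else {0}

open Classical in
/-- the number of pairs `(a, b)` of elements of `PJ J N` with `R (a - b)` -/
def cnt {ι : Type} [Fintype ι] [DecidableEq ι] (J : Finset ι) (N : ℕ) (R : (ι → ℤ) → Prop) : ℕ :=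
  ((PJ J N ×ˢ PJ J N).filter fun ab => R fun i => (ab.1 i : ℤ) - ab.2 i).card

/-- `2 ⌊c {y}⌋ - (c - 1)` -/
def G (c : ℕ) (y : ℝ) : ℤ := 2 * ⌊(c : ℝ) * Int.fract y⌋ - ((c : ℤ) - 1)

/-- `∑_b χ(b)⁻¹ G(y + b/f)` -/
def hh (f c : ℕ) [NeZero f] {κ : Type} [Field κ] (χ : (ZMod f)ˣ →* κˣ) (y : ℝ) : κ :=
  ∑ b : (ZMod f)ˣ, (((χ b)⁻¹ : κˣ) : κ) * ((G c (y + (b : ZMod f).val / f) : ℤ) : κ)

/-- the component at `f` of `χ` -/
def chf {p f : ℕ} {κ : Type} [Field κ] (χ : (ZMod f)ˣ × (ZMod p)ˣ →* κˣ) : (ZMod f)ˣ →* κˣ :=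
  χ.comp (MonoidHom.inl _ _)

/-- the component at `p` of `χ` -/
def chp {p f : ℕ} {κ : Type} [Field κ] (χ : (ZMod f)ˣ × (ZMod p)ˣ →* κˣ) : (ZMod p)ˣ →* κˣ :=
  χ.comp (MonoidHom.inr _ _)

/-- the sum `S(n, w)` -/
def SS (p f c : ℕ) [Fact p.Prime] [NeZero f] {κ : Type} [Field κ]
    (χ : (ZMod f)ˣ × (ZMod p)ˣ →* κˣ) (n : ℕ) (w : ℤ) : κ :=
  ∑ η : (ZMod p)ˣ, (((chp χ η)⁻¹ : κˣ) : κ) * hh f c (chf χ) ((tei p n η : ℝ) * w / p ^ (n + 1))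

/-- **The Fejér kernel away from the integers.**

Proof. `ee (a y) = ee y ^ a`, so `(1 - ee y) ∑_{a<N} ee (a y) = 1 - ee y ^ N`, of norm `≤ 2`
(`mul_neg_geom_sum` or `geom_sum_mul`; `‖ee t‖ = 1` for real `t`). With `r = y - round y`, `|r| ≤ 1/2`
(`abs_sub_round`), `ee y = ee r` and `‖1 - ee r‖ = 2 |sin (π r)| ≥ 4 |r|`: `Real.mul_le_sin` (`2/π * x ≤ sin x` on
`[0, π/2]`) with `x = π |r|`. (`‖1 - ee r‖^2 = 2 - 2 cos (2πr) = 4 sin(πr)^2`, e.g. `Complex.norm_exp_I_mul_ofReal_sub_one`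
or a direct computation.) So `‖∑‖ ≤ 2/(4 δ) = 1/(2δ)` and `Fj ≤ 1/(4 δ^2 N)`. About 80 lines. -/
def S_Geo : Prop :=
  ∀ (N : ℕ) (y δ : ℝ), 0 < N → 0 < δ → δ ≤ dz y → Fj N y ≤ 1 / (4 * N * δ ^ 2)

/-- **The average of a product of Fejér kernels.**

Proof. Fix `J` and `u`, `y_i = E_i (w0 + p u)/p^(n+1) - x_i`. By `Finset.prod_univ_sum` (with the sets
`if i ∈ J then range N else {0}`; for `i ∉ J` the inner sum is `ee 0 = 1`)
`∏_{i∈J} ∑_{a<N} ee (a y_i) = ∑_{a ∈ PJ J N} ee (∑_i a_i y_i)` (`ee (s + t) = ee s * ee t`, `Complex.exp_sum`). Hence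
`∏_{i∈J} Fj N y_i = N^(-|J|) ‖∑_{a∈PJ} ee (∑ a_i y_i)‖^2 = N^(-|J|) ∑_{a,b∈PJ} ee (∑_i (a_i - b_i) y_i)` (as complex numbers;
`‖z‖^2 = z * conj z`, `conj (ee t) = ee (-t)`). Exchange with the sum over `u`. For fixed `a`, `b`, `k = a - b`
(`|k_i| < N`), `κ = ∑ k_i E_i`, `ξ = ∑ k_i x_i`:
`∑_{u < p^n} ee (κ (w0 + p u)/p^(n+1) - ξ) = ee (κ w0/p^(n+1) - ξ) ∑_{u<p^n} ee (κ/p^n)^u`. If `R k` each term is `ee` of
an integer, i.e. 1, and the sum is `p^n`. If not `R k`, `z = ee (κ/p^n)` has `z^(p^n) = 1` and `z ≠ 1` (`p^n` does not divide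
`κ`; `Complex.exp_eq_one_iff`), so the geometric sum is 0. Total: `N^(-|J|) p^n * cnt J N R`. About 200 lines. -/
def S_Avg : Prop :=
  ∀ (ι : Type) [Fintype ι] [DecidableEq ι] (p n N : ℕ) (w0 : ℤ) (E : ι → ℤ) (x : ι → ℝ)
    (R : (ι → ℤ) → Prop), p.Prime → 0 < N →
    (∀ k : ι → ℤ, R k → ((p : ℤ) ^ (n + 1) ∣ ∑ i, k i * E i) ∧ ∃ m : ℤ, ∑ i, (k i : ℝ) * x i = m) →
    (∀ k : ι → ℤ, (∀ i, |k i| < N) → ¬ R k → ¬ (p : ℤ) ^ n ∣ ∑ i, k i * E i) →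
    ∀ J : Finset ι, ∑ u ∈ range (p ^ n), ∏ i ∈ J,
      Fj N ((E i : ℝ) * (w0 + p * u) / p ^ (n + 1) - x i) =
      (p : ℝ) ^ n * (cnt J N R : ℝ) / (N : ℝ) ^ J.card

/-- **Kronecker's theorem for the cosets of the subgroups generated by `(E_i/p^n)_i`.**

Uses `S_Geo`, `S_Avg`. Proof. Let `R k` be: for all `n`, `p^(n+1)` divides `∑ k_i E_n,i`. Choose a natural number `N > 0`
with `|ι| < 4 N δ^2`. For each of the finitely many `k : ι → ℤ` with `|k_i| < N` and not `R k` there is `n_k` such that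
`p^(n_k+1)` does not divide `∑ k_i E_(n_k),i`; take `n ≥ n_k + 1` for all these `k`. By (1) and induction
`E_n ≡ E_(n_k) mod p^(n_k+1)`, so `p^(n_k+1)` does not divide `∑ k_i E_n,i`, and `p^n` does not either. So `S_Avg` applies with
`E = E_n`. Suppose the conclusion fails for this `n`: for all `u < p^n`, `w = w0 + p u`, there is `i` with
`dz (y_i) ≥ δ`, `y_i = E_n,i w/p^(n+1) - x_i`; by `S_Geo` `Fj N y_i ≤ 1/(4Nδ²)`, so
`∏_{univ} Fj N y_i ≤ ∑_i (1/(4Nδ²)) ∏_{univ.erase i} Fj N y` (all factors are `≥ 0`; `Finset.mul_prod_erase`). Sum over `u`: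
`p^n cnt(univ)/N^|ι| ≤ ∑_i (1/(4Nδ²)) p^n cnt(univ.erase i)/N^(|ι|-1)`. The map
`(a,b,t) ↦ (Function.update a i t, Function.update b i t)` from `(pairs for univ.erase i) × range N` to the pairs for `univ` is
injective and preserves `a - b` (`a i = b i = 0` before), so `N * cnt(univ.erase i) ≤ cnt(univ)`. Hence
`cnt(univ) ≤ (|ι|/(4Nδ²)) cnt(univ)`, and `cnt(univ) ≥ 1` (the pair `(0,0)`, `R 0`): `1 ≤ |ι|/(4Nδ²)`, a contradiction.
(If `ι` is empty the conclusion is trivial: `n = 0`, `w = w0`.) About 220 lines. -/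
def S_Kro : Prop :=
  ∀ (ι : Type) [Fintype ι] [DecidableEq ι] (p : ℕ), p.Prime → ∀ (E : ℕ → ι → ℤ) (x : ι → ℝ),
    (∀ n i, (p : ℤ) ^ (n + 1) ∣ E (n + 1) i - E n i) →
    (∀ k : ι → ℤ, (∀ n, (p : ℤ) ^ (n + 1) ∣ ∑ i, k i * E n i) → ∃ m : ℤ, ∑ i, (k i : ℝ) * x i = m) →
    ∀ δ : ℝ, 0 < δ → ∀ w0 : ℤ, ∃ (n : ℕ) (w : ℤ), (p : ℤ) ∣ w - w0 ∧
      ∀ i, dz ((E n i : ℝ) * w / p ^ (n + 1) - x i) < δ

/-- **Elementary facts on `tei`.**

Proof. (i) `(η.val : ZMod (p^(n+1)))` is a unit, its order divides `p^n (p-1)` (`ZMod.pow_totient`), so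
`v^(p^(n+1)) = v^(p^n) v^(p^n (p-1)) = v^(p^n)` modulo `p^(n+1)`. (ii) `(1 : ZMod p).val = 1`. (iii) `(-1 : ZMod p).val = p - 1`
and `(p-1)^(p^n) ≡ (-1)^(p^n) = -1` modulo `p^(n+1)`: `a ≡ b mod p` implies `a^(p^n) ≡ b^(p^n) mod p^(n+1)` (`dvd_sub_pow_of_dvd_sub`)
and `p^n` is odd. About 70 lines. -/
def S_TeiB : Prop :=
  ∀ (p : ℕ) [Fact p.Prime], (∀ (n : ℕ) (η : (ZMod p)ˣ),
      (p : ℤ) ^ (n + 1) ∣ (tei p (n + 1) η : ℤ) - tei p n η) ∧ (∀ n, tei p n 1 = 1) ∧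
    (p ≠ 2 → ∀ n, (p : ℤ) ^ (n + 1) ∣ (tei p n (-1) : ℤ) + 1)

/-- **Teichmüller representatives in `ℤ_[p]`.**

Proof. `hensels_lemma` (Mathlib.NumberTheory.Padics.Hensel) for `F = X^(p-1) - 1` and `a = (η.val : ℤ_[p])`: `F(a)` is divisible by `p`
(Fermat: `ZMod.pow_card_sub_one_eq_one`, `PadicInt.toZMod`), `F'(a) = (p-1) a^(p-2)` is a unit, so there is `T` with `T^(p-1) = 1` and
`‖T - a‖ < 1`, i.e. `p ∣ T - a` (`PadicInt.norm_lt_one_iff_dvd` or similar). (Alternatively `WittVector.teichmuller` and `toPadicInt`.)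
Then `p^(n+1) ∣ T^(p^n) - a^(p^n)` (`dvd_sub_pow_of_dvd_sub`), and `T^(p^n) = T` because `p^n ≡ 1 mod (p-1)`. About 100 lines. -/
def S_Tei : Prop :=
  ∀ (p : ℕ) [Fact p.Prime], ∃ T : (ZMod p)ˣ → ℤ_[p], (∀ η, T η ^ (p - 1) = 1) ∧
    ∀ (η : (ZMod p)ˣ) (n : ℕ), (p : ℤ_[p]) ^ (n + 1) ∣ T η - (tei p n η : ℤ_[p])

/-- **The complex roots of unity with the relations of the Teichmüller representatives.**

Uses `S_TeiB`, `S_Tei`. Proof. `T` from `S_Tei`. `T` is injective modulo `p`: `T η - η.val` is divisible by `p` (`n = 0`), so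
`T η = 1` or `-1` only for `η = 1`, `-1` (reduce modulo `p`, `PadicInt.toZMod`), and `T 1 = 1`, `T (-1) = -1` (the difference
is divisible by every `p^(n+1)`, by `S_TeiB` (ii), (iii); an element of `ℤ_[p]` divisible by all powers of `p` is 0: norms). Let
`F = IntermediateField.adjoin ℚ (Set.range fun η => (T η : ℚ_[p]))`, algebraic over `ℚ` (generated by roots of unity), so there
is `σ : F →ₐ[ℚ] ℂ` (`IsAlgClosed.lift`), injective. `ζ η = σ (T η)`: `ζ^(p-1) = 1`, so `‖ζ‖ = 1` (`Complex.norm_eq_one_of_pow_eq_one`);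
if `(ζ η).im = 0` then `ζ η` is real of norm 1, i.e. `±1`, so `T η = ±1` and `η = ±1`. Relations: if `p^(n+1)` divides
`∑ k_η tei p n η` for all `n` then `∑ k_η T η` is divisible by all powers of `p`, so it is 0; apply `σ`.
(An alternative without `F`: a primitive `(p-1)`-th root of unity, `Polynomial.cyclotomic_eq_minpoly`.) About 150 lines. -/
def S_Emb : Prop :=
  ∀ (p : ℕ) [Fact p.Prime], p ≠ 2 → ∃ ζ : (ZMod p)ˣ → ℂ, ζ 1 = 1 ∧ ζ (-1) = -1 ∧ (∀ η, ‖ζ η‖ = 1) ∧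
    (∀ η, η ≠ 1 → η ≠ -1 → (ζ η).im ≠ 0) ∧
    ∀ k : (ZMod p)ˣ → ℤ, (∀ n, (p : ℤ) ^ (n + 1) ∣ ∑ η, k η * (tei p n η : ℤ)) →
      ∑ η, (k η : ℂ) * ζ η = 0

/-- **The powers of `1 + p`.**

Proof. Induction on `n`. `n = 0`: `i = 0`. Step: let `(1+p)^i = z + p^(n+1) a`. `(1+p)^(p^n) = 1 + p^(n+1) (1 + p s)` for some
integer `s` (induction, `p` odd; or `ZMod.orderOf_one_add_prime`, Mathlib.RingTheory.ZMod.UnitsCyclic). So
`(1+p)^(i + t p^n) ≡ z + p^(n+1) (a + t z)` modulo `p^(n+2)` and `z ≡ 1 mod p`: take `t ≡ -a mod p`. (Or: in the units of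
`ZMod (p^(n+1))` the elements `≡ 1 mod p` form a subgroup of order `p^n`, generated by `1 + p`.) About 90 lines. -/
def S_Pow : Prop :=
  ∀ (p : ℕ) [Fact p.Prime], p ≠ 2 → ∀ (n : ℕ) (z : ℤ), (p : ℤ) ∣ z - 1 →
    ∃ i : ℕ, (p : ℤ) ^ (n + 1) ∣ (1 + p) ^ i - z

/-- **The function `G`.**

Proof. (i) `Int.fract_add_intCast`. (ii) If `c y` is not an integer then `y` is not an integer, `fract` is continuous at `y` with
`fract y' = y' - ⌊y⌋` near `y`, and `c fract y = c y - c ⌊y⌋` is not an integer, so the floor is constant near it: explicitly, with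
`N = ⌊y⌋`, `M = ⌊c fract y⌋`, the conditions `N < y' < N + 1`, `M < c (y' - N) < M + 1` are open, hold at `y`, and give `G c y' = 2M-(c-1)`.
(iii) `y` is not an integer, so `fract (-y) = 1 - fract y` (`Int.fract_neg`), and `⌊c - c fract y⌋ = c - 1 - ⌊c fract y⌋` as
`c fract y` is not an integer. (iv) `ρ = 1/c`: for `0 < y - 1/c < 1/c` one has `0 < y < 1` (`c ≥ 2`), `1 < c y < 2`, so `G = 2 - (c-1)`;
for `0 < 1/c - y < 1/c` `0 < c y < 1`, `G = -(c-1)`. (v) `a/m ∈ [0,1)` is its own fractional part and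
`⌊c a/m⌋ = (c * a / m : ℕ)` (`Nat.floor_div_eq_div`, `Int.floor_natCast_div_natCast` or similar). About 150 lines. -/
def S_GG : Prop :=
  ∀ c : ℕ, 1 ≤ c →
    (∀ (y : ℝ) (m : ℤ), G c (y + m) = G c y) ∧
    (∀ y : ℝ, (∀ m : ℤ, (c : ℝ) * y ≠ m) → ∃ ρ : ℝ, 0 < ρ ∧ ∀ y' : ℝ, |y' - y| < ρ → G c y' = G c y) ∧
    (∀ y : ℝ, (∀ m : ℤ, (c : ℝ) * y ≠ m) → G c (-y) = -G c y) ∧
    (2 ≤ c → ∃ ρ : ℝ, 0 < ρ ∧ (∀ y : ℝ, 0 < y - 1 / c → y - 1 / c < ρ → G c y = 2 - ((c : ℤ) - 1)) ∧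
      ∀ y : ℝ, 0 < 1 / c - y → 1 / c - y < ρ → G c y = -((c : ℤ) - 1)) ∧
    ∀ m a : ℕ, a < m → wt m c a = G c ((a : ℝ) / m)

/-- **The function `hh`.**

Uses `S_GG`. Proof. (a) from (i) of `S_GG`. (b) If `f c y` is not an integer then `c (y + b/f)` is not an integer for every `b`
(multiply by `f`); take the minimum of the finitely many `ρ` of (ii). (c) `G(-y + b/f) = -G(y - b/f)` by (iii), and with `b' = -b`
`-b.val/f` and `b'.val/f` differ by an integer (`(-b).val ≡ -b.val mod f`), so `G(y - b/f) = G(y + b'/f)`; reindex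
(`Equiv.neg`, `χ(-b)⁻¹ = χ(-1)⁻¹ χ(b)⁻¹`, `χ(-1)⁻¹ = χ(-1)` as its square is 1). (d) For `b ≠ 1` `c (t0 + b/f) = 1 + c (b.val - 1.val)/f`
is not an integer, since `f` is prime to `c` and does not divide `b.val - (1 : ZMod f).val` (`ZMod.val` is injective; both are
`< f`); so by (ii) `G(· + b/f)` is constant near `t0` and the terms of `y` and `y'` cancel. For `b = 1`: `y + 1/f = 1/c + (y - t0)`,
`y' + 1/f = 1/c - (t0 - y')`, so by (iv) the difference of the two terms is `χ(1)⁻¹ * 2 = 2`. (If `f = 1` then `(1 : ZMod 1).val = 0`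
and `b = 1` is the only term.) About 220 lines. -/
def S_HH : Prop :=
  ∀ (f c : ℕ) [NeZero f], 2 ≤ c → c.Coprime f → ∀ (κ : Type) [Field κ] (χ : (ZMod f)ˣ →* κˣ),
    (∀ (y : ℝ) (m : ℤ), hh f c χ (y + m) = hh f c χ y) ∧
    (∀ y : ℝ, (∀ m : ℤ, (f : ℝ) * c * y ≠ m) → ∃ ρ : ℝ, 0 < ρ ∧ ∀ y' : ℝ, |y' - y| < ρ →
      hh f c χ y' = hh f c χ y) ∧
    (∀ y : ℝ, (∀ m : ℤ, (f : ℝ) * c * y ≠ m) → hh f c χ (-y) = -((χ (-1) : κˣ) : κ) * hh f c χ y) ∧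
    ∃ ρ : ℝ, 0 < ρ ∧ ∀ y y' : ℝ, 0 < y - (1 / c - ((1 : ZMod f).val : ℝ) / f) →
      y - (1 / c - ((1 : ZMod f).val : ℝ) / f) < ρ → 0 < (1 / c - ((1 : ZMod f).val : ℝ) / f) - y' →
      (1 / c - ((1 : ZMod f).val : ℝ) / f) - y' < ρ → hh f c χ y - hh f c χ y' = 2

/-- **Reduction of the sum of `S_NV` to `S(n, w)`.**

Uses `S_Pow`, `S_GG` ((i) and (v)). Proof. `q = p^(n+1)`, `f` and `q` are coprime. By `S_Pow` with `z = f w` there is `i` with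
`(1+p)^i ≡ f w mod q`. Let `u` be the unit `q` of `ZMod f` (`ZMod.unitOfCoprime`). For `(b, η)` let `a = ix p f n b η i`, `a < f q`
(`Nat.chineseRemainder_lt_mul`), `a ≡ b.val mod f`, `a ≡ tei p n η (1+p)^i mod q` (the `.2` of `Nat.chineseRemainder`; unfold `ix`, `dif_pos`).
The integer `a - tei p n η * w * f - (b u⁻¹ : ZMod f).val * q` is divisible by `f` (in `ZMod f` it is `b - b u⁻¹ u = 0`) and by `q`
(`tei (1+p)^i - tei w f`), hence by `f q`: so `a/(f q) = tei * w/q + (b u⁻¹).val/f + integer` and by (v), (i)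
`wt (f q) c a = G c (tei * w/q + (b u⁻¹).val/f)`. `χ(b,η)⁻¹ = χ_f(b)⁻¹ χ_p(η)⁻¹`. Substitute `b = b' u` in the sum over `b`
(`Equiv.mulRight u`): the inner sum over `b` is `χ_f(u)⁻¹ hh (tei w/q)`. So the sum is `v * SS` with `v = χ_f(u)⁻¹`. (`ix` contains `n`
with `p^n`: `(η : ZMod p).val ^ p ^ n = tei p n η`.) About 200 lines. -/
def S_Red : Prop :=
  ∀ (p f : ℕ) [Fact p.Prime] [NeZero f], p ≠ 2 → ¬ p ∣ f → ∀ c : ℕ, 1 ≤ c →
    ∀ (κ : Type) [Field κ] (χ : (ZMod f)ˣ × (ZMod p)ˣ →* κˣ) (n : ℕ) (w : ℤ), (p : ℤ) ∣ f * w - 1 →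
    ∃ (i : ℕ) (v : κˣ), ∑ b : (ZMod f)ˣ, ∑ η : (ZMod p)ˣ,
        (((χ (b, η))⁻¹ : κˣ) : κ) * ((wt (f * p ^ (n + 1)) c (ix p f n b η i) : ℤ) : κ) =
      (v : κ) * SS p f c χ n w

/-- **`S(n, w)` up to the terms `η ≠ ±1`.**

Uses `S_TeiB`, `S_HH` ((a) and (c)). Proof. `p` is odd, so `1 ≠ -1` in `(ZMod p)ˣ`; split off the terms `η = 1` and `η = -1` of `SS`
(`Finset.sum_filter_add_sum_filter_not` or `Finset.add_sum_erase` twice). For `η = 1`: `tei = 1`, `χ_p(1) = 1`, the term is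
`hh (w/q)`. For `η = -1`: `tei p n (-1) w/q + w/q` is an integer (`S_TeiB` (iii)), so `hh (tei w/q) = hh (-(w/q)) = -χ_f(-1) hh (w/q)` and
`χ_p(-1)⁻¹ χ_f(-1) = χ_p(-1) χ_f(-1) = χ(-1,-1) = -1`, so the term is `+hh (w/q)`. About 100 lines. -/
def S_Two : Prop :=
  ∀ (p f : ℕ) [Fact p.Prime] [NeZero f], p ≠ 2 → ∀ c : ℕ, 2 ≤ c → c.Coprime f →
    ∀ (κ : Type) [Field κ] (χ : (ZMod f)ˣ × (ZMod p)ˣ →* κˣ), χ (-1, -1) = -1 →
    ∀ (n : ℕ) (w : ℤ), (∀ m : ℤ, (f : ℝ) * c * ((w : ℝ) / p ^ (n + 1)) ≠ m) →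
    SS p f c χ n w = 2 * hh f c (chf χ) ((w : ℝ) / p ^ (n + 1)) +
      ∑ η ∈ (univ : Finset (ZMod p)ˣ).filter (fun η => η ≠ 1 ∧ η ≠ -1),
        (((chp χ η)⁻¹ : κˣ) : κ) * hh f c (chf χ) ((tei p n η : ℝ) * w / p ^ (n + 1))

/-- **Non-vanishing of some `S(n, w)`.**

Uses `S_Kro`, `S_TeiB`, `S_Emb`, `S_HH`, `S_Two`. Proof. `ζ` from `S_Emb`, `t0 = 1/c - (1 : ZMod f).val/f`, `X_η(τ) = τ Re ζ_η + s Im ζ_η`.
1. There is a real `s` such that `f c X_η(t0)` is not an integer for all `η ≠ 1, -1`: the bad `s` are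
`(m/(f c) - t0 Re ζ_η)/Im ζ_η`, a countable set (`Set.countable_range`, `Set.countable_iUnion`), and `ℝ` is not countable
(`Set.not_countable_univ`). 2. `ρ_η > 0` from `S_HH` (b) at `X_η(t0)`, `ρ_0` from (d); choose `ε > 0` with
`2 ε < ρ_0`, `2 ε f c < 1`, `2 ε < ρ_η` for all `η ≠ 1, -1`. 3. For each sign `±` apply `S_Kro` with `ι = (ZMod p)ˣ`, `E n η = tei p n η`
(`S_TeiB` (i)), `x_η = X_η(t0 ± ε)`, `δ = ε/2` and `w0` with `p ∣ f w0 - 1` (`f` is a unit modulo `p`). The hypothesis on relations: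
`∑ k_η x_η = (t0 ± ε) Re(∑ k_η ζ_η) + s Im(∑ k_η ζ_η) = 0`. Result: `n`, `w` with `p ∣ f w - 1` and
`dz(tei p n η w/q - x_η) < ε/2` for all `η`. 4. `η = 1` (`tei = 1`, `ζ = 1`): `w/q = t0 ± ε + r + m`, `|r| < ε/2`, `m` an integer; `y = w/q - m`
has `0 < y - t0 < 2ε` (sign `+`) or `0 < t0 - y < 2ε` (sign `-`). `f c t0 = f - c (1 : ZMod f).val` is an integer and
`0 < |f c (y - t0)| < 1`, so `f c y` and `f c w/q` are not integers and `S_Two` applies. `hh (w/q) = hh y` (`S_HH` (a)). 5. `η ≠ ±1`: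
`tei w/q - m_η` is within `ε |Re ζ_η| + ε/2 < ρ_η` of `X_η(t0)`, so `hh (tei w/q) = hh (X_η(t0))`, the same value for both signs.
6. So `S(n₊,w₊) - S(n₋,w₋) = 2 (hh y₊ - hh y₋) = 4`, which is not 0 in `κ` (`CharP κ p`, `p ≠ 2`: `(2 : κ) ≠ 0`). So one of the two is not
0. About 250 lines. -/
def S_Main : Prop :=
  ∀ (p f : ℕ) [Fact p.Prime] [NeZero f], p ≠ 2 → ¬ p ∣ f → ∀ c : ℕ, 2 ≤ c → c.Coprime f →
    ∀ (κ : Type) [Field κ] [CharP κ p] (χ : (ZMod f)ˣ × (ZMod p)ˣ →* κˣ), χ (-1, -1) = -1 →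
    ∃ (n : ℕ) (w : ℤ), (p : ℤ) ∣ f * w - 1 ∧ SS p f c χ n w ≠ 0

/-- **Part C**, assembly. -/
theorem tNV (hMain : S_Main) (hRed : S_Red) : S_NV := by
  intro p f _ _ hp hpf c hc hcf κ _ _ χ hχ
  have hcf' : c.Coprime f := Nat.Coprime.coprime_mul_right_right hcf
  obtain ⟨n, w, hw, hS⟩ := hMain p f hp hpf c hc hcf' κ χ hχ
  obtain ⟨i, v, h⟩ := hRed p f hp hpf c (by omega) κ χ n w hw
  refine ⟨n, i, ?_⟩
  rw [h]
  exact mul_ne_zero v.ne_zero hS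

end Pool.Agent.FW.C
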