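import Pool.Agent.Lib.FW.SpecG

/-!
# FW, part D: finiteness of the characters of `U` unramified outside `p`

Every `S_...` is a statement with a complete proof in its docstring, to be proved in its own module;
other statements are used only if they are named as hypotheses.
-/

open scoped Pointwise

noncomputable section

namespace Pool.Agent.FW

open Pool.Agent.MuZ

/-! ## Algebra -/

/-- (80 lines) **Modules over finite rings.** `R` is a finite commutative ring. If for every maximal ideal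
`𝔪` only finitely many elements of `V` are killed by `𝔪`, then `V` is finite.
PROOF. `R` is Noetherian, so there is a multiset `Z` of prime ideals with product `⊥`
(`PrimeSpectrum.exists_primeSpectrum_prod_le` or similar); in a finite ring primes are maximal (a finite
domain is a field). For a multiset `Z` of maximal ideals let `V[Z]` be the set of all `x` killed by the
product of the members of `Z`. CLAIM: `V[Z]` is finite, by induction on `Z`. `Z = 0`: the product is `⊤`,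
`V[Z] = {0}`. Step: let `𝔪` be maximal, `I` the product of `Z`, `V[I]` finite. For `x` killed by `𝔪 I`
and `a ∈ 𝔪` we have `a x ∈ V[I]` (`b a x = 0` for `b ∈ I`). The map `x ↦ (a ↦ a x)` from `V[𝔪 I]` to the
finite set of functions `𝔪 → V[I]` has finite fibres: if `x`, `y` have the same image then `x - y` is in the
finite set `V[𝔪]`. So `V[𝔪 I]` is finite. For the product `⊥`: `V[⊥] = V`. -/
def S_FinM : Prop :=
  ∀ (R V : Type) [CommRing R] [Finite R] [AddCommGroup V] [Module R V],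
    (∀ 𝔪 : Ideal R, 𝔪.IsMaximal → {x : V | ∀ a ∈ 𝔪, a • x = 0}.Finite) → Finite V

/-- (200 lines) **The polynomial argument.** `κ` a field of characteristic `p`, `t` a locally unipotent
endomorphism of the `κ`-space `W` (`t ^ p ^ k x = x` for some `k = k(x)`), `c n i`, `i < p ^ n`, the coefficients of
polynomials `P_n` which are compatible modulo `X ^ p ^ n - 1`, not all zero, and `P_n(t) x = 0` for all large
`n`. Then a fixed power of `t - 1` is `0`.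
PROOF. `P_n = ∑ over i < p ^ n of c n i X ^ i` in `κ[X]`. The compatibility says
`P_(n+1) ≡ P_n mod (X ^ p ^ n - 1) = (X - 1) ^ p ^ n` (write `i' = i + p ^ n j`,
`X ^ i' = X ^ i (X ^ p ^ n) ^ j ≡ X ^ i`). Let `c n₀ i₀ ≠ 0`. For `n ≥ n₀`: `P_n ≡ P_(n₀)` modulo
`(X - 1) ^ p ^ n₀` by induction. `P_(n₀) ≠ 0` has degree `< p ^ n₀`, so the multiplicity `l` of the root `1` in it
is `< p ^ n₀`. So for `n ≥ n₀`, `P_n = (X - 1) ^ l Q_n` with `Q_n(1) ≠ 0`: `P_n = P_(n₀) + (X - 1) ^ p ^ n₀ R`,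
`Q_n = Q_(n₀) + (X - 1) ^ (p ^ n₀ - l) R`. Let `x ∈ W`, `t ^ p ^ k x = x`, so `(t - 1) ^ p ^ k x = 0`, and choose
`n ≥ n₀` with `P_n(t) x = 0`. `Q_n` and `(X - 1) ^ p ^ k` are coprime: `A Q_n + B (X - 1) ^ p ^ k = 1`. So
`(t - 1) ^ l x = A(t) Q_n(t) (t - 1) ^ l x + B(t) (t - 1) ^ l (t - 1) ^ p ^ k x = A(t) P_n(t) x + 0 = 0`
(`Polynomial.aeval t`). -/
def S_Pol : Prop :=
  ∀ (p : ℕ) [Fact p.Prime] (κ W : Type) [Field κ] [CharP κ p] [AddCommGroup W] [Module κ W]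
    (t : W →ₗ[κ] W) (c : ℕ → ℕ → κ),
    (∀ x : W, ∃ k : ℕ, (t ^ p ^ k) x = x) →
    (∀ n i : ℕ, i < p ^ n → ∑ j ∈ Finset.range p, c (n + 1) (i + p ^ n * j) = c n i) →
    (∀ x : W, ∃ n' : ℕ, ∀ n ≥ n', ∑ i ∈ Finset.range (p ^ n), c n i • (t ^ i) x = 0) →
    (∃ n i : ℕ, i < p ^ n ∧ c n i ≠ 0) →
    ∃ l : ℕ, ∀ x : W, ((t - 1) ^ l) x = 0

/-- The conclusion of the abstract finiteness theorem. -/
def S_DAc : Prop :=
  ∀ (p : ℕ) [Fact p.Prime] (Δ V : Type) [CommGroup Δ] [Fintype Δ] [AddCommGroup V]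
    [Module (ZMod p) V] (ρ : Representation (ZMod p) Δ V) (t : V →ₗ[ZMod p] V)
    (w : ℕ → ℕ → Δ → ZMod p) (j : Δ),
    (∀ (d : Δ) (x : V), ρ d (t x) = t (ρ d x)) → (∀ x : V, ρ j x = x) →
    (∀ x : V, ∃ k : ℕ, (t ^ p ^ k) x = x) → {x : V | t x = x}.Finite →
    (∀ (n i : ℕ) (d : Δ), i < p ^ n →
      ∑ k ∈ Finset.range p, w (n + 1) (i + p ^ n * k) d = w n i d) →
    (∀ x : V, ∃ n' : ℕ, ∀ n ≥ n',
      ∑ i ∈ Finset.range (p ^ n), ∑ d : Δ, w n i d • ρ d⁻¹ ((t ^ i) x) = 0) →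
    (∀ (κ : Type) [Field κ] [CharP κ p] (χ : Δ →* κˣ), χ j = 1 →
      ∃ n i : ℕ, i < p ^ n ∧
        ∑ d : Δ, ZMod.castHom (dvd_refl p) κ (w n i d) * (((χ d)⁻¹ : κˣ) : κ) ≠ 0) →
    Finite V

/-- (200 lines) **Abstract finiteness.** Uses `S_FinM`, `S_Pol`.
PROOF. Let `R = MonoidAlgebra (ZMod p) Δ`, a finite commutative ring; `V` is an `R`-module via `ρ`
(`Module.compHom V ρ.asAlgebraHom.toRingHom`, so `single d 1` acts as `ρ d`; `R` is finite because it is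
functions on the finite `Δ` with values in `ZMod p`). By `S_FinM` let `𝔪` be a maximal ideal,
`W = {x : V | ∀ a ∈ 𝔪, a • x = 0}` (a submodule), `κ = R ⧸ 𝔪`, a field of characteristic `p` (`p = 0` in `R`),
`W` is a `κ`-module (`Module.IsTorsionBySet.module`), and `t` commutes with `R`, so it maps `W` to `W` and is
`κ`-linear there. `χ d` = the class of `single d 1`, a unit of `κ`; `χ d` acts on `W` as `ρ d`, and a scalar
`r : ZMod p` acts as `castHom r`. If `W = 0` it is finite. Otherwise let `x ≠ 0` in `W`: `(χ j - 1) x = 0`, so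
`χ j = 1`. Let `c n i = ∑ over d of castHom (w n i d) (χ d)⁻¹`. `S_Pol` applies to `W`, `t`, `c`: there is `l`
with `(t - 1) ^ l = 0` on `W`. The set `{x ∈ W : (t - 1) ^ m x = 0}` is finite for every `m` by induction:
`x ↦ (t - 1) x` maps the set for `m + 1` to the one for `m` with fibres which are translates of parts of the
finite set `{x | t x = x}`. So `W` is finite. -/
def S_DA : Prop := S_FinM → S_Pol → S_DAc

/-! ## Cyclotomic automorphisms -/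

/-- `δ` acts on the `f`-th roots of unity as `b` and on the `p`-power roots of unity as the Teichmüller
representative of `η`. -/
def IsDel (p f : ℕ) (b : (ZMod f)ˣ) (η : (ZMod p)ˣ) (δ : Gal(Om/ℚ)) : Prop :=
  (∀ z : Om, z ^ f = 1 → δ z = z ^ (b : ZMod f).val) ∧
    ∀ (n : ℕ) (z : Om), z ^ p ^ (n + 1) = 1 → δ z = z ^ ((η : ZMod p).val ^ p ^ n)

/-- (150 lines) **Lifts.**
PROOF. (0) For `m > 0` and `a` prime to `m` there is `σ ∈ Gal(Om/ℚ)` with `σ z = z ^ a` for all `z ^ m = 1`: a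
primitive `m`-th root of unity `ζ` and `ζ ^ a` have the same minimal polynomial
(`Polynomial.cyclotomic_eq_minpoly_rat`), so there is a field homomorphism `ℚ(ζ) → Om` with `ζ ↦ ζ ^ a`, which
lifts to `Om`; see `Pool/Agent/Lib/MuZ/QZ.lean`, which contains this for `m = p ^ n`, or use
`IsCyclotomicExtension.autEquivPow`. (1) Compatible systems: let `u : ℕ → ℕ` with
`u (n + 1) ≡ u n mod p ^ (n + 1)`, `p ∤ u 0`, and `b : (ZMod f)ˣ`. There is `δ` with `δ z = z ^ b.val` for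
`z ^ f = 1` and `δ z = z ^ u n` for `z ^ p ^ (n + 1) = 1`, all `n`: the sets `C_n` of the `σ` with this property for
the index `n` (hence for smaller ones) are closed (stabilisers are open), decreasing, and not empty: choose
by the Chinese remainder theorem `a` with `a ≡ b mod f`, `a ≡ u n mod p ^ (n + 1)`, prime to `f p ^ (n + 1)`,
and use (0). Compactness of `Gal(Om/ℚ)`. (2) `IsDel`: `u n = η.val ^ p ^ n`; with `h = η.val`,
`h ^ p ≡ h mod p` gives `h ^ p ^ (n + 1) ≡ h ^ p ^ n mod p ^ (n + 1)` (raising a congruence modulo `p` to the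
power `p ^ n`; `Nat.ModEq`/`dvd_sub_pow_of_dvd_sub`). (3) `IsGam`: `b = 1`, `u n = 1 + p`; `γ` fixes the `z` with
`z ^ (f p) = 1` because `z` is a product of an `f`-th and a `p`-th root of unity (`p ∤ f`) and
`z ^ (1 + p) = z` for `z ^ p = 1`. -/
def S_Lift : Prop :=
  ∀ (p f : ℕ) [Fact p.Prime], 0 < f → ¬ p ∣ f →
    (∀ (b : (ZMod f)ˣ) (η : (ZMod p)ˣ), ∃ δ, IsDel p f b η δ) ∧ ∃ γ, IsGam p f γ

/-- (200 lines) **The index.** `m = f p ^ (n + 1)`. Properties of `ix p f n b η i`, which is the number `a` in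
`[0, m)` with `a ≡ b mod f` and `a ≡ η.val ^ p ^ n (1 + p) ^ i mod p ^ (n + 1)` (`Nat.chineseRemainder`,
`Nat.chineseRemainder_lt_mul`).
PROOF. (1) `a` is prime to `f` (`b` is a unit modulo `f`) and to `p`. (2) `η.val ^ p ^ n ≡ η.val mod p` (Fermat) and
`(1 + p) ^ i ≡ 1 mod p`. (3) `(1 + p) ^ p ^ n ≡ 1 mod p ^ (n + 1)`. (4) Let the indices be equal: `b = b'`
(both `< f` as `val`), `η = η'` by (2), and then `(1 + p) ^ i ≡ (1 + p) ^ i' mod p ^ (n + 1)`, and `1 + p` has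
order `p ^ n` modulo `p ^ (n + 1)` (`p` odd: `ZMod.orderOf_one_add_prime` in
`Mathlib/RingTheory/ZMod/UnitsCyclic.lean`, or lifting the exponent). (5) by counting: the number of triples is
`φ(f) (p - 1) p ^ n = φ(m)`, or directly: `a / η.val ^ p ^ n` is `≡ 1 mod p`, and the powers of `1 + p` are all the
`p ^ n` residues `≡ 1 mod p` modulo `p ^ (n + 1)`. (6) `z` is a product `z₁ z₂` with `z₁ ^ f = 1`,
`z₂ ^ p ^ (n + 1) = 1` (`p ∤ f`); `γ` fixes `z₁` (`z₁ ^ (f p) = 1`) and `γ ^ i z₂ = z₂ ^ ((1 + p) ^ i)`;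
`δ z₁ = z₁ ^ b.val = z₁ ^ a`; `δ (γ ^ i z₂) = z₂ ^ (η.val ^ p ^ n (1 + p) ^ i) = z₂ ^ a`. -/
def S_Ix : Prop :=
  ∀ (p f : ℕ) [Fact p.Prime] [NeZero f], p ≠ 2 → ¬ p ∣ f → ∀ n : ℕ,
    (∀ b η i, ix p f n b η i ∈ Un (f * p ^ (n + 1))) ∧
    (∀ b η i, ((ix p f n b η i : ℕ) : ZMod p) = (η : ZMod p)) ∧
    (∀ b η i, ix p f n b η (i % p ^ n) = ix p f n b η i) ∧
    (∀ b η b' η' i i', i < p ^ n → i' < p ^ n → ix p f n b η i = ix p f n b' η' i' →
      b = b' ∧ η = η' ∧ i = i') ∧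
    (∀ a ∈ Un (f * p ^ (n + 1)), ∃ b η i, i < p ^ n ∧ ix p f n b η i = a) ∧
    ∀ b η i δ γ, IsDel p f b η δ → IsGam p f γ → ∀ z : Om, z ^ (f * p ^ (n + 1)) = 1 →
      (δ * γ ^ i) z = z ^ ix p f n b η i

/-- (150 lines) **The distribution relation.** `c` prime to `p`.
PROOF. Let `m = f p ^ (n + 1)`, `a = ix p f n b η i`. (1) The numbers `ix p f (n + 1) b η (i + p ^ n j)`, `j < p`,
are the `a + m k`, `k < p`, in some order: they are `< m p`, pairwise different (the residue of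
`(1 + p) ^ (i + p ^ n j)` modulo `p ^ (n + 2)` determines `j`: `(1 + p) ^ p ^ n = 1 + p ^ (n + 1) u`, `p ∤ u`,
`p` odd) and congruent to `a` modulo `m`: modulo `f` both are `b`; modulo `p ^ (n + 1)`:
`η.val ^ p ^ (n + 1) ≡ η.val ^ p ^ n` and `(1 + p) ^ (p ^ n j) ≡ 1`. (2)
`∑ over k < p of (2 ⌊c (a + m k) / (m p)⌋ - (c - 1)) = 2 ⌊c a / m⌋ - (c - 1)`: with `N = ⌊c a / m⌋`,
`⌊c (a + m k) / (m p)⌋ = ⌊(N + c k) / p⌋` (`Nat.div_div_eq_div_mul`: `(c a + c k m) / m / p`), and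
`∑ over k of ⌊(N + c k) / p⌋ = ∑ (N + c k - (N + c k) mod p) / p = (p N + c p (p - 1) / 2 - p (p - 1) / 2) / p`
`= N + (c - 1) (p - 1) / 2` since `k ↦ (N + c k) mod p` is a permutation of `[0, p)` (`c` prime to `p`).
Twice this minus `p (c - 1)` is `2 N - (c - 1)`. -/
def S_Dist : Prop :=
  ∀ (p f : ℕ) [Fact p.Prime] [NeZero f], p ≠ 2 → ¬ p ∣ f → ∀ c : ℕ, 0 < c → c.Coprime p →
    ∀ (n : ℕ) (b : (ZMod f)ˣ) (η : (ZMod p)ˣ) (i : ℕ), i < p ^ n →
      ∑ j ∈ Finset.range p, wt (f * p ^ (n + 1 + 1)) c (ix p f (n + 1) b η (i + p ^ n * j)) =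
        wt (f * p ^ (n + 1)) c (ix p f n b η i)

/-! ## The action on characters -/

/-- (150 lines) **Conjugation.** `U` is normal in `Gal(Om/ℚ)` and acts trivially.
PROOF. For `u ∈ U`, `σ⁻¹ u σ` acts on the `z` with `IsRt p f z` as `u` does (`σ z` is again such a root of unity;
`u (σ z) = (σ z) ^ (1 or -1) = σ (z ^ (1 or -1))`). So `U` is normal. Conditions of `VV`: vanishing outside `U`,
additivity clear; continuity: if `g = 0` on `U ∩ O` then the conjugate vanishes on `U ∩ σ O σ⁻¹`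
(`OpenSubgroup.comap` of the continuous automorphism `τ ↦ σ⁻¹ τ σ`); local groups: for
`τ ∈ P.inertia ∩ U`, `σ⁻¹ τ σ ∈ (σ⁻¹ • P).inertia ∩ U`, and `σ⁻¹ • P` is a nonzero prime which does not
contain `p` (see `MuZ/Conj.lean`). For `u ∈ U`: `g (u⁻¹ τ u) = - g u + g τ + g u = g τ` if `τ ∈ U`, and both
sides are `0` if `τ ∉ U`. -/
def S_Cj : Prop :=
  ∀ (p f : ℕ) [Fact p.Prime], ∀ g ∈ VV p (LocO p) (UU p f),
    (∀ σ : Gal(Om/ℚ), (fun τ => g (σ⁻¹ * τ * σ)) ∈ VV p (LocO p) (UU p f)) ∧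
    ∀ u ∈ UU p f, (fun τ => g (u⁻¹ * τ * u)) = g

/-- (120 lines) **Smoothness.** PROOF. Let `g = 0` on `U ∩ O`, `O` an open NORMAL subgroup. The closed sets
`F_k = {ν : ν z = z for z ^ (f p ^ k) = 1}` decrease with `k`, their intersection is `M = MM p f`, and
`M O` is an open set which contains `M` (a union of cosets of `O`); by compactness `F_k ⊆ M O` for some `k`.
Let `ν ∈ F_k`, `ν = μ o`. For `τ ∈ U`, `ν⁻¹ τ ν = o⁻¹ (μ⁻¹ τ μ) o`; `μ⁻¹ τ μ ∈ U` and `g (μ⁻¹ τ μ) = g τ`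
(additivity, `μ ∈ U`); for `x ∈ U` `o⁻¹ x o = x (x⁻¹ o⁻¹ x o)` with `x⁻¹ o⁻¹ x o ∈ U ∩ O` (`U` is normal: see
`S_Cj`, `O` is normal), so `g (o⁻¹ x o) = g x`. -/
def S_Sm : Prop :=
  ∀ (p f : ℕ) [Fact p.Prime], ∀ g ∈ VV p ∅ (UU p f),
    ∃ k : ℕ, ∀ ν : Gal(Om/ℚ), (∀ z : Om, z ^ (f * p ^ k) = 1 → ν z = z) →
      ∀ τ ∈ UU p f, g (ν⁻¹ * τ * ν) = g τ

/-- (120 lines) **The relation in terms of `δ`, `γ`.** Uses `S_SV`, `S_Ix`.
PROOF. Let `n0` be from `S_SV`, `n ≥ n0`, `m = f p ^ (n + 1)`. By `S_Ix` every `a ∈ Un m` is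
`ix p f n b η i` for a unique triple with `i < p ^ n`; put `σ a = δ b η * γ ^ i` (and `σ a = 1` for other `a`); by
`S_Ix` `IsFam m σ`. In the sum of `S_SV` substitute `a = ix p f n b η i`
(`Finset.sum_bij` or `Finset.sum_nbij'`, and `Finset.sum_product`), `(a : ZMod p) = η`. -/
def S_Rel : Prop :=
  S_SV → S_Ix → ∀ (p f : ℕ) [Fact p.Prime] [NeZero f], p ≠ 2 → ¬ p ∣ f →
    ∀ (δ : (ZMod f)ˣ → (ZMod p)ˣ → Gal(Om/ℚ)) (γ : Gal(Om/ℚ)),
    (∀ b η, IsDel p f b η (δ b η)) → IsGam p f γ → ∀ c : ℕ, 2 ≤ c →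
    ∀ g ∈ VV p (LocO p) (UU p f), ∃ n' : ℕ, ∀ n ≥ n', c < f * p ^ (n + 1) → ∀ τ ∈ UU p f,
      ∑ i ∈ Finset.range (p ^ n), ∑ b : (ZMod f)ˣ, ∑ η : (ZMod p)ˣ,
        ((wt (f * p ^ (n + 1)) c (ix p f n b η i) : ℤ) : ZMod p) *
          ((η : ZMod p)⁻¹ * g (δ b η * γ ^ i * τ * (δ b η * γ ^ i)⁻¹)) = 0

/-- (250 lines) **Assembly of part D.**
PROOF. `hRel` is the conclusion of `S_Rel`. Let `V = VV p (LocO p) (UU p f)` (the submodule as a type). For
`σ ∈ Gal(Om/ℚ)` let `A σ : V →ₗ V`, `(A σ g) τ = g (σ⁻¹ τ σ)` (`S_Cj`): `A (σ σ') = A σ ∘ A σ'`, `A 1 = 1`, and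
`A u = 1` for `u ∈ U` (`S_Cj`). So `A σ = A σ'` if `σ`, `σ'` act in the same way on all `z` with `IsRt p f z`, or
up to `U`. Let `δ`, `γ` be from `S_Lift` (`Classical.choose`), `Δ = (ZMod f)ˣ × (ZMod p)ˣ`,
`ρ (b, η) = A (δ b η)`: a representation, because `δ (b b') (η η')` and `δ b η * δ b' η'` act in the same way on the
`f`-th roots of unity and on the `p`-power ones (`(η η').val ≡ η.val η'.val mod p`, so the `p ^ n`-th powers are
congruent modulo `p ^ (n + 1)`), hence on all `z` with `IsRt p f z` (products of both kinds, `p ∤ f`).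
`t = A γ⁻¹`. `ρ d` and `t` commute (`δ γ` and `γ δ` act in the same way on roots of unity). `j = (-1, -1)`:
`δ (-1) (-1)` acts as the inversion on the `f`-th roots of unity and on the `p ^ (n + 1)`-th ones
(`(p - 1) ^ p ^ n ≡ -1`, `p` odd), so it is in `U`, `ρ j = 1`. Unipotence: `γ ^ p ^ k` fixes the roots of unity of
order dividing `f p ^ (k + 1)`; use `S_Sm` (`t ^ p ^ k = A (γ ^ p ^ k)⁻¹`; elements of `V` vanish outside `U`, and
`S_Sm` gives the equality on `U`). `{x | t x = x}`: `g (γ τ γ⁻¹) = g τ` for all `τ`, so (replace `τ` by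
`γ⁻¹ τ γ`, `U` normal) `S_GF`. Let `c = f p + 1` (`≥ 2`, prime to `f p`, and `c < f p ^ (n + 1)` for `n ≥ 1`:
`f p + 1 < f p²`). `w n i (b, η) = (wt (f p ^ (n + 1)) c (ix p f n b η i) : ZMod p) * (η : ZMod p)⁻¹`: the
compatibility is `S_Dist`. The relation: `∑ w n i d • ρ d⁻¹ (t ^ i g)` evaluated at `τ ∈ U` is the sum of `hRel`:
`(A (δ b η)⁻¹ (A (γ ^ i)⁻¹ g)) τ = g ((δ γ ^ i) τ (δ γ ^ i)⁻¹)`, because `A x⁻¹ (A y⁻¹ g) = A (y x)⁻¹ g` and
`(γ ^ i δ) τ (γ ^ i δ)⁻¹` may be replaced by `(δ γ ^ i) τ (δ γ ^ i)⁻¹` (`A` of the commutator is `1`); `ρ d⁻¹` is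
the inverse of `ρ d`. Nonvanishing: for `χ : Δ →* κˣ` with `χ j = 1` let `χ' (b, η) = χ (b, η) * (η in κˣ)`, so
`χ' (-1, -1) = -1`; `S_NV` gives `n`, `i` with the sum `≠ 0`; replace `i` by `i % p ^ n` (`S_Ix` (3)). All
hypotheses of `S_DAc` hold. -/
def S_DAs : Prop :=
  S_DAc → S_Lift → S_Ix → S_Dist → S_Cj → S_Sm →
  (∀ (p f : ℕ) [Fact p.Prime] [NeZero f], p ≠ 2 → ¬ p ∣ f →
    ∀ (δ : (ZMod f)ˣ → (ZMod p)ˣ → Gal(Om/ℚ)) (γ : Gal(Om/ℚ)),
    (∀ b η, IsDel p f b η (δ b η)) → IsGam p f γ → ∀ c : ℕ, 2 ≤ c →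
    ∀ g ∈ VV p (LocO p) (UU p f), ∃ n' : ℕ, ∀ n ≥ n', c < f * p ^ (n + 1) → ∀ τ ∈ UU p f,
      ∑ i ∈ Finset.range (p ^ n), ∑ b : (ZMod f)ˣ, ∑ η : (ZMod p)ˣ,
        ((wt (f * p ^ (n + 1)) c (ix p f n b η i) : ℤ) : ZMod p) *
          ((η : ZMod p)⁻¹ * g (δ b η * γ ^ i * τ * (δ b η * γ ^ i)⁻¹)) = 0) →
  S_NV → S_GF → S_FW

end Pool.Agent.FW
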