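import Pool.Agent.Lib.MuZ.Spec
import Mathlib.NumberTheory.NumberField.DedekindZeta
import Mathlib.NumberTheory.RamificationInertia.Galois

/-!
# Frobenius: primes with a given cyclic decomposition group (part I)

All proofs are complete in the docstrings. `L` is a Galois number field with group `G`, `C` a cyclic subgroup of
`G`. The primes `p` for which some prime of `L` above `p` has decomposition group exactly `C` have positive lower
Dirichlet density. Only the simple poles of the Dedekind zeta functions are used (Frobenius 1880).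
-/

open scoped Pointwise Topology
open Filter Asymptotics IsDedekindDomain NumberField

noncomputable section

namespace Pool.Agent.FW

open Pool.Agent.MuZ

/-- `N v ^ (-s)` for a prime `v` of the number field `E`. -/
def nrI (E : Type) [Field E] [NumberField E] (v : HeightOneSpectrum (𝓞 E)) (s : ℝ) : ℝ :=
  (Ideal.absNorm v.asIdeal : ℝ) ^ (-s)

/-- The number of the primes of `E` of norm `p`. -/
def nP1 (E : Type) [Field E] [NumberField E] (p : ℕ) : ℕ :=
  Nat.card {v : Ideal (𝓞 E) // v.IsPrime ∧ Ideal.absNorm v = p}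

/-- The number of the primes of `L` above `p` whose decomposition group is `D`. -/
def nSt (L : Type) [Field L] [NumberField L] (p : ℕ) (D : Subgroup Gal(L/ℚ)) : ℕ :=
  Nat.card {P : Ideal (𝓞 L) // P.IsPrime ∧ (p : 𝓞 L) ∈ P ∧ MulAction.stabilizer Gal(L/ℚ) P = D}

/-- The set of the prime numbers `p` for which some prime of `L` above `p` has decomposition group `D`. -/
def pSt (L : Type) [Field L] [NumberField L] (D : Subgroup Gal(L/ℚ)) : Set ℕ :=
  {p | p.Prime ∧ ∃ P : Ideal (𝓞 L), P.IsPrime ∧ (p : 𝓞 L) ∈ P ∧ MulAction.stabilizer Gal(L/ℚ) P = D}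

/-- `S` is a set of prime numbers of positive lower Dirichlet density. -/
def PosDens (S : Set ℕ) : Prop :=
  ∃ c : ℝ, 0 < c ∧ ∀ᶠ s in 𝓝[>] (1 : ℝ), c * Real.log (1 / (s - 1)) ≤ ∑' p : S, ((p : ℕ) : ℝ) ^ (-s)

/-- (150 lines) **Convergence.**
PROOF. Every `v` contains exactly one prime number `p_v` (`v ∩ ℤ` is a nonzero prime ideal); `N v = p_v ^ f` with
`f ≥ 1` (`Ideal.absNorm_eq_pow_inertiaDeg`, or: `𝓞 E ⧸ v` is a finite field of characteristic `p_v`), so
`N v ≥ p_v`, and `N v ≥ p_v ^ 2` if `N v` is not prime. At most `d = [E : ℚ]` primes contain a given `p`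
(`Ideal.card_primesOverFinset_le_finrank`, or `∑ e f = d`). Let `T` be a finite set of `v`'s. Then
`∑ over v ∈ T of N v ^ (-s) ≤ ∑ over p in the image of T of d p ^ (-s) ≤ d ∑' n ^ (-s)`, and for the second
statement `∑ over v ∈ T of (N v)⁻¹ ≤ d ∑' n ^ (-2)`. `summable_of_sum_le`. -/
def S_ISum : Prop :=
  ∀ (E : Type) [Field E] [NumberField E],
    (∀ s : ℝ, 1 < s → Summable fun v : HeightOneSpectrum (𝓞 E) => nrI E v s) ∧
    Summable (fun v : {v : HeightOneSpectrum (𝓞 E) // ¬ (Ideal.absNorm v.asIdeal).Prime} =>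
      ((Ideal.absNorm v.1.asIdeal : ℕ) : ℝ)⁻¹) ∧
    ∀ p : ℕ, nP1 E p ≤ Module.finrank ℚ E

/-- (150 lines) **Upper bound of the zeta function.**
PROOF. Let `T` be the finite set of the primes `v` which divide one of the ideals `I ∈ F`, `k` larger than all
their exponents. Unique factorization: `I = ∏ over v ∈ T of v ^ (a_v)`, `a_v = a_v(I) ≤ k`, and
`I ↦ (a_v)` is injective, so `∑ over I ∈ F of N I ^ (-s) ≤ ∏ over v ∈ T of ∑ over j ≤ k of x_v ^ j`
(`Finset.prod_univ_sum` or `Finset.prod_sum`, all terms are nonnegative), where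
`x_v = N v ^ (-s) ≤ 1 / 2` (`s > 1`, `N v ≥ 2`). `∑ over j ≤ k of x ^ j ≤ 1 / (1 - x) ≤ exp (x + x ^ 2)` for
`0 ≤ x ≤ 1 / 2`: (`(1 - x) exp (x + x ^ 2) ≥ (1 - x) (1 + x + x ^ 2 + (x + x ^ 2) ^ 2 / 2) ≥ 1`, because
`(1 - x) (1 + x + x ^ 2) = 1 - x ^ 3` and `(1 - x) (x + x ^ 2) ^ 2 / 2 ≥ x ^ 2 / 4 · ...`; or use
`-log (1 - x) ≤ x + x ^ 2`, which follows from the derivative `1 / (1 - x) ≤ 1 + 2 x` for `0 ≤ x ≤ 1 / 2`.)
Multiply over `v ∈ T` and bound the finite sum by the `tsum` (`Summable.sum_le_tsum`). -/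
def S_IZu : Prop :=
  ∀ (E : Type) [Field E] [NumberField E],
    (∀ s : ℝ, 1 < s → Summable fun v : HeightOneSpectrum (𝓞 E) => nrI E v s) →
    ∀ s : ℝ, 1 < s → ∀ F : Finset {I : Ideal (𝓞 E) // I ≠ ⊥},
      ∑ I ∈ F, ((Ideal.absNorm I.1 : ℕ) : ℝ) ^ (-s) ≤
        Real.exp (∑' v : HeightOneSpectrum (𝓞 E), (nrI E v s + nrI E v (2 * s)))

/-- (100 lines) **Lower bound of the zeta function.**
PROOF. For a subset `A` of `T` let `I_A` be the product of the `v ∈ A` (a nonzero ideal). `A ↦ I_A` is injective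
(unique factorization: the `v` are distinct primes) and `N I_A ^ (-s) = ∏ over v ∈ A of nrI E v s`. Let `F` be the image of the
power set of `T`: `∑ over I ∈ F = ∑ over A ⊆ T of ∏ over v ∈ A of nrI E v s = ∏ over v ∈ T of (1 + nrI E v s)`
(`Finset.prod_one_add` or `Finset.prod_add`). -/
def S_IZl : Prop :=
  ∀ (E : Type) [Field E] [NumberField E] (s : ℝ) (T : Finset (HeightOneSpectrum (𝓞 E))),
    ∃ F : Finset {I : Ideal (𝓞 E) // I ≠ ⊥},
      ∑ I ∈ F, ((Ideal.absNorm I.1 : ℕ) : ℝ) ^ (-s) = ∏ v ∈ T, (1 + nrI E v s)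

/-- (120 lines) **The zeta function as a sum over ideals.**
PROOF. By `hZu` the finite sums of the nonnegative family `I ↦ N I ^ (-s)` are bounded, so it is summable; the
sum is `∑' n, a(n) n ^ (-s)`, `a(n)` the number of the ideals of norm `n` (finite for `n ≠ 0`,
`Ideal.finite_setOf_absNorm_eq`; sum over the fibres of `I ↦ N I`: `HasSum.sigma`, or
`Summable.tsum_fiberwise`, `Equiv.sigmaFiberEquiv`). This is the real part of `dedekindZeta E s`, which is by
definition `LSeries a s = ∑' n, LSeries.term a s n`; `term` is `0` for `n = 0` and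
`a(n) / n ^ s` (complex) for `n ≠ 0`, the coercion of the real number `a(n) n ^ (-s)`
(`Complex.ofReal_cpow`), the series is the coercion of the real series (`Complex.ofReal_tsum`, or
`Complex.hasSum_ofReal`). -/
def S_IZ : Prop :=
  ∀ (E : Type) [Field E] [NumberField E] (s : ℝ), 1 < s → ∀ B : ℝ,
    (∀ F : Finset {I : Ideal (𝓞 E) // I ≠ ⊥}, ∑ I ∈ F, ((Ideal.absNorm I.1 : ℕ) : ℝ) ^ (-s) ≤ B) →
    HasSum (fun I : {I : Ideal (𝓞 E) // I ≠ ⊥} => ((Ideal.absNorm I.1 : ℕ) : ℝ) ^ (-s))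
      (dedekindZeta E s).re

/-- (150 lines) **The pole.**
PROOF. Uses `S_ISum`, `S_IZu`, `S_IZl`, `S_IZ`. Let `Z = Re ζ_E(s)`, `P = ∑' nrI E v s`,
`c = ∑' nrI E v 2`. For `s > 1`: `nrI E v (2 s) ≤ nrI E v 2`, so `S_IZu` and `S_IZ` give
`Z ≤ exp (P + c)` (`Z` is the supremum of the finite sums) and `S_IZl` gives
`∏ over T of (1 + nrI E v s) ≤ Z` for all finite `T`; `log (1 + x) ≥ x - x ^ 2` for `x ≥ 0`, so
`∑ over T of nrI E v s ≤ log Z + c`, `P ≤ log Z + c`. Hence `|P - log Z| ≤ c` (`Z ≥ 1`). By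
`NumberField.tendsto_sub_one_mul_dedekindZeta_nhdsGT` (take real parts) `(s - 1) Z → ρ > 0` for `s → 1+`
(`dedekindZeta_residue_pos`), so `log Z - log (1 / (s - 1)) = log ((s - 1) Z) → log ρ` is bounded near `1`. -/
def S_IAn : Prop :=
  S_ISum → S_IZu → S_IZl → S_IZ → ∀ (E : Type) [Field E] [NumberField E],
    (fun s : ℝ => (∑' v : HeightOneSpectrum (𝓞 E), nrI E v s) - Real.log (1 / (s - 1)))
      =O[𝓝[>] 1] (fun _ => (1 : ℝ))

/-- (120 lines) **Primes of degree one.**
PROOF. Uses `S_ISum` and the conclusion of `S_IAn`. For `s > 1` split the sum over `v` in the `v` with `N v` prime and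
the others. The sum over the others is between `0` and `∑' (N v)⁻¹` (`N v ^ (-s) ≤ (N v)⁻¹`), bounded. The first one is
`∑' p, nP1 E p p ^ (-s)`: group by the value `p = N v` (`HasSum.sigma` / `Equiv.sigmaFiberEquiv`; the `v` with
`N v = p` correspond to the prime ideals of norm `p`, they are not `⊥` because `N ⊥ = 0`; finitely many). -/
def S_ID1 : Prop :=
  S_ISum → (∀ (E : Type) [Field E] [NumberField E],
    (fun s : ℝ => (∑' v : HeightOneSpectrum (𝓞 E), nrI E v s) - Real.log (1 / (s - 1)))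
      =O[𝓝[>] 1] (fun _ => (1 : ℝ))) →
  ∀ (E : Type) [Field E] [NumberField E],
    (fun s : ℝ => (∑' p : Nat.Primes, (nP1 E p : ℝ) * ((p : ℕ) : ℝ) ^ (-s)) - Real.log (1 / (s - 1)))
      =O[𝓝[>] 1] (fun _ => (1 : ℝ))

/-- (60 lines) **Ramification.** PROOF. Only finitely many prime numbers `p` are ramified in `L`: the nontrivial
inertia groups. (If `P.inertia G ≠ ⊥` then the ramification index of `P` over `p`
is `> 1` (`Ideal.card_inertia_eq_ramificationIdxIn`), so `P` divides the different ideal of `𝓞 L` over `ℤ`, a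
nonzero ideal, which has only finitely many prime divisors. Or directly: let `L = ℚ(θ)`, `θ` integral, and
`δ = ∏ over σ ≠ 1 of (σ θ - θ) ≠ 0`; if `σ ≠ 1` is in the inertia group of `P` then `σ θ - θ ∈ P`, so
`δ ∈ P`, and the nonzero element `δ` is contained in only finitely many primes `P`; each contains only one prime
number.) -/
def S_IRam : Prop :=
  ∀ (L : Type) [Field L] [NumberField L] [IsGalois ℚ L],
    {p : ℕ | p.Prime ∧ ∃ P : Ideal (𝓞 L), P.IsPrime ∧ (p : 𝓞 L) ∈ P ∧
      P.inertia Gal(L/ℚ) ≠ ⊥}.Finite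

/-- (200 lines) **Counting.**
PROOF. Let `E` be the fixed field of `D`, `P` a prime of `L` above `p`, `v = P ∩ 𝓞 E`. As `P` is unramified over
`p` (the inertia group is trivial, so `e(P / p) = 1`, `Ideal.card_inertia_eq_ramificationIdxIn`),
`|Stab_G P| = f(P / p)` (`Ideal.card_stabilizer_eq`, `Ideal.card_stabilizer_eq_card_inertia_mul_finrank`), and in the
same way for the group `D = Gal(L/E)` `|Stab_G P ∩ D| = f(P / v)`; `f(P / p) = f(P / v) f(v / p)`
(`Ideal.inertiaDeg_tower`). So `f(v / p) = 1` if and only if `Stab_G P ≤ D`; and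
`f(v / p) = 1` if and only if `N v = p`. So the primes `P` above `p` with `Stab_G P ≤ D` are the primes of `L` above
the primes `v` of `E` of norm `p`, and for such a `v` the sum of the `|Stab_G P| = f(P / v)` over the `P` above `v`
is `∑ e f = [L : E] = |D|` (`Ideal.sum_ramification_inertia`, all `e = 1`, or: `D` acts
transitively on the primes above `v`, with stabilizers of order `|Stab_G P|`, orbit-stabilizer). So
`∑ over P with Stab_G P ≤ D of |Stab_G P| = |D| nP1 E p`, and the left side is the sum over `D' ≤ D` of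
`|D'| nSt L p D'`. -/
def S_ICnt : Prop :=
  ∀ (L : Type) [Field L] [NumberField L] [IsGalois ℚ L] (D : Subgroup Gal(L/ℚ)) (p : ℕ), p.Prime →
    (∀ P : Ideal (𝓞 L), P.IsPrime → (p : 𝓞 L) ∈ P → P.inertia Gal(L/ℚ) = ⊥) →
    ∑ᶠ (D' : Subgroup Gal(L/ℚ)) (_ : D' ≤ D), Nat.card D' * nSt L p D' =
      Nat.card D * nP1 (IntermediateField.fixedField D) p

/-- (150 lines) **Inclusion and exclusion.**
PROOF. Uses the conclusions of `S_ID1`, `S_IRam`, `S_ICnt`. `nSt L p D ≤ [L : ℚ]` (there are at most `[L : ℚ]` primes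
above `p`), so all series converge for `s > 1`. Let `t_D(s) = ∑' p, |D| nSt L p D p ^ (-s)` and
`g(D)` the number of `x ∈ G` with `zpowers x = D`. For every `D`: `∑ over D' ≤ D of t_(D')(s) - |D| log (1 / (s - 1))`
is bounded: by `S_ICnt` the coefficients of `∑ over D' ≤ D of t_(D')` and of `|D| ∑' nP1 E p p ^ (-s)` agree except
for the finitely many `p` of `S_IRam`, where both are bounded. CLAIM: for every cyclic `D` (and in fact for
every `D`) `t_D(s) - g(D) log (1 / (s - 1)) = O(1)`: strong induction on `|D|` (`Subgroup G` is finite, well-founded):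
`t_D = (∑ over D' ≤ D) - ∑ over D' < D of t_(D') = (|D| - ∑ over D' < D of g(D')) log (1 / (s - 1)) + O(1)`, and
`∑ over D' ≤ D of g(D') = |D|` (every `x ∈ D` has exactly one `zpowers x ≤ D`). -/
def S_IMob : Prop :=
  (∀ (E : Type) [Field E] [NumberField E],
    (fun s : ℝ => (∑' p : Nat.Primes, (nP1 E p : ℝ) * ((p : ℕ) : ℝ) ^ (-s)) - Real.log (1 / (s - 1)))
      =O[𝓝[>] 1] (fun _ => (1 : ℝ))) →
  S_IRam → S_ICnt → S_ISum →
  ∀ (L : Type) [Field L] [NumberField L] [IsGalois ℚ L] (D : Subgroup Gal(L/ℚ)),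
    (fun s : ℝ => (∑' p : Nat.Primes, ((Nat.card D : ℝ) * (nSt L p D : ℝ)) * ((p : ℕ) : ℝ) ^ (-s)) -
      (Nat.card {x : Gal(L/ℚ) // Subgroup.zpowers x = D} : ℝ) * Real.log (1 / (s - 1)))
      =O[𝓝[>] 1] (fun _ => (1 : ℝ))

/-- (80 lines) **Positive density.**
PROOF. Uses the conclusion of `S_IMob` for `D = zpowers g`: the number of generators is `≥ 1`.
`nSt L p D = 0` if `p ∉ pSt L D`, and `|D| nSt L p D ≤ [L : ℚ] ^ 2 =: c'` in any case (the number of the primes above `p` is at most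
`[L : ℚ]`, the order of `D` is at most `[L : ℚ]`). So `c' ∑' over p ∈ pSt L D of p ^ (-s) ≥ log (1 / (s - 1)) - B` for `s` close to
`1`, and this is `≥ (1 / 2) log (1 / (s - 1))` for `s` close to `1` as the logarithm tends to infinity. -/
def S_ILim : Prop :=
  (∀ (L : Type) [Field L] [NumberField L] [IsGalois ℚ L] (D : Subgroup Gal(L/ℚ)),
    (fun s : ℝ => (∑' p : Nat.Primes, ((Nat.card D : ℝ) * (nSt L p D : ℝ)) * ((p : ℕ) : ℝ) ^ (-s)) -
      (Nat.card {x : Gal(L/ℚ) // Subgroup.zpowers x = D} : ℝ) * Real.log (1 / (s - 1)))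
      =O[𝓝[>] 1] (fun _ => (1 : ℝ))) →
  ∀ (L : Type) [Field L] [NumberField L] [IsGalois ℚ L] (g : Gal(L/ℚ)),
    PosDens (pSt L (Subgroup.zpowers g))

/-- (120 lines) **In the algebraic closure.**
PROOF. Uses the conclusion of `S_ILim` for `L` and the restriction `g₀` of `g` to `L`. It is enough that
`pSt L (zpowers g₀)` is contained in the set `S` below, with `PosDens` monotone (`∑' over a larger set`, the
series converge for `s > 1` because all elements of `S` are natural numbers `≥ 1`; `Summable.tsum_subtype_le` or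
`tsum_le_tsum_of_inj`). Let `p ∈ pSt L (zpowers g₀)`, `P₀` the prime of `𝓞 L`: `g₀ P₀ = P₀`. Let `P` be a
prime of `ZZ` with `P ∩ 𝓞 L = P₀` (`ZZ` is integral over `𝓞 L`; lying over; the inclusion `iO L` of `𝓞 L` in
`ZZ` is in `FW/SpecG.lean`). Then `g P ∩ 𝓞 L = g₀ P₀ = P₀`, and `Gal(Ω/L)` acts transitively on the primes above `P₀`
(`Algebra.IsInvariant.exists_smul_of_under_eq_of_profinite`, see the proof of `S_Ine` in
`FW/G/Ine.lean`, or `MuZ/Orb.lean`): there is `τ ∈ Gal(Ω/L)` with `τ g P = P`. So `d = τ g ∈ Stab P` and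
`d⁻¹ g = g⁻¹ τ⁻¹ g ∈ Gal(Ω/L)` because `L` is normal. -/
def S_IOm : Prop :=
  (∀ (L : Type) [Field L] [NumberField L] [IsGalois ℚ L] (g : Gal(L/ℚ)),
    PosDens (pSt L (Subgroup.zpowers g))) →
  ∀ (L : IntermediateField ℚ Om), FiniteDimensional ℚ L → Normal ℚ L → ∀ g : Gal(Om/ℚ),
    PosDens {p : ℕ | p.Prime ∧ ∃ P : Ideal ZZ, P.IsPrime ∧ (p : ZZ) ∈ P ∧
      ∃ d ∈ MulAction.stabilizer Gal(Om/ℚ) P, d⁻¹ * g ∈ L.fixingSubgroup}

/-- (60 lines) **Finite sets do not matter.** PROOF. Removing a finite set `F` changes the sum by at most the number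
of elements of `F` (`p ^ (-s) ≤ 1`, the series over `S` converges for `s > 1` as `S ⊆ ℕ` and the terms are at most
`n ^ (-s)`), and `(c / 2) log (1 / (s - 1))` is larger than this for `s` close to `1`; a larger set has a larger sum. -/
def S_IPos : Prop :=
  ∀ S S' F : Set ℕ, PosDens S → F.Finite → (∀ p ∈ S, p ∉ F → p ∈ S') → (∀ p ∈ S', 0 < p) → PosDens S'

end Pool.Agent.FW
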