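import Pool.Agent.Lib.FW.SpecR5
import Pool.Agent.Lib.FW.SpecA
import Pool.Agent.Lib.FW.SpecE
import Pool.Agent.Lib.FW.SpecF

/-!
# FW, stage 2, part M: the minus part, and all abelian fields

Every `S_...` is a statement with a complete proof in its docstring, to be proved in its own module;
other statements are used only if they are named as hypotheses. `K_n = Cy (f p^(n+1))`, `M = MM p f`,
`U = UU p f`.
-/

open scoped Pointwise nonZeroDivisors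

noncomputable section

namespace Pool.Agent.FW

open Pool.Agent.MuZ NumberField IsDedekindDomain

/-- The action of `J` on the integers of `Cy m`. -/
def Jm (m : ℕ) (J : Gal(Om/ℚ)) : 𝓞 (Cy m) ≃+* 𝓞 (Cy m) := RingOfIntegers.mapRingEquiv (rst m J)

/-- The class of `I` is of order dividing `p` and odd for the involution `j`. -/
def OddI (p : ℕ) (K : Type) [Field K] [NumberField K] (j : 𝓞 K ≃+* 𝓞 K) (I : Ideal (𝓞 K)) : Prop :=
  I ≠ ⊥ ∧ (∃ b : 𝓞 K, I ^ p = Ideal.span {b}) ∧ ∃ c : 𝓞 K, I * I.map j = Ideal.span {c}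

/-- The odd ideal classes of order dividing `p`. -/
def OddC (p : ℕ) (K : Type) [Field K] [NumberField K] (j : 𝓞 K ≃+* 𝓞 K) :
    Set (ClassGroup (𝓞 K)) :=
  {x | ∃ (I : Ideal (𝓞 K)) (h : I ∈ (Ideal (𝓞 K))⁰), OddI p K j I ∧ ClassGroup.mk0 ⟨I, h⟩ = x}

/-- The odd class characters. -/
def OddA (p : ℕ) (K : Type) [Field K] [NumberField K] (j : 𝓞 K ≃+* 𝓞 K) :
    Set (HeightOneSpectrum (𝓞 K) → ZMod p) :=
  {a | ClCh p K a ∧ ∀ v v' : HeightOneSpectrum (𝓞 K), v'.asIdeal = v.asIdeal.map j → a v' = - a v}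

/-- The odd unramified characters of `Gal(Ω/K_n)`. -/
def WW (p f n : ℕ) (J : Gal(Om/ℚ)) : Set (Gal(Om/ℚ) → ZMod p) :=
  {e | e ∈ VV p Inr (Cy (f * p ^ (n + 1))).fixingSubgroup ∧
    ∀ τ ∈ (Cy (f * p ^ (n + 1))).fixingSubgroup, e (J * τ * J⁻¹) = - e τ}

/-- The odd characters of `M`, unramified and split above `p`, which are invariant under
`Gal(Ω/K_n)`. -/
def GG' (p f n : ℕ) (J : Gal(Om/ℚ)) : Set (Gal(Om/ℚ) → ZMod p) :=
  {g | g ∈ VV p (Loc p) (MM p f) ∧ (∀ τ ∈ MM p f, g (J * τ * J⁻¹) = - g τ) ∧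
    ∀ y ∈ (Cy (f * p ^ (n + 1))).fixingSubgroup, ∀ τ ∈ MM p f, g (y * τ * y⁻¹) = g τ}

/-! ## Odd class characters and odd ideal classes -/

/-- (150 lines) **Finite abelian groups.** PROOF. Let `C(p)` be the `p`-primary part (the elements of
`p`-power order), `B = {x ∈ C(p) : j x = x⁻¹}`. (1) `{x | x ^ p = 1, j x = x⁻¹} = B[p]`. (2) Restriction to `B` is
a bijection from the odd `χ` to all `χ : B → ZMod p`: every `x ∈ C` is `x = y z` with `y` of `p`-power order and `z`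
of order prime to `p` (`χ z = 1`), and `y ^ 2 = (y j(y)) (y j(y)⁻¹)`, where `χ` (odd) is trivial on
`y j(y)`, and `y j(y)⁻¹ ∈ B`; as squaring is bijective on `p`-groups, `χ` is determined by its restriction to
`B`, and conversely `χ x = χ₀ (y j(y)⁻¹) ^ (1/2)` extends `χ₀`. (3) `|Hom(B, ZMod p)| = |B / B ^ p| = |B[p]|`:
the homomorphisms factor through the `F_p`-vector space `B / B ^ p`, which has as many elements as its dual,
and kernel and cokernel of `x ↦ x ^ p` on the finite group `B` have the same cardinality.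
(Only `≤` is needed: an injection from the odd `χ` to the dual of `B / B ^ p`.) -/
def S_MFin : Prop :=
  ∀ (p : ℕ) [Fact p.Prime], p ≠ 2 → ∀ (C : Type) [CommGroup C] [Finite C] (j : C ≃* C),
    (∀ x, j (j x) = x) →
    Nat.card {χ : C →* Multiplicative (ZMod p) // ∀ x, χ (j x) = (χ x)⁻¹} ≤
      Nat.card {x : C // x ^ p = 1 ∧ j x = x⁻¹}

/-- (200 lines) **Odd class characters and odd classes.** Uses `S_MFin`. PROOF. A class character `a` gives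
the homomorphism `I ↦ ∑ over v of v(I) a(v)` on nonzero ideals (`normalizedFactors`, or `count`), which
depends only on the ideal class: if `x I = y I'` (`ClassGroup.mk0_eq_mk0_iff`) then `x`, `y` contribute `0`. So we get
`χ_a : ClassGroup (𝓞 K) →* Multiplicative (ZMod p)`, injective in `a` (`χ_a [v] = a v`). `j` induces an
involution of the class group (`[I] ↦ [I.map j]`, well defined since `j` maps principal ideals to principal
ideals; `ClassGroup.mk0`), and if `a` is odd then `χ_a (j x) = (χ_a x)⁻¹` (check on primes). Apply `S_MFin`. An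
`x = [I]` with `x ^ p = 1`, `j x = x⁻¹` is in `OddC`: `I ^ p` and `I * I.map j` are principal
(`ClassGroup.mk0_eq_one_iff`). Finiteness: `ClassGroup (𝓞 K)` is finite, so `Hom` is finite. -/
def S_MCl : Prop :=
  S_MFin → ∀ (p : ℕ) [Fact p.Prime], p ≠ 2 → ∀ (K : Type) [Field K] [NumberField K]
    (j : 𝓞 K ≃+* 𝓞 K), (∀ x, j (j x) = x) →
    (OddA p K j).Finite ∧ (OddA p K j).ncard ≤ (OddC p K j).ncard

/-! ## From odd classes to characters -/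

/-- (120 lines) **Even characters of `M` extend to `U`.** PROOF. `J ∈ U`, `J J = 1`, `U = M ∪ M J` (`p` odd or not:
an element of `U` which acts by inversion, times `J`, acts trivially). Put `e = g` on `M`, `e τ = g (τ J)` for
`τ ∈ U`, `τ ∉ M` (then `τ J ∈ M`), `0` outside `U`. If `J ∈ M` (only if all `z` with `IsRt p f z` satisfy
`z ^ 2 = 1`, impossible as `p` is odd) nothing. Additive: `(μ J) (μ' J) = μ (J μ' J)`, `g (J μ' J) = g μ'`;
`μ (μ' J) = (μ μ') J`; `(μ J) μ' = μ (J μ' J) J`. Continuity: `g = 0` on `M ∩ O`; shrink `O` so that it does not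
meet `M J` (an open subgroup fixing a primitive `p`-th root of unity). Local groups: for a prime `P` with
`p ∉ P`, `P.inertia ∩ U ≤ M`: its elements fix the `p`-power roots of unity (`MuZ/InT.lean`), a primitive
`p`-th root of unity is not equal to its inverse. -/
def S_MExU : Prop :=
  ∀ (p f : ℕ) [Fact p.Prime], p ≠ 2 → 0 < f → ∀ J : Gal(Om/ℚ), IsCC J →
    ∀ g ∈ VV p (LocO p) (MM p f), (∀ τ ∈ MM p f, g (J * τ * J⁻¹) = g τ) →
    ∃ e ∈ VV p (LocO p) (UU p f), ∀ τ ∈ MM p f, e τ = g τ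

/-- (200 lines) **The character of an odd class.** Uses `S_EJ`, `S_MExU`. `K = Cy m`, `m = f p^(n+1)`,
`j = Jm m J`. PROOF. Let `I ^ p = (b)` (`b ≠ 0`), and let `β` be a `p`-th root of `b₀ / J b₀` in `Om`, where `b₀ ∈ Om` is
a `p`-th root... precisely: choose `β₀ ∈ Om` with `β₀ ^ p = b` and put `β = β₀ / J β₀`. Then `β ^ p = b / J b`,
`J β = J β₀ / β₀ = β⁻¹`. For `σ ∈ M`: `σ (β ^ p) = β ^ p` (in `K`), so `σ β = ζ ^ i β`, `i =: g σ ∈ ZMod p`, a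
homomorphism (`σ ζ = ζ`), continuous (it vanishes on the fixing subgroup of `ℚ(β)`), even:
`(J σ J⁻¹) β = J (σ (β⁻¹)) = J (ζ ^ (-i) β⁻¹) = ζ ^ i β`. UNRAMIFIED OUTSIDE `p`: let `P` be a prime of `ZZ`,
`P ≠ ⊥`, `p ∉ P`, `v = P ∩ 𝓞 K`, `σ ∈ P.inertia ∩ M`. The valuation of `b / J b` at `v` is `p (v(I) - v(J I))`, divisible
by `p`; choose `κ ∈ K` with `p v(κ) = v(b / J b)`. `y = κ ^ p (J b) / b` has `v(y) = 0`: `y = s / t` with
`s, t ∈ 𝓞 K` not in `v`. Let `u = t κ / β ∈ Om`: `u ^ p = t ^ (p - 1) s` is integral and not in `P`, so `u ∈ ZZ`,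
`u ∉ P`. `σ u = ζ ^ (- g σ) u` (`σ` fixes `K`), so `(ζ ^ (- g σ) - 1) u ∈ P`, `ζ ^ (- g σ) - 1 ∈ P`; if
`g σ ≠ 0` then this element divides `p` (it is `1 -` a primitive `p`-th root of unity), `p ∈ P`,
contradiction. So `g ∈ VV p (LocO p) M` (cut to `M`), and `S_MExU` extends it to `U`. -/
def S_MKum : Prop :=
  S_EJ → S_MExU → ∀ (p f n : ℕ) [Fact p.Prime] [NumberField (Cy (f * p ^ (n + 1)))], p ≠ 2 → 0 < f →
    ¬ p ∣ f → ∀ J : Gal(Om/ℚ), IsCC J → ∀ ζ : Om, IsPrimitiveRoot ζ p →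
    ∀ I : Ideal (𝓞 (Cy (f * p ^ (n + 1)))),
      OddI p (Cy (f * p ^ (n + 1))) (Jm (f * p ^ (n + 1)) J) I →
      ∃ g ∈ VV p (LocO p) (UU p f), ∃ (b : 𝓞 (Cy (f * p ^ (n + 1)))) (β : Om),
        I ^ p = Ideal.span {b} ∧ b ≠ 0 ∧ β ≠ 0 ∧
        β ^ p * J ((b : Cy (f * p ^ (n + 1))) : Om) = ((b : Cy (f * p ^ (n + 1))) : Om) ∧
        J β = β⁻¹ ∧ ∀ σ ∈ MM p f, σ β = ζ ^ (g σ).val * β

/-- (200 lines) **Kummer elements in `K_∞`.** Uses `S_ECy`, `S_Lift`. `k ∈ Om` fixed by `M` with `k ^ p ∈ K_n` is the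
product of an element of `K_n` and a root of unity. PROOF. We may assume `k ≠ 0`. Let `γ` be from `S_Lift`
(`IsGam`), `γ' = γ ^ p ^ n`; it fixes the roots of unity of order dividing `f p ^ (n + 1)`
(`(1 + p) ^ p ^ n ≡ 1 mod p ^ (n + 1)`), so it fixes `K_n` (`S_ECy` (2)) and `γ' k = ω k` with `ω ^ p = 1`. Let `η` be a
primitive `p ^ (n + 2)`-th root of unity. `(1 + p) ^ p ^ n = 1 + p ^ (n + 1) u` with `p ∤ u` (`p` odd), so
`γ' η = ω₀ η` with `ω₀ = η ^ (p ^ (n + 1) u)` a primitive `p`-th root of unity, `ω = ω₀ ^ i`. Let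
`k' = k / η ^ i`: `γ' k' = k'`, and `k'` is fixed by `M` (`IsRt p f η`). CLAIM: `k' ∈ K_n`. By `S_ECy` (8)
`k' ∈ Cy (f p ^ (N + 1))` for some `N`, we may take `N ≥ n`. Let `ν` fix `K_n`. It acts on the `p ^ (N + 1)`-th
roots of unity as `z ↦ z ^ a`, `a ≡ 1 mod p ^ (n + 1)`, and trivially on the `f`-th ones. The residues
`≡ 1 mod p ^ (n + 1)` modulo `p ^ (N + 1)` are the powers of `(1 + p) ^ p ^ n` (`ZMod.orderOf_one_add_prime`),
so `ν` acts as some `γ' ^ i'` on the roots of unity of order dividing `f p ^ (N + 1)`, hence on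
`Cy (f p ^ (N + 1))`, and `ν k' = k'`. By Galois theory `k' ∈ K_n`. -/
def S_MPow : Prop :=
  S_ECy → S_Lift → ∀ (p f n : ℕ) [Fact p.Prime], p ≠ 2 → 0 < f → ¬ p ∣ f → ∀ k : Om,
    (∀ σ ∈ MM p f, σ k = k) → k ^ p ∈ Cy (f * p ^ (n + 1)) →
    ∃ k' ∈ Cy (f * p ^ (n + 1)), ∃ (η : Om) (N : ℕ), 0 < N ∧ η ^ N = 1 ∧ k = k' * η

/-- (200 lines) **Odd classes inject into the characters of `U`.** `hK` is the conclusion of `S_MKum`, `hP` the
one of `S_MPow`. PROOF. Fix a primitive `p`-th root of unity `ζ`. For `x ∈ OddC` choose `I` (with `OddI`) and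
`g_x`, `b_x`, `β_x`. CLAIM: `x ↦ g_x` is injective. Let `g_x = g_y`, `I`, `I'` the ideals. `k = β_x / β_y` is fixed by
`M`, and `k ^ p = (b_x / J b_x) (J b_y / b_y) ∈ K`. By `hP` `k = k' η`. `η ^ p = k ^ p / k' ^ p ∈ K` is a root of
unity, so it and its inverse are integral: a unit `ε` of `𝓞 K`. So in `K`:
`k' ^ p ε (J b_x) b_y = b_x (J b_y)`. Write `k' = s / t`, `s, t ∈ 𝓞 K`. Ideals:
`(s) ^ p (J I) ^ p I' ^ p = (t) ^ p I ^ p (J I') ^ p`, so `(s) (J I) I' = (t) I (J I')` (`p`-th powers of ideals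
of a Dedekind domain are injective). In the class group `[J I] [I'] = [I] [J I']`, with `[J I] = [I]⁻¹`,
`[J I'] = [I']⁻¹` (`OddI`): `[I] ^ 2 = [I'] ^ 2`; as `[I] ^ p = [I'] ^ p = 1` and `p` is odd, `[I] = [I']`. -/
def S_MInj : Prop :=
  (∀ (p f n : ℕ) [Fact p.Prime] [NumberField (Cy (f * p ^ (n + 1)))], p ≠ 2 → 0 < f →
    ¬ p ∣ f → ∀ J : Gal(Om/ℚ), IsCC J → ∀ ζ : Om, IsPrimitiveRoot ζ p →
    ∀ I : Ideal (𝓞 (Cy (f * p ^ (n + 1)))),
      OddI p (Cy (f * p ^ (n + 1))) (Jm (f * p ^ (n + 1)) J) I →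
      ∃ g ∈ VV p (LocO p) (UU p f), ∃ (b : 𝓞 (Cy (f * p ^ (n + 1)))) (β : Om),
        I ^ p = Ideal.span {b} ∧ b ≠ 0 ∧ β ≠ 0 ∧
        β ^ p * J ((b : Cy (f * p ^ (n + 1))) : Om) = ((b : Cy (f * p ^ (n + 1))) : Om) ∧
        J β = β⁻¹ ∧ ∀ σ ∈ MM p f, σ β = ζ ^ (g σ).val * β) →
  (∀ (p f n : ℕ) [Fact p.Prime], p ≠ 2 → 0 < f → ¬ p ∣ f → ∀ k : Om,
    (∀ σ ∈ MM p f, σ k = k) → k ^ p ∈ Cy (f * p ^ (n + 1)) →
    ∃ k' ∈ Cy (f * p ^ (n + 1)), ∃ (η : Om) (N : ℕ), 0 < N ∧ η ^ N = 1 ∧ k = k' * η) →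
  ∀ (p f n : ℕ) [Fact p.Prime] [NumberField (Cy (f * p ^ (n + 1)))], p ≠ 2 → 0 < f → ¬ p ∣ f →
    ∀ J : Gal(Om/ℚ), IsCC J → Finite (VV p (LocO p) (UU p f)) →
    (OddC p (Cy (f * p ^ (n + 1))) (Jm (f * p ^ (n + 1)) J)).ncard ≤
      Nat.card (VV p (LocO p) (UU p f))

/-- (150 lines) **From odd unramified characters to odd class characters.** Uses `S_REC`, `S_Lie`, `S_FrE`,
`S_FrU`, `S_EJ`. PROOF. `K = Cy m`. For `e ∈ WW`, `e ≠ 0`, `S_REC` gives the class character `a_e` with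
`IsArt p K e 1 a_e`, `a_e ≠ 0`; for `e = 0` let `a_e = 0`. `a_e v` is the value of `e` at any Frobenius element above
`v` (they exist: `S_Lie`, `S_FrE`), so `e ↦ a_e` is additive, and injective (`a_e = a_e'` gives
`a_(e - e') = 0`, `e = e'`). ODD: let `P` be above `v`, `σ` Frobenius at `P`. Then `J • P` is above `v'`
(`v'.asIdeal = v.asIdeal.map (Jm m J)`), and `J σ J⁻¹` is a Frobenius element at `J • P` over `K` (`J K = K`, the
residue fields of `v`, `v'` have the same cardinality). So `a_e v' = e (J σ J⁻¹) = - e σ = - a_e v`. So `e ↦ a_e`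
maps `WW` injectively into `OddA`, which is finite. -/
def S_MOdd : Prop :=
  S_REC → S_Lie → S_FrE → S_FrU → S_EJ →
  ∀ (p f n : ℕ) [Fact p.Prime] [NumberField (Cy (f * p ^ (n + 1)))], p ≠ 2 → 0 < f →
    ∀ J : Gal(Om/ℚ), IsCC J →
    (OddA p (Cy (f * p ^ (n + 1))) (Jm (f * p ^ (n + 1)) J)).Finite →
    (WW p f n J).Finite ∧
      (WW p f n J).ncard ≤ (OddA p (Cy (f * p ^ (n + 1))) (Jm (f * p ^ (n + 1)) J)).ncard

/-! ## From finite level to `K_∞` -/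

/-- (100 lines) **Smoothness.** As `S_Sm`, for `M` instead of `U` (`M` is normal in `Gal(Om/ℚ)`). PROOF. Let `g = 0` on
`M ∩ O`, `O` open normal. The closed sets `F_k = {ν : ν z = z for z ^ (f p ^ k) = 1}` decrease, their intersection
is `M`, `M O` is open, so `F_k ⊆ M O` for some `k` by compactness. For `ν = μ o ∈ F_k`, `τ ∈ M`:
`g (ν τ ν⁻¹) = g (μ (o τ o⁻¹) μ⁻¹) = g (o τ o⁻¹) = g τ` since `o τ o⁻¹ τ⁻¹ ∈ M ∩ O`. -/
def S_MSm : Prop :=
  ∀ (p f : ℕ) [Fact p.Prime], ∀ g ∈ VV p ∅ (MM p f),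
    ∃ k : ℕ, ∀ ν : Gal(Om/ℚ), (∀ z : Om, z ^ (f * p ^ k) = 1 → ν z = z) →
      ∀ τ ∈ MM p f, g (ν * τ * ν⁻¹) = g τ

/-- (200 lines) **`Gal(K_∞/K_n)` is procyclic.** Uses `S_ECy`. As `S_GqY` (part G), easier. PROOF.
`Y = (Cy (f p^(n+1))).fixingSubgroup`, `N = M`, `δ = γ ^ p ^ n`. `mem`: `(1 + p) ^ p ^ n ≡ 1 mod p ^ (n + 1)`, so
`γ ^ p ^ n` fixes the `f p ^ (n + 1)`-th roots of unity, hence `Cy` (`S_ECy` (2)). `le`: an `f p ^ (n + 1)`-th root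
of unity satisfies `IsRt`. `nrm`: `M` is normal in `Gal(Om/ℚ)`. Closed: both are intersections of stabilisers.
`gen`: let `y ∈ Y`, `O` open; there is `k ≥ n + 1` such that every `ν` which fixes `μ_(f p^k)` is in `M O'`, `O' ≤ O`
open normal (compactness, see `S_MSm`). `y` acts on the `p ^ k`-th roots of unity as `a ≡ 1 mod p ^ (n + 1)` (and
trivially on `μ_f`); `a ≡ (1 + p) ^ (p ^ n j) mod p ^ k` for some `j` (the residues `≡ 1 mod p ^ (n + 1)` are the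
powers of `(1 + p) ^ p ^ n`, `p` odd: `ZMod.orderOf_one_add_prime`). So `y⁻¹ δ ^ j` fixes `μ_(f p^k)`:
`y⁻¹ δ ^ j = u o`, `t = u⁻¹`, `y⁻¹ δ ^ j t = u o u⁻¹ ∈ O'`. `quo`: from `gen` and `δ ^ p ^ a → M`
(`(1 + p) ^ p ^ (n + a) ≡ 1 mod p ^ (n + a + 1)`). `inf`: `γ ^ (p ^ n m) ∈ M` gives
`(1 + p) ^ (p ^ n m) ≡ 1 mod p ^ k` for all `k`. -/
def S_MGq : Prop :=
  S_ECy → ∀ (p f n : ℕ) [Fact p.Prime], p ≠ 2 → 0 < f → ¬ p ∣ f → ∀ γ : Gal(Om/ℚ), IsGam p f γ →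
    Gq p (Cy (f * p ^ (n + 1))).fixingSubgroup (MM p f) (γ ^ p ^ n)

/-- (200 lines) **Odd invariant characters extend.** Uses `S_PL`, `S_Semi`, `S_Val`, `S_ECy`, `S_EJ`, `S_EIn`.
PROOF. Let `Y = (Cy (f p^(n+1))).fixingSubgroup`; it is normalised by `J` (`S_ECy` (3)). `γ'` from `S_PL`:
`Zq p Y M γ'`. `S_Semi` with `A = Multiplicative (ZMod p)`, `h = g`, `a = 1` (`g` is invariant under `γ' ∈ Y`): a
continuous homomorphism `e₀` on `Y` with `e₀ = g` on `M`; cut it to `Y`. Put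
`e y = 2⁻¹ (e₀ y - e₀ (J y J⁻¹))`. It is a continuous homomorphism on `Y`, `e (J y J⁻¹) = - e y` (`J ^ 2 = 1`), and
on `M` `e τ = 2⁻¹ (g τ - g (J τ J⁻¹)) = g τ`. `LocO`: for `p ∉ P` `P.inertia ∩ Y ≤ M` by `S_EIn` (its elements fix
the `f`-th roots of unity), so `e = g = 0` there. -/
def S_MEx : Prop :=
  S_PL → S_Semi → S_Val → S_ECy → S_EJ → S_EIn →
  ∀ (p f n : ℕ) [Fact p.Prime], p ≠ 2 → 0 < f → ¬ p ∣ f → ∀ δ J : Gal(Om/ℚ), IsCC J →
    Gq p (Cy (f * p ^ (n + 1))).fixingSubgroup (MM p f) δ →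
    ∀ g ∈ VV p (LocO p) (MM p f), (∀ τ ∈ MM p f, g (J * τ * J⁻¹) = - g τ) →
      (∀ y ∈ (Cy (f * p ^ (n + 1))).fixingSubgroup, ∀ τ ∈ MM p f, g (y * τ * y⁻¹) = g τ) →
      ∃ e ∈ VV p (LocO p) (Cy (f * p ^ (n + 1))).fixingSubgroup,
        (∀ y ∈ (Cy (f * p ^ (n + 1))).fixingSubgroup, e (J * y * J⁻¹) = - e y) ∧
        ∀ τ ∈ MM p f, e τ = g τ

/-- (150 lines) **`M` as the group of a cyclotomic `ℤ_p`-extension.** Uses `S_TFix`. PROOF.
`cyc p (Cy (f p)) = Cy (f p) ⊔ Qcyc p`. (⊆) `σ ∈ M` fixes the `f p`-th roots of unity (`IsRt`, `n = 1`) and the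
`p`-power roots of unity (`z ^ p ^ n = 1` gives `IsRt p f z`), so it fixes `Qcyc p` (definition, `m = 1`).
(⊇) `σ` fixes `μ_(f p)` and, by `S_TFix`, `σ ^ (2 (p - 1))` fixes the `p`-power roots of unity. Let `σ z = z ^ c` on
the `p ^ N`-th roots of unity, `c ≡ 1 mod p`, `c ^ (2 (p - 1)) ≡ 1 mod p ^ N`. As `p` is odd, `2 (p - 1)` is
prime to `p` and the residues `≡ 1 mod p` form a `p`-group, `c ≡ 1 mod p ^ N`. So `σ` fixes the `p`-power roots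
of unity and the `f`-th ones, hence all `z` with `IsRt p f z` (products, `p ∤ f`). -/
def S_MCyc : Prop :=
  S_TFix → ∀ (p f : ℕ) [Fact p.Prime], p ≠ 2 → 0 < f → ¬ p ∣ f →
    MM p f = (cyc p (Cy (f * p))).fixingSubgroup

/-- (250 lines) **The bound.** Uses `S_Pc`, `hEx` (conclusion of `S_MEx`). `R` represents the primes above `p`
modulo `M`. PROOF. `Y = (Cy (f p^(n+1))).fixingSubgroup ⊇ M`. For `g ∈ GG'` (it is in `VV p (LocO p) M` because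
`LocO p ⊆ Loc p`) choose `e_g` by `hEx`. For `P ∈ R` let `Λ_P = stabilizer of P ⊓ Y`, closed; `S_Pc` gives `δ_P ∈ Λ_P`
such that for all `y ∈ Λ_P`, `O` open there are `j`, `t ∈ Λ_P ⊓ M` with `y⁻¹ δ_P ^ j t ∈ O`. Let
`Ψ g = (e_g δ_P)` for `P ∈ R`, in `R → ZMod p`, a set with `p ^ |R|` elements. FIBRES: let `Ψ g = Ψ g'`,
`e = e_g - e_g'`. Then `e ∈ VV p (LocO p) Y`, odd. For `P ∈ R`: `e` vanishes on `Λ_P ⊓ M` (there `e = g - g'`, and
`g`, `g'` vanish on decomposition groups above `p`) and at `δ_P`; let `e = 0` on `Y ∩ O`; for `y ∈ Λ_P`,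
`y = δ_P ^ j t o` with `o ∈ O ∩ Y`, so `e y = 0`. For any prime `P' = u • P`, `u ∈ M`, `P ∈ R`: the stabiliser is
`u (stabilizer P) u⁻¹`, `e (u y u⁻¹) = e y`, so `e = 0` on it too. Inertia groups above `p` are contained in the
stabilisers. So `e ∈ VV p Inr Y`, `e ∈ WW p f n J`. So for fixed `g₀` in a fibre, `g ↦ e_g - e_g₀` maps the fibre
into `WW`, injectively since `g = g₀ + (e restricted to M)`. Hence `|GG'| ≤ p ^ |R| |WW|`
(`Set.ncard`, `Finset.card_le_mul_card_image` or similar; finiteness first). -/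
def S_MBd : Prop :=
  S_Pc → (∀ (p f n : ℕ) [Fact p.Prime], p ≠ 2 → 0 < f → ¬ p ∣ f → ∀ δ J : Gal(Om/ℚ), IsCC J →
    Gq p (Cy (f * p ^ (n + 1))).fixingSubgroup (MM p f) δ →
    ∀ g ∈ VV p (LocO p) (MM p f), (∀ τ ∈ MM p f, g (J * τ * J⁻¹) = - g τ) →
      (∀ y ∈ (Cy (f * p ^ (n + 1))).fixingSubgroup, ∀ τ ∈ MM p f, g (y * τ * y⁻¹) = g τ) →
      ∃ e ∈ VV p (LocO p) (Cy (f * p ^ (n + 1))).fixingSubgroup,
        (∀ y ∈ (Cy (f * p ^ (n + 1))).fixingSubgroup, e (J * y * J⁻¹) = - e y) ∧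
        ∀ τ ∈ MM p f, e τ = g τ) →
  ∀ (p f n : ℕ) [Fact p.Prime], p ≠ 2 → 0 < f → ¬ p ∣ f → ∀ δ J : Gal(Om/ℚ), IsCC J →
    Gq p (Cy (f * p ^ (n + 1))).fixingSubgroup (MM p f) δ →
    ∀ R : Finset (Ideal ZZ), (∀ P ∈ R, P.IsPrime ∧ (p : ZZ) ∈ P) →
    (∀ P : Ideal ZZ, P.IsPrime → (p : ZZ) ∈ P → ∃ P' ∈ R, ∃ u ∈ MM p f, P = u • P') →
    (WW p f n J).Finite →
    (GG' p f n J).Finite ∧ (GG' p f n J).ncard ≤ p ^ R.card * (WW p f n J).ncard

/-- (150 lines) **Finiteness.** `hb`: the `GG' p f n J` are finite of bounded cardinality. PROOF. Let `J` be a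
complex conjugation, `V = VV p (Loc p) (MM p f)`. For `g ∈ V`, `g^J τ = g (J τ J⁻¹)` is in `V` (`M` is normal, `Loc`
is stable under conjugation: `S_Conj`), `g = g⁺ + g⁻`, `g^± = 2⁻¹ (g ± g^J)`. `g⁺` is even, it is the restriction to `M`
of an element of the finite set `VV p (LocO p) (UU p f)` (`hU`, `S_FW`); so there are finitely many `g⁺`. `g⁻` is odd,
and lies in `GG' p f n J` for large `n` by `S_MSm` (`y ∈ (Cy (f p^(n+1))).fixingSubgroup` fixes the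
`f p ^ (n + 1)`-th roots of unity); `GG' p f n J ⊆ GG' p f (n + 1) J`; an increasing union of finite sets of
cardinality `≤ N` is finite. So there are finitely many `g⁻`, and `V` is finite. -/
def S_MAs : Prop :=
  S_CC → S_EJ → S_Conj → S_FW → S_MSm →
  (∀ (p f : ℕ) [Fact p.Prime], p ≠ 2 → 0 < f → ∀ J : Gal(Om/ℚ), IsCC J →
    ∀ g ∈ VV p (LocO p) (MM p f), (∀ τ ∈ MM p f, g (J * τ * J⁻¹) = g τ) →
    ∃ e ∈ VV p (LocO p) (UU p f), ∀ τ ∈ MM p f, e τ = g τ) →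
  (∀ (p f : ℕ) [Fact p.Prime], p ≠ 2 → 0 < f → ¬ p ∣ f → ∀ J : Gal(Om/ℚ), IsCC J →
    ∃ N : ℕ, ∀ n : ℕ, (GG' p f n J).Finite ∧ (GG' p f n J).ncard ≤ N) →
  S_FWM

/-- (200 lines) **The group of `k^cyc` for `k` abelian.** Uses `S_TFix`. As `S_FU` (part F) with `MM` instead of
`UU`. PROOF. Let `m` be from `Ab0 k`, `m = f p ^ a`, `p ∤ f`. (1) `u ∈ M` fixes the `m`-th roots of unity, so it
fixes `k`; it fixes `Qcyc p` by the definition of `Qcyc`. (2) `O = (Cy (f p)).fixingSubgroup` (open, `Cy (f p)` is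
a finite extension); `σ ∈ O` which fixes `Qcyc p` is in `M` (see `S_MCyc`). -/
def S_FUa : Prop :=
  S_TFix → ∀ (p : ℕ) [Fact p.Prime], p ≠ 2 → ∀ k : IntermediateField ℚ Om, Ab0 k →
    ∃ f : ℕ, 0 < f ∧ ¬ p ∣ f ∧ MM p f ≤ (cyc p k).fixingSubgroup ∧
      ∃ O : OpenSubgroup Gal(Om/ℚ), (cyc p k).fixingSubgroup ⊓ (O : Subgroup Gal(Om/ℚ)) ≤ MM p f

/-- (80 lines) **Ferrero-Washington for all abelian fields.** PROOF. `S_FWM`, `S_Res` with `U = MM p f`,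
`W = (cyc p k).fixingSubgroup`, and `S_Bwd`, `S_Sup`. -/
def S_FXa : Prop :=
  S_FWM → (∀ (p : ℕ) [Fact p.Prime], p ≠ 2 → ∀ k : IntermediateField ℚ Om, Ab0 k →
    ∃ f : ℕ, 0 < f ∧ ¬ p ∣ f ∧ MM p f ≤ (cyc p k).fixingSubgroup ∧
      ∃ O : OpenSubgroup Gal(Om/ℚ), (cyc p k).fixingSubgroup ⊓ (O : Subgroup Gal(Om/ℚ)) ≤ MM p f) →
  S_Res → S_Bwd → S_Sup → S_FWA

end Pool.Agent.FW
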