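import Pool.Agent.Lib.FW.RDefs
import Pool.Agent.Lib.FW.SpecH

/-!
# FW, stage 2, part R1: the norm index of an unramified cyclic extension of odd prime degree is at least p

Architect helper97, after note 3369 of helper81. `L/K` Galois of odd prime degree `p` with trivial inertia groups, `s` a generator of the Galois group,
`V = L^*`, `I` = fractional ideals of `L`, `E` = units, `d : V → I` principal ideals. Pure algebra (module RCh): the invariant ideals are not all products of a norm and an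
ideal generated by an element of `K^*`. Hence a class character of `K` which vanishes at the primes which split.

RULES: module X: file `Pool/Agent/Lib/FW/R1/X.lean` (first line `import Pool.Agent.Lib.FW.SpecR1`), then `open scoped Pointwise NumberField nonZeroDivisors`, `noncomputable section`,
`namespace Pool.Agent.FW`, `open Pool.Agent.MuZ NumberField IsDedekindDomain`, final theorem `theorem tX (h1 : S_Y) .. : S_X` with the statements listed under Uses as hypotheses in this order.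
Auxiliary declarations `private`, no `congr!`, below 60 s.

INDEX LEMMAS (all exist in Mathlib for `AddSubgroup`, additive versions of the lemmas of `Mathlib/GroupTheory/Index.lean`): `relIndex_mul_relIndex` (`H ≤ K ≤ L`), `relIndex_mul_index`,
`index_comap (H.comap f).index = H.relIndex f.range`, `relIndex_map_map (H.map f).relIndex (K.map f) = (H ⊔ f.ker).relIndex (K ⊔ f.ker)`, `relIndex_sup_right`, `relIndex_sup_left`, `inf_relIndex_left`,
`inf_relIndex_right`, `index_dvd_of_le`, `relIndex_dvd_of_le_left`, `relIndex_map_map_of_injective`, `relIndex_top_right`.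
-/

open scoped Pointwise NumberField nonZeroDivisors

noncomputable section

namespace Pool.Agent.FW

open Pool.Agent.MuZ NumberField IsDedekindDomain

/-- The homomorphism `x ↦ x + s x + .. + s^(p-1) x`. -/
def nrm (p : ℕ) {A : Type} [AddCommGroup A] (s : A →+ A) : A →+ A where
  toFun x := ∑ i ∈ Finset.range p, (s^[i]) x
  map_zero' := by
    refine Finset.sum_eq_zero fun i _ => ?_
    exact iterate_map_zero s i
  map_add' x y := by
    rw [← Finset.sum_add_distrib]
    exact Finset.sum_congr rfl fun i _ => iterate_map_add s i x y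

theorem nrm_apply (p : ℕ) {A : Type} [AddCommGroup A] (s : A →+ A) (x : A) :
    nrm p s x = ∑ i ∈ Finset.range p, (s^[i]) x := rfl

/-- **RLin** (50 lines). Uses: nothing. Characters of an elementary quotient.
PROOF. `C ⧸ Q` is killed by `p`, so it is a vector space over `ZMod p` (`AddCommGroup.zmodModule`, with `Fact p.Prime`); the class of `c` is not `0`, so there is a linear form which is not zero at it
(`Module.exists_dual_forall_apply_ne_zero`-type lemma, `Module.forall_dual_apply_eq_zero_iff`, or `exists_dual_map_eq_bot_of_notMem`). Compose with `C → C ⧸ Q`. -/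
def S_RLin : Prop :=
  ∀ (p : ℕ), p.Prime → ∀ (C : Type) [AddCommGroup C] (Q : AddSubgroup C), (∀ c : C, p • c ∈ Q) →
    ∀ c ∉ Q, ∃ χ : C →+ ZMod p, (∀ x ∈ Q, χ x = 0) ∧ χ c ≠ 0

/-- **RHa** (80 lines). Uses: nothing. Ranks. Let `E0 = (s - id).ker`, `N = nrm p s`, `A = N.ker`.
PROOF. Rank and nullity of `N` over `ℤ` (`LinearMap.finrank_range_add_finrank_ker` for `N.toIntLinearMap`, submodules of `E` are finitely generated): `finrank E = finrank A + finrank (range N)`. `range N ≤ E0` (`s (N x) = N x` because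
`s^p x = x`: the sum is shifted cyclically, `Finset.sum_range_succ` and `Finset.sum_range_succ'`), so `finrank (range N) ≤ finrank E0`. For `x ∈ E0` `N x = p x`. The map `E0 → range N`, `x ↦ N x`, has the kernel `{x : p x = 0}`, which is
torsion, so of rank 0 (`Module.finrank_eq_zero_iff_isTorsion` or: a linearly independent family in it is empty), hence `finrank E0 ≤ finrank (range N)`. -/
def S_RHa : Prop :=
  ∀ (E : Type) [AddCommGroup E] [Module.Finite ℤ E] (p : ℕ) (s : E →+ E), p.Prime →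
    (∀ x : E, (s^[p]) x = x) →
    Module.finrank ℤ (nrm p s).ker + Module.finrank ℤ (s - AddMonoidHom.id E).ker =
      Module.finrank ℤ E

/-- **RHb** (100 lines). Uses: `S_HLem`, `S_RHa`. The index of `(s - 1) A` in `A = (nrm p s).ker`.
PROOF. `s` maps `A` to `A` (`N (s x) = N x`); let `s'` be the restriction. HLem for `A`, `s'`: with `i = (s' - id).range.index`, `k = card (s' - id).ker`, `ρ = finrank A`: `i^(p-1) = p^ρ k^(p-1)`. With `r = finrank E0` RHa and the hypothesis give
`ρ = p (r + 1) - 1 - r = (p - 1) (r + 1)`. So `i^(p-1) = (p^(r+1) k)^(p-1)`, `i = p^(r+1) k` (`Nat.pow_left_injective`, `p - 1 ≠ 0`). `i = (A.map (s - id)).relIndex A` (`relIndex` is by definition the index of `(A.map (s - id)).addSubgroupOf A`, which is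
`(s' - id).range`). `(s' - id).ker` is in bijection with `{x // s x = x ∧ p • x = 0}`: for `s x = x` one has `N x = p x`. -/
def S_RHb : Prop :=
  ∀ (E : Type) [AddCommGroup E] [Module.Finite ℤ E] (p : ℕ) (s : E →+ E), p.Prime →
    (∀ x : E, (s^[p]) x = x) →
    Module.finrank ℤ E + 1 = p * (Module.finrank ℤ (s - AddMonoidHom.id E).ker + 1) →
    ((nrm p s).ker.map (s - AddMonoidHom.id E)).relIndex (nrm p s).ker =
      p ^ (Module.finrank ℤ (s - AddMonoidHom.id E).ker + 1) *
        Nat.card {x : E // s x = x ∧ p • x = 0}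

/-- **RHc** (70 lines). Uses: `S_HQn`. The index of `N E0 = p E0` in `E0 = (s - id).ker`.
PROOF. `N x = p x` for `x ∈ E0`. HQn for the group `E0` and `n = p`: the index of the range of `p` on `E0` is `p^r |ker|`, `r = finrank E0`. The range is `(E0.map N).addSubgroupOf E0`, the kernel is in bijection with
`{x : E // s x = x ∧ p • x = 0}`, and it is finite and not empty (`Nat.card_pos`). -/
def S_RHc : Prop :=
  ∀ (E : Type) [AddCommGroup E] [Module.Finite ℤ E] (p : ℕ) (s : E →+ E), p.Prime →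
    ((s - AddMonoidHom.id E).ker.map (nrm p s)).relIndex (s - AddMonoidHom.id E).ker =
      p ^ Module.finrank ℤ (s - AddMonoidHom.id E).ker *
        Nat.card {x : E // s x = x ∧ p • x = 0} ∧
    Nat.card {x : E // s x = x ∧ p • x = 0} ≠ 0

/-- **RHq** (80 lines). Uses: `S_RHb`, `S_RHc`. The Herbrand quotient of the units.
PROOF. `φ = s - id`, `N = nrm p s`, `A = N.ker`, `B = φ.range`, `E0 = φ.ker`, `r = finrank E0`, `k` the cardinality in RHb, RHc. `A.map φ ≤ B ≤ A`, `E0.map N ≤ N.range ≤ E0`. `(A.map φ).relIndex B * B.relIndex A = (A.map φ).relIndex A = p^(r+1) k` and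
`(E0.map N).relIndex N.range * N.range.relIndex E0 = (E0.map N).relIndex E0 = p^r k ≠ 0` (`relIndex_mul_relIndex`). By `relIndex_map_map` with `K = ⊤` (`AddMonoidHom.range_eq_map`) `(A.map φ).relIndex B = (A ⊔ E0).index` and
`(E0.map N).relIndex N.range = (E0 ⊔ A).index`: the same number `j ≠ 0`. So `j * B.relIndex A = p * (j * N.range.relIndex E0)`. -/
def S_RHq : Prop :=
  ∀ (E : Type) [AddCommGroup E] [Module.Finite ℤ E] (p : ℕ) (s : E →+ E), p.Prime →
    (∀ x : E, (s^[p]) x = x) →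
    Module.finrank ℤ E + 1 = p * (Module.finrank ℤ (s - AddMonoidHom.id E).ker + 1) →
    (s - AddMonoidHom.id E).range.relIndex (nrm p s).ker =
      p * (nrm p s).range.relIndex (s - AddMonoidHom.id E).ker ∧
    (nrm p s).range.relIndex (s - AddMonoidHom.id E).ker ≠ 0

/-- **RTr** (60 lines). Uses: nothing. Transport along an injective homomorphism.
PROOF. `j (s'^i x) = s^i (j x)`, so `j (nrm p s' x) = nrm p s (j x)`. `j.range.map (s - id) = (s' - id).range.map j`, `j.range ⊓ (nrm p s).ker = (nrm p s').ker.map j`, `j.range.map (nrm p s) = (nrm p s').range.map j`,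
`j.range ⊓ (s - id).ker = (s' - id).ker.map j` (`j` is injective), and `AddSubgroup.relIndex_map_map_of_injective`. -/
def S_RTr : Prop :=
  ∀ (E V : Type) [AddCommGroup E] [AddCommGroup V] (p : ℕ) (j : E →+ V) (s' : E →+ E)
    (s : V →+ V), Function.Injective j → (∀ x, j (s' x) = s (j x)) →
    (j.range.map (s - AddMonoidHom.id V)).relIndex (j.range ⊓ (nrm p s).ker) =
      (s' - AddMonoidHom.id E).range.relIndex (nrm p s').ker ∧
    (j.range.map (nrm p s)).relIndex (j.range ⊓ (s - AddMonoidHom.id V).ker) =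
      (nrm p s').range.relIndex (s' - AddMonoidHom.id E).ker

/-- **RFin** (60 lines). Uses: nothing. Kernel and cokernel of an endomorphism of the finite group `I ⧸ P`.
PROOF. `Y = P.comap φ ≥ P`. `[I : P] = [I : Y] [Y : P]` (`relIndex_mul_index`), `[I : Y] = P.relIndex φ.range` (`index_comap`) `= P.relIndex (φ.range ⊔ P)` (`relIndex_sup_right`-type), and `[I : P] = P.relIndex (P ⊔ φ.range) * (P ⊔ φ.range).index`. Everything is
nonzero since `P` has finite index; cancel. -/
def S_RFin : Prop :=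
  ∀ (I : Type) [AddCommGroup I] (φ : I →+ I) (P : AddSubgroup I), P.FiniteIndex →
    (∀ x ∈ P, φ x ∈ P) →
    P.relIndex (P.comap φ) = (P ⊔ φ.range).index ∧ (P ⊔ φ.range).index ≠ 0

/-- The data: `V` (the group `L^*`) and `I` (the group of ideals of `L`) with the actions `s`, `t` of a generator of the Galois group, `d` the principal ideals; Hilbert 90, finiteness of the
class group. -/
structure HB (p : ℕ) {V I : Type} [AddCommGroup V] [AddCommGroup I] (s : V →+ V) (t : I →+ I)
    (d : V →+ I) : Prop where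
  cm : ∀ x, t (d x) = d (s x)
  sp : ∀ x, (s^[p]) x = x
  tp : ∀ x, (t^[p]) x = x
  h90 : ∀ x, nrm p s x = 0 → ∃ y, x = s y - y
  fin : d.range.FiniteIndex

/-- **RCp** (80 lines). Uses: nothing. The capitulation kernel is `A / (s - 1) E` (`E = d.ker`).
PROOF. `X = (t - id).ker.comap d ≤ V`. `X.map d = (t - id).ker ⊓ d.range` (`AddSubgroup.map_comap_eq`). `X.map (s - id) = d.ker ⊓ (nrm p s).ker`: for `x ∈ X` `d (s x - x) = t (d x) - d x = 0` and `nrm p s (s x - x) = s^p x - x = 0` (telescope); conversely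
`u ∈ d.ker`, `nrm p s u = 0` is `s y - y` by `h90`, and `t (d y) - d y = d u = 0`. Both kernels `d.ker` and `V0 = (s - id).ker` are `≤ X` (`d x = 0`, resp. `t (d x) = d (s x) = d x`). So by `relIndex_map_map` both sides are
`(V0 ⊔ d.ker).relIndex X`. -/
def S_RCp : Prop :=
  ∀ (p : ℕ) (V I : Type) [AddCommGroup V] [AddCommGroup I] (s : V →+ V) (t : I →+ I)
    (d : V →+ I), HB p s t d →
    ((s - AddMonoidHom.id V).ker.map d).relIndex ((t - AddMonoidHom.id I).ker ⊓ d.range) =
      (d.ker.map (s - AddMonoidHom.id V)).relIndex (d.ker ⊓ (nrm p s).ker)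

/-- **RAm** (120 lines). Uses: nothing. Invariant classes modulo classes of invariant ideals.
PROOF. `Y = d.range.comap (t - id)`. `W ≤ I × V` the subgroup of the `(x, α)` with `t x - x = d α`, with the projections `π₁ : W → I`, `π₂ : W → V`. `range π₁ = Y`. `ν = (nrm p s) ∘ π₂`; its range is in `E1 = d.ker ⊓ (s - id).ker`: `d (N α) = N (d α) = N (t x - x) = t^p x - x = 0`
and `s (N α) = N α`. `H1 = (d.range ⊔ (t - id).ker).comap π₁` has the index `(d.range ⊔ (t - id).ker).relIndex Y`. `H2 = (d.ker.map (nrm p s)).comap ν` has the index `(d.ker.map (nrm p s)).relIndex (range ν)`, which divides `(d.ker.map (nrm p s)).relIndex E1`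
(`relIndex_dvd_of_le_right`-type; the range is `≤ E1`; or: `relIndex` of an intersection), so it is `≤` this number and not 0. Finally `H2 ≤ H1`: let `(x, α) ∈ W`, `N α = N e`, `d e = 0`. By `h90` `α - e = s y - y`, so `t x - x = d α = d (α - e) = t (d y) - d y`, i.e.
`x - d y ∈ (t - id).ker`, `x ∈ d.range ⊔ (t - id).ker`. Hence index `H1 ≤` index `H2` (`index_dvd_of_le`, `Nat.le_of_dvd`). -/
def S_RAm : Prop :=
  ∀ (p : ℕ) (V I : Type) [AddCommGroup V] [AddCommGroup I] (s : V →+ V) (t : I →+ I)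
    (d : V →+ I), HB p s t d →
    (d.ker.map (nrm p s)).relIndex (d.ker ⊓ (s - AddMonoidHom.id V).ker) ≠ 0 →
    (d.range ⊔ (t - AddMonoidHom.id I).ker).relIndex (d.range.comap (t - AddMonoidHom.id I)) ≤
      (d.ker.map (nrm p s)).relIndex (d.ker ⊓ (s - AddMonoidHom.id V).ker)

/-- The Herbrand quotient of `E = d.ker` is `1/p`. -/
def Hbq (p : ℕ) {V I : Type} [AddCommGroup V] [AddCommGroup I] (s : V →+ V) (d : V →+ I) : Prop :=
  (d.ker.map (s - AddMonoidHom.id V)).relIndex (d.ker ⊓ (nrm p s).ker) =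
    p * (d.ker.map (nrm p s)).relIndex (d.ker ⊓ (s - AddMonoidHom.id V).ker) ∧
  (d.ker.map (nrm p s)).relIndex (d.ker ⊓ (s - AddMonoidHom.id V).ker) ≠ 0

/-- **RIq** (80 lines). Uses: `S_RFin`, `S_RCp`, `S_RAm`. The inequality `p [Cl_L : (s - 1) Cl_L] ≤ [I0 : P0]` (`= h_K`).
PROOF. `P = d.range`, `I0 = (t - id).ker`, `P0 = (s - id).ker.map d ≤ I0 ⊓ P` (`t (d x) = d (s x) = d x`), `Y = P.comap (t - id)`, `b = (d.ker.map N).relIndex (..) ≠ 0`, `k = P.relIndex I0 ≠ 0` (`P` has finite index). `[I0 : P0] = P0.relIndex (I0 ⊓ P) * (I0 ⊓ P).relIndex I0`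
(`relIndex_mul_relIndex`) `= p b k` (RCp, `inf_relIndex_left`/`right`). RFin for `φ = t - id` (`t (d x) - d x = d (s x - x)`): `(P ⊔ (t - id).range).index = P.relIndex Y ≠ 0`. `P ≤ P ⊔ I0 ≤ Y` (`t x - x = 0 ∈ P` for `x ∈ I0`), so
`P.relIndex Y = P.relIndex (P ⊔ I0) * (P ⊔ I0).relIndex Y ≤ k b` (`relIndex_sup_left`/`right`, RAm). -/
def S_RIq : Prop :=
  ∀ (p : ℕ) (V I : Type) [AddCommGroup V] [AddCommGroup I] (s : V →+ V) (t : I →+ I)
    (d : V →+ I), p.Prime → HB p s t d → Hbq p s d →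
    (d.range ⊔ (t - AddMonoidHom.id I).range).index ≠ 0 ∧
    ((s - AddMonoidHom.id V).ker.map d).relIndex (t - AddMonoidHom.id I).ker ≠ 0 ∧
    p * (d.range ⊔ (t - AddMonoidHom.id I).range).index ≤
      ((s - AddMonoidHom.id V).ker.map d).relIndex (t - AddMonoidHom.id I).ker

/-- **RCh** (120 lines). Uses: `S_RLin`, `S_RIq`. The class character, pure algebra (`C` = ideals of `K`).
PROOF. Notation of RIq, `N = nrm p t`. `R = P ⊔ (t - id).range ≤ P0.comap N`: `N (d x) = d (nrm p s x)` and `nrm p s x ∈ (s - id).ker`; `N (t x - x) = t^p x - x = 0`. So `P0.relIndex N.range = (P0.comap N).index` (`index_comap`) divides `R.index`, and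
`P0.relIndex (N.range ⊔ P0) = P0.relIndex N.range ≤ R.index < p * R.index ≤ P0.relIndex I0`. `Q = N.range ⊔ P0 ≤ I0`. If `Q = I0` this is a contradiction, so there is `x ∈ I0`, `x ∉ Q`; `x = ι c` by the hypothesis. `Q' = Q.comap ι`: `p • c' ∈ Q'` for all `c'`, as
`ι (p • c') = p • ι c' = N (ι c')` (`t` fixes `ι c'`). RLin gives `χ` with `χ = 0` on `Q'` and `χ c ≠ 0`. -/
def S_RCh : Prop :=
  ∀ (p : ℕ) (V I C : Type) [AddCommGroup V] [AddCommGroup I] [AddCommGroup C] (s : V →+ V)
    (t : I →+ I) (d : V →+ I) (ι : C →+ I), p.Prime → HB p s t d → Hbq p s d →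
    (∀ c, t (ι c) = ι c) → (∀ x, t x = x → ∃ c, ι c = x) →
    ∃ χ : C →+ ZMod p, χ ≠ 0 ∧ (∀ c x, s x = x → ι c = d x → χ c = 0) ∧
      ∀ c y, ι c = nrm p t y → χ c = 0

/-! ## The groups of a Galois extension of number fields -/

section num

variable {K L : Type} [Field K] [NumberField K] [Field L] [NumberField L] [Algebra K L]

/-- The automorphism of the ring of integers. -/
def roi (σ : Gal(L/K)) : 𝓞 L →+* 𝓞 L := RingOfIntegers.mapRingHom (σ : L →+* L)

omit [NumberField K] [NumberField L] in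
theorem roi_coe (σ : Gal(L/K)) (x : 𝓞 L) : ((roi σ x : 𝓞 L) : L) = σ (x : L) := rfl

omit [NumberField K] [NumberField L] in
theorem roi_inj (σ : Gal(L/K)) : Function.Injective (roi σ) := by
  intro x y h
  have h1 : ((roi σ x : 𝓞 L) : L) = ((roi σ y : 𝓞 L) : L) := by rw [h]
  rw [roi_coe, roi_coe] at h1
  exact RingOfIntegers.ext (σ.injective h1)

theorem roi_nzd (σ : Gal(L/K)) : (𝓞 L)⁰ ≤ Submonoid.comap (roi σ) (𝓞 L)⁰ :=
  nonZeroDivisors_le_comap_nonZeroDivisors_of_injective _ (roi_inj σ)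

/-- The action of `σ` on fractional ideals. -/
def frI (σ : Gal(L/K)) :
    Additive (FractionalIdeal (𝓞 L)⁰ L)ˣ →+ Additive (FractionalIdeal (𝓞 L)⁰ L)ˣ :=
  MonoidHom.toAdditive (Units.map
    (FractionalIdeal.extendedHom' L (roi_nzd σ) :
      FractionalIdeal (𝓞 L)⁰ L →+* FractionalIdeal (𝓞 L)⁰ L).toMonoidHom)

/-- The action of `σ` on `L^*`. -/
def frV (σ : Gal(L/K)) : Additive Lˣ →+ Additive Lˣ :=
  MonoidHom.toAdditive (Units.map (σ : L →+* L).toMonoidHom)

variable (L) in
/-- The principal ideals. -/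
def frD : Additive Lˣ →+ Additive (FractionalIdeal (𝓞 L)⁰ L)ˣ :=
  MonoidHom.toAdditive (toPrincipalIdeal (𝓞 L) L)

variable (K L) in
/-- The extension of fractional ideals from `K` to `L`. -/
def frE : Additive (FractionalIdeal (𝓞 K)⁰ K)ˣ →+ Additive (FractionalIdeal (𝓞 L)⁰ L)ˣ :=
  MonoidHom.toAdditive (Units.map
    (FractionalIdeal.extendedHom L (𝓞 L) :
      FractionalIdeal (𝓞 K)⁰ K →+* FractionalIdeal (𝓞 L)⁰ L).toMonoidHom)

/-- The fractional ideal. -/
def toF {R : Type} [Field R] [NumberField R] (y : Additive (FractionalIdeal (𝓞 R)⁰ R)ˣ) : FractionalIdeal (𝓞 R)⁰ R :=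
  ((Additive.toMul y : (FractionalIdeal (𝓞 R)⁰ R)ˣ) : FractionalIdeal (𝓞 R)⁰ R)

theorem toF_inj {R : Type} [Field R] [NumberField R]
    {x y : Additive (FractionalIdeal (𝓞 R)⁰ R)ˣ} (h : toF x = toF y) : x = y :=
  Additive.toMul.injective (Units.ext h)

theorem toF_ne_zero {R : Type} [Field R] [NumberField R]
    (x : Additive (FractionalIdeal (𝓞 R)⁰ R)ˣ) : toF x ≠ 0 := Units.ne_zero _

theorem toF_add {R : Type} [Field R] [NumberField R]
    (x y : Additive (FractionalIdeal (𝓞 R)⁰ R)ˣ) : toF (x + y) = toF x * toF y := rfl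

theorem toF_frD {R : Type} [Field R] [NumberField R] (x : Additive Rˣ) :
    toF (frD R x) = FractionalIdeal.spanSingleton (𝓞 R)⁰ ((Additive.toMul x : Rˣ) : R) := by
  unfold toF frD
  rw [MonoidHom.toAdditive_apply_apply, toMul_ofMul, coe_toPrincipalIdeal]

omit [NumberField K] [NumberField L] in
theorem frV_coe (σ : Gal(L/K)) (x : Additive Lˣ) :
    ((Additive.toMul (frV σ x) : Lˣ) : L) = σ ((Additive.toMul x : Lˣ) : L) := rfl

theorem toF_frI (σ : Gal(L/K)) (y : Additive (FractionalIdeal (𝓞 L)⁰ L)ˣ) :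
    toF (frI σ y) = (toF y).extended L (roi_nzd σ) := rfl

theorem toF_frE (y : Additive (FractionalIdeal (𝓞 K)⁰ K)ˣ) :
    toF (frE K L y) = FractionalIdeal.extendedHom L (𝓞 L) (toF y) := rfl

theorem loc_map (σ : Gal(L/K)) (x : L) :
    IsLocalization.map (S := L) L (roi σ) (roi_nzd σ) x = σ x := by
  have h : IsLocalization.map (S := L) L (roi σ) (roi_nzd σ) = (σ : L →+* L) := by
    apply IsLocalization.ringHom_ext (𝓞 L)⁰
    ext x
    simp only [RingHom.comp_apply, IsLocalization.map_eq]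
    rfl
  rw [h]
  rfl

theorem frI_frD (σ : Gal(L/K)) (x : Additive Lˣ) : frI σ (frD L x) = frD L (frV σ x) := by
  apply toF_inj
  rw [toF_frI, toF_frD, toF_frD, FractionalIdeal.extended_spanSingleton, loc_map, frV_coe]

theorem toF_frI_coe (σ : Gal(L/K)) (y : Additive (FractionalIdeal (𝓞 L)⁰ L)ˣ) (I : Ideal (𝓞 L))
    (h : toF y = (I : FractionalIdeal (𝓞 L)⁰ L)) :
    toF (frI σ y) = ((I.map (roi σ) : Ideal (𝓞 L)) : FractionalIdeal (𝓞 L)⁰ L) := by
  rw [toF_frI, h, FractionalIdeal.extended_coeIdeal_eq_map]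

theorem toF_frE_coe (y : Additive (FractionalIdeal (𝓞 K)⁰ K)ˣ) (I : Ideal (𝓞 K))
    (h : toF y = (I : FractionalIdeal (𝓞 K)⁰ K)) :
    toF (frE K L y) = ((I.map (algebraMap (𝓞 K) (𝓞 L)) : Ideal (𝓞 L)) :
      FractionalIdeal (𝓞 L)⁰ L) := by
  rw [toF_frE, h, FractionalIdeal.extendedHom_coeIdeal_eq_map]

theorem frI_mul (σ τ : Gal(L/K)) (y : Additive (FractionalIdeal (𝓞 L)⁰ L)ˣ) :
    frI (σ * τ) y = frI σ (frI τ y) := by
  apply toF_inj
  rw [toF_frI, toF_frI, toF_frI, FractionalIdeal.extended_extended]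
  rfl

theorem frI_one (y : Additive (FractionalIdeal (𝓞 L)⁰ L)ˣ) : frI (1 : Gal(L/K)) y = y := by
  apply toF_inj
  apply FractionalIdeal.coeToSubmodule_injective
  rw [toF_frI]
  beta_reduce
  rw [FractionalIdeal.coe_extended_eq_span]
  have h2 : (IsLocalization.map (S := L) L (roi (1 : Gal(L/K))) (roi_nzd (1 : Gal(L/K)))) ''
      (toF y : Set L) = (toF y : Set L) := by
    ext x
    simp only [Set.mem_image, loc_map, AlgEquiv.one_apply]
    exact ⟨fun ⟨a, ha, hax⟩ => hax ▸ ha, fun hx => ⟨x, hx, rfl⟩⟩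
  rw [h2]
  exact Submodule.span_eq _

theorem frI_frE (σ : Gal(L/K)) (c : Additive (FractionalIdeal (𝓞 K)⁰ K)ˣ) :
    frI σ (frE K L c) = frE K L c := by
  apply toF_inj
  rw [toF_frI, toF_frE]
  change ((toF c).extended L _).extended L _ = (toF c).extended L _
  rw [FractionalIdeal.extended_extended]
  have h : (roi σ).comp (algebraMap (𝓞 K) (𝓞 L)) = algebraMap (𝓞 K) (𝓞 L) := by
    ext x
    exact σ.commutes (x : K)
  simp only [h]

theorem frE_frD (x : Additive Kˣ) :
    frE K L (frD K x) =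
      frD L (MonoidHom.toAdditive (Units.map (algebraMap K L).toMonoidHom) x) := by
  apply toF_inj
  rw [toF_frE, toF_frD, toF_frD, FractionalIdeal.extendedHom_spanSingleton]
  have h : IsFractionRing.map (FaithfulSMul.algebraMap_injective (𝓞 K) (𝓞 L)) =
      algebraMap K L := by
    apply IsLocalization.ringHom_ext (𝓞 K)⁰
    ext x
    simp only [RingHom.comp_apply, IsFractionRing.map, IsLocalization.map_eq]
    rfl
  rw [h]
  rfl

end num

/-- A prime as a fractional ideal. -/
def prU {R : Type} [Field R] [NumberField R] (v : HeightOneSpectrum (𝓞 R)) :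
    Additive (FractionalIdeal (𝓞 R)⁰ R)ˣ :=
  Additive.ofMul (Units.mk0 (v.asIdeal : FractionalIdeal (𝓞 R)⁰ R)
    (FractionalIdeal.coeIdeal_ne_zero.2 v.ne_bot))

theorem toF_prU {R : Type} [Field R] [NumberField R] (v : HeightOneSpectrum (𝓞 R)) :
    toF (prU v) = (v.asIdeal : FractionalIdeal (𝓞 R)⁰ R) := rfl

/-- **RHB** (120 lines). Uses: nothing. The axioms.
PROOF. `n = finrank K L = card Gal(L/K) = orderOf s` (`IsGalois.card_aut_eq_finrank`, `orderOf_eq_card_of_forall_mem_zpowers`), `s^n = 1`. `(frV s)^[i] x = frV (s^i) x`, `(frI s)^[i] y = frI (s^i) y` by induction (`frI_mul`, `frI_one`, `Function.iterate_succ'`). `cm`: `frI_frD`. `h90`: the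
hypothesis says `∏_{i<n} (s^i) x = 1` for `x ∈ Lˣ`, this product is `∏_g g x` over the Galois group (`i ↦ s^i` is a bijection from `range n`; e.g. `Finset.prod_nbij` or `IsCyclic.image_range_orderOf`), i.e. the norm (`Algebra.norm_eq_prod_automorphisms`); Hilbert 90
(`exists_div_of_norm_eq_one`; `IsCyclic` by the generator — look at the landed module `FW/H/HUn.lean`) gives `x = y / s y` or `s y / y`, `y ≠ 0`. `fin`: `(toPrincipalIdeal (𝓞 L) L).range` has finite index because the class group is finite (`ClassGroup.equiv L`, `Subgroup.finiteIndex_of_finite_quotient`). -/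
def S_RHB : Prop :=
  ∀ (K L : Type) [Field K] [NumberField K] [Field L] [NumberField L] [Algebra K L] [IsGalois K L]
    (s : Gal(L/K)), (∀ g : Gal(L/K), g ∈ Subgroup.zpowers s) →
    HB (Module.finrank K L) (frV s) (frI s) (frD L)

/-- **RUn** (100 lines). Uses: `S_RHq`, `S_RTr`, `S_HPl`, `S_HFx`. The Herbrand quotient of the units of `L`.
PROOF. `E = Additive (𝓞 L)ˣ`, `j : E →+ Additive Lˣ` induced by `Units.map (algebraMap (𝓞 L) L)`, injective, `j (unMap s x) = frV s (j x)`. `j.range = (frD L).ker`: `spanSingleton x = 1` iff `x` and `x⁻¹` are integral, i.e. `x` is the image of a unit of `𝓞 L` (`toPrincipalIdeal_eq_iff`,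
`FractionalIdeal.spanSingleton_eq_one_iff`-type lemma, or `FractionalIdeal.spanSingleton_le_one_iff_mem` for `x` and `x⁻¹`; `toF_frD`). RHq for `E`, `p = finrank K L`, `unMap s`: `(unMap s)^[p] = id` (`s^p = 1`), and the rank condition: `finrank E + 1 = p (finrank (𝓞 K)ˣ + 1)` (HPl, `p` odd) and
`finrank (unMap s - id).ker = finrank (𝓞 K)ˣ` (HFx). Transport by RTr. -/
def S_RUn : Prop :=
  ∀ (K L : Type) [Field K] [NumberField K] [Field L] [NumberField L] [Algebra K L] [IsGalois K L]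
    (s : Gal(L/K)), (∀ g : Gal(L/K), g ∈ Subgroup.zpowers s) → (Module.finrank K L).Prime →
    Module.finrank K L ≠ 2 → Hbq (Module.finrank K L) (frV s) (frD L)

/-- **RInv** (100 lines). Uses: nothing. Invariant fractional ideals are extended.
PROOF. `frI s y = y` implies `frI (s^i) y = y` for natural `i` and so `frI g y = y` for all `g` (`frI_mul`; `s` has finite order, or `frI_one` for the inverse). There is `a ∈ 𝓞 L`, `a ≠ 0`, with `(a) * toF y = J` an integral ideal (`FractionalIdeal.exists_eq_spanSingleton_mul`); `a` divides a positive natural number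
`n` (`absNorm (span a)`, or `Algebra.norm`), so `n * toF y = I` is an integral ideal, `I ≠ ⊥`. Let `z = frD L (ofMul n) + y`, `toF z = I`; `frI g z = z` (`frI_frD`, `g n = n`), so `I.map (roi g) = I` for all `g` (`toF_frI_coe`, `FractionalIdeal.coeIdeal_injective`). `InvExt`: `I = J'.map (algebraMap ..)`, `J' ≠ ⊥`.
Let `c' : Additive (FractionalIdeal (𝓞 K)⁰ K)ˣ` with `toF c' = J'`; `frE c' = z` (`toF_frE_coe`), and `frE (frD K (ofMul n)) = frD L (ofMul n)` (`frE_frD`). So `c = c' - frD K (ofMul n)`. -/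
def S_RInv : Prop :=
  ∀ (K L : Type) [Field K] [NumberField K] [Field L] [NumberField L] [Algebra K L] [IsGalois K L]
    (s : Gal(L/K)), (∀ g : Gal(L/K), g ∈ Subgroup.zpowers s) → InvExt K L →
    ∀ y : Additive (FractionalIdeal (𝓞 L)⁰ L)ˣ, frI s y = y → ∃ c, frE K L c = y

/-- **RSpl** (150 lines). Uses: nothing. A prime of `K` with a prime of degree one above it is the product of the conjugates.
PROOF. `n = finrank K L`, `q = card (𝓞 K ⧸ v)`, finite, `q ≥ 2`; `v ≠ ⊥`. (1) Every element of the finite field `κ = 𝓞 L ⧸ w` is a root of `X^q - X`, so `card κ ≤ q` (`Polynomial.card_roots'`), and `𝓞 K ⧸ v → κ` is injective (`w.comap = v`; `Ideal.quotientMap_injective`), so it is bijective: for every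
`x ∈ 𝓞 L` there is `c ∈ 𝓞 K` with `x - c ∈ w`, and `absNorm w = card κ = q`. (2) If `g w = w` (`w.map (roi g) = w`) then `g = 1`: for `x`, `c` as in (1) `g x - c ∈ w` too (`roi g` fixes `c`), so `g x - x ∈ w`, and `TrivIn`. (3) So the ideals `w_i = w.map (roi (s^i))`, `i < n`, are distinct (`w_i = w_j`, `i ≤ j`, gives
`w.map (roi (s^(j-i))) = w`, `s^(j-i) = 1`, `n = orderOf s`); they are prime ideals `≠ ⊥` (images under ring automorphisms) and contain `v 𝓞 L` (`w ∋` the image of `v`), so `∏ w_i ∣ v 𝓞 L` (`Finset.prod_primes_dvd` or pairwise coprime `Finset.prod_dvd_of_coprime`, `Ideal.isCoprime_of_isMaximal`). (4) `absNorm w_i = absNorm w = q`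
(`roi g` induces an isomorphism of the quotients; `Ideal.quotientEquiv`), so `absNorm (∏ w_i) = q^n`, and `absNorm (v 𝓞 L) = (absNorm v)^n = q^n` (`Ideal.absNorm_algebraMap`, `finrank (𝓞 K) (𝓞 L) = n`). So the quotient has norm 1 and is `⊤` (`Ideal.absNorm_eq_one_iff`). Compare `FW/A/ASplit.lean`. -/
def S_RSpl : Prop :=
  ∀ (K L : Type) [Field K] [NumberField K] [Field L] [NumberField L] [Algebra K L] [IsGalois K L]
    (s : Gal(L/K)), (∀ g : Gal(L/K), g ∈ Subgroup.zpowers s) → TrivIn K L →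
    ∀ (v : Ideal (𝓞 K)) (w : Ideal (𝓞 L)), w.IsPrime → w ≠ ⊥ →
      w.comap (algebraMap (𝓞 K) (𝓞 L)) = v → (∀ x : 𝓞 L, x ^ Nat.card (𝓞 K ⧸ v) - x ∈ w) →
      v.map (algebraMap (𝓞 K) (𝓞 L)) = ∏ i ∈ Finset.range (Module.finrank K L), w.map (roi (s ^ i))

/-- **RSp2** (40 lines). Uses: nothing. The same for fractional ideals.
PROOF. `y = ofMul (Units.mk0 w)`, `toF y = w`. `(frI s)^[i] y = frI (s^i) y` (`frI_mul`, `frI_one`), `toF` of it is `w.map (roi (s^i))` (`toF_frI_coe`). `toF` of a sum is a product (`toF_add`; induction), `FractionalIdeal.coeIdeal_finprod`-type or induction with `FractionalIdeal.coeIdeal_mul`; `toF_inj`,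
`toF_frE_coe`, `toF_prU`. -/
def S_RSp2 : Prop :=
  ∀ (K L : Type) [Field K] [NumberField K] [Field L] [NumberField L] [Algebra K L] (n : ℕ)
    (s : Gal(L/K)) (v : HeightOneSpectrum (𝓞 K)) (w : Ideal (𝓞 L)), w ≠ ⊥ →
    v.asIdeal.map (algebraMap (𝓞 K) (𝓞 L)) = ∏ i ∈ Finset.range n, w.map (roi (s ^ i)) →
    ∃ y, frE K L (prU v) = nrm n (frI s) y

/-- **RFac** (90 lines). Uses: nothing. Characters of the group of fractional ideals.
PROOF. For every `y`: `χ y = ∑ᶠ v, (count K v (toF y) : ZMod p) * χ (prU v)`: `T = {v : count K v (toF y) ≠ 0}` is finite (`FractionalIdeal.finite_factors`), and `toF y = ∏ v ∈ T, v^(count)` (`FractionalIdeal.finprod_heightOneSpectrum_factorization'`, `finprod_eq_prod_of_mulSupport_subset`), so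
`y = ∑ v ∈ T, (count) • prU v` in the additive group (`toF_inj`), apply `χ` (`map_sum`, `map_zsmul`, `zsmul_eq_mul`), and `finsum_eq_sum_of_support_subset`. For `y = frD K x`, `toF_frD`, this is the sum of `ClCh`; every `x ≠ 0` in `K` is a unit. If all `χ (prU v) = 0` then `χ = 0`. -/
def S_RFac : Prop :=
  ∀ (K : Type) [Field K] [NumberField K] (p : ℕ)
    (χ : Additive (FractionalIdeal (𝓞 K)⁰ K)ˣ →+ ZMod p), (∀ x : Additive Kˣ, χ (frD K x) = 0) →
    ClCh p K (fun v => χ (prU v)) ∧ ((∀ v : HeightOneSpectrum (𝓞 K), χ (prU v) = 0) → χ = 0)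

/-- **RAbs** (100 lines). Uses: `S_RCh`, `S_RHB`, `S_RUn`, `S_HInv`, `S_RInv`, `S_RSpl`, `S_RSp2`, `S_RFac`. The theorem for abstract number fields.
PROOF. `subst p`. `Gal(L/K)` has prime order, so a generator `s` exists (as in `FW/H/HAbs.lean`). RCh with `V = Additive Lˣ`, `I`, `C` the additive groups of fractional ideals, `frV s`, `frI s`, `frD L`, `ι = frE K L`: RHB, RUn, `frI_frE`, RInv with HInv. It gives `χ ≠ 0`. `χ (frD K x) = 0`: `ι (frD K x) = frD L x'`
(`frE_frD`) with `frV s x' = x'` (`s` fixes the image of `K`). RFac: `a v = χ (prU v)` is a class character, and not `0` as `χ ≠ 0`. If `w` is as in the statement, RSpl and RSp2 give `frE (prU v) = nrm n (frI s) y`, so `a v = 0`. -/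
def S_RAbs : Prop :=
  ∀ (p : ℕ) (K L : Type) [Field K] [NumberField K] [Field L] [NumberField L] [Algebra K L]
    [IsGalois K L], Module.finrank K L = p → p.Prime → p ≠ 2 → TrivIn K L →
    ∃ a : HeightOneSpectrum (𝓞 K) → ZMod p, ClCh p K a ∧ a ≠ 0 ∧ ∀ v : HeightOneSpectrum (𝓞 K),
      (∃ w : Ideal (𝓞 L), w.IsPrime ∧ w ≠ ⊥ ∧ w.comap (algebraMap (𝓞 K) (𝓞 L)) = v.asIdeal ∧
        ∀ x : 𝓞 L, x ^ Nat.card (𝓞 K ⧸ v.asIdeal) - x ∈ w) → a v = 0

/-! ## From characters to fields -/

/-- **RFld** (60 lines). Uses: nothing. The field of a character.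
PROOF. As `S_Fld` of `MuZ` (file `Pool/Agent/Lib/MuZ/Fld.lean`, copy the lemmas, it treats `VV p (Loc p)`): `W = {σ ∈ K.fixingSubgroup : g σ = 0}` is a closed (open in `K.fixingSubgroup`) subgroup, `M = fixedField W`, `M.fixingSubgroup = W` (`InfiniteGalois`). `K ≤ M`; `M` is finite over `ℚ`, because `W` is open (it contains
`K.fixingSubgroup ∩ O`, both open), `σ M = M` because `W` is normal in `K.fixingSubgroup`. -/
def S_RFld : Prop :=
  ∀ (p : ℕ) [Fact p.Prime] (K : IntermediateField ℚ Om) [NumberField K],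
    ∀ g ∈ VV p Inr K.fixingSubgroup, ∃ M : IntermediateField ℚ Om, K ≤ M ∧
      FiniteDimensional ℚ M ∧ (∀ σ ∈ K.fixingSubgroup, ∀ x ∈ M, σ x ∈ M) ∧
      ∀ σ : Gal(Om/ℚ), σ ∈ M.fixingSubgroup ↔ σ ∈ K.fixingSubgroup ∧ g σ = 0

/-- **RExt** (200 lines, most of it copied from the landed `FW/H/HExt.lean`). Uses: nothing. The extension of number fields which belongs to a character.
PROOF. `L = extendScalars`, degree, `TrivIn`: verbatim as in `Pool/Agent/Lib/FW/H/HExt.lean` (`Inr` contains all inertia groups, so the last step is `hg4 _ ⟨P, hP, hPb, rfl⟩`). New: let `P`, `σ` be from `Spl p F g v`: `P` a prime of `ZZ`, `P ≠ ⊥`, `v.asIdeal = P.comap (iO F)`, `σ ∈ F.fixingSubgroup`,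
`g σ = 0`, `σ • y - y^q ∈ P` for all `y ∈ ZZ`. So `σ ∈ M.fixingSubgroup`. `w = P.comap J` with `J : 𝓞 L → ZZ` the inclusion (`hxJ` there): prime; its comap to `𝓞 F` is `P.comap (iO F) = v.asIdeal` (the composition of `𝓞 F → 𝓞 L` and `J` is `iO F`), so `w ≠ ⊥` (`v ≠ ⊥`). For `x ∈ 𝓞 L`, `y = J x`: `σ • y = y`, so
`y - y^q ∈ P` and `x^q - x ∈ w`; `q = card (𝓞 F ⧸ P.comap (iO F)) = card (𝓞 F ⧸ v.asIdeal)`. -/
def S_RExt : Prop :=
  S_Ine → ∀ (p : ℕ) [Fact p.Prime] (F M : IntermediateField ℚ Om), F ≤ M → NumberField F →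
    FiniteDimensional ℚ M → (∀ σ ∈ F.fixingSubgroup, ∀ x ∈ M, σ x ∈ M) →
    ∀ g ∈ VV p Inr F.fixingSubgroup, g ≠ 0 →
    (∀ σ : Gal(Om/ℚ), σ ∈ M.fixingSubgroup ↔ σ ∈ F.fixingSubgroup ∧ g σ = 0) →
    ∃ (L : Type) (_ : Field L) (_ : NumberField L) (_ : Algebra F L) (_ : IsGalois F L),
      Module.finrank F L = p ∧ TrivIn F L ∧ ∀ v : HeightOneSpectrum (𝓞 F), Spl p F g v →
        ∃ w : Ideal (𝓞 L), w.IsPrime ∧ w ≠ ⊥ ∧ w.comap (algebraMap (𝓞 F) (𝓞 L)) = v.asIdeal ∧
          ∀ x : 𝓞 L, x ^ Nat.card (𝓞 F ⧸ v.asIdeal) - x ∈ w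

/-- **R1A** (30 lines). The interface R1 from `S_RAbs`, `S_RFld`, `S_Ine`, `S_RExt`. -/
def S_R1A : Prop := S_RAbs → S_RFld → S_Ine → S_RExt → S_R1

end Pool.Agent.FW
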