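import Pool.Agent.Lib.FW.SpecFr

/-!
# FW, stage 2, part R3: cyclotomic unramified characters

Plan. `g` unramified character of `Gal(Ω/K)`, trivial on `Gal(Ω/K(μ_m))`, `M` its field. For `r ∈ 𝓞 K` prime to `m` there is `y ∈ 𝓞 M` with
`N_{M/K} y ≡ r mod m` (unramified: R3T, R3Q, R3S, R3N). The Artin elements of `(r)` over `K` and of `(y)` over `M` act on `μ_m` as the absolute norms, whose squares
are congruent modulo `m` (R3M); so `2 g(Artin (r)) = 0` (R3A). Finally the values are extended to the primes which divide `m` (R3V, R3W, R3D, R3X).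

RULES: module X: file `Pool/Agent/Lib/FW/R3/X.lean` (first line `import Pool.Agent.Lib.FW.SpecR3`, plus files named in the docstring),
`namespace Pool.Agent.FW`, final theorem `theorem tX (h1 : S_Y) .. : S_X` with the statements listed under Uses as hypotheses in this
order. Auxiliary declarations `private`, no `congr!`, below 60 s.
-/

open scoped Pointwise nonZeroDivisors

noncomputable section

namespace Pool.Agent.FW

open Pool.Agent.MuZ NumberField IsDedekindDomain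

/-! ## Valuations and class characters -/

/-- **R3V** (100 lines). Uses: nothing. The valuations `vl K v`.
PROOF. (1) `FractionalIdeal.spanSingleton_mul_spanSingleton`, `FractionalIdeal.count_mul` (`spanSingleton x ≠ 0` for `x ≠ 0`). (2) `spanSingleton (algebraMap x) = ((Ideal.span {x} : Ideal (𝓞 K)) : FractionalIdeal ..)` (`FractionalIdeal.coeIdeal_span_singleton`),
`FractionalIdeal.count_coe` : the count is the multiplicity of `v` in the factorization of `(x)`, a natural number, and it is `0` iff `v` does not divide `(x)` iff `x ∉ v` (`Associates.count_ne_zero_iff_dvd`, `Ideal.dvd_span_singleton`). (3) `FractionalIdeal.finite_factors`. (4) as (2). -/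
def S_R3V : Prop :=
  ∀ (K : Type) [Field K] [NumberField K],
    (∀ (v : HeightOneSpectrum (𝓞 K)) (x y : K), x ≠ 0 → y ≠ 0 → vl K v (x * y) = vl K v x + vl K v y) ∧
    (∀ (v : HeightOneSpectrum (𝓞 K)) (x : 𝓞 K), x ≠ 0 →
      0 ≤ vl K v (x : K) ∧ (vl K v (x : K) = 0 ↔ x ∉ v.asIdeal)) ∧
    (∀ x : K, x ≠ 0 → {v : HeightOneSpectrum (𝓞 K) | vl K v x ≠ 0}.Finite) ∧
    ∀ (v : HeightOneSpectrum (𝓞 K)) (x : 𝓞 K),
      vl K v (x : K) = FractionalIdeal.count K v ((Ideal.span {x} : Ideal (𝓞 K)) : FractionalIdeal (𝓞 K)⁰ K)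

/-- **R3W** (100 lines). Uses: nothing. Elements with valuation `1` at `v` and `0` at the other primes of a finite set.
PROOF. `v ^ 2 ≠ v`, choose `t ∈ v`, `t ∉ v ^ 2` (`Ideal.pow_right_strictAnti` or `Ideal.exists_mem_pow_notMem_pow_succ`). By the Chinese remainder theorem (`IsDedekindDomain.exists_forall_sub_mem_ideal`) there is `z ∈ 𝓞 K` with `z ≡ t mod v ^ 2` and `z ≡ 1 mod v'` for
`v' ∈ S`, `v' ≠ v`. Then `z ∈ v`, `z ∉ v ^ 2`, `z ∉ v'`, `z ≠ 0`. `(z) = v C` with `C` not inside `v`: `count v (z) = count v v + count v C = 1 + 0` (`FractionalIdeal.count_mul`, `count_self`, `count_coe`); `count v' (z) = 0`. -/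
def S_R3W : Prop :=
  ∀ (K : Type) [Field K] [NumberField K] (S : Finset (HeightOneSpectrum (𝓞 K))), ∀ v ∈ S,
    ∃ z : 𝓞 K, z ≠ 0 ∧ vl K v (z : K) = 1 ∧ ∀ v' ∈ S, v' ≠ v → vl K v' (z : K) = 0

/-- **R3D** (150 lines). Uses: `S_R3V`. Denominators prime to a finite set.
PROOF. Let `D = {s : 𝓞 K | s x is in 𝓞 K}`, an ideal. CLAIM: for `v ∈ S` there is `c ∈ D`, `c ∉ v`. Write `x = α / β`, `α, β ∈ 𝓞 K` nonzero. `(β) = v ^ n C` with `C` not inside `v`, `n = vl v β = vl v α` (R3V (1)), so `α ∈ v ^ n` (`v ^ n` divides `(α)`). Choose `c ∈ C`, `c ∉ v`: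
`c α ∈ C v ^ n = (β)`, so `c x = c α / β ∈ 𝓞 K`. Prime avoidance (`Ideal.subset_union_prime`) for `D` and the finitely many primes `v ∈ S` and `⊥` (`β ∈ D`, `β ≠ 0`): there is `s ∈ D`, `s ≠ 0`, `s ∉ v` for `v ∈ S`. [Or: choose `c_v` for each `v`, `e_v ≡ 1 mod v`, `e_v ∈ v'` for the others
and `s = ∑ c_v e_v`; if `S` is empty `s = β`.] `r = s x ∈ 𝓞 K`, `r ≠ 0`, `vl v r = vl v s + vl v x = 0` for `v ∈ S`, so `r ∉ v` (R3V (2)). -/
def S_R3D : Prop :=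
  ∀ (K : Type) [Field K] [NumberField K] (S : Finset (HeightOneSpectrum (𝓞 K))) (x : K), x ≠ 0 →
    (∀ v ∈ S, vl K v x = 0) →
    ∃ r s : 𝓞 K, r ≠ 0 ∧ s ≠ 0 ∧ x * (s : K) = (r : K) ∧ ∀ v ∈ S, r ∉ v.asIdeal ∧ s ∉ v.asIdeal

/-- **R3X** (150 lines). Uses: `S_R3V`, `S_R3W`, `S_R3D`. Extension of a class character to the primes in a finite set.
PROOF. For `x ≠ 0` let `φ x = ∑ᶠ v, vl v x * b v`. `φ (x y) = φ x + φ y` (R3V (1), (3); `finsum_add_distrib`), so `φ (x ^ n) = n φ x` for integers `n`. If `vl v x = 0` for all `v ∈ S` then by R3D `x s = r`, `φ x + φ s = φ r`, `φ s = φ r = 0`, so `φ x = 0`. For `v ∈ S` let `z_v` be from R3W;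
put `a v = - φ z_v` for `v ∈ S` and `a v = b v` for `v ∉ S`. For `x ≠ 0` let `y = x * ∏ v ∈ S, z_v ^ (- vl v x)`; then `vl v y = 0` for `v ∈ S`, so `0 = φ y = φ x - ∑ v ∈ S, vl v x * φ z_v = φ x + ∑ v ∈ S, vl v x * a v`, and this is `∑ᶠ v, vl v x * a v` because `b v = 0` on `S`. -/
def S_R3X : Prop :=
  ∀ (p : ℕ) [Fact p.Prime] (K : Type) [Field K] [NumberField K] (S : Finset (HeightOneSpectrum (𝓞 K)))
    (b : HeightOneSpectrum (𝓞 K) → ZMod p), (∀ v ∈ S, b v = 0) →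
    (∀ r : 𝓞 K, r ≠ 0 → (∀ v ∈ S, r ∉ v.asIdeal) →
      ∑ᶠ v : HeightOneSpectrum (𝓞 K), (vl K v (r : K) : ZMod p) * b v = 0) →
    ∃ a : HeightOneSpectrum (𝓞 K) → ZMod p, ClCh p K a ∧ ∀ v, v ∉ S → a v = b v

/-! ## Norms from unramified extensions -/

/-- **R3T** (120 lines). Uses: nothing. The trace is onto modulo `q`.
PROOF. Let `Q` be a prime of `𝓞 L` above `q`. For `s ∈ Gal(L/K)` let `f_s : 𝓞 L → 𝓞 L ⧸ Q` be `x ↦ s x mod Q`. They are pairwise different: if `s x - t x ∈ Q` for all `x`, then (put `x = t⁻¹ y`) `(s t⁻¹) y - y ∈ Q` for all `y`, so `s t⁻¹ = 1` by `TrivIn` (`Q ≠ ⊥`). By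
`linearIndependent_monoidHom` (the target is a domain) the sum of the `f_s` is not `0`: there is `c₀ ∈ 𝓞 L` with `∑ s c₀ ∉ Q`. `Algebra.trace K L c₀ = ∑ s c₀` (`trace_eq_sum_automorphisms`) is an algebraic integer `t₀ ∈ 𝓞 K` (`Algebra.isIntegral_trace`), `t₀ ∉ q`. `q` is maximal: `n t₀ = 1 + d`,
`d ∈ q` (`Ideal.IsMaximal.exists_inv`). Take `c = n c₀`. -/
def S_R3T : Prop :=
  ∀ (K L : Type) [Field K] [NumberField K] [Field L] [NumberField L] [Algebra K L] [IsGalois K L],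
    TrivIn K L → ∀ q : Ideal (𝓞 K), q.IsPrime → q ≠ ⊥ →
      ∃ c : 𝓞 L, ∃ d ∈ q, Algebra.trace K L (c : L) = ((1 + d : 𝓞 K) : K)

/-- **R3Q** (200 lines). Uses: nothing. The norm is onto modulo `q`.
PROOF. Let `Q` be a prime of `𝓞 L` above `q`, `κ = 𝓞 L ⧸ Q`, `k = 𝓞 K ⧸ q` finite fields, `G = Gal(L/K)`, `D` the stabiliser of `Q`. `D → Gal(κ/k)` is surjective (`Ideal.Quotient.stabilizerHom_surjective`, `G` finite acting on `𝓞 L` with invariants `𝓞 K`) and injective by `TrivIn`.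
`FiniteField.norm_surjective` gives `u ∈ κ` with `norm u = x mod q`. The Chinese remainder theorem (`IsDedekindDomain.exists_forall_sub_mem_ideal`, the primes above `q` are finitely many: `s Q`, `s ∈ G`) gives `y ∈ 𝓞 L` with `y ≡ u mod Q` and `y ≡ 1 mod Q'` for all primes `Q' = s Q ≠ Q`.
For `s ∈ D`: `s y mod Q = s̄ u`. For `s ∉ D`: `s⁻¹ Q ≠ Q`, `y ≡ 1 mod s⁻¹ Q`, `s y ≡ 1 mod Q`. So `∏ over s of s y ≡ ∏ over D of s̄ u = norm u = x mod Q` (`Algebra.norm_eq_prod_automorphisms` for `κ/k` and for `L/K`). The norm of `y` is an algebraic integer in `K`, `N y - x ∈ Q ∩ 𝓞 K = q`. -/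
def S_R3Q : Prop :=
  ∀ (K L : Type) [Field K] [NumberField K] [Field L] [NumberField L] [Algebra K L] [IsGalois K L],
    TrivIn K L → ∀ q : Ideal (𝓞 K), q.IsPrime → q ≠ ⊥ → ∀ x : 𝓞 K, x ∉ q →
      ∃ y : 𝓞 L, ∃ d ∈ q, Algebra.norm K (y : L) = ((x + d : 𝓞 K) : K)

/-- **R3S** (150 lines). Uses: `S_R3T`. The lifting step.
PROOF. `N y = x + d ∉ q` (`d ∈ 𝔪 ≤ q`); `q` is maximal: `n (x + d) = 1 + e`, `e ∈ q`. `c`, `d₁` from R3T: `Tr c = 1 + d₁`. Put `b = d n ∈ 𝔪`, `y' = y (1 - b c)`. `N (1 - b c) = ∏ over s of (1 - b s c) = 1 - b Tr c + b ^ 2 w` with `w ∈ 𝓞 L` (induction on a finset of `s`). If `b ≠ 0` then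
`w = (N (1 - b c) - 1 + b Tr c) / b ^ 2` is in `K`, so it is in `𝓞 K`; if `b = 0` take `w = 0`. So `N y' = (x + d) (1 - d n (1 + d₁) + b ^ 2 w) = x + d - d (1 + e) (1 + d₁) + (x + d) b ^ 2 w = x - d (e + d₁ + e d₁) + (x + d) b ^ 2 w`, and `d (e + d₁ + e d₁) ∈ 𝔪 q`, `b ^ 2 ∈ 𝔪 𝔪 ≤ 𝔪 q`. -/
def S_R3S : Prop :=
  ∀ (K L : Type) [Field K] [NumberField K] [Field L] [NumberField L] [Algebra K L] [IsGalois K L],
    TrivIn K L → ∀ 𝔪 q : Ideal (𝓞 K), q.IsPrime → q ≠ ⊥ → 𝔪 ≤ q → ∀ x : 𝓞 K, x ∉ q →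
      (∃ y : 𝓞 L, ∃ d ∈ 𝔪, Algebra.norm K (y : L) = ((x + d : 𝓞 K) : K)) →
      ∃ y : 𝓞 L, ∃ d ∈ 𝔪 * q, Algebra.norm K (y : L) = ((x + d : 𝓞 K) : K)

/-- **R3N** (200 lines). Uses: `S_R3Q`, `S_R3S`. The norm is onto modulo `m`.
PROOF. CLAIM: for every ideal `𝔪 ≠ ⊥` and `x` which is not in any prime containing `𝔪` there are `y ∈ 𝓞 L`, `d ∈ 𝔪` with `N y = x + d`. Induction (`UniqueFactorizationMonoid.induction_on_prime`): `𝔪 = ⊤`: `y = 1`, `d = 1 - x`. `𝔪 = q 𝔪'`, `q` prime: if `𝔪' ≤ q` use R3S. If not, `𝔪'` and `q` are coprime; let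
`N y₁ = x + d₁`, `d₁ ∈ 𝔪'` (induction), `N y₂ = x + d₂`, `d₂ ∈ q` (R3Q). The ideals `𝔪' 𝓞 L`, `q 𝓞 L` are coprime (`1 = a + b`, `a ∈ 𝔪'`, `b ∈ q`; put `y = a y₂ + b y₁`): `y - y₁ = a (y₂ - y₁)`, `y - y₂ = b (y₁ - y₂)`. For `s ∈ Gal(L/K)` `s y - s y₁ ∈ 𝔪' 𝓞 L`, so `∏ s y - ∏ s y₁ ∈ 𝔪' 𝓞 L` (products in the quotient
ring), and it is the image of `N y - N y₁ ∈ 𝓞 K`; `(𝔪' 𝓞 L) ∩ 𝓞 K = 𝔪'` (`Ideal.comap_map_eq_self_of_faithfullyFlat`, instance `Module.FaithfullyFlat.of_isIntegral_of_isDomain`), so `N y - x ∈ 𝔪'`, and in the same way `N y - x ∈ q`; coprime: `N y - x ∈ 𝔪' q`. END: `m = 1`: `y = 1`, `z = 1 - x`. `m ≥ 2`: `𝔪 = (m)`, `d = m z`; `y ≠ 0`: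
otherwise `x = - m z` is in a prime containing `m` (`m` is not a unit of `𝓞 K`: it is not a unit of `ℤ`), excluded. -/
def S_R3N : Prop :=
  ∀ (K L : Type) [Field K] [NumberField K] [Field L] [NumberField L] [Algebra K L] [IsGalois K L],
    TrivIn K L → ∀ m : ℕ, 0 < m → ∀ x : 𝓞 K,
      (∀ v : HeightOneSpectrum (𝓞 K), (m : 𝓞 K) ∈ v.asIdeal → x ∉ v.asIdeal) →
      ∃ (y : 𝓞 L) (z : 𝓞 K), y ≠ 0 ∧ Algebra.norm K (y : L) = ((x + m * z : 𝓞 K) : K)

/-- **R3M** (100 lines). Uses: nothing. Absolute norms.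
PROOF. `absNorm (span {x}) = |Algebra.norm ℤ x|` (`Ideal.absNorm_span_singleton`), `((Algebra.norm ℤ x : ℤ) : ℚ) = Algebra.norm ℚ (x : K)` (`Algebra.coe_norm_int`), `Algebra.norm ℚ (y : L) = Algebra.norm ℚ (Algebra.norm K (y : L))` (`Algebra.norm_norm`), so `Algebra.norm ℤ y = Algebra.norm ℤ (x + m z)`. This is congruent to
`Algebra.norm ℤ x` modulo `m`: the norm is the determinant of the matrix of the multiplication in an integral basis (`Algebra.norm_eq_matrix_det`, `NumberField.RingOfIntegers.basis`), the matrices of `x + m z` and `x` are congruent modulo `m`, map them to `ZMod m` (`RingHom.map_det`). Squares: `(|a|) ^ 2 = a ^ 2`. -/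
def S_R3M : Prop :=
  ∀ (K L : Type) [Field K] [NumberField K] [Field L] [NumberField L] [Algebra K L] (m : ℕ)
    (x z : 𝓞 K) (y : 𝓞 L), Algebra.norm K (y : L) = ((x + m * z : 𝓞 K) : K) →
    (Ideal.absNorm (Ideal.span {y})) ^ 2 ≡ (Ideal.absNorm (Ideal.span {x})) ^ 2 [MOD m]

/-! ## Reciprocity -/

/-- **R3A** (150 lines). Uses: `S_FrI`, `S_R3V`, `S_R3N`, `S_R3M`. The values at `r` prime to `m`.
PROOF. `letI := incA h`. Let `y`, `z` be from R3N for `x = r`. (a) `y` is prime to `m`: let `w` be a prime of `𝓞 M` with `m ∈ w` and `y ∈ w`, `v = w ∩ 𝓞 K` (a nonzero prime containing `m`; `HeightOneSpectrum`); `y` divides `algebraMap (r + m z) = ∏ over s of s y` (the factor `s = 1`), so `r + m z ∈ v`, `r ∈ v`, excluded.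
(b) `S_FrI` for `K`, `g`, `m`, `a`, `I = (r)`: `σ` with `σ ζ = ζ ^ N(r)` on `μ_m`, `g σ = ∑ᶠ count v (r) a v`, which is the sum of the statement (R3V (4)). (c) `S_FrI` for `M`, the character `0`, `m`, `a = 0`, `I = (y)`: `τ ∈ M.fixingSubgroup`, `τ ζ = ζ ^ N(y)` on `μ_m`. (d) By R3M `σ ^ 2` and `τ ^ 2` agree on `μ_m`
(`σ (σ ζ) = ζ ^ (N(r) ^ 2)`, the exponents are congruent modulo `m` and `ζ ^ m = 1`), so `ρ = (τ ^ 2)⁻¹ σ ^ 2` fixes `μ_m`, and it is in `K.fixingSubgroup` (`M.fixingSubgroup ≤ K.fixingSubgroup`, `IntermediateField.fixingSubgroup_antitone`): `0 = g ρ = 2 g σ - 2 g τ = 2 g σ`. `p ≠ 2`: `g σ = 0`. -/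
def S_R3A : Prop :=
  ∀ (p : ℕ) [Fact p.Prime], p ≠ 2 → ∀ (K M : IntermediateField ℚ Om) [NumberField K] [NumberField M] (h : K ≤ M),
    (letI := incA h
     IsGalois K M ∧ TrivIn K M) →
    ∀ g ∈ VV p Inr K.fixingSubgroup, (∀ σ ∈ M.fixingSubgroup, g σ = 0) → ∀ m : ℕ, 0 < m →
    (∀ σ ∈ K.fixingSubgroup, (∀ z : Om, z ^ m = 1 → σ z = z) → g σ = 0) →
    ∀ a : HeightOneSpectrum (𝓞 K) → ZMod p, IsArt p K g m a →
    ∀ r : 𝓞 K, r ≠ 0 → (∀ v : HeightOneSpectrum (𝓞 K), (m : 𝓞 K) ∈ v.asIdeal → r ∉ v.asIdeal) →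
      ∑ᶠ v : HeightOneSpectrum (𝓞 K), (vl K v (r : K) : ZMod p) * a v = 0

/-- **R3F** (120 lines). Uses (inside the statement): `S_Ine`, `S_FrG`, `S_Lie`, `S_FrE`, `S_FrU`, `S_R3A`, `S_R3X`. Assembly of `S_R3`.
PROOF. If `g = 0` take `a = 0`. Otherwise let `M`, `h` be from `S_FrG`. For every `v` choose `P_v`, `σ_v` (`S_Lie`, `S_FrE`); put `b v = g σ_v` if `m ∉ v` and `b v = 0` otherwise; `IsArt p K g m b` by `S_FrU` (first part). Let `S` be the finite set of the primes which contain `m` (`Ideal.finite_factors` for `span {m}`, or `S_R3V` (3));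
R3A gives the hypothesis of R3X, so there is a class character `a` with `a v = b v` for `v ∉ S`, and `IsArt p K g m a`. -/
def S_R3F : Prop := S_Ine → S_FrG → S_Lie → S_FrE → S_FrU → S_R3A → S_R3X → S_R3

end Pool.Agent.FW
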