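import Pool.Agent.Lib.FW.RDefs

/-!
# FW, stage 2, part R5: from R1, R2, R3, R4 to reciprocity

Every `S_...` is a statement with a complete proof in its docstring, to be proved in its own module;
other statements are used only if they are named as hypotheses. All fields are number fields inside
`Om`; `Nat.card (𝓞 K ⧸ v.asIdeal)` is the norm of `v`.
-/

open scoped Pointwise nonZeroDivisors

noncomputable section

namespace Pool.Agent.FW

open Pool.Agent.MuZ NumberField IsDedekindDomain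

/-- (60 lines) **Primes above and below.** PROOF. (1) `ZZ` is integral over `𝓞 K` (via `iO K`, injective), so
there is a prime `P` of `ZZ` with `P.comap (iO K) = v.asIdeal` (`Ideal.exists_ideal_over_prime_of_isIntegral`
or similar), and `P ≠ ⊥` since `v.asIdeal ≠ ⊥`. (2) `P.comap (iO K)` is prime; it is not `⊥`: `0 ≠ y ∈ P`
is integral over `ℤ`, and a nonzero integer (the constant coefficient of its minimal polynomial, or the
norm) is in `P`. (3) for `K ≤ E` the residue field of `v = P ∩ K` embeds into the one of `w = P ∩ E`, both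
are finite fields, so the cardinality of the second is a power of the first (`f ≠ 0`). -/
def S_Lie : Prop :=
  (∀ (K : IntermediateField ℚ Om) [NumberField K] (v : HeightOneSpectrum (𝓞 K)),
    ∃ P : Ideal ZZ, Ab K P v) ∧
  (∀ (K : IntermediateField ℚ Om) [NumberField K] (P : Ideal ZZ), P.IsPrime → P ≠ ⊥ →
    ∃ v : HeightOneSpectrum (𝓞 K), Ab K P v) ∧
  ∀ (K E : IntermediateField ℚ Om) [NumberField K] [NumberField E], K ≤ E →
    ∀ (P : Ideal ZZ) (v : HeightOneSpectrum (𝓞 K)) (w : HeightOneSpectrum (𝓞 E)),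
      Ab K P v → Ab E P w →
      ∃ f : ℕ, f ≠ 0 ∧ Nat.card (𝓞 E ⧸ w.asIdeal) = Nat.card (𝓞 K ⧸ v.asIdeal) ^ f

/-- (200 lines) **Frobenius elements exist.** PROOF. Let `H = K.fixingSubgroup`, a profinite group acting
continuously on the discrete ring `ZZ` with invariants `iO K (𝓞 K)`. `k = 𝓞 K ⧸ P.comap (iO K)` is a finite
field with `q` elements, `ZZ ⧸ P` a field algebraic over `k`, so `x ↦ x ^ q` is an automorphism of `ZZ ⧸ P`
over `k` (injective; surjective because every element lies in a finite subfield). By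
`Ideal.Quotient.stabilizerHom_surjective_of_profinite` there is `σ ∈ H` with `σ x - x ^ q ∈ P` for all `x`.
See `Pool/Agent/Lib/MuZ/Frob.lean` (the case `K = ℚ`) and `Pool/Agent/Lib/FW/G/Ine.lean`. -/
def S_FrE : Prop :=
  ∀ (K : IntermediateField ℚ Om) [NumberField K] (P : Ideal ZZ), P.IsPrime → P ≠ ⊥ →
    ∃ σ : Gal(Om/ℚ), IsFr K P σ

/-- (150 lines) **Frobenius elements and unramified characters.** PROOF. Let `σ` be a Frobenius element at `P`
over `K`, `q = Nat.card (𝓞 K ⧸ ..)`, `q > 0`. `σ` fixes `P` (`σ x ∈ P` iff `x ^ q ∈ P` iff `x ∈ P`), and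
`σ ^ f x - x ^ q ^ f ∈ P`. (1) Let `E ≥ K`, `τ` a Frobenius element at `P` over `E`, with norm `q ^ f`. Then
`τ x ≡ x ^ q ^ f ≡ σ ^ f x mod P` for all `x`, so `τ⁻¹ σ ^ f` is in `P.inertia` and in `K.fixingSubgroup`, and
`g τ = f g σ`. (2) `P'`, `P` above the same `v`: there is `ρ ∈ K.fixingSubgroup` with `P' = ρ • P`
(`Algebra.IsInvariant.exists_smul_of_under_eq_of_profinite`); `ρ σ ρ⁻¹` is a Frobenius element at `P'`, so by
(1) with `E = K`, `f = 1`, `g σ' = g (ρ σ ρ⁻¹) = g σ`. -/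
def S_FrU : Prop :=
  ∀ (p : ℕ) [Fact p.Prime] (K : IntermediateField ℚ Om) [NumberField K],
    ∀ g ∈ VV p Inr K.fixingSubgroup,
    (∀ (v : HeightOneSpectrum (𝓞 K)) (P P' : Ideal ZZ) (σ σ' : Gal(Om/ℚ)), Ab K P v → Ab K P' v →
      IsFr K P σ → IsFr K P' σ' → g σ = g σ') ∧
    ∀ (E : IntermediateField ℚ Om) [NumberField E], K ≤ E →
      ∀ (P : Ideal ZZ) (v : HeightOneSpectrum (𝓞 K)) (w : HeightOneSpectrum (𝓞 E))
        (σ τ : Gal(Om/ℚ)) (f : ℕ), Ab K P v → Ab E P w → IsFr K P σ → IsFr E P τ →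
        Nat.card (𝓞 E ⧸ w.asIdeal) = Nat.card (𝓞 K ⧸ v.asIdeal) ^ f → g τ = (f : ZMod p) * g σ

/-- (200 lines) **Base change of class characters, abstract.** `K ⊆ E` number fields. PROOF. Put
`b w = f(w) a(v)`, `v` the prime of `K` below `w`, `f(w)` the inertia degree (the `f` of the statement is it:
`N w = N v ^ f(w)` and `N v ≥ 2`). `b` is a class character: by additivity of the valuations it is enough to
treat `x = y`, `0 ≠ y ∈ 𝓞 E`. The relative norm of ideals is multiplicative, `relNorm (w) = v ^ f(w)`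
(`Ideal.relNorm_eq_pow_of_isMaximal` or similar in `Mathlib/RingTheory/Ideal/Norm/RelNorm.lean`) and
`relNorm (y) = (N_{E/K} y)` (`Ideal.relNorm_singleton`), so for every `v`:
`v(N y) = ∑ over w | v of f(w) w(y)`. So `∑ over w of w(y) f(w) a(v(w)) = ∑ over v of v(N y) a(v) = 0`. -/
def S_NmA : Prop :=
  ∀ (p : ℕ) [Fact p.Prime] (K E : Type) [Field K] [NumberField K] [Field E] [NumberField E]
    [Algebra K E] (a : HeightOneSpectrum (𝓞 K) → ZMod p), ClCh p K a →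
    ∃ b : HeightOneSpectrum (𝓞 E) → ZMod p, ClCh p E b ∧
      ∀ (v : HeightOneSpectrum (𝓞 K)) (w : HeightOneSpectrum (𝓞 E)) (f : ℕ),
        w.asIdeal.comap (algebraMap (𝓞 K) (𝓞 E)) = v.asIdeal →
        Nat.card (𝓞 E ⧸ w.asIdeal) = Nat.card (𝓞 K ⧸ v.asIdeal) ^ f → b w = (f : ZMod p) * a v

/-- (60 lines) **Base change of class characters, inside `Om`.** PROOF. `S_NmA` for the algebra structure of
`E` over `K` given by the inclusion (`IntermediateField.inclusion`, `(IntermediateField.inclusion h).toAlgebra`).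
If `Ab K P v` and `Ab E P w` then the comap of `w` to `𝓞 K` is `v`: both are the preimage of `P`. -/
def S_NmC : Prop :=
  S_NmA → ∀ (p : ℕ) [Fact p.Prime] (K E : IntermediateField ℚ Om) [NumberField K] [NumberField E],
    K ≤ E → ∀ a : HeightOneSpectrum (𝓞 K) → ZMod p, ClCh p K a →
    ∃ b : HeightOneSpectrum (𝓞 E) → ZMod p, ClCh p E b ∧
      ∀ (P : Ideal ZZ) (v : HeightOneSpectrum (𝓞 K)) (w : HeightOneSpectrum (𝓞 E)) (f : ℕ),
        Ab K P v → Ab E P w → Nat.card (𝓞 E ⧸ w.asIdeal) = Nat.card (𝓞 K ⧸ v.asIdeal) ^ f →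
        b w = (f : ZMod p) * a v

/-- (100 lines) **A class character which vanishes outside `M` is zero.** PROOF. Let `v` divide `M`. The set
of the primes dividing `M ≠ 0` is finite. By the Chinese remainder theorem there is `x ∈ 𝓞 K` with
`x ∈ v`, `x ∉ v ^ 2` and `x ∉ v'` for the other `v'` dividing `M` (choose `t ∈ v`, `t ∉ v ^ 2`, and `x ≡ t mod v ^ 2`,
`x ≡ 1 mod v'`). Then `v(x) = 1`, `v'(x) = 0`, and `0 = ∑ w(x) a(w) = a(v)` because all other terms vanish. -/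
def S_NZ : Prop :=
  ∀ (p : ℕ) [Fact p.Prime] (K : Type) [Field K] [NumberField K] (M : ℕ), M ≠ 0 →
    ∀ a : HeightOneSpectrum (𝓞 K) → ZMod p, ClCh p K a →
      (∀ v : HeightOneSpectrum (𝓞 K), (M : 𝓞 K) ∉ v.asIdeal → a v = 0) → a = 0

/-- (100 lines) **Primes which do not split.** Uses `S_R1`, `S_NZ`, `S_Lie`, `S_FrE`. `E ≥ K` and `g` is not
zero on `Gal(Ω/E)`. PROOF. Let `h = g` on `E.fixingSubgroup`, `0` outside; `h ∈ VV p Inr E.fixingSubgroup`
(`E.fixingSubgroup ≤ K.fixingSubgroup`), `h ≠ 0`. `S_R1` gives a class character `a ≠ 0` of `E` which vanishes at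
the primes with `Spl p E h`. By `S_NZ` there is `w`, not dividing `M`, with `a w ≠ 0`. Choose `P` above `w`
(`S_Lie`) and `τ` Frobenius (`S_FrE`); `h τ ≠ 0` since otherwise `Spl p E h w`; `g τ = h τ`. -/
def S_NS : Prop :=
  S_R1 → S_NZ → S_Lie → S_FrE → ∀ (p : ℕ) [Fact p.Prime], p ≠ 2 →
    ∀ (K E : IntermediateField ℚ Om) [NumberField K] [NumberField E], K ≤ E →
    ∀ g ∈ VV p Inr K.fixingSubgroup, (∃ σ ∈ E.fixingSubgroup, g σ ≠ 0) → ∀ M : ℕ, M ≠ 0 →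
      ∃ (P : Ideal ZZ) (w : HeightOneSpectrum (𝓞 E)) (τ : Gal(Om/ℚ)), Ab E P w ∧ IsFr E P τ ∧
        (M : 𝓞 E) ∉ w.asIdeal ∧ g τ ≠ 0

/-- (200 lines) **Comparison over `E`.** `ψ` is a class character of `K` which vanishes at the primes which split
for `g`; over `E ≥ K` the field of `g` is in `E(μ_m)`. Then `ψ` over `E` is a multiple of `g`(Frobenius).
PROOF. Let `h = g` on `E.fixingSubgroup`, `0` outside, in `VV p Inr E.fixingSubgroup`, `h ≠ 0`. Let `ψ'` be the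
base change of `ψ` to `E` (`hNm`), `b` the class character from `S_R3` for `E`, `h`, `m`. Both vanish at all
`w ∤ m` with `Spl p E h w`: `b w = h τ = 0` (for `P`, `τ` from `Spl`); `ψ' w = f ψ v` with `v`, `f` from `S_Lie`,
and `0 = g τ = f g σ` for a Frobenius `σ` at `P` over `K` (`S_FrE`, `S_FrU`), so `(f : ZMod p) = 0` or `g σ = 0`, in
which case `Spl p K g v` and `ψ v = 0`; so `ψ' w = 0`. `S_R2` (for `E`, `h`, `M = m`): `c ψ' + d b = 0`,
`(c, d) ≠ 0`. `b ≠ 0` by `hNS` (there is `w ∤ m` with `h τ ≠ 0`). If `c = 0` then `d ≠ 0` and `b = 0`, a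
contradiction. So `c ≠ 0` and `ψ' = c' b`, `c' = - d / c`. For `P`, `v`, `w`, `τ`, `f` as in the statement
`f ψ v = ψ' w = c' b w = c' g τ`. -/
def S_R5a : Prop :=
  S_R2 → S_R3 → S_Lie → S_FrE → S_FrU →
  (∀ (p : ℕ) [Fact p.Prime] (K E : IntermediateField ℚ Om) [NumberField K] [NumberField E],
    K ≤ E → ∀ a : HeightOneSpectrum (𝓞 K) → ZMod p, ClCh p K a →
    ∃ b : HeightOneSpectrum (𝓞 E) → ZMod p, ClCh p E b ∧
      ∀ (P : Ideal ZZ) (v : HeightOneSpectrum (𝓞 K)) (w : HeightOneSpectrum (𝓞 E)) (f : ℕ),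
        Ab K P v → Ab E P w → Nat.card (𝓞 E ⧸ w.asIdeal) = Nat.card (𝓞 K ⧸ v.asIdeal) ^ f →
        b w = (f : ZMod p) * a v) →
  (∀ (p : ℕ) [Fact p.Prime], p ≠ 2 →
    ∀ (K E : IntermediateField ℚ Om) [NumberField K] [NumberField E], K ≤ E →
    ∀ g ∈ VV p Inr K.fixingSubgroup, (∃ σ ∈ E.fixingSubgroup, g σ ≠ 0) → ∀ M : ℕ, M ≠ 0 →
      ∃ (P : Ideal ZZ) (w : HeightOneSpectrum (𝓞 E)) (τ : Gal(Om/ℚ)), Ab E P w ∧ IsFr E P τ ∧
        (M : 𝓞 E) ∉ w.asIdeal ∧ g τ ≠ 0) →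
  ∀ (p : ℕ) [Fact p.Prime], p ≠ 2 →
    ∀ (K E : IntermediateField ℚ Om) [NumberField K] [NumberField E], K ≤ E →
    ∀ g ∈ VV p Inr K.fixingSubgroup, (∃ σ ∈ E.fixingSubgroup, g σ ≠ 0) →
    ∀ ψ : HeightOneSpectrum (𝓞 K) → ZMod p, ClCh p K ψ → (∀ v, Spl p K g v → ψ v = 0) →
    ∀ m : ℕ, 0 < m →
      (∀ σ ∈ E.fixingSubgroup, (∀ z : Om, z ^ m = 1 → σ z = z) → g σ = 0) →
      ∃ c : ZMod p, ∀ (P : Ideal ZZ) (v : HeightOneSpectrum (𝓞 K)) (w : HeightOneSpectrum (𝓞 E))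
        (τ : Gal(Om/ℚ)) (f : ℕ), Ab K P v → Ab E P w → IsFr E P τ → (m : 𝓞 E) ∉ w.asIdeal →
        Nat.card (𝓞 E ⧸ w.asIdeal) = Nat.card (𝓞 K ⧸ v.asIdeal) ^ f →
        (f : ZMod p) * ψ v = c * g τ

/-- (250 lines) **Reciprocity.** `hNS` is the conclusion of `S_NS`, `hA` the one of `S_R5a`.
PROOF. Let `ψ` be from `S_R1`, `B` from `S_R4` for `K`, `g`. CLAIM: there is `c` with `ψ v = c g σ` for all `v`, `P`
above `v` and `σ` Frobenius at `P` over `K`. Then `c ≠ 0` since `ψ ≠ 0` (some `ψ v ≠ 0`, `S_Lie`, `S_FrE`), and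
`a = c⁻¹ ψ` is a class character, `≠ 0`, and `IsArt p K g 1 a`. PROOF OF THE CLAIM. For a prime `P ≠ ⊥` of `ZZ` and
`M > 0` let `(E, m, t)` be from `S_R4`; `g` is not `0` on `E.fixingSubgroup` (first part of `S_R4` for `m`, `t`:
there is `σ` with `g σ = 1` acting by `t` on `μ_m`, it fixes `E`). Let `c(E)` be from `hA` (with this `m`). STEP 1:
`ψ v = c(E) g σ` for `v = P ∩ K`, `σ` the Frobenius element at `P` over `K` which fixes `E`: with `q = N v`, for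
`x ∈ 𝓞 E` `x = σ x ≡ x ^ q mod P`, so the residue field of `w = P ∩ E` has at most `q` elements, and it contains
the one of `v`, so `N w = N v = N v ^ 1`, and `σ` is a Frobenius element at `P` over `E`; `m ∉ P`, so
`(m : 𝓞 E) ∉ w`; apply `hA` with `f = 1`. By `S_FrU` the equation holds for all Frobenius elements at primes
above `v`. STEP 2: `c(E₁) = c(E₂)` if `(E₂, m₂, t₂)` was chosen with `M` a multiple of `m₁` (`m₁`, `m₂` coprime):
let `E = E₁ ⊔ E₂`, `m = m₁ m₂`, `t ≡ t₁ mod m₁`, `t ≡ t₂ mod m₂`; there is `σ` with `g σ = 1` acting by `t` on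
`μ_m`, so it fixes `E₁` and `E₂` and `E`. By `hNS` (`M = m`) there are `P'`, `w`, `τ` with `w ∤ m`, `g τ ≠ 0`,
over `E`. Let `v = P' ∩ K`, `w_i = P' ∩ E_i`, `N w = N(w_i) ^ f_i`, `N(w_i) = N v ^ e_i`, `τ_i` Frobenius at `P'` over
`E_i`: `hA`: `e_i ψ v = c(E_i) g τ_i` (`w_i ∤ m_i`), and `g τ = f_i g τ_i` (`S_FrU` with `K` replaced by `E_i` and
`g` cut to `E_i.fixingSubgroup`); so `f_i e_i ψ v = c(E_i) g τ`; `N v ^ (f_1 e_1) = N v ^ (f_2 e_2)` gives
`f_1 e_1 = f_2 e_2`, hence `c(E₁) g τ = c(E₂) g τ`. STEP 3: fix one `P₁` and `(E₁, m₁, t₁)`; for any `v` take `P`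
above it and `(E₂, m₂, t₂)` with `M = m₁`: `ψ v = c(E₂) g σ = c(E₁) g σ`. -/
def S_R5 : Prop :=
  S_R1 → S_R4 → S_Lie → S_FrE → S_FrU →
  (∀ (p : ℕ) [Fact p.Prime], p ≠ 2 →
    ∀ (K E : IntermediateField ℚ Om) [NumberField K] [NumberField E], K ≤ E →
    ∀ g ∈ VV p Inr K.fixingSubgroup, (∃ σ ∈ E.fixingSubgroup, g σ ≠ 0) → ∀ M : ℕ, M ≠ 0 →
      ∃ (P : Ideal ZZ) (w : HeightOneSpectrum (𝓞 E)) (τ : Gal(Om/ℚ)), Ab E P w ∧ IsFr E P τ ∧
        (M : 𝓞 E) ∉ w.asIdeal ∧ g τ ≠ 0) →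
  (∀ (p : ℕ) [Fact p.Prime], p ≠ 2 →
    ∀ (K E : IntermediateField ℚ Om) [NumberField K] [NumberField E], K ≤ E →
    ∀ g ∈ VV p Inr K.fixingSubgroup, (∃ σ ∈ E.fixingSubgroup, g σ ≠ 0) →
    ∀ ψ : HeightOneSpectrum (𝓞 K) → ZMod p, ClCh p K ψ → (∀ v, Spl p K g v → ψ v = 0) →
    ∀ m : ℕ, 0 < m →
      (∀ σ ∈ E.fixingSubgroup, (∀ z : Om, z ^ m = 1 → σ z = z) → g σ = 0) →
      ∃ c : ZMod p, ∀ (P : Ideal ZZ) (v : HeightOneSpectrum (𝓞 K)) (w : HeightOneSpectrum (𝓞 E))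
        (τ : Gal(Om/ℚ)) (f : ℕ), Ab K P v → Ab E P w → IsFr E P τ → (m : 𝓞 E) ∉ w.asIdeal →
        Nat.card (𝓞 E ⧸ w.asIdeal) = Nat.card (𝓞 K ⧸ v.asIdeal) ^ f →
        (f : ZMod p) * ψ v = c * g τ) →
  S_REC

end Pool.Agent.FW
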